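import Pool.Agent.Lib.Pa7c826h.SumW
import Pool.Agent.Lib.Pa7c826k.BBf

/-!
Counting facts about the sets `BB Z` and `QQ Z` of a skeleton.
-/

namespace Pool.Agent.Lib.Pa7c826h

open Finset Pool.Agent.Lib.Pa7c826 Pool.Agent.Lib.Pa7c826t Pool.Agent.Lib.Pa7c826e
  Pool.Agent.Lib.Pa7c826k

variable {n a d D : ℕ} {adj : ℕ → ℕ → Bool} {sd : Bool} {Z : Finset ℕ}

namespace BBhAux

open Pool.Agent.Lib.Pa7c826k.BBfAux

theorem dblH (hh : GB n a adj) (X Y : Finset ℕ) :
    ∑ u ∈ X, dg adj Y u = ∑ v ∈ Y, dg adj X v := by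
  have h := sum_card_bipartiteAbove_eq_sum_card_bipartiteBelow (s := X) (t := Y)
    (fun u v => adj u v = true)
  have e1 : ∑ u ∈ X, dg adj Y u =
      ∑ u ∈ X, (Y.bipartiteAbove (fun u v => adj u v = true) u).card := by
    refine sum_congr rfl fun u _ => ?_
    rfl
  have e2 : ∑ v ∈ Y, dg adj X v =
      ∑ v ∈ Y, (X.bipartiteBelow (fun u v => adj u v = true) v).card := by
    refine sum_congr rfl fun v _ => ?_
    unfold dg bipartiteBelow
    congr 1
    refine filter_congr fun u _ => ?_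
    rw [hh.sym v u]
  rw [e1, e2, h]

theorem card_nb1H {u : ℕ} : (NB n adj {u}).card = dg adj (range n) u := by
  unfold dg
  congr 1
  ext v
  rw [mem_nb1, mem_filter]

theorem bb_deg' {u : ℕ} (hu : u ∈ BB n a d adj sd Z) :
    8 * dg adj (QQ n a d adj sd Z) u < d := by
  rw [mem_bb] at hu
  have hb := not_big hu.2.2
  have hs : (QQ n a d adj sd Z).filter (fun v => adj u v = true) ⊆
      NB n adj {u} \ NB n adj (blw Z u) := by
    intro v hv
    rw [mem_filter] at hv
    obtain ⟨hv, hw⟩ := hv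
    unfold QQ at hv
    rw [mem_sdiff] at hv
    rw [mem_sdiff, mem_nb1]
    have hvn : v ∈ range n := by
      have := hv.1
      unfold NB at this
      rw [mem_filter] at this
      exact this.1
    exact ⟨⟨hvn, hw⟩, fun h => hv.2 (nb_sub (blw_sub Z u) h)⟩
  have := card_le_card hs
  unfold nw at hb
  unfold dg
  omega

end BBhAux

open BBhAux

theorem bb_cardH (hh : GD n a d D sd adj) (hZ : Z ⊆ sideS a sd (range n)) :
    7 * (BB n a d adj sd Z).card + 8 * Z.card ≤ 8 * (NB n adj Z).card := by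
  classical
  open Pool.Agent.Lib.Pa7c826k.BBfAux in
  have hdisj : Disjoint Z (BB n a d adj sd Z) := by
    rw [disjoint_left]
    intro u hu hb
    exact (mem_bb.1 hb).2.1 hu
  have h1 : ∀ u ∈ Z, d ≤ dg adj (NB n adj Z) u := by
    intro u hu
    refine (hh.low u (hZ hu)).trans (le_of_eq ?_)
    unfold dg
    congr 1
    ext v
    rw [mem_filter, mem_filter]
    constructor
    · rintro ⟨hv, hw⟩
      refine ⟨?_, hw⟩
      unfold NB
      rw [mem_filter]
      exact ⟨hv, u, hu, hw⟩
    · rintro ⟨hv, hw⟩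
      unfold NB at hv
      rw [mem_filter] at hv
      exact ⟨hv.1, hw⟩
  have h2 : ∀ u ∈ BB n a d adj sd Z, 7 * d ≤ 8 * dg adj (NB n adj Z) u := by
    intro u hu
    rw [Pool.Agent.Lib.Pa7c826k.BBfAux.mem_bb] at hu
    obtain ⟨hus, -, hb⟩ := hu
    have hb' := Pool.Agent.Lib.Pa7c826k.BBfAux.not_big hb
    have hc : (NB n adj {u}).card = dg adj (range n) u := card_nb1H
    have hd := hh.low u hus
    have hs : NB n adj {u} ⊆ (NB n adj {u} \ NB n adj (blw Z u)) ∪
        (NB n adj Z).filter (fun v => adj u v = true) := by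
      intro v hv
      rw [mem_union, mem_sdiff, mem_filter]
      by_cases hvb : v ∈ NB n adj (blw Z u)
      · exact Or.inr ⟨Pool.Agent.Lib.Pa7c826k.BBfAux.nb_sub
          (Pool.Agent.Lib.Pa7c826k.BBfAux.blw_sub Z u) hvb,
          (Pool.Agent.Lib.Pa7c826k.BBfAux.mem_nb1.1 hv).2⟩
      · exact Or.inl ⟨hv, hvb⟩
    have hle := (card_le_card hs).trans (card_union_le _ _)
    rw [hc] at hle
    have hle2 : dg adj (range n) u ≤ nw n adj (blw Z u) u + dg adj (NB n adj Z) u := hle
    omega
  have h3 : ∑ u ∈ Z ∪ BB n a d adj sd Z, dg adj (NB n adj Z) u ≤ (NB n adj Z).card * d := by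
    rw [dblH hh.toGB]
    have : ∀ v ∈ NB n adj Z, dg adj (Z ∪ BB n a d adj sd Z) v ≤ d := by
      intro v hv
      have hvs := nb_sideH hh.toGB hZ hv
      refine le_trans ?_ ((hh.rgt v hvs).trans hh.hDd.le)
      unfold dg
      apply card_le_card
      apply filter_subset_filter
      intro u hu
      rw [mem_union] at hu
      rcases hu with hu | hu
      · exact mem_range.2 (Pool.Agent.Lib.Pa7c826k.BBfAux.side_lt (hZ hu))
      · exact mem_range.2 (Pool.Agent.Lib.Pa7c826k.BBfAux.side_lt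
          (Pool.Agent.Lib.Pa7c826k.BBfAux.mem_bb.1 hu).1)
    refine (sum_le_sum this).trans ?_
    rw [sum_const, smul_eq_mul]
  rw [sum_union hdisj] at h3
  have h1' : Z.card * d ≤ ∑ u ∈ Z, dg adj (NB n adj Z) u := by
    have := sum_le_sum h1
    rwa [sum_const, smul_eq_mul] at this
  have h4 : (BB n a d adj sd Z).card * (7 * d) ≤
      8 * ∑ u ∈ BB n a d adj sd Z, dg adj (NB n adj Z) u := by
    rw [mul_sum]
    have := sum_le_sum h2
    rwa [sum_const, smul_eq_mul] at this
  have h5 : (7 * (BB n a d adj sd Z).card + 8 * Z.card) * d ≤ (8 * (NB n adj Z).card) * d := by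
    nlinarith
  exact Nat.le_of_mul_le_mul_right h5 (lt_of_le_of_lt (Nat.zero_le _) hh.hDd)

theorem bb_degH {u : ℕ} (hu : u ∈ BB n a d adj sd Z) :
    8 * dg adj (QQ n a d adj sd Z) u < d := bb_deg' hu

theorem bb_lightH (hh : GB n a adj) {S : Finset ℕ}
    (hS : S ⊆ BB n a d adj sd Z ∪ QQ n a d adj sd Z) {v : ℕ} (hv : v ∈ S)
    (h : d ≤ 8 * dg adj S v) :
    v ∈ QQ n a d adj sd Z ∧ ∀ u ∈ S, adj v u = true → u ∈ BB n a d adj sd Z := by
  classical
  have hBs : BB n a d adj sd Z ⊆ sideS a sd (range n) :=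
    fun u hu => (Pool.Agent.Lib.Pa7c826k.BBfAux.mem_bb.1 hu).1
  have hQs : QQ n a d adj sd Z ⊆ sideS a (!sd) (range n) := by
    intro u hu
    unfold QQ at hu
    rw [mem_sdiff] at hu
    exact nb_sideH hh hBs hu.1
  have hside : ∀ {s : Bool} {u : ℕ}, u ∈ sideS a s (range n) → decide (u < a) = s := by
    intro s u hu
    unfold sideS at hu
    rw [mem_filter] at hu
    exact hu.2
  have hop : ∀ u w : ℕ, adj u w = true → decide (u < a) = !decide (w < a) := by
    intro u w huw
    have := hh.bip u w huw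
    by_cases h1 : u < a <;> by_cases h2 : w < a <;> simp_all
  have hbq : ∀ u w : ℕ, adj u w = true → u ∈ BB n a d adj sd Z → w ∉ BB n a d adj sd Z := by
    intro u w huw hu hw
    have h1 := hside (hBs hu)
    have h2 := hside (hBs hw)
    have h3 := hop u w huw
    rw [h1, h2] at h3
    cases sd <;> simp at h3
  have hqq : ∀ u w : ℕ, adj u w = true → u ∈ QQ n a d adj sd Z → w ∉ QQ n a d adj sd Z := by
    intro u w huw hu hw
    have h1 := hside (hQs hu)
    have h2 := hside (hQs hw)
    have h3 := hop u w huw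
    rw [h1, h2] at h3
    cases sd <;> simp at h3
  have hvQ : v ∈ QQ n a d adj sd Z := by
    rcases mem_union.1 (hS hv) with hb | hq
    · exfalso
      have h1 := bb_degH hb
      have h2 : dg adj S v ≤ dg adj (QQ n a d adj sd Z) v := by
        unfold dg
        apply card_le_card
        intro w hw
        rw [mem_filter] at hw ⊢
        refine ⟨?_, hw.2⟩
        rcases mem_union.1 (hS hw.1) with hwb | hwq
        · exact absurd hwb (hbq v w hw.2 hb)
        · exact hwq
      omega
    · exact hq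
  refine ⟨hvQ, fun u hu huv => ?_⟩
  rcases mem_union.1 (hS hu) with hb | hq
  · exact hb
  · exact absurd hq (hqq v u huv hvQ)

theorem qq_cardH : 8 * (QQ n a d adj sd Z).card ≤ d * (BB n a d adj sd Z).card := by
  classical
  have h1 : QQ n a d adj sd Z ⊆ (BB n a d adj sd Z).biUnion
      (fun u => (QQ n a d adj sd Z).filter (fun v => adj u v = true)) := by
    intro v hv
    have hv' := hv
    unfold QQ at hv'
    rw [mem_sdiff] at hv'
    have h2 := hv'.1
    unfold NB at h2
    rw [mem_filter] at h2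
    obtain ⟨-, u, hu, huv⟩ := h2
    rw [mem_biUnion]
    exact ⟨u, hu, mem_filter.2 ⟨hv, huv⟩⟩
  have h2 := (card_le_card h1).trans card_biUnion_le
  have h3 : ∑ u ∈ BB n a d adj sd Z,
      8 * ((QQ n a d adj sd Z).filter (fun v => adj u v = true)).card ≤
      ∑ _u ∈ BB n a d adj sd Z, d := by
    refine sum_le_sum fun u hu => ?_
    have := bb_degH hu
    unfold dg at this
    omega
  rw [← mul_sum, sum_const, smul_eq_mul] at h3
  rw [mul_comm d]
  omega

end Pool.Agent.Lib.Pa7c826h
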