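import Pool.Agent.Lib.Pa7c826h.BCnt

/-!
Chains of blocks: the transfer recursion.
-/

namespace Pool.Agent.Lib.Pa7c826h

open Pool.Agent.Lib.Pa7c826 Pool.Agent.Lib.Pa7c826g

theorem ite_cong {p q : Prop} {dp : Decidable p} {dq : Decidable q} {x y : ℕ} (h : p ↔ q) :
    (@ite ℕ p dp x y) = (@ite ℕ q dq x y) := by
  by_cases hq : q
  · rw [if_pos hq, if_pos (h.2 hq)]
  · rw [if_neg hq, if_neg (fun h' => hq (h.1 h'))]

/-- Pairs of weights of a chain with `j` levels: top ports free, top ports blocked. -/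
def SS (P Q A c : ℕ) (m : ℕ → ℕ) : ℕ → ℕ × ℕ
  | 0 => (1, 1)
  | j + 1 => (P ^ c * (SS P Q A c m j).1 + Q ^ A * P ^ (c - A) * (SS P Q A c m j).2,
      Q ^ (A + m j) * P ^ (c - (A + m j)) * ((SS P Q A c m j).1 + (SS P Q A c m j).2))

theorem prod_thr {k c : ℕ} (h : k ≤ c) (P Q : ℕ) :
    ∏ q ∈ Finset.range c, (if q < k then Q else P) = Q ^ k * P ^ (c - k) := by
  rw [Finset.prod_ite, Finset.prod_const, Finset.prod_const]
  have h1 : (Finset.range c).filter (fun q => q < k) = Finset.range k := by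
    ext q
    simp only [Finset.mem_filter, Finset.mem_range]
    omega
  have h2 : ((Finset.range c).filter (fun q => ¬ q < k)).card = c - k := by
    rw [Finset.filter_not, h1, Finset.card_sdiff_of_subset (Finset.range_subset_range.2 h),
      Finset.card_range, Finset.card_range]
  rw [h1, h2, Finset.card_range]

open Classical in
/-- the weight of one level -/
noncomputable def wl (P Q A c m : ℕ) (h x : Prop) : ℕ :=
  ∏ q ∈ Finset.range c, (if (q < A ∧ x) ∨ (q < A + m ∧ h) then Q else P)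

theorem wl_true {P Q A c m : ℕ} (hm : A + m ≤ c) (x : Prop) :
    wl P Q A c m True x = Q ^ (A + m) * P ^ (c - (A + m)) := by
  unfold wl
  rw [← prod_thr hm]
  refine Finset.prod_congr rfl fun q _ => ?_
  by_cases h : q < A + m
  · rw [if_pos (Or.inr ⟨h, trivial⟩), if_pos h]
  · rw [if_neg h, if_neg]
    rintro (⟨h1, _⟩ | ⟨h1, _⟩)
    · omega
    · exact h h1

theorem wl_false_true {P Q A c m : ℕ} (hA : A ≤ c) :
    wl P Q A c m False True = Q ^ A * P ^ (c - A) := by
  unfold wl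
  rw [← prod_thr hA]
  refine Finset.prod_congr rfl fun q _ => ?_
  by_cases h : q < A
  · rw [if_pos (Or.inl ⟨h, trivial⟩), if_pos h]
  · rw [if_neg h, if_neg]
    rintro (⟨h1, _⟩ | ⟨_, h1⟩)
    · exact h h1
    · exact h1

theorem wl_false_false {P Q A c m : ℕ} : wl P Q A c m False False = P ^ c := by
  unfold wl
  simp

open Classical in
/-- the weight of a chain; `h`: the top ports are blocked -/
noncomputable def chS (P Q A c : ℕ) (m : ℕ → ℕ) (N : ℕ) (h : Prop) : ℕ :=
  ∑ X ∈ (Finset.range N).powerset, ∏ j ∈ Finset.range N, ∏ q ∈ Finset.range c,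
    (if (q < A ∧ j ∈ X) ∨ (q < A + m j ∧ (j + 1 ∈ X ∨ (j + 1 = N ∧ h))) then Q else P)

open Classical in
theorem chS_succ (P Q A c : ℕ) (m : ℕ → ℕ) (N : ℕ) (h : Prop) :
    chS P Q A c m (N + 1) h =
      wl P Q A c (m N) h False * chS P Q A c m N False +
        wl P Q A c (m N) h True * chS P Q A c m N True := by
  unfold chS
  rw [Finset.range_add_one, Finset.sum_powerset_insert (by simp)]
  congr 1
  · rw [Finset.mul_sum]
    refine Finset.sum_congr rfl fun X hX => ?_
    have hX' : X ⊆ Finset.range N := Finset.mem_powerset.1 hX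
    have hN : N ∉ X := fun h1 => by simpa using hX' h1
    have hN1 : N + 1 ∉ X := fun h1 => by simpa using hX' h1
    rw [Finset.prod_insert (by simp)]
    congr 1
    · unfold wl
      refine Finset.prod_congr rfl fun q _ => ?_
      simp [hN, hN1]
    · refine Finset.prod_congr rfl fun j hj => Finset.prod_congr rfl fun q _ => ?_
      have hj' : j < N := Finset.mem_range.1 hj
      have h1 : ¬ (j + 1 = N + 1) := by omega
      refine ite_cong ?_
      simp only [h1, false_and, or_false, and_false]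
  · rw [Finset.mul_sum]
    refine Finset.sum_congr rfl fun X hX => ?_
    have hX' : X ⊆ Finset.range N := Finset.mem_powerset.1 hX
    have hN1 : N + 1 ∉ X := fun h1 => by simpa using hX' h1
    rw [Finset.prod_insert (by simp)]
    congr 1
    · unfold wl
      refine Finset.prod_congr rfl fun q _ => ?_
      simp [hN1]
    · refine Finset.prod_congr rfl fun j hj => Finset.prod_congr rfl fun q _ => ?_
      have hj' : j < N := Finset.mem_range.1 hj
      have h1 : ¬ (j + 1 = N + 1) := by omega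
      have h2 : ¬ (j = N) := by omega
      have h3 : (q < A ∧ j ∈ insert N X ∨
          q < A + m j ∧ (j + 1 ∈ insert N X ∨ j + 1 = N + 1 ∧ h)) ↔
          (q < A ∧ j ∈ X ∨ q < A + m j ∧ (j + 1 ∈ X ∨ j + 1 = N ∧ True)) := by
        simp only [Finset.mem_insert, h1, h2, false_or, false_and, or_false, and_true]
        tauto
      exact ite_cong h3

theorem chS_eq {P Q A c : ℕ} {m : ℕ → ℕ} (hm : ∀ j, A + m j ≤ c) (N : ℕ) :
    chS P Q A c m N False = (SS P Q A c m N).1 ∧ chS P Q A c m N True = (SS P Q A c m N).2 := by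
  have hA : A ≤ c := (Nat.le_add_right _ _).trans (hm 0)
  induction N with
  | zero =>
    unfold chS SS
    simp
  | succ N ih =>
    obtain ⟨h1, h2⟩ := ih
    rw [chS_succ, chS_succ, h1, h2, wl_false_false, wl_false_true hA, wl_true (hm N),
      wl_true (hm N)]
    refine ⟨rfl, ?_⟩
    rw [← mul_add]
    rfl

/-- Which ports a connector is joined to: the connector `(u, x)` of the level `x` of the chain of
`u` is joined to the first `A` blocks of its level and to the first `A + m (x - 1)` blocks of the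
level below; the connector `v` to the first `A + m (N - 1)` blocks of the top level of the chains
of all its neighbours. -/
def incRel {a b N c : ℕ} (A : ℕ) (m : ℕ → ℕ) (E : Fin a → Fin b → Prop) :
    (Fin a × Fin N) × Fin c → (Fin a × Fin N) ⊕ Fin b → Prop
  | β, .inl x => β.1.1 = x.1 ∧ (((x.2 : ℕ) = β.1.2 ∧ (β.2 : ℕ) < A) ∨
      ((x.2 : ℕ) = β.1.2 + 1 ∧ (β.2 : ℕ) < A + m β.1.2))
  | β, .inr v => ((β.1.2 : ℕ) + 1 = N ∧ (β.2 : ℕ) < A + m β.1.2) ∧ E β.1.1 v

theorem sum_finset_fin (N : ℕ) (g : Finset ℕ → ℕ) :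
    ∑ X : Finset (Fin N), g (X.map Fin.valEmbedding) = ∑ X ∈ (Finset.range N).powerset, g X := by
  refine Finset.sum_bij (fun X _ => X.map Fin.valEmbedding) ?_ ?_ ?_ (fun _ _ => rfl)
  · intro X _
    rw [Finset.mem_powerset]
    intro j hj
    rw [Finset.mem_map] at hj
    obtain ⟨i, _, rfl⟩ := hj
    simp
  · intro X _ X' _ h
    exact Finset.map_injective _ h
  · intro X hX
    rw [Finset.mem_powerset] at hX
    refine ⟨Finset.univ.filter (fun i : Fin N => (i : ℕ) ∈ X), Finset.mem_univ _, ?_⟩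
    ext j
    simp only [Finset.mem_map, Finset.mem_filter, Finset.mem_univ, true_and,
      Fin.valEmbedding_apply]
    constructor
    · rintro ⟨i, hi, rfl⟩
      exact hi
    · intro hj
      exact ⟨⟨j, by simpa using hX hj⟩, hj, rfl⟩

open Classical in
theorem chain_total {a b N c P Q A : ℕ} {m : ℕ → ℕ} (hm : ∀ j, A + m j ≤ c)
    (E : Fin a → Fin b → Prop) :
    ∑ Y : Finset ((Fin a × Fin N) ⊕ Fin b), ∏ β : (Fin a × Fin N) × Fin c,
        (if ∃ v ∈ Y, incRel A m E β v then Q else P) =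
      ∑ Y : Finset (Fin b), ∏ u : Fin a,
        (if ∃ v ∈ Y, E u v then (SS P Q A c m N).2 else (SS P Q A c m N).1) := by
  rw [← Equiv.sum_comp (rightEquiv (Fin a) (Fin b) N), Fintype.sum_prod_type]
  refine Finset.sum_congr rfl fun Y _ => ?_
  have h1 : ∀ f : Fin a → Finset (Fin N), ∏ β : (Fin a × Fin N) × Fin c,
      (if ∃ v ∈ rightEquiv (Fin a) (Fin b) N (Y, f), incRel A m E β v then Q else P) =
      ∏ u : Fin a, ∏ j ∈ Finset.range N, ∏ q ∈ Finset.range c,
        (if (q < A ∧ j ∈ (f u).map Fin.valEmbedding) ∨ (q < A + m j ∧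
          (j + 1 ∈ (f u).map Fin.valEmbedding ∨ (j + 1 = N ∧ ∃ v ∈ Y, E u v)))
          then Q else P) := by
    intro f
    rw [Fintype.prod_prod_type, Fintype.prod_prod_type]
    refine Finset.prod_congr rfl fun u _ => ?_
    rw [← Fin.prod_univ_eq_prod_range (fun j => ∏ q ∈ Finset.range c,
        (if (q < A ∧ j ∈ (f u).map Fin.valEmbedding) ∨ (q < A + m j ∧
          (j + 1 ∈ (f u).map Fin.valEmbedding ∨ (j + 1 = N ∧ ∃ v ∈ Y, E u v)))
          then Q else P)) N]
    refine Finset.prod_congr rfl fun j _ => ?_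
    rw [← Fin.prod_univ_eq_prod_range (fun q =>
        (if (q < A ∧ (j : ℕ) ∈ (f u).map Fin.valEmbedding) ∨ (q < A + m j ∧
          ((j : ℕ) + 1 ∈ (f u).map Fin.valEmbedding ∨ ((j : ℕ) + 1 = N ∧ ∃ v ∈ Y, E u v)))
          then Q else P)) c]
    refine Finset.prod_congr rfl fun q _ => ?_
    refine if_congr ?_ rfl rfl
    simp only [rightEquiv, Equiv.coe_fn_mk, Finset.mem_filter, Finset.mem_univ, true_and,
      Sum.exists, Sum.elim_inl, Sum.elim_inr, incRel, Prod.exists, Finset.mem_map,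
      Fin.valEmbedding_apply]
    constructor
    · rintro (⟨u', j', h1, rfl, (⟨h2, h3⟩ | ⟨h2, h3⟩)⟩ | ⟨v, hv, ⟨h1, h2⟩, h3⟩)
      · exact Or.inl ⟨h3, j', h1, h2⟩
      · exact Or.inr ⟨h3, Or.inl ⟨j', h1, h2⟩⟩
      · exact Or.inr ⟨h2, Or.inr ⟨h1, v, hv, h3⟩⟩
    · rintro (⟨h3, j', h1, h2⟩ | ⟨h3, (⟨j', h1, h2⟩ | ⟨h1, v, hv, h2⟩)⟩)
      · exact Or.inl ⟨u, j', h1, rfl, Or.inl ⟨h2, h3⟩⟩
      · exact Or.inl ⟨u, j', h1, rfl, Or.inr ⟨h2, h3⟩⟩
      · exact Or.inr ⟨v, hv, ⟨h1, h3⟩, h2⟩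
  rw [Finset.sum_congr rfl fun f _ => h1 f]
  have h2 := Finset.prod_univ_sum (fun _ : Fin a => (Finset.univ : Finset (Finset (Fin N))))
    (fun u X => ∏ j ∈ Finset.range N, ∏ q ∈ Finset.range c,
        (if (q < A ∧ j ∈ X.map Fin.valEmbedding) ∨ (q < A + m j ∧
          (j + 1 ∈ X.map Fin.valEmbedding ∨ (j + 1 = N ∧ ∃ v ∈ Y, E u v)))
          then Q else P))
  rw [Fintype.piFinset_univ] at h2
  rw [← h2]
  refine Finset.prod_congr rfl fun u _ => ?_
  rw [sum_finset_fin N (fun X => ∏ j ∈ Finset.range N, ∏ q ∈ Finset.range c,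
        (if (q < A ∧ j ∈ X) ∨ (q < A + m j ∧
          (j + 1 ∈ X ∨ (j + 1 = N ∧ ∃ v ∈ Y, E u v)))
          then Q else P))]
  obtain ⟨h3, h4⟩ := chS_eq (P := P) (Q := Q) hm N
  refine Eq.trans (b := chS P Q A c m N (∃ v ∈ Y, E u v)) ?_ ?_
  · unfold chS
    exact Finset.sum_congr rfl fun X _ => Finset.prod_congr rfl fun j _ =>
      Finset.prod_congr rfl fun q _ => ite_cong Iff.rfl
  · by_cases h5 : ∃ v ∈ Y, E u v
    · rw [if_pos h5, ← h4]
      exact congrArg (chS P Q A c m N) (eq_true h5)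
    · rw [if_neg h5, ← h3]
      exact congrArg (chS P Q A c m N) (eq_false h5)

end Pool.Agent.Lib.Pa7c826h
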