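import Pool.Agent.Lib.Pa7c826.Scheme

/-!
Classes of bipartite graphs with a gap between the degrees of the two sides.
-/

namespace Pool.Agent.Lib.Pa7c826h

open Pool.Agent.Lib.Pa7c826

/-- All degrees on one side are at most `D`, all degrees on the other side are at least `x` and at
most `Δ`. -/
def Band (D Δ : ℕ) (x : ℝ) (G : BGraph) : Prop :=
  ((∀ j, G.colDeg j ≤ D) ∧ ∀ i, x ≤ G.rowDeg i ∧ G.rowDeg i ≤ Δ) ∨
    ((∀ i, G.rowDeg i ≤ D) ∧ ∀ j, x ≤ G.colDeg j ∧ G.colDeg j ≤ Δ)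

/-- All degrees are at most `k`. -/
def MaxDeg (k : ℕ) (G : BGraph) : Prop := (∀ i, G.rowDeg i ≤ k) ∧ ∀ j, G.colDeg j ≤ k

/-- For some `D`, `Δ`: all degrees on one side are at most `D`, and all degrees on the other side
are at least `D + log₂ D + ε log₂ (D Δ) + C` and at most `Δ`. -/
def Unbalanced (ε C : ℝ) (G : BGraph) : Prop :=
  ∃ D Δ : ℕ, Band D Δ (D + Real.logb 2 D + ε * Real.logb 2 (D * Δ) + C) G

/-- `log₂ min (D, n / D)`, `n` the number of vertices -/
noncomputable def thr (D : ℕ) (G : BGraph) : ℝ :=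
  Real.logb 2 (min (D : ℝ) ((G.a + G.b : ℕ) / D))

/-- For some `D`: all degrees on one side are at most `D`, and all degrees on the other side are at
least `D + log₂ min (D, n / D) + η log₂ n`. -/
def Gap (η : ℝ) (G : BGraph) : Prop :=
  ∃ D : ℕ, Band D (G.a + G.b) (D + thr D G + η * Real.logb 2 (G.a + G.b : ℕ)) G

/-- The same with `D = n ^ (p / q)`. -/
def GapAt (p q : ℕ) (η : ℝ) (G : BGraph) : Prop :=
  ∃ D : ℕ, D ^ q = (G.a + G.b) ^ p ∧
    Band D (G.a + G.b) (D + thr D G + η * Real.logb 2 (G.a + G.b : ℕ)) G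

end Pool.Agent.Lib.Pa7c826h
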