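import Pool.Agent.Lib.Pa7c826h.BPolyA
import Pool.Agent.Lib.Pa7c826h.Class

/-!
Hardness at constant degrees: the number of independent sets and the degrees of the new graph.

PROOFS. Numberings: `eBL : ((Fin a × Fin N) × Fin c) × Fin d ≃ Fin (a * N * c * d)` =
`(Equiv.prodCongr (eqGL a N c) (Equiv.refl _)).trans finProdFinEquiv`, value
`l + d * (q + c * (j + N * u))` (`eqGL_val`), and
`eBR : (((Fin a × Fin N) × Fin c) × Fin r) ⊕ ((Fin a × Fin N) ⊕ Fin b) ≃ Fin (a * N * c * r + (a * N + b))`.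
`FB_iff`: `blkRel D (D + g) (incRel 9 (dig g s) E)` is `FB` of the numbers (as `FG_iff` in
`Pa7c826g/GadRed.lean`). `numIndep_mkGraph`, `cnt_blk`, `chain_total` (`dig_le`). Degrees:
`rowDeg_mkGraph`, `colDeg_mkGraph` and cardinalities: the row of `((u, j), q), l)` is `Sum.inl` of the
`D + g` elements `(((u, j), q), w)` and at most the connectors `(u, j)`, `(u, j + 1)` and the `v` with `E u v`; the
column of `Sum.inl y` has `D` elements; the connector `(u, x)` has at most `9 + (9 + 2 ^ (g + 3) - 1)` ports,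
the connector `v` at most `Δ * (9 + 2 ^ (g + 3) - 1)`.
-/

namespace Pool.Agent.Lib.Pa7c826h

open Pool.Agent.Lib.Pa7c826 Pool.Agent.Lib.Pa7c826g

namespace BRedAux

/-- numbering of the left vertices -/
def eBL (a N c d : ℕ) : ((Fin a × Fin N) × Fin c) × Fin d ≃ Fin (a * N * c * d) :=
  (Equiv.prodCongr (eqGL a N c) (Equiv.refl _)).trans finProdFinEquiv

/-- numbering of the connectors -/
def eBC (a b N : ℕ) : (Fin a × Fin N) ⊕ Fin b ≃ Fin (a * N + b) :=
  (Equiv.sumCongr finProdFinEquiv (Equiv.refl _)).trans finSumFinEquiv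

/-- numbering of the right vertices -/
def eBR (a b N c r : ℕ) :
    (((Fin a × Fin N) × Fin c) × Fin r) ⊕ ((Fin a × Fin N) ⊕ Fin b) ≃
      Fin (a * N * c * r + (a * N + b)) :=
  (Equiv.sumCongr (eBL a N c r) (eBC a b N)).trans finSumFinEquiv

theorem eBL_val {a N c d : ℕ} (x : ((Fin a × Fin N) × Fin c) × Fin d) :
    (eBL a N c d x : ℕ) = x.2 + d * (eqGL a N c x.1 : ℕ) := by
  simp [eBL, finProdFinEquiv]

theorem eBL_div {a N c d : ℕ} (x : ((Fin a × Fin N) × Fin c) × Fin d) :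
    (eBL a N c d x : ℕ) / d = (eqGL a N c x.1 : ℕ) := by
  have h := x.2.2
  rw [eBL_val, Nat.add_mul_div_left _ _ (by omega), Nat.div_eq_of_lt h, Nat.zero_add]

theorem eBL_mod {a N c d : ℕ} (x : ((Fin a × Fin N) × Fin c) × Fin d) :
    (eBL a N c d x : ℕ) % d = x.2 := by
  have h := x.2.2
  rw [eBL_val, Nat.add_mul_mod_self_left, Nat.mod_eq_of_lt h]

theorem eqGL_div_mod {a s d : ℕ} (x : (Fin a × Fin s) × Fin d) :
    (eqGL a s d x : ℕ) / d % s = x.1.2 := by
  have h := x.1.2.2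
  rw [eqGL_div, Nat.add_mul_mod_self_left, Nat.mod_eq_of_lt h]

theorem eBR_inl {a b N c r : ℕ} (y : ((Fin a × Fin N) × Fin c) × Fin r) :
    (eBR a b N c r (Sum.inl y) : ℕ) = eBL a N c r y := by
  simp [eBR]

theorem eBR_inr {a b N c r : ℕ} (v : (Fin a × Fin N) ⊕ Fin b) :
    (eBR a b N c r (Sum.inr v) : ℕ) = a * N * c * r + eBC a b N v := by
  simp [eBR]

theorem eBC_inl {a b N : ℕ} (x : Fin a × Fin N) :
    (eBC a b N (Sum.inl x) : ℕ) = x.2 + N * x.1 := by
  simp [eBC, finProdFinEquiv]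

theorem eBC_inl_lt {a b N : ℕ} (x : Fin a × Fin N) :
    (eBC a b N (Sum.inl x) : ℕ) < a * N := by
  have : (eBC a b N (Sum.inl x) : ℕ) = (finProdFinEquiv x : Fin (a * N)) := by simp [eBC]
  rw [this]
  exact (finProdFinEquiv x : Fin (a * N)).2

theorem eBC_inr {a b N : ℕ} (v : Fin b) :
    (eBC a b N (Sum.inr v) : ℕ) = a * N + v := by
  simp [eBC]

theorem pair_eq {N u u' j j' : ℕ} (hj : j < N) (hj' : j' < N) :
    j + N * u = j' + N * u' ↔ u = u' ∧ j = j' := by
  constructor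
  · intro h
    have h1 : (j + N * u) / N = u := by
      rw [Nat.add_mul_div_left _ _ (by omega), Nat.div_eq_of_lt hj, Nat.zero_add]
    have h2 : (j' + N * u') / N = u' := by
      rw [Nat.add_mul_div_left _ _ (by omega), Nat.div_eq_of_lt hj', Nat.zero_add]
    have h3 : (j + N * u) % N = j := by rw [Nat.add_mul_mod_self_left, Nat.mod_eq_of_lt hj]
    have h4 : (j' + N * u') % N = j' := by rw [Nat.add_mul_mod_self_left, Nat.mod_eq_of_lt hj']
    exact ⟨by rw [← h1, ← h2, h], by rw [← h3, ← h4, h]⟩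
  · rintro ⟨rfl, rfl⟩
    rfl

theorem cnB_iff {g a b N s : ℕ} (F : ℕ → ℕ → Bool) (β : (Fin a × Fin N) × Fin (cB g))
    (v : (Fin a × Fin N) ⊕ Fin b) :
    incRel 9 (dig g s) (fun (u : Fin a) (v : Fin b) => F u v = true) β v ↔
      cnB g a N s F (eqGL a N (cB g) β) (eBC a b N v) = true := by
  have hj := β.1.2.2
  rcases v with x | v
  · have hx := x.2.2
    have hlt := eBC_inl_lt (b := b) x
    have h1 : ((x.2 : ℕ) + N * x.1 = β.1.2 + N * β.1.1) ↔ ((x.1 : ℕ) = β.1.1 ∧ (x.2 : ℕ) = β.1.2) :=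
      pair_eq hx hj
    have h2 : ((β.1.2 : ℕ) + 1 < N) → (((x.2 : ℕ) + N * x.1 = β.1.2 + N * β.1.1 + 1) ↔
        ((x.1 : ℕ) = β.1.1 ∧ (x.2 : ℕ) = β.1.2 + 1)) := by
      intro h
      rw [show (β.1.2 + N * β.1.1 + 1 : ℕ) = (β.1.2 + 1) + N * β.1.1 by ring]
      exact pair_eq hx h
    simp only [incRel, cnB, Bool.or_eq_true, Bool.and_eq_true, decide_eq_true_eq, hlt, true_and,
      eqGL_div_mod, eqGL_mod]
    simp only [eBC_inl, eqGL_div] at hlt ⊢
    rw [Fin.ext_iff]
    constructor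
    · rintro ⟨h3, (⟨h4, h5⟩ | ⟨h4, h5⟩)⟩
      · exact Or.inl (Or.inl ⟨h1.2 ⟨h3.symm, h4⟩, h5⟩)
      · have h6 : (β.1.2 : ℕ) + 1 < N := by omega
        exact Or.inl (Or.inr ⟨(h2 h6).2 ⟨h3.symm, h4⟩, h6, h5⟩)
    · rintro ((⟨h4, h5⟩ | ⟨h4, h6, h5⟩) | ⟨h3, _⟩)
      · have h7 := h1.1 h4
        exact ⟨h7.1.symm, Or.inl ⟨h7.2, h5⟩⟩
      · have h7 := (h2 h6).1 h4
        exact ⟨h7.1.symm, Or.inr ⟨h7.2, h5⟩⟩
      · omega
  · simp only [incRel, cnB, Bool.or_eq_true, Bool.and_eq_true, decide_eq_true_eq, eBC_inr,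
      eqGL_div_mod, eqGL_mod, eqGL_div_div, Nat.le_add_right, true_and, Nat.add_sub_cancel_left]
    constructor
    · intro h
      exact Or.inr h
    · rintro (⟨h, _⟩ | h)
      · omega
      · exact h

theorem FB_iff {g D a b N s : ℕ} (F : ℕ → ℕ → Bool)
    (x : ((Fin a × Fin N) × Fin (cB g)) × Fin D)
    (y : (((Fin a × Fin N) × Fin (cB g)) × Fin (D + g)) ⊕ ((Fin a × Fin N) ⊕ Fin b)) :
    blkRel D (D + g) (incRel 9 (dig g s) (fun (u : Fin a) (v : Fin b) => F u v = true)) x y ↔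
      FB g D a N s F (eBL a N (cB g) D x) (eBR a b N (cB g) (D + g) y) = true := by
  rcases y with y | v
  · have h1 := (eBL a N (cB g) (D + g) y).2
    have h2 : (eqGL a N (cB g) x.1 : ℕ) = eqGL a N (cB g) y.1 ↔ x.1 = y.1 := by
      rw [← Fin.ext_iff]
      exact (eqGL a N (cB g)).injective.eq_iff
    simp only [blkRel, FB, eBR_inl, eBL_div, Bool.or_eq_true, Bool.and_eq_true, decide_eq_true_eq,
      h1, true_and, h2]
    constructor
    · intro h
      exact Or.inl h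
    · rintro (h | h)
      · exact h
      · omega
  · simp only [blkRel, FB, eBR_inr, eBL_div, eBL_mod, Bool.or_eq_true, Bool.and_eq_true,
      decide_eq_true_eq, Nat.add_sub_cancel_left, Nat.le_add_right, true_and]
    rw [cnB_iff]
    constructor
    · rintro ⟨h1, h2⟩
      exact Or.inr ⟨h2, h1⟩
    · rintro (h | h)
      · omega
      · exact ⟨h.2, h.1⟩

end BRedAux

open BRedAux

open Classical in
theorem numIndep_redB (g : ℕ) {D : ℕ} (hD : 1 ≤ D) (G : BGraph) (t : ℕ) :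
    numIndep (redB g D G t).graph = ∑ Y : Finset (Fin G.b), ∏ u : Fin G.a,
      (if ∃ v ∈ Y, G.E u v = true then (SB g D (sB g D G t) (jG G t)).2
        else (SB g D (sB g D G t) (jG G t)).1) := by
  have h := numIndep_mkGraph (eBL G.a (jG G t) (cB g) D) (eBR G.a G.b (jG G t) (cB g) (D + g))
    (FB_iff (g := g) (D := D) (a := G.a) (b := G.b) (N := jG G t) (s := sB g D G t) G.F)
  have h0 : numIndep (redB g D G t).graph = _ := h
  rw [h0, cnt_blk (D + g) hD, chain_total (dig_le g (sB g D G t))]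
  refine Finset.sum_congr rfl fun Y _ => Finset.prod_congr rfl fun u _ => ?_
  refine ite_cong ?_
  simp only [G.F_eq]

theorem rowDeg_redB (g : ℕ) {D Δ : ℕ} (hD : 1 ≤ D) {G : BGraph} (hG : MaxDeg Δ G) (t : ℕ)
    (i : Fin (redB g D G t).a) :
    D + g ≤ (redB g D G t).rowDeg i ∧ (redB g D G t).rowDeg i ≤ D + g + 2 + Δ := by
  revert i
  show ∀ i : Fin (G.a * jG G t * cB g * D), D + g ≤ (redB g D G t).rowDeg i ∧
    (redB g D G t).rowDeg i ≤ D + g + 2 + Δ
  intro i
  obtain ⟨x, rfl⟩ := (eBL G.a (jG G t) (cB g) D).surjective i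
  have h1 : (redB g D G t).rowDeg (eBL G.a (jG G t) (cB g) D x) = _ :=
    rowDeg_mkGraph (eBL G.a (jG G t) (cB g) D) (eBR G.a G.b (jG G t) (cB g) (D + g))
    (FB_iff (g := g) (D := D) (a := G.a) (b := G.b) (N := jG G t) (s := sB g D G t) G.F) x
  rw [h1]
  let f : Fin (D + g) → (((Fin G.a × Fin (jG G t)) × Fin (cB g)) × Fin (D + g)) ⊕
      ((Fin G.a × Fin (jG G t)) ⊕ Fin G.b) := fun z => Sum.inl (x.1, z)
  have hf : Function.Injective f := by
    intro z z' h
    have := Sum.inl_injective h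
    exact (Prod.mk.inj this).2
  have h2 : (f '' Set.univ).ncard = D + g := by
    rw [Set.ncard_image_of_injective _ hf, Set.ncard_univ, Nat.card_fin]
  constructor
  · refine h2.symm.le.trans (Set.ncard_le_ncard ?_ (Set.toFinite _))
    rintro _ ⟨z, -, rfl⟩
    rfl
  · let C1 : Set (Fin G.a × Fin (jG G t)) := {y | (y.1 : ℕ) = x.1.1.1 ∧
      ((y.2 : ℕ) = x.1.1.2 ∨ (y.2 : ℕ) = x.1.1.2 + 1)}
    let C2 : Set (Fin G.b) := {v | G.E x.1.1.1 v = true}
    have hC1 : C1.ncard ≤ 2 := by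
      let e : Fin G.a × Fin (jG G t) → ℕ := fun y => y.2
      have he : Set.InjOn e C1 := by
        intro y hy y' hy' h
        exact Prod.ext (Fin.ext (hy.1.trans hy'.1.symm)) (Fin.ext h)
      rw [← he.ncard_image]
      have h3 : e '' C1 ⊆ {(x.1.1.2 : ℕ), (x.1.1.2 : ℕ) + 1} := by
        rintro _ ⟨y, hy, rfl⟩
        rcases hy.2 with h | h
        · exact Or.inl h
        · exact Or.inr h
      refine (Set.ncard_le_ncard h3 (Set.toFinite _)).trans ?_
      exact (Set.ncard_insert_le _ _).trans (by rw [Set.ncard_singleton])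
    have hC2 : C2.ncard ≤ Δ := by
      refine le_trans (le_of_eq ?_) (hG.1 x.1.1.1)
      unfold BGraph.rowDeg
      rw [← Set.ncard_coe_finset]
      congr 1
      ext v
      simp [C2]
    have hsub : {y | blkRel D (D + g) (incRel 9 (dig g (sB g D G t))
        (fun (u : Fin G.a) (v : Fin G.b) => G.F u v = true)) x y} ⊆
        f '' Set.univ ∪ ((fun y => Sum.inr (Sum.inl y)) '' C1 ∪ (fun v => Sum.inr (Sum.inr v)) '' C2) := by
      rintro (y | (y | v)) hy
      · left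
        have hy' : x.1 = y.1 := hy
        refine ⟨y.2, Set.mem_univ _, ?_⟩
        show Sum.inl (x.1, y.2) = _
        rw [hy']
      · right
        left
        refine ⟨y, ?_, rfl⟩
        obtain ⟨⟨h3, h4⟩, h5⟩ := hy
        refine ⟨by rw [h3], ?_⟩
        rcases h4 with h4 | h4
        · exact Or.inl h4.1
        · exact Or.inr h4.1
      · right
        right
        refine ⟨v, ?_, rfl⟩
        obtain ⟨⟨h3, h4⟩, h5⟩ := hy
        show G.E x.1.1.1 v = true
        rw [← G.F_eq]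
        exact h4
    calc _ ≤ _ := Set.ncard_le_ncard hsub (Set.toFinite _)
      _ ≤ (f '' Set.univ).ncard + _ := Set.ncard_union_le _ _
      _ ≤ (f '' Set.univ).ncard + (_ + _) := Nat.add_le_add_left (Set.ncard_union_le _ _) _
      _ ≤ (D + g) + (2 + Δ) := by
        rw [h2]
        refine Nat.add_le_add_left (Nat.add_le_add ?_ ?_) _
        · exact (Set.ncard_image_le (Set.toFinite _)).trans hC1
        · exact (Set.ncard_image_le (Set.toFinite _)).trans hC2
      _ = D + g + 2 + Δ := by ring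

theorem colDeg_redB (g : ℕ) {D Δ : ℕ} (hD : 2 ^ (g + 3) + 17 ≤ D) (hΔ : Δ * (2 ^ (g + 3) + 8) ≤ D)
    {G : BGraph} (hG : MaxDeg Δ G) (t : ℕ) (j : Fin (redB g D G t).b) :
    (redB g D G t).colDeg j ≤ D := by
  revert j
  show ∀ j : Fin (G.a * jG G t * cB g * (D + g) + (G.a * jG G t + G.b)),
    (redB g D G t).colDeg j ≤ D
  intro j
  obtain ⟨y, rfl⟩ := (eBR G.a G.b (jG G t) (cB g) (D + g)).surjective j
  have h1 : (redB g D G t).colDeg (eBR G.a G.b (jG G t) (cB g) (D + g) y) = _ :=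
    colDeg_mkGraph (eBL G.a (jG G t) (cB g) D) (eBR G.a G.b (jG G t) (cB g) (D + g))
    (FB_iff (g := g) (D := D) (a := G.a) (b := G.b) (N := jG G t) (s := sB g D G t) G.F) y
  rw [h1]
  rcases y with y | (y | v)
  · let f : Fin D → ((Fin G.a × Fin (jG G t)) × Fin (cB g)) × Fin D := fun z => (y.1, z)
    have h2 : {x | blkRel D (D + g) (incRel 9 (dig g (sB g D G t))
        (fun (u : Fin G.a) (v : Fin G.b) => G.F u v = true)) x (Sum.inl y)} ⊆ f '' Set.univ := by
      rintro ⟨x, z⟩ hx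
      have hx' : x = y.1 := hx
      exact ⟨z, Set.mem_univ _, by rw [hx']⟩
    refine (Set.ncard_le_ncard h2 (Set.finite_univ.image f)).trans ?_
    have h3 : (f '' Set.univ).ncard ≤ (Set.univ : Set (Fin D)).ncard :=
      Set.ncard_image_le Set.finite_univ
    rw [Set.ncard_univ, Nat.card_fin] at h3
    exact h3
  · -- the connector `(u, x)`: encode by (which case, q)
    let e : ((Fin G.a × Fin (jG G t)) × Fin (cB g)) × Fin D → ℕ :=
      fun x => if (y.2 : ℕ) = x.1.1.2 then (x.1.2 : ℕ) else 9 + (x.1.2 : ℕ)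
    set S : Set (((Fin G.a × Fin (jG G t)) × Fin (cB g)) × Fin D) :=
      {x | blkRel D (D + g) (incRel 9 (dig g (sB g D G t))
        (fun (u : Fin G.a) (v : Fin G.b) => G.F u v = true)) x (Sum.inr (Sum.inl y))} with hS
    have hinj : Set.InjOn e S := by
      rintro x ⟨⟨h3, h4⟩, h5⟩ x' ⟨⟨h3', h4'⟩, h5'⟩ h
      have e1 : x.1.1.1 = x'.1.1.1 := h3.trans h3'.symm
      have e2 : x.2 = x'.2 := Fin.ext (h5.trans h5'.symm)
      have e3 : x.1.1.2 = x'.1.1.2 ∧ x.1.2 = x'.1.2 := by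
        simp only [e] at h
        rcases h4 with ⟨h4, h6⟩ | ⟨h4, h6⟩ <;> rcases h4' with ⟨h4', h6'⟩ | ⟨h4', h6'⟩
        · rw [if_pos h4, if_pos h4'] at h
          exact ⟨Fin.ext (h4.symm.trans h4'), Fin.ext h⟩
        · rw [if_pos h4, if_neg (by omega)] at h
          omega
        · rw [if_neg (by omega), if_pos h4'] at h
          omega
        · rw [if_neg (by omega), if_neg (by omega)] at h
          exact ⟨Fin.ext (by omega), Fin.ext (by omega)⟩
      exact Prod.ext (Prod.ext (Prod.ext e1 e3.1) e3.2) e2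
    have himg : e '' S ⊆ Finset.range (2 ^ (g + 3) + 17) := by
      rintro _ ⟨x, ⟨⟨h3, h4⟩, h5⟩, rfl⟩
      rw [Finset.mem_coe, Finset.mem_range]
      have h7 := dig_lt g (sB g D G t) x.1.1.2
      simp only [e]
      rcases h4 with ⟨h4, h6⟩ | ⟨h4, h6⟩
      · rw [if_pos h4]
        omega
      · rw [if_neg (by omega)]
        omega
    rw [← hinj.ncard_image]
    refine (Set.ncard_le_ncard himg (Finset.finite_toSet _)).trans ?_
    rw [Set.ncard_coe_finset, Finset.card_range]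
    exact hD
  · set S : Set (((Fin G.a × Fin (jG G t)) × Fin (cB g)) × Fin D) :=
      {x | blkRel D (D + g) (incRel 9 (dig g (sB g D G t))
        (fun (u : Fin G.a) (v : Fin G.b) => G.F u v = true)) x (Sum.inr (Sum.inr v))} with hS
    let e : ((Fin G.a × Fin (jG G t)) × Fin (cB g)) × Fin D → Fin G.a × ℕ :=
      fun x => (x.1.1.1, (x.1.2 : ℕ))
    have hinj : Set.InjOn e S := by
      rintro x ⟨⟨⟨h3, h4⟩, h6⟩, h5⟩ x' ⟨⟨⟨h3', h4'⟩, h6'⟩, h5'⟩ h
      have e1 : x.1.1.1 = x'.1.1.1 := (Prod.mk.inj h).1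
      have e0 : (x.1.2 : ℕ) = x'.1.2 := (Prod.mk.inj h).2
      have e2 : x.2 = x'.2 := Fin.ext (h5.trans h5'.symm)
      exact Prod.ext (Prod.ext (Prod.ext e1 (Fin.ext (by omega))) (Fin.ext e0)) e2
    have himg : e '' S ⊆ ((Finset.univ.filter fun i => G.E i v = true) ×ˢ
        Finset.range (2 ^ (g + 3) + 8) : Finset (Fin G.a × ℕ)) := by
      rintro _ ⟨x, ⟨⟨⟨h3, h4⟩, h6⟩, h5⟩, rfl⟩
      have h7 := dig_lt g (sB g D G t) x.1.1.2
      rw [Finset.mem_coe, Finset.mem_product, Finset.mem_filter, Finset.mem_range]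
      refine ⟨⟨Finset.mem_univ _, ?_⟩, ?_⟩
      · rw [← G.F_eq]
        exact h6
      · show (x.1.2 : ℕ) < _
        omega
    rw [← hinj.ncard_image]
    refine (Set.ncard_le_ncard himg (Finset.finite_toSet _)).trans ?_
    rw [Set.ncard_coe_finset, Finset.card_product, Finset.card_range]
    exact (Nat.mul_le_mul_right _ (hG.2 v)).trans hΔ

end Pool.Agent.Lib.Pa7c826h
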