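import Pool.Agent.Lib.Pa7c826h.BTune
import Pool.Agent.Lib.Pa7c826h.BRed

/-!
Hardness at constant degrees: the new graph has the right number of independent sets.

PROOF. Let `a = G.a`, `m = scG G t`, `T = m ^ 3`, `(A, B) = SB g D (sB g D G t) (jG G t)`, `w = wB / 2 ^ LB`
(rational). `numIndep G = ∑ Y, ∏ u, (if ∃ v ∈ Y, E u v then 1 else 2)` (`cnt_eq_sum` for the transposed
relation, `cnt_swap`). `exists_digits` (`2 m ^ 3 ≤ m ^ 4 < 2 ^ jG`), `fstB_spec`: `|A - 2 B| T ≤ B`. As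
`2 ^ LB ≥ B T` (`SB_le`, `T ≤ 2 ^ jG`): `1 - 1 / T ≤ B w ≤ 1`, and `2 (1 - 2 / T) ≤ A w ≤ 2 (1 + 1 / T)`. So every
summand changes by a factor in `[(1 - 2 / T) ^ a, (1 + 2 / T) ^ a] ⊆ [1 - 4 a / T, 1 + 4 a / T]` (`2 a / T ≤ 1 / 2`),
and `4 a / T ≤ 4 / m ^ 2 ≤ 1 / (2 t + 1)` (`m ≥ 2 t + 12`, `m ≥ a`).
-/

namespace Pool.Agent.Lib.Pa7c826h

open Pool.Agent.Lib.Pa7c826 Pool.Agent.Lib.Pa7c826g

namespace BCloseAux

/-- the sum over the sets of right vertices -/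
theorem numIndep_eq_sum (G : BGraph) :
    numIndep G.graph = ∑ Y : Finset (Fin G.b), ∏ u : Fin G.a,
      (if ∃ v ∈ Y, G.E u v = true then 1 else 2) := by
  classical
  have e2 : numIndep G.graph = cnt (fun (u : Fin G.a) (v : Fin G.b) => G.E u v = true) := by
    unfold BGraph.graph
    rw [numIndep_bip]
  rw [e2, ← cnt_swap, cnt_eq_sum]
  refine Finset.sum_congr rfl fun Y _ => ?_
  have h1 : {u : Fin G.a | ∀ v ∈ Y, ¬ G.E u v = true}.ncard =
      ∑ u : Fin G.a, (if ∃ v ∈ Y, G.E u v = true then 0 else 1) := by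
    rw [Set.ncard_eq_toFinset_card', Set.toFinset_ofPred, Finset.card_filter]
    refine Finset.sum_congr rfl fun u _ => ?_
    by_cases h : ∃ v ∈ Y, G.E u v = true
    · rw [if_pos h, if_neg]
      intro h3
      obtain ⟨v, hv, hE⟩ := h
      exact h3 v hv hE
    · rw [if_neg h, if_pos]
      intro v hv hE
      exact h ⟨v, hv, hE⟩
  rw [h1, ← Finset.prod_pow_eq_pow_sum]
  refine Finset.prod_congr rfl fun u _ => ?_
  by_cases h : ∃ v ∈ Y, G.E u v = true
  · rw [if_pos h, if_pos h, pow_zero]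
  · rw [if_neg h, if_neg h, pow_one]

theorem pow_up {x : ℚ} {a : ℕ} (hx : 0 ≤ x) (h : a * x ≤ 1 / 2) : (1 + x) ^ a ≤ 1 + 2 * (a * x) := by
  rcases Nat.eq_zero_or_pos a with rfl | ha
  · simp
  have ha1 : (1 : ℚ) ≤ a := by exact_mod_cast ha
  have hx1 : x ≤ 1 / 2 := by nlinarith
  have h1 : 1 - a * x ≤ (1 - x) ^ a := by
    have := one_add_mul_le_pow (a := -x) (by linarith) a
    calc 1 - a * x = 1 + a * (-x) := by ring
      _ ≤ (1 + -x) ^ a := this
      _ = (1 - x) ^ a := by ring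
  have h2 : (1 + x) ^ a * (1 - x) ^ a ≤ 1 := by
    rw [← mul_pow]
    exact pow_le_one₀ (by nlinarith) (by nlinarith)
  have h3 : 0 < (1 + x) ^ a := by positivity
  have h4 : (1 + x) ^ a * (1 - a * x) ≤ 1 := by
    nlinarith
  have h0 : 0 ≤ (a : ℚ) * x := by positivity
  have h5 : 1 ≤ (1 + 2 * (a * x)) * (1 - a * x) := by nlinarith
  have h6 : (1 + x) ^ a * (1 - a * x) ≤ (1 + 2 * (a * x)) * (1 - a * x) := h4.trans h5
  exact le_of_mul_le_mul_right h6 (by linarith)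

theorem pow_low {x : ℚ} {a : ℕ} (hx : 0 ≤ x) (hx2 : x ≤ 1) : 1 - 2 * (a * x) ≤ (1 - x) ^ a := by
  have h0 : 0 ≤ (a : ℚ) * x := by positivity
  have := one_add_mul_le_pow (a := -x) (by linarith) a
  calc 1 - 2 * (a * x) ≤ 1 + a * (-x) := by linarith
    _ ≤ (1 + -x) ^ a := this
    _ = (1 - x) ^ a := by ring

/-- the abstract estimate -/
theorem est {a b : ℕ} (R : Fin a → Finset (Fin b) → Prop) [∀ u Y, Decidable (R u Y)] {A B ω T : ℚ}
    (hT : 4 ≤ T) (haT : 4 * a ≤ T) (hω : 0 ≤ ω) (hB1 : ω * B ≤ 1) (hB2 : 1 - 1 / T ≤ ω * B)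
    (hA1 : A * T ≤ 2 * B * T + B) (hA2 : 2 * B * T ≤ A * T + B) :
    |(∑ Y : Finset (Fin b), ∏ u : Fin a, (if R u Y then B else A)) * ω ^ a -
      ∑ Y : Finset (Fin b), ∏ u : Fin a, (if R u Y then (1 : ℚ) else 2)| ≤
      (∑ Y : Finset (Fin b), ∏ u : Fin a, (if R u Y then (1 : ℚ) else 2)) * (4 * a / T) := by
  have hT0 : 0 < T := by linarith
  set x : ℚ := 2 / T with hx
  have hx0 : 0 ≤ x := by positivity
  have hx1 : x ≤ 1 := by
    rw [hx, div_le_one hT0]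
    linarith
  have hTx : T * x = 2 := by
    rw [hx]
    field_simp
  have h1T : 1 / T = x / 2 := by
    rw [hx]
    ring
  rw [h1T] at hB2
  have hax : (a : ℚ) * x ≤ 1 / 2 := by
    rw [hx, mul_div_assoc', div_le_iff₀ hT0]
    linarith
  have e4 : 4 * (a : ℚ) / T = 2 * (a * x) := by
    rw [hx]
    ring
  rw [e4]
  have hAup : ω * A ≤ 2 * (1 + x) := by
    have h1 : ω * A * T ≤ (ω * B) * (2 * T + 1) := by nlinarith
    have h2 : (ω * B) * (2 * T + 1) ≤ 2 * T + 1 := by nlinarith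
    have h3 : ω * A * T ≤ 2 * (1 + x) * T := by nlinarith
    exact le_of_mul_le_mul_right h3 hT0
  have hAlow : 2 * (1 - x) ≤ ω * A := by
    have h1 : (ω * B) * (2 * T - 1) ≤ ω * A * T := by nlinarith
    have h2 : (1 - x / 2) * (2 * T - 1) ≤ (ω * B) * (2 * T - 1) :=
      mul_le_mul_of_nonneg_right hB2 (by linarith)
    have h3 : 2 * (1 - x) * T ≤ ω * A * T := by nlinarith
    exact le_of_mul_le_mul_right h3 hT0
  have key : ∀ Y : Finset (Fin b),
      |(∏ u : Fin a, (if R u Y then B else A)) * ω ^ a - ∏ u : Fin a, (if R u Y then (1 : ℚ) else 2)| ≤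
        (∏ u : Fin a, (if R u Y then (1 : ℚ) else 2)) * (2 * (a * x)) := by
    intro Y
    have e1 : (∏ u : Fin a, (if R u Y then B else A)) * ω ^ a =
        ∏ u : Fin a, (ω * (if R u Y then B else A)) := by
      rw [Finset.prod_mul_distrib, Finset.prod_const, Finset.card_univ, Fintype.card_fin, mul_comm]
    have hg0 : 0 ≤ ∏ u : Fin a, (if R u Y then (1 : ℚ) else 2) :=
      Finset.prod_nonneg fun u _ => by split_ifs <;> norm_num
    have hup : ∏ u : Fin a, (ω * (if R u Y then B else A)) ≤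
        (1 + x) ^ a * ∏ u : Fin a, (if R u Y then (1 : ℚ) else 2) := by
      have e2 : (1 + x) ^ a * ∏ u : Fin a, (if R u Y then (1 : ℚ) else 2) =
          ∏ u : Fin a, ((1 + x) * (if R u Y then (1 : ℚ) else 2)) := by
        rw [Finset.prod_mul_distrib, Finset.prod_const, Finset.card_univ, Fintype.card_fin]
      rw [e2]
      refine Finset.prod_le_prod (fun u _ => ?_) (fun u _ => ?_)
      · split_ifs
        · linarith
        · linarith
      · split_ifs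
        · linarith
        · linarith
    have hlow : (1 - x) ^ a * ∏ u : Fin a, (if R u Y then (1 : ℚ) else 2) ≤
        ∏ u : Fin a, (ω * (if R u Y then B else A)) := by
      have e2 : (1 - x) ^ a * ∏ u : Fin a, (if R u Y then (1 : ℚ) else 2) =
          ∏ u : Fin a, ((1 - x) * (if R u Y then (1 : ℚ) else 2)) := by
        rw [Finset.prod_mul_distrib, Finset.prod_const, Finset.card_univ, Fintype.card_fin]
      rw [e2]
      refine Finset.prod_le_prod (fun u _ => ?_) (fun u _ => ?_)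
      · split_ifs
        · linarith
        · linarith
      · split_ifs
        · linarith
        · linarith
    rw [e1, abs_le]
    have hu := mul_le_mul_of_nonneg_right (pow_up hx0 hax) hg0
    have hl := mul_le_mul_of_nonneg_right (pow_low (a := a) hx0 hx1) hg0
    constructor
    · linarith
    · linarith
  rw [Finset.sum_mul, ← Finset.sum_sub_distrib, Finset.sum_mul]
  exact (Finset.abs_sum_le_sum_abs _ _).trans (Finset.sum_le_sum fun Y _ => key Y)

/-- the estimate with natural numbers -/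
theorem est_nat {a b : ℕ} (R : Fin a → Finset (Fin b) → Prop) [∀ u Y, Decidable (R u Y)]
    {A B L m t : ℕ} (hm12 : 12 ≤ m) (hma : a ≤ m) (hmt : 2 * t + 1 ≤ m) (hB0 : 0 < B)
    (hBT : B * m ^ 3 ≤ 2 ^ L) (ht1 : A * m ^ 3 ≤ 2 * B * m ^ 3 + B)
    (ht2 : 2 * B * m ^ 3 ≤ A * m ^ 3 + B) :
    |((∑ Y : Finset (Fin b), ∏ u : Fin a, (if R u Y then B else A) : ℕ) : ℚ) *
        (((2 ^ L / B) ^ a : ℕ) : ℚ) / 2 ^ (L * a) -
      ((∑ Y : Finset (Fin b), ∏ u : Fin a, (if R u Y then 1 else 2) : ℕ) : ℚ)| ≤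
      ((∑ Y : Finset (Fin b), ∏ u : Fin a, (if R u Y then 1 else 2) : ℕ) : ℚ) / (2 * t + 1) := by
  obtain ⟨w, hw⟩ : ∃ w : ℕ, w = 2 ^ L / B := ⟨_, rfl⟩
  rw [← hw]
  have hw1 : w * B ≤ 2 ^ L := by
    rw [hw]
    exact Nat.div_mul_le_self _ _
  have hw2 : 2 ^ L ≤ w * B + B := by
    rw [hw]
    exact (Nat.lt_div_mul_add hB0).le
  have hL0 : (0 : ℚ) < 2 ^ L := by positivity
  have hm0 : (0 : ℚ) < m := by
    have : 0 < m := by omega
    exact_mod_cast this
  have hT0 : (0 : ℚ) < (m : ℚ) ^ 3 := by positivity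
  have hwB1 : (w : ℚ) * B ≤ 2 ^ L := by exact_mod_cast hw1
  have hwB2 : (2 : ℚ) ^ L ≤ w * B + B := by exact_mod_cast hw2
  have hBT' : (B : ℚ) * m ^ 3 ≤ 2 ^ L := by exact_mod_cast hBT
  have ht1' : (A : ℚ) * m ^ 3 ≤ 2 * B * m ^ 3 + B := by exact_mod_cast ht1
  have ht2' : 2 * (B : ℚ) * m ^ 3 ≤ A * m ^ 3 + B := by exact_mod_cast ht2
  have h12 : (12 : ℚ) ≤ m := by exact_mod_cast hm12
  have hma' : (a : ℚ) ≤ m := by exact_mod_cast hma
  have hmt' : 2 * (t : ℚ) + 1 ≤ m := by exact_mod_cast hmt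
  have h4m : 4 * (m : ℚ) * m ≤ m ^ 3 := by
    have : 0 ≤ (m : ℚ) * m := by positivity
    nlinarith
  have h4m' : 4 * (m : ℚ) ≤ m ^ 3 := by nlinarith
  have h4 : (4 : ℚ) ≤ (m : ℚ) ^ 3 := by linarith
  have ha4 : 4 * (a : ℚ) ≤ (m : ℚ) ^ 3 := by linarith
  have hω : (0 : ℚ) ≤ (w : ℚ) / 2 ^ L := by positivity
  have hω1 : (w : ℚ) / 2 ^ L * B ≤ 1 := by
    rw [div_mul_eq_mul_div, div_le_one hL0]
    exact hwB1
  have hω2 : 1 - 1 / (m : ℚ) ^ 3 ≤ (w : ℚ) / 2 ^ L * B := by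
    rw [div_mul_eq_mul_div, le_div_iff₀ hL0, sub_mul, one_mul, div_mul_eq_mul_div, one_mul]
    have : (B : ℚ) ≤ 2 ^ L / m ^ 3 := by
      rw [le_div_iff₀ hT0]
      exact hBT'
    linarith
  have hest := est R h4 ha4 hω hω1 hω2 ht1' ht2'
  have e1 : ((∑ Y : Finset (Fin b), ∏ u : Fin a, (if R u Y then B else A) : ℕ) : ℚ) =
      ∑ Y : Finset (Fin b), ∏ u : Fin a, (if R u Y then (B : ℚ) else A) := by
    rw [Nat.cast_sum]
    refine Finset.sum_congr rfl fun Y _ => ?_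
    rw [Nat.cast_prod]
    refine Finset.prod_congr rfl fun u _ => ?_
    split_ifs
    · rfl
    · rfl
  have e2 : ((∑ Y : Finset (Fin b), ∏ u : Fin a, (if R u Y then 1 else 2) : ℕ) : ℚ) =
      ∑ Y : Finset (Fin b), ∏ u : Fin a, (if R u Y then (1 : ℚ) else 2) := by
    rw [Nat.cast_sum]
    refine Finset.sum_congr rfl fun Y _ => ?_
    rw [Nat.cast_prod]
    refine Finset.prod_congr rfl fun u _ => ?_
    split_ifs
    · exact Nat.cast_one
    · exact Nat.cast_ofNat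
  rw [e1, e2]
  have e3 : ((w ^ a : ℕ) : ℚ) / 2 ^ (L * a) = ((w : ℚ) / 2 ^ L) ^ a := by
    rw [div_pow, ← pow_mul, Nat.cast_pow]
  rw [mul_div_assoc, e3]
  refine hest.trans ?_
  have hn : 0 ≤ ∑ Y : Finset (Fin b), ∏ u : Fin a, (if R u Y then (1 : ℚ) else 2) :=
    Finset.sum_nonneg fun Y _ => Finset.prod_nonneg fun u _ => by
      split_ifs <;> norm_num
  have h0a : (0 : ℚ) ≤ a := Nat.cast_nonneg _
  have h0t : (0 : ℚ) ≤ t := Nat.cast_nonneg _
  have h5 : 4 * (a : ℚ) / m ^ 3 ≤ 1 / (2 * t + 1) := by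
    rw [div_le_div_iff₀ hT0 (by positivity)]
    calc 4 * (a : ℚ) * (2 * t + 1) ≤ 4 * m * m := by gcongr
      _ ≤ 1 * (m : ℚ) ^ 3 := by linarith
  calc _ ≤ (∑ Y : Finset (Fin b), ∏ u : Fin a, (if R u Y then (1 : ℚ) else 2)) *
        (1 / (2 * t + 1)) := mul_le_mul_of_nonneg_left h5 hn
    _ = _ := by rw [mul_one_div]

end BCloseAux

open BCloseAux

theorem close_redB {g D : ℕ} (hg : 3 ≤ g) (hD : 1 ≤ D) (G : BGraph) (t : ℕ) :
    |(numIndep (redB g D G t).graph : ℚ) * uB g D G t / 2 ^ KB g D G t - numIndep G.graph| ≤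
      numIndep G.graph / (2 * t + 1) := by
  classical
  have hm12 : 12 ≤ scG G t := (le_scG G t).1
  have hma : G.a ≤ scG G t := (le_scG G t).2
  have hmt : 2 * t + 1 ≤ scG G t := by
    unfold scG
    omega
  have hm4 : scG G t ^ 4 < 2 ^ jG G t := scG_pow_lt G t
  have hm3 : 2 * scG G t ^ 3 ≤ scG G t ^ 4 := by
    rw [show scG G t ^ 4 = scG G t * scG G t ^ 3 by ring]
    exact Nat.mul_le_mul_right _ (by omega)
  have htst : tstB g D (scG G t ^ 3) (jG G t) (sB g D G t) = true :=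
    fstB_spec (exists_digits hg hD (by omega))
  obtain ⟨-, hB0⟩ := SB_pos g D (sB g D G t) (jG G t)
  obtain ⟨-, hBle⟩ := SB_le g D (sB g D G t) (jG G t)
  have hLB : LB g D G t = (kB g D - 1) * jG G t + jG G t := by
    unfold LB
    have hk : 1 ≤ kB g D := by
      unfold kB
      omega
    obtain ⟨k, hk'⟩ : ∃ k, kB g D = k + 1 := ⟨kB g D - 1, by omega⟩
    rw [hk', Nat.add_sub_cancel, Nat.succ_mul]
  have hBT : (SB g D (sB g D G t) (jG G t)).2 * scG G t ^ 3 ≤ 2 ^ LB g D G t := by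
    rw [hLB, pow_add]
    exact Nat.mul_le_mul hBle (by omega)
  unfold tstB at htst
  rw [Bool.and_eq_true, decide_eq_true_eq, decide_eq_true_eq] at htst
  obtain ⟨ht1, ht2⟩ := htst
  have h := est_nat (fun (u : Fin G.a) (Y : Finset (Fin G.b)) => ∃ v ∈ Y, G.E u v = true)
    hm12 hma hmt hB0 hBT ht1 ht2
  rw [numIndep_redB g hD G t, numIndep_eq_sum G]
  exact h

end Pool.Agent.Lib.Pa7c826h
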