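import Pool.Agent.Lib.Pa7c826g.GadCnt

/-!
Blocks with one port vertex each, connectors joined to ports: the number of independent sets.
-/

namespace Pool.Agent.Lib.Pa7c826h

open Pool.Agent.Lib.Pa7c826 Pool.Agent.Lib.Pa7c826g

/-- Every block `β` is a complete bipartite graph with `d` left and `r` right vertices; the left
vertex number `0` of the block is its port, joined to the connectors `v` with `R β v`. -/
def blkRel {ι κ : Type*} (d r : ℕ) (R : ι → κ → Prop) : ι × Fin d → (ι × Fin r) ⊕ κ → Prop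
  | x, .inl y => x.1 = y.1
  | x, .inr v => R x.1 v ∧ (x.2 : ℕ) = 0

theorem cnt_swap {α β : Type*} (E : α → β → Prop) : cnt (fun y x => E x y) = cnt E := by
  unfold cnt
  refine Nat.card_congr ?_
  refine Equiv.subtypeEquiv (Equiv.prodComm _ _) ?_
  rintro ⟨A, B⟩
  simp only [Equiv.prodComm_apply, Prod.swap_prod_mk]
  exact ⟨fun h x hx y hy => h y hy x hx, fun h x hx y hy => h y hy x hx⟩

open Classical in
/-- sets of right vertices -/
noncomputable def rightEquiv (ι κ : Type*) [Fintype ι] [Fintype κ] (r : ℕ) :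
    (Finset κ × (ι → Finset (Fin r))) ≃ Finset ((ι × Fin r) ⊕ κ) where
  toFun p := Finset.univ.filter
    (fun z => Sum.elim (fun y : ι × Fin r => y.2 ∈ p.2 y.1) (fun v => v ∈ p.1) z)
  invFun A := (Finset.univ.filter (fun v => Sum.inr v ∈ A),
    fun i => Finset.univ.filter (fun w => Sum.inl (i, w) ∈ A))
  left_inv p := by
    refine Prod.ext ?_ ?_
    · ext v
      simp
    · funext i
      ext w
      simp
  right_inv A := by
    ext z
    rcases z with ⟨i, w⟩ | v <;> simp

variable {ι κ : Type*} [Fintype ι] [Fintype κ]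

open Classical in
theorem blk_ncard (d r : ℕ) (hd : 1 ≤ d) (R : ι → κ → Prop) (p : Finset κ × (ι → Finset (Fin r))) :
    2 ^ {x | ∀ z ∈ rightEquiv ι κ r p, ¬ blkRel d r R x z}.ncard =
      ∏ i, (if p.2 i = ∅ then 2 ^ (if ∃ v ∈ p.1, R i v then d - 1 else d) else 1) := by
  have h1 : {x : ι × Fin d | ∀ z ∈ rightEquiv ι κ r p, ¬ blkRel d r R x z}.ncard =
      ∑ i, (if p.2 i = ∅ then (if ∃ v ∈ p.1, R i v then d - 1 else d) else 0) := by
    have h2 : {x : ι × Fin d | ∀ z ∈ rightEquiv ι κ r p, ¬ blkRel d r R x z} =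
        {x : ι × Fin d | p.2 x.1 = ∅ ∧ ((x.2 : ℕ) = 0 → ¬ ∃ v ∈ p.1, R x.1 v)} := by
      ext ⟨i, l⟩
      simp only [Set.mem_ofPred_eq, rightEquiv, Equiv.coe_fn_mk, Finset.mem_filter,
        Finset.mem_univ, true_and, Sum.forall, Sum.elim_inl, Sum.elim_inr, blkRel]
      constructor
      · rintro ⟨ha, hb⟩
        refine ⟨?_, fun hl => ?_⟩
        · rw [Finset.eq_empty_iff_forall_notMem]
          intro w hw
          exact ha (i, w) hw rfl
        · rintro ⟨v, hv, hR⟩
          exact hb v hv ⟨hR, hl⟩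
      · rintro ⟨ha, hb⟩
        refine ⟨?_, ?_⟩
        · rintro ⟨i', w⟩ hw rfl
          simp only at hw ha
          rw [ha] at hw
          exact absurd hw (Finset.notMem_empty _)
        · rintro v hv ⟨hR, hl⟩
          exact hb hl ⟨v, hv, hR⟩
    rw [h2, Set.ncard_eq_toFinset_card', Set.toFinset_ofPred, Finset.card_filter,
      Fintype.sum_prod_type]
    refine Finset.sum_congr rfl fun i _ => ?_
    by_cases h3 : p.2 i = ∅
    · rw [if_pos h3]
      by_cases h4 : ∃ v ∈ p.1, R i v
      · rw [if_pos h4]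
        have h5 : ∀ l : Fin d, (if p.2 i = ∅ ∧ ((l : ℕ) = 0 → ¬ ∃ v ∈ p.1, R i v) then 1 else 0) =
            if l = (⟨0, hd⟩ : Fin d) then 0 else 1 := by
          intro l
          by_cases h6 : l = ⟨0, hd⟩
          · rw [if_pos h6, if_neg]
            rintro ⟨_, h7⟩
            exact h7 (by rw [h6]) h4
          · rw [if_neg h6, if_pos]
            refine ⟨h3, fun h7 => absurd (Fin.ext h7) h6⟩
        rw [Finset.sum_congr rfl fun l _ => h5 l]
        have h8 : (∑ l : Fin d, if l = (⟨0, hd⟩ : Fin d) then 0 else 1) =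
            (Finset.univ.erase (⟨0, hd⟩ : Fin d)).card := by
          rw [Finset.card_eq_sum_ones, ← Finset.add_sum_erase Finset.univ _
            (Finset.mem_univ (⟨0, hd⟩ : Fin d)), if_pos rfl, zero_add]
          refine Finset.sum_congr rfl fun l hl => ?_
          rw [if_neg (Finset.ne_of_mem_erase hl)]
        rw [h8, Finset.card_erase_of_mem (Finset.mem_univ _), Finset.card_univ, Fintype.card_fin]
      · rw [if_neg h4]
        have h5 : ∀ l : Fin d, (if p.2 i = ∅ ∧ ((l : ℕ) = 0 → ¬ ∃ v ∈ p.1, R i v) then 1 else 0) =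
            1 := fun l => if_pos ⟨h3, fun _ => h4⟩
        rw [Finset.sum_congr rfl fun l _ => h5 l]
        simp
    · rw [if_neg h3]
      refine Finset.sum_eq_zero fun l _ => ?_
      rw [if_neg]
      exact fun h => h3 h.1
  rw [h1, ← Finset.prod_pow_eq_pow_sum]
  refine Finset.prod_congr rfl fun i _ => ?_
  by_cases h3 : p.2 i = ∅
  · rw [if_pos h3, if_pos h3]
  · rw [if_neg h3, if_neg h3, pow_zero]

open Classical in
/-- **Number of independent sets of the block graph.** -/
theorem cnt_blk {d : ℕ} (r : ℕ) (hd : 1 ≤ d) (R : ι → κ → Prop) :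
    cnt (blkRel d r R) = ∑ Y : Finset κ, ∏ i,
      (if ∃ v ∈ Y, R i v then 2 ^ r + 2 ^ (d - 1) - 1 else 2 ^ r + 2 ^ d - 1) := by
  rw [← cnt_swap, cnt_eq_sum, ← Equiv.sum_comp (rightEquiv ι κ r), Fintype.sum_prod_type]
  refine Finset.sum_congr rfl fun Y _ => ?_
  rw [Finset.sum_congr rfl fun f _ => blk_ncard d r hd R (Y, f)]
  simp only
  have h := Finset.prod_univ_sum (fun _ : ι => (Finset.univ : Finset (Finset (Fin r))))
    (fun i A => if A = ∅ then 2 ^ (if ∃ v ∈ Y, R i v then d - 1 else d) else 1)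
  rw [Fintype.piFinset_univ] at h
  rw [← h]
  refine Finset.prod_congr rfl fun i _ => ?_
  rw [sum_ite_empty _ _ (Finset.mem_univ _), Finset.card_univ, Fintype.card_finset,
    Fintype.card_fin]
  by_cases h1 : ∃ v ∈ Y, R i v
  · rw [if_pos h1, if_pos h1, add_comm]
  · rw [if_neg h1, if_neg h1, add_comm]

end Pool.Agent.Lib.Pa7c826h
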