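import Pool.Agent.Lib.Pa7c826h.BChain
import Pool.Agent.Lib.Pa7c826g.GadRed

/-!
Hardness at constant degrees: definitions.

`g` and `D` are constants; a block is a complete bipartite graph with `D` left and `D + g` right
vertices.
-/

namespace Pool.Agent.Lib.Pa7c826h

open Pool.Agent.Lib.Pa7c826 Pool.Agent.Lib.Pa7c826g

/-- number of independent sets of a block -/
def PB (g D : ℕ) : ℕ := 2 ^ (D + g) + 2 ^ D - 1

/-- number of independent sets of a block that avoid the port -/
def QB (g D : ℕ) : ℕ := 2 ^ (D + g) + 2 ^ (D - 1) - 1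

/-- number of blocks of a level -/
def cB (g : ℕ) : ℕ := 2 ^ (g + 3) + 8

/-- the digits of `s` in base `2 ^ (g + 3)` -/
def dig (g s j : ℕ) : ℕ := s / 2 ^ ((g + 3) * j) % 2 ^ (g + 3)

/-- the weights of a chain with `N` levels whose digits are those of `s` -/
def SB (g D s N : ℕ) : ℕ × ℕ := SS (PB g D) (QB g D) 9 (cB g) (dig g s) N

/-- the ratio of the weights is `2` up to `1 / T` -/
def tstB (g D T N s : ℕ) : Bool :=
  decide ((SB g D s N).1 * T ≤ 2 * (SB g D s N).2 * T + (SB g D s N).2) &&
    decide (2 * (SB g D s N).2 * T ≤ (SB g D s N).1 * T + (SB g D s N).2)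

/-- the first number that passes the test -/
def fstB (g D T N : ℕ) : ℕ :=
  ((Finset.range (2 ^ ((g + 3) * N))).filter
    (fun s => ∀ s' < s + 1, tstB g D T N s' = false)).card

/-- the digits used for the input `(G, t)` -/
def sB (g D : ℕ) (G : BGraph) (t : ℕ) : ℕ := fstB g D (scG G t ^ 3) (jG G t)

/-- a constant -/
def kB (g D : ℕ) : ℕ := cB g * (D + g + 1) + 2

/-- binary precision of the inverse of the weight of a chain -/
def LB (g D : ℕ) (G : BGraph) (t : ℕ) : ℕ := kB g D * jG G t

/-- `2 ^ LB` divided by the weight of a chain with blocked top ports -/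
def wB (g D : ℕ) (G : BGraph) (t : ℕ) : ℕ := 2 ^ LB g D G t / (SB g D (sB g D G t) (jG G t)).2

/-- numerator of the scaling factor -/
def uB (g D : ℕ) (G : BGraph) (t : ℕ) : ℕ := wB g D G t ^ G.a

/-- binary logarithm of the denominator of the scaling factor -/
def KB (g D : ℕ) (G : BGraph) (t : ℕ) : ℕ := LB g D G t * G.a

/-- whether the connector `y` is joined to the port of the block `β` -/
def cnB (g a N s : ℕ) (F : ℕ → ℕ → Bool) (β y : ℕ) : Bool :=
  (decide (y < a * N) && ((decide (y = β / cB g) && decide (β % cB g < 9)) ||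
    (decide (y = β / cB g + 1) && (decide (β / cB g % N + 1 < N) &&
      decide (β % cB g < 9 + dig g s (β / cB g % N)))))) ||
  (decide (a * N ≤ y) && ((decide (β / cB g % N + 1 = N) &&
    decide (β % cB g < 9 + dig g s (β / cB g % N))) && F (β / cB g / N) (y - a * N)))

/-- the adjacency function -/
def FB (g D a N s : ℕ) (F : ℕ → ℕ → Bool) (I J : ℕ) : Bool :=
  (decide (J < a * N * cB g * (D + g)) && decide (I / D = J / (D + g))) ||
    (decide (a * N * cB g * (D + g) ≤ J) && (decide (I % D = 0) &&
      cnB g a N s F (I / D) (J - a * N * cB g * (D + g))))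

/-- the new graph -/
def redB (g D : ℕ) (G : BGraph) (t : ℕ) : BGraph :=
  mkGraph (G.a * jG G t * cB g * D) (G.a * jG G t * cB g * (D + g) + (G.a * jG G t + G.b))
    (FB g D G.a (jG G t) (sB g D G t) G.F)

end Pool.Agent.Lib.Pa7c826h
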