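import Pool.Agent.Lib.Pa7c826h.BPolyA

/-!
Hardness at constant degrees: the new graph in polynomial time.

PROOF. As `poly_redG` (`Pa7c826g/GadPoly.lean`): `poly_inCode`; `PolyN.div`, `PolyN.mod` need
`0 < D`, `0 < D + g`, `0 < cB g`, `0 < jG`; `poly_sB`, `poly_jG`; `dig g s j = s / 2 ^ ((g + 3) * j) %
2 ^ (g + 3)` by `PolyN.divPow`, `PolyN.mod`.
-/

namespace Pool.Agent.Lib.Pa7c826h

open Pool.Agent.Lib.PolyTime Pool.Agent.Lib.Pa7c826 Pool.Agent.Lib.Pa7c826y
  Pool.Agent.Lib.Pa7c826g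

theorem poly_redB (g : ℕ) {D : ℕ} (hD : 1 ≤ D) (Dm : BGraph × ℕ → Prop) :
    PolyC Dm [fun x => inCode x.1 x.2] (fun x => inCode (redB g D x.1 x.2) (2 * x.2)) := by
  have hw : PolyC Dm [fun x => inCode x.1 x.2] (fun x => inCode x.1 x.2) := PolyC.var (by simp)
  have ha := poly_a hw
  have hb := poly_b hw
  have ht := poly_s hw
  have h2t := (PolyN.const 2).mul ht
  have hN := poly_jG Dm
  have hs := poly_sB g D Dm
  have haN := ha.mul hN
  have hR := (haN.mul (PolyN.const (cB g))).mul (PolyN.const (D + g))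
  let n1 : BGraph × ℕ → ℕ := fun x => x.1.a * jG x.1 x.2 * cB g * D
  let n1' : BGraph × ℕ → ℕ := fun x =>
    x.1.a * jG x.1 x.2 * cB g * (D + g) + (x.1.a * jG x.1 x.2 + x.1.b)
  have hn1 : PolyN Dm [fun x => inCode x.1 x.2] n1 :=
    (haN.mul (PolyN.const (cB g))).mul (PolyN.const D)
  have hn1' : PolyN Dm [fun x => inCode x.1 x.2] n1' := hR.add (haN.add hb)
  refine poly_inCode (a := n1) (b := n1') hn1 hn1' h2t ?_
  have hN0 : ∀ (G : BGraph) (t : ℕ), 0 < jG G t := fun G t => Nat.succ_pos _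
  have hc0 : 0 < cB g := by
    have h1 : 1 ≤ 2 ^ (g + 3) := Nat.one_le_two_pow
    unfold cB
    omega
  have S1 := upN (n := n1) hs
  have N1 := upN (n := n1) hN
  have A1 := upN (n := n1) haN
  have R1 := upN (n := n1) hR
  have W1 := up (n := n1) hw
  have I1 := last (D := Dm) (ctx := [fun x => inCode x.1 x.2]) (n := n1)
  let n2 : (BGraph × ℕ) × ℕ → ℕ := fun p => n1' p.1
  have S := upN (n := n2) S1
  have N := upN (n := n2) N1
  have A := upN (n := n2) A1
  have R := upN (n := n2) R1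
  have W := up (n := n2) W1
  have I := upN (n := n2) I1
  have J := last (D := fun p : (BGraph × ℕ) × ℕ => Dm p.1 ∧ p.2 < n1 p.1)
    (ctx := PolyTime.lift [fun x : BGraph × ℕ => inCode x.1 x.2] ++
      [fun p : (BGraph × ℕ) × ℕ => un p.2]) (n := n2)
  have kc := fun {Dx : ((BGraph × ℕ) × ℕ) × ℕ → Prop} {cx} (i : ℕ) =>
    PolyN.const (D := Dx) (ctx := cx) i
  -- block and position
  have β := PolyN.div I (kc D) (fun _ _ => hD)
  have γ := PolyN.div J (kc (D + g)) (fun _ _ => by omega)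
  have π0 := PolyN.mod I (kc D) (fun _ _ => hD)
  have y := PolyN.sub J R
  have l := PolyN.div β (kc (cB g)) (fun _ _ => hc0)
  have q := PolyN.mod β (kc (cB g)) (fun _ _ => hc0)
  have lN := PolyN.mod l N (fun x _ => hN0 x.1.1.1 x.1.1.2)
  have lD := PolyN.div l N (fun x _ => hN0 x.1.1.1 x.1.1.2)
  have dg := PolyN.mod (PolyN.divPow S ((kc (g + 3)).mul lN)) (kc (2 ^ (g + 3)))
    (fun _ _ => by positivity)
  have t9 := PolyB.lt q ((kc 9).add dg)
  have c1 := (PolyB.lt y A).and (((PolyB.natEq y l).and (PolyB.lt q (kc 9))).or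
    ((PolyB.natEq y l.succ).and ((PolyB.lt lN.succ N).and t9)))
  have c2 := (PolyB.le A y).and (((PolyB.natEq lN.succ N).and t9).and
    (poly_F W lD (PolyN.sub y A)))
  exact ((PolyB.lt J R).and (PolyB.natEq β γ)).or
    ((PolyB.le R J).and ((PolyB.natEq π0 (kc 0)).and (c1.or c2)))

end Pool.Agent.Lib.Pa7c826h
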