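import Pool.Agent.Lib.Pa7c826t.FTransfer
import Pool.Agent.Lib.Pa7c826y.Mul

/-!
Transfer with a factor for deterministic schemes.

PROOF. As `HasFPTAS.transfer2` (`Pa7c826t/FTransfer.lean`) with the output string
`rescale (K G t) (u G t) (l G t) (F (G, t))` instead of `List.replicate (K G t) true ++ F (G, t)`;
`Good.transfer3` and the construction of the output string in the proof of `HasFPRAS.transfer3`
(`Pa7c826y/Mul.lean`).
-/

namespace Pool.Agent.Lib.Pa7c826h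

open Pool.Agent.Lib.PolyTime Pool.Agent.Lib.Pa7c826 Pool.Agent.Lib.Pa7c826y

theorem fptas_transfer3 {C C' : BGraph → Prop} (red : BGraph → ℕ → BGraph)
    (K u l : BGraph → ℕ → ℕ)
    (hred : PolyC (fun x : BGraph × ℕ => C x.1 ∧ 1 ≤ x.2) [fun x => inCode x.1 x.2]
      (fun x => inCode (red x.1 x.2) (2 * x.2)))
    (hK : PolyN (fun x : BGraph × ℕ => C x.1 ∧ 1 ≤ x.2) [fun x => inCode x.1 x.2]
      (fun x => K x.1 x.2))
    (hl : PolyN (fun x : BGraph × ℕ => C x.1 ∧ 1 ≤ x.2) [fun x => inCode x.1 x.2]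
      (fun x => l x.1 x.2))
    (hu : PolyBin (fun x : BGraph × ℕ => C x.1 ∧ 1 ≤ x.2) [fun x => inCode x.1 x.2]
      (fun x => u x.1 x.2))
    (hul : ∀ G t, C G → 1 ≤ t → u G t < 2 ^ l G t)
    (hC : ∀ G t, C G → 1 ≤ t → C' (red G t))
    (h12 : ∀ G t, C G → 1 ≤ t → |(numIndep (red G t).graph : ℚ) * u G t / 2 ^ K G t -
      numIndep G.graph| ≤ numIndep G.graph / (2 * t + 1))
    (h : HasFPTAS C') : HasFPTAS C := by
  classical
  obtain ⟨f', hf', hgood⟩ := h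
  let F : BGraph × ℕ → List Bool := fun x =>
    if hx : C' (red x.1 x.2) ∧ 1 ≤ 2 * x.2 then f' ⟨(red x.1 x.2, 2 * x.2), hx⟩ else []
  let D : BGraph × ℕ → Prop := fun x => C x.1 ∧ 1 ≤ x.2
  let enc : BGraph × ℕ → List Bool := fun x => inCode x.1 x.2
  have hx : ∀ G t, C G → 1 ≤ t → C' (red G t) ∧ 1 ≤ 2 * t := fun G t hG ht =>
    ⟨hC G t hG ht, by omega⟩
  have hF : ∀ G t (hG : C G) (ht : 1 ≤ t), F (G, t) = f' ⟨(red G t, 2 * t), hx G t hG ht⟩ :=
    fun G t hG ht => dif_pos (hx G t hG ht)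
  have hcall : PolyC D [enc] F := by
    refine PolyC.applyTM2 hf' _ _ hred ?_
    rintro ⟨G, t⟩ ⟨hG, ht⟩
    exact ⟨⟨(red G t, 2 * t), hx G t hG ht⟩, rfl, (hF G t hG ht).symm⟩
  have haft := PolyC.afterTrue hcall
  have hprod : PolyBin D [enc] (fun x => bval (afterTrue (F x)) * u x.1 x.2) :=
    PolyBin.mul ⟨_, haft, fun _ _ => rfl⟩ hu
  have hcan := PolyBin.canon ((PolyN.length haft).add hl) hprod
  have hones : PolyN D [enc] (fun x => K x.1 x.2 + ((F x).takeWhile id).length) :=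
    hK.add (PolyN.length (PolyC.takeTrue hcall))
  have hout : PolyC D [enc] (fun x => rescale (K x.1 x.2) (u x.1 x.2) (l x.1 x.2) (F x)) :=
    PolyC.append hones (PolyC.cons false hcan)
  refine ⟨fun x => rescale (K x.1.1 x.1.2) (u x.1.1 x.1.2) (l x.1.1 x.1.2) (F x.1),
    PolyC.toTM2 enc (fun x => rescale (K x.1 x.2) (u x.1 x.2) (l x.1 x.2) (F x)) id hout, ?_⟩
  rintro ⟨⟨G, t⟩, hG, ht⟩
  have h1 := hgood ⟨(red G t, 2 * t), hx G t hG ht⟩
  show Good G t (rescale (K G t) (u G t) (l G t) (F (G, t)))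
  rw [hF G t hG ht]
  exact Good.transfer3 ht (hul G t hG ht) h1 (h12 G t hG ht)

end Pool.Agent.Lib.Pa7c826h
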