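import Pool.Agent.Lib.Pa7c826h.Class
import Pool.Agent.Lib.Pa7c826h.BPolyB
import Pool.Agent.Lib.Pa7c826h.BTr
import Pool.Agent.Lib.Pa7c826h.BClose

/-!
Hardness at constant degrees: the theorem.
-/

namespace Pool.Agent.Lib.Pa7c826h

open Pool.Agent.Lib.PolyTime Pool.Agent.Lib.Pa7c826 Pool.Agent.Lib.Pa7c826y
  Pool.Agent.Lib.Pa7c826g

theorem band_redB {g D Δ : ℕ} (hD : 2 ^ (g + 3) + 17 ≤ D) (hΔ : Δ * (2 ^ (g + 3) + 8) ≤ D)
    {U : ℕ} (hU : D + g + 2 + Δ ≤ U) {x : ℝ} (hx : x ≤ (D : ℝ) + g) {G : BGraph}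
    (hG : MaxDeg Δ G) (t : ℕ) : Band D U x (redB g D G t) := by
  refine Or.inl ⟨fun j => colDeg_redB g hD hΔ hG t j, fun i => ?_⟩
  obtain ⟨h1, h2⟩ := rowDeg_redB g (le_trans (Nat.le_add_left 1 _) (le_trans (by norm_num : 2 ^ (g + 3) + 1 ≤ 2 ^ (g + 3) + 17) hD)) hG t i
  refine ⟨hx.trans ?_, h2.trans hU⟩
  exact_mod_cast h1

/-- **Hardness at constant degrees**, in terms of the parameters of the construction. -/
theorem hard_par {g D Δ : ℕ} (hg : 3 ≤ g) (hD : 2 ^ (g + 3) + 17 ≤ D)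
    (hΔ : Δ * (2 ^ (g + 3) + 8) ≤ D) {U : ℕ} (hU : D + g + 2 + Δ ≤ U) {x : ℝ}
    (hx : x ≤ (D : ℝ) + g) :
    (HasFPRAS (Band D U x) → HasFPRAS (MaxDeg Δ)) ∧
      (HasFPTAS (Band D U x) → HasFPTAS (MaxDeg Δ)) := by
  have hD1 : 1 ≤ D := le_trans (Nat.le_add_left 1 _)
    (le_trans (by norm_num : 2 ^ (g + 3) + 1 ≤ 2 ^ (g + 3) + 17) hD)
  refine ⟨HasFPRAS.transfer3 (redB g D) (KB g D) (uB g D) (fun G t => KB g D G t + 1)
      (poly_redB g hD1 _) (poly_KB g D _) (poly_KB g D _).succ (poly_uB g D _)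
      (fun G t _ _ => uB_lt g D G t) (fun G t hG _ => band_redB hD hΔ hU hx hG t)
      (fun G t _ _ => close_redB hg hD1 G t), ?_⟩
  exact fptas_transfer3 (redB g D) (KB g D) (uB g D) (fun G t => KB g D G t + 1)
      (poly_redB g hD1 _) (poly_KB g D _) (poly_KB g D _).succ (poly_uB g D _)
      (fun G t _ _ => uB_lt g D G t) (fun G t hG _ => band_redB hD hΔ hU hx hG t)
      (fun G t _ _ => close_redB hg hD1 G t)

/-- **Hardness at constant degrees**: if `k (2 ^ (g + 3) + 8) ≤ D`, then bipartite graphs with all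
degrees on one side at most `D` and all degrees on the other side between `D + g` and
`D + g + k + 2` are as hard as bipartite graphs of maximal degree `k`. -/
theorem hard_gap {k g D : ℕ} (hk : 2 ≤ k) (hg : 3 ≤ g) (hD : k * (2 ^ (g + 3) + 8) ≤ D) :
    (HasFPRAS (Band D (D + g + k + 2) (D + g)) → HasFPRAS (MaxDeg k)) ∧
      (HasFPTAS (Band D (D + g + k + 2) (D + g)) → HasFPTAS (MaxDeg k)) := by
  have h64 : 64 ≤ 2 ^ (g + 3) := by
    calc 64 = 2 ^ 6 := by norm_num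
      _ ≤ 2 ^ (g + 3) := Nat.pow_le_pow_right (by norm_num) (by omega)
  refine hard_par hg ?_ hD (by omega) le_rfl
  have h1 : 2 * (2 ^ (g + 3) + 8) ≤ k * (2 ^ (g + 3) + 8) := Nat.mul_le_mul_right _ hk
  omega

/-- **Hardness at constant degrees**: below the gap `log₂ D - Δ - 8` the problem is as hard as for
all bipartite graphs of maximal degree `Δ`. -/
theorem bounded_hard {Δ D : ℕ} (hD : 2 ^ (Δ + 8) ≤ D) :
    (HasFPRAS (Band D (D + Nat.log 2 D) (D + Real.logb 2 D - (Δ + 8))) → HasFPRAS (MaxDeg Δ)) ∧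
      (HasFPTAS (Band D (D + Nat.log 2 D) (D + Real.logb 2 D - (Δ + 8))) →
        HasFPTAS (MaxDeg Δ)) := by
  have hD0 : D ≠ 0 := by
    have : 0 < 2 ^ (Δ + 8) := by positivity
    omega
  have hlog : Δ + 8 ≤ Nat.log 2 D := (Nat.le_log_iff_pow_le (by norm_num) hD0).2 hD
  have hpow : 2 ^ Nat.log 2 D ≤ D := Nat.pow_log_le_self 2 hD0
  obtain ⟨g, hgl⟩ : ∃ g, Nat.log 2 D = g + (Δ + 5) := ⟨Nat.log 2 D - (Δ + 5), by omega⟩
  have hg : 3 ≤ g := by omega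
  rw [hgl] at hpow
  have h8 : 8 ≤ 2 ^ g := by
    calc 8 = 2 ^ 3 := by norm_num
      _ ≤ 2 ^ g := Nat.pow_le_pow_right (by norm_num) hg
  have e1 : 2 ^ (g + (Δ + 5)) = 32 * 2 ^ Δ * 2 ^ g := by rw [pow_add, pow_add]; ring
  have e2 : 2 ^ (g + 3) = 8 * 2 ^ g := by rw [pow_add]; ring
  have h2Δ : 1 ≤ 2 ^ Δ := Nat.one_le_two_pow
  have hΔ2 : Δ ≤ 2 ^ Δ := Nat.lt_two_pow_self.le
  refine hard_par hg ?_ ?_ ?_ ?_
  · have h1 : 2 ^ g ≤ 2 ^ Δ * 2 ^ g := Nat.le_mul_of_pos_left _ (by omega)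
    have h2 : 32 * 2 ^ Δ * 2 ^ g = 32 * (2 ^ Δ * 2 ^ g) := by ring
    omega
  · have h1 : Δ * (2 ^ (g + 3) + 8) ≤ 2 ^ Δ * (9 * 2 ^ g) := by
      refine Nat.mul_le_mul hΔ2 ?_
      omega
    have h2 : 2 ^ Δ * (9 * 2 ^ g) = 9 * (2 ^ Δ * 2 ^ g) := by ring
    have h3 : 32 * 2 ^ Δ * 2 ^ g = 32 * (2 ^ Δ * 2 ^ g) := by ring
    omega
  · rw [hgl]
    omega
  · have h1 : Real.logb 2 D < (Nat.log 2 D : ℝ) + 1 := by
      have h2 := Nat.lt_pow_succ_log_self (b := 2) (by norm_num) D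
      have h3 : (D : ℝ) < 2 ^ (Nat.log 2 D + 1) := by exact_mod_cast h2
      have hDpos : (0 : ℝ) < D := by exact_mod_cast Nat.pos_of_ne_zero hD0
      rw [Real.logb_lt_iff_lt_rpow (by norm_num) hDpos]
      refine h3.trans_le (le_of_eq ?_)
      rw [← Real.rpow_natCast]
      push_cast
      rfl
    rw [hgl] at h1
    push_cast at h1 ⊢
    linarith

end Pool.Agent.Lib.Pa7c826h
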