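import Pool.Agent.Lib.Pa7c826h.BDefs
import Pool.Agent.Lib.Pa7c826g.GadPoly

/-!
Hardness at constant degrees: the digits and the scaling factor in polynomial time.

PROOFS. Put `P = PB g D`, `Q = QB g D`, `c = cB g`, `m = dig g s`. `dig g s j < 2 ^ (g + 3)`, so
`9 + m j ≤ c`. `SB_pos`: `0 < Q ≤ P` (`2 ^ (D + g) ≥ 1`, `2 ^ (D - 1) ≥ 1`), induction. `SB_le`:
`P ≤ 2 ^ (D + g + 1)`, `Q ≤ P`, so `SS` grows at most by the factor `2 P ^ c ≤ 2 ^ (c (D + g + 1) + 1)` per
level, `kB - 1 = c (D + g + 1) + 1`. `uB_lt`: `wB ≤ 2 ^ LB`, `uB ≤ 2 ^ (LB * a) = 2 ^ KB`.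
`2 ^ jG = PG` is polynomial in the input (`poly_PG`), so all numbers are: everything is unary
(`PolyN`), except `uB` (`PolyBin.powN`; `wB < 2 ^ (LB + 1)`).
`poly_SB`: for general `α` and `s, N` unary with `2 ^ N ≤ B` for a unary `B`: `PolyC.natRec` over the
levels with the code `un A ++ false :: un B` of a pair (`PolyC.takeTrue`, `PolyC.afterTrue`,
`takeWhile_un`, `afterTrue_un`); bound of the length: `2 * 2 ^ ((kB - 1) N) + 1 ≤ 2 B ^ (kB - 1) + 1`
(`PolyC.length_le`). A digit: `2 ^ ((g + 3) * j)` as in `PolyN.divPow` (`s / 2 ^ ((g + 3) * j)`), then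
`PolyN.mod` by the constant. The factor `Q ^ (9 + m) * P ^ (c - (9 + m))` for `m < 2 ^ (g + 3)` is a
function with finitely many values: `poly_tab` (induction on `k`, `PolyC.ite`, `PolyB.natEq`).
`fstB`: `PolyN.count` with `PolyB.forall_lt`; `2 ^ ((g + 3) N) = (2 ^ N) ^ (g + 3)`, `PolyN.pow`
(`poly_two_pow`).
-/

namespace Pool.Agent.Lib.Pa7c826h

open Pool.Agent.Lib.PolyTime Pool.Agent.Lib.Pa7c826 Pool.Agent.Lib.Pa7c826y
  Pool.Agent.Lib.Pa7c826g

theorem dig_lt (g s j : ℕ) : dig g s j < 2 ^ (g + 3) := Nat.mod_lt _ (by positivity)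

theorem dig_le (g s j : ℕ) : 9 + dig g s j ≤ cB g := by
  have := dig_lt g s j
  unfold cB
  omega

namespace BPolyAAux

theorem QB_pos (g D : ℕ) : 0 < QB g D := by
  unfold QB
  have h1 : 1 ≤ 2 ^ (D + g) := Nat.one_le_two_pow
  have h2 : 1 ≤ 2 ^ (D - 1) := Nat.one_le_two_pow
  omega

theorem QB_le (g D : ℕ) : QB g D ≤ PB g D := by
  unfold QB PB
  have h2 : 2 ^ (D - 1) ≤ 2 ^ D := Nat.pow_le_pow_right (by norm_num) (by omega)
  omega

theorem PB_pos (g D : ℕ) : 0 < PB g D := (QB_pos g D).trans_le (QB_le g D)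

theorem PB_le (g D : ℕ) : PB g D ≤ 2 ^ (D + g + 1) := by
  unfold PB
  have h2 : 2 ^ D ≤ 2 ^ (D + g) := Nat.pow_le_pow_right (by norm_num) (by omega)
  rw [pow_succ]
  omega

theorem SS_pos {P Q A c : ℕ} (hP : 0 < P) (hQ : 0 < Q) (m : ℕ → ℕ) (N : ℕ) :
    0 < (SS P Q A c m N).1 ∧ 0 < (SS P Q A c m N).2 := by
  induction N with
  | zero => exact ⟨Nat.one_pos, Nat.one_pos⟩
  | succ N ih =>
    obtain ⟨h1, h2⟩ := ih
    constructor
    · show 0 < P ^ c * (SS P Q A c m N).1 + Q ^ A * P ^ (c - A) * (SS P Q A c m N).2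
      positivity
    · show 0 < Q ^ (A + m N) * P ^ (c - (A + m N)) * ((SS P Q A c m N).1 + (SS P Q A c m N).2)
      positivity

theorem fac_le {P Q c k : ℕ} (hQP : Q ≤ P) (hk : k ≤ c) : Q ^ k * P ^ (c - k) ≤ P ^ c := by
  calc Q ^ k * P ^ (c - k) ≤ P ^ k * P ^ (c - k) :=
        Nat.mul_le_mul_right _ (Nat.pow_le_pow_left hQP k)
    _ = P ^ c := by rw [← pow_add]; congr 1; omega

theorem SS_le {P Q A c E : ℕ} (hQP : Q ≤ P) (hA : A ≤ c) (m : ℕ → ℕ) (hm : ∀ j, A + m j ≤ c)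
    (hE : 2 * P ^ c ≤ 2 ^ E) (N : ℕ) :
    (SS P Q A c m N).1 ≤ 2 ^ (E * N) ∧ (SS P Q A c m N).2 ≤ 2 ^ (E * N) := by
  induction N with
  | zero => exact ⟨le_of_eq (by simp [SS]), le_of_eq (by simp [SS])⟩
  | succ N ih =>
    obtain ⟨h1, h2⟩ := ih
    have h3 : (SS P Q A c m N).1 + (SS P Q A c m N).2 ≤ 2 * 2 ^ (E * N) := by omega
    have h4 : P ^ c * ((SS P Q A c m N).1 + (SS P Q A c m N).2) ≤ 2 ^ (E * (N + 1)) := by
      calc P ^ c * ((SS P Q A c m N).1 + (SS P Q A c m N).2) ≤ P ^ c * (2 * 2 ^ (E * N)) :=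
            Nat.mul_le_mul_left _ h3
        _ = (2 * P ^ c) * 2 ^ (E * N) := by ring
        _ ≤ 2 ^ E * 2 ^ (E * N) := Nat.mul_le_mul_right _ hE
        _ = 2 ^ (E * (N + 1)) := by rw [← pow_add]; congr 1; ring
    constructor
    · show P ^ c * (SS P Q A c m N).1 + Q ^ A * P ^ (c - A) * (SS P Q A c m N).2 ≤ _
      refine le_trans ?_ h4
      rw [mul_add]
      exact Nat.add_le_add_left (Nat.mul_le_mul_right _ (fac_le hQP hA)) _
    · show Q ^ (A + m N) * P ^ (c - (A + m N)) * ((SS P Q A c m N).1 + (SS P Q A c m N).2) ≤ _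
      refine le_trans ?_ h4
      exact Nat.mul_le_mul_right _ (fac_le hQP (hm N))

theorem kB_sub (g D : ℕ) : kB g D - 1 = cB g * (D + g + 1) + 1 := by
  unfold kB
  omega

theorem two_PB_pow (g D : ℕ) : 2 * PB g D ^ cB g ≤ 2 ^ (kB g D - 1) := by
  rw [kB_sub, pow_succ, mul_comm (cB g), pow_mul, mul_comm 2]
  exact Nat.mul_le_mul_right _ (Nat.pow_le_pow_left (PB_le g D) _)

end BPolyAAux

theorem SB_pos (g D s N : ℕ) : 0 < (SB g D s N).1 ∧ 0 < (SB g D s N).2 :=
  BPolyAAux.SS_pos (BPolyAAux.PB_pos g D) (BPolyAAux.QB_pos g D) _ _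

theorem SB_le (g D s N : ℕ) : (SB g D s N).1 ≤ 2 ^ ((kB g D - 1) * N) ∧
    (SB g D s N).2 ≤ 2 ^ ((kB g D - 1) * N) :=
  BPolyAAux.SS_le (BPolyAAux.QB_le g D) (by
      have h1 : 1 ≤ 2 ^ (g + 3) := Nat.one_le_two_pow
      unfold cB
      omega) _ (fun j => dig_le g s j)
    (BPolyAAux.two_PB_pow g D) N

theorem uB_lt (g D : ℕ) (G : BGraph) (t : ℕ) : uB g D G t < 2 ^ (KB g D G t + 1) := by
  have h1 : wB g D G t ≤ 2 ^ LB g D G t := Nat.div_le_self _ _
  have h2 : uB g D G t ≤ 2 ^ KB g D G t := by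
    unfold uB KB
    rw [pow_mul]
    exact Nat.pow_le_pow_left h1 _
  exact h2.trans_lt (Nat.pow_lt_pow_right (by norm_num) (Nat.lt_succ_self _))

section

variable {α : Type*} {Dm : α → Prop} {ctx : List (α → List Bool)}

/-- functions with finitely many arguments -/
theorem poly_tab (f : ℕ → ℕ) (k : ℕ) {m : α → ℕ} (hm : PolyN Dm ctx m) (h : ∀ a, Dm a → m a < k) :
    PolyN Dm ctx (fun a => f (m a)) := by
  induction k generalizing Dm with
  | zero => exact (PolyN.const 0).congr (fun a ha => absurd (h a ha) (Nat.not_lt_zero _))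
  | succ k ih =>
    have h1 : PolyB Dm ctx (fun a => decide (m a = k)) := PolyB.natEq hm (PolyN.const k)
    have h2 : PolyC (fun a => Dm a ∧ decide (m a = k) = true) ctx (fun _ => un (f k)) :=
      PolyC.const _
    have h3 : PolyN (fun a => Dm a ∧ decide (m a = k) = false) ctx (fun a => f (m a)) := by
      apply ih
      · exact PolyC.mono hm fun _ h => h.1
      · rintro a ⟨ha, hne⟩
        have h4 := h a ha
        have h5 : m a ≠ k := by simpa using hne
        omega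
    refine (PolyC.ite h1 h2 h3).congr (fun a _ => ?_)
    by_cases hk : m a = k
    · simp [hk]
    · simp [hk]

theorem poly_SB (g D : ℕ) {s N B : α → ℕ} (hs : PolyN Dm ctx s) (hN : PolyN Dm ctx N)
    (hB : PolyN Dm ctx B) (h : ∀ a, Dm a → 2 ^ N a ≤ B a) :
    PolyN Dm ctx (fun a => (SB g D (s a) (N a)).1) ∧
      PolyN Dm ctx (fun a => (SB g D (s a) (N a)).2) := by
  have key : PolyC Dm ctx (fun a => un (SB g D (s a) (N a)).1 ++
      false :: un (SB g D (s a) (N a)).2) := by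
    refine PolyC.natRec (fun a j => un (SB g D (s a) j).1 ++ false :: un (SB g D (s a) j).2) hN
      ((PolyC.const (un 1 ++ false :: un 1)).congr (fun a _ => rfl)) ?_ ?_
    · let D' : α × ℕ → Prop := fun p => Dm p.1 ∧ p.2 < N p.1
      let F : α × ℕ → List Bool := fun p =>
        un (SB g D (s p.1) p.2).1 ++ false :: un (SB g D (s p.1) p.2).2
      let ctx' : List (α × ℕ → List Bool) := PolyTime.lift ctx ++ [fun p => un p.2, F]
      have v : PolyC D' ctx' F := PolyC.var (by simp [ctx'])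
      have s1 : PolyN D' ctx' (fun p => (SB g D (s p.1) p.2).1) :=
        (PolyC.takeTrue v).congr (fun p _ => takeWhile_un _ _)
      have s2 : PolyN D' ctx' (fun p => (SB g D (s p.1) p.2).2) :=
        (PolyC.afterTrue v).congr (fun p _ => afterTrue_un _ _)
      have hj : PolyN D' ctx' (fun p => p.2) := PolyC.var (by simp [ctx'])
      have hs' : PolyN D' ctx' (fun p => s p.1) := up2 hs
      have hm : PolyN D' ctx' (fun p => dig g (s p.1) p.2) :=
        PolyN.mod (PolyN.divPow hs' ((PolyN.const (g + 3)).mul hj)) (PolyN.const (2 ^ (g + 3)))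
          (fun _ _ => by positivity)
      have hf := poly_tab (fun i => QB g D ^ (9 + i) * PB g D ^ (cB g - (9 + i))) (2 ^ (g + 3)) hm
        (fun p _ => dig_lt g _ _)
      have n1 := ((PolyN.const (PB g D ^ cB g)).mul s1).add
        ((PolyN.const (QB g D ^ 9 * PB g D ^ (cB g - 9))).mul s2)
      have n2 := hf.mul (s1.add s2)
      exact PolyC.append n1 (PolyC.cons false n2)
    · obtain ⟨pB, hpB⟩ := PolyC.length_le hB
      refine ⟨2 * pB ^ (kB g D - 1) + 1, fun a ha j hj => ?_⟩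
      have h1 := SB_le g D (s a) j
      have h2 := hpB a ha
      rw [un_length] at h2
      have h3 : 2 ^ ((kB g D - 1) * j) ≤ (pB.eval (total (vals ctx a))) ^ (kB g D - 1) := by
        rw [mul_comm, pow_mul]
        refine Nat.pow_le_pow_left ?_ _
        exact (Nat.pow_le_pow_right (by norm_num) hj).trans ((h a ha).trans h2)
      simp only [List.length_append, List.length_cons, un_length, Polynomial.eval_add,
        Polynomial.eval_mul, Polynomial.eval_pow, Polynomial.eval_one, Polynomial.eval_ofNat]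
      omega
  exact ⟨(PolyC.takeTrue key).congr (fun p _ => takeWhile_un _ _),
    (PolyC.afterTrue key).congr (fun p _ => afterTrue_un _ _)⟩

end

theorem poly_sB (g D : ℕ) (Dm : BGraph × ℕ → Prop) :
    PolyN Dm [fun x => inCode x.1 x.2] (fun x => sB g D x.1 x.2) := by
  have hP := poly_PG Dm
  have hJ := poly_jG Dm
  have hT := PolyN.pow (poly_scG Dm) 3
  have hn : PolyN Dm [fun x => inCode x.1 x.2] (fun x => 2 ^ ((g + 3) * jG x.1 x.2)) :=
    (PolyN.pow hP (g + 3)).congr (fun x _ => by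
      show (2 ^ jG x.1 x.2) ^ (g + 3) = _
      rw [← pow_mul, mul_comm])
  have P1 := upN (n := fun x : BGraph × ℕ => 2 ^ ((g + 3) * jG x.1 x.2)) hP
  have J1 := upN (n := fun x : BGraph × ℕ => 2 ^ ((g + 3) * jG x.1 x.2)) hJ
  have T1 := upN (n := fun x : BGraph × ℕ => 2 ^ ((g + 3) * jG x.1 x.2)) hT
  have L1 := last (D := Dm) (ctx := [fun x => inCode x.1 x.2])
    (n := fun x : BGraph × ℕ => 2 ^ ((g + 3) * jG x.1 x.2))
  have P2 := upN (n := fun p : (BGraph × ℕ) × ℕ => p.2 + 1) P1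
  have J2 := upN (n := fun p : (BGraph × ℕ) × ℕ => p.2 + 1) J1
  have T2 := upN (n := fun p : (BGraph × ℕ) × ℕ => p.2 + 1) T1
  have L2 := last (D := fun p : (BGraph × ℕ) × ℕ => Dm p.1 ∧ p.2 < 2 ^ ((g + 3) * jG p.1.1 p.1.2))
    (ctx := PolyTime.lift [fun x : BGraph × ℕ => inCode x.1 x.2] ++
      [fun p : (BGraph × ℕ) × ℕ => un p.2]) (n := fun p : (BGraph × ℕ) × ℕ => p.2 + 1)
  obtain ⟨S1, S2⟩ := poly_SB g D L2 J2 P2 (fun q _ => le_rfl)
  have two := fun {Dx : ((BGraph × ℕ) × ℕ) × ℕ → Prop} {cx} =>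
    PolyN.const (D := Dx) (ctx := cx) 2
  have b1 := PolyB.le (S1.mul T2) (((two.mul S2).mul T2).add S2)
  have b2 := PolyB.le ((two.mul S2).mul T2) ((S1.mul T2).add S2)
  have b3 := (b1.and b2).not
  have b4 := PolyB.forall_lt (n := fun p : (BGraph × ℕ) × ℕ => p.2 + 1) L1.succ b3
  have b5 := PolyN.count hn b4
  refine b5.congr (fun x _ => ?_)
  show _ = fstB g D (scG x.1 x.2 ^ 3) (jG x.1 x.2)
  unfold fstB
  congr 1
  apply Finset.filter_congr
  intro i _
  simp only [decide_eq_true_eq, Bool.not_eq_true', tstB]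

theorem poly_KB (g D : ℕ) (Dm : BGraph × ℕ → Prop) :
    PolyN Dm [fun x => inCode x.1 x.2] (fun x => KB g D x.1 x.2) := by
  have hw : PolyC Dm [fun x => inCode x.1 x.2] (fun x => inCode x.1 x.2) := PolyC.var (by simp)
  exact ((PolyN.const (kB g D)).mul (poly_jG Dm)).mul (poly_a hw)

theorem poly_uB (g D : ℕ) (Dm : BGraph × ℕ → Prop) :
    PolyBin Dm [fun x => inCode x.1 x.2] (fun x => uB g D x.1 x.2) := by
  have hw : PolyC Dm [fun x => inCode x.1 x.2] (fun x => inCode x.1 x.2) := PolyC.var (by simp)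
  have hL : PolyN Dm [fun x => inCode x.1 x.2] (fun x => LB g D x.1 x.2) :=
    (PolyN.const (kB g D)).mul (poly_jG Dm)
  have h2L : PolyN Dm [fun x => inCode x.1 x.2] (fun x => 2 ^ LB g D x.1 x.2) :=
    (PolyN.pow (poly_PG Dm) (kB g D)).congr (fun x _ => by
      show (2 ^ jG x.1 x.2) ^ kB g D = 2 ^ (kB g D * jG x.1 x.2)
      rw [← pow_mul, mul_comm])
  obtain ⟨_, S2⟩ := poly_SB g D (poly_sB g D Dm) (poly_jG Dm) (poly_PG Dm) (fun x _ => le_rfl)
  have hwB : PolyN Dm [fun x => inCode x.1 x.2] (fun x => wB g D x.1 x.2) :=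
    PolyN.div h2L S2 (fun x _ => (SB_pos g D _ _).2)
  exact PolyBin.powN (PolyBin.ofN hwB) (poly_a hw) hL.succ (fun x _ =>
    lt_of_le_of_lt (Nat.div_le_self _ _) (Nat.pow_lt_pow_right (by norm_num) (Nat.lt_succ_self _)))

end Pool.Agent.Lib.Pa7c826h
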