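import Pool.Agent.Lib.Pa7c826h.BPolyA

/-!
Hardness at constant degrees: suitable digits exist.

PROOFS. Let `θ = PB / QB`, `f x = (θ ^ 9 * x + 1) / (x + 1)`, `ρ s N = (SB g D s N).1 / (SB g D s N).2`
(real). `ρ s 0 = 1`, `ρ s (N + 1) = θ ^ dig g s N * f (ρ s N)`. `1 ≤ θ ≤ 17 / 16`: `PB - QB =
2 ^ (D - 1)`, `QB ≥ 2 ^ (D + g) ≥ 16 * 2 ^ (D - 1)`. `θ ^ (2 ^ (g + 3) - 1) ≥ 8`: `QB ≤ (2 ^ (g + 1) + 1) 2 ^ (D - 1)`.
Contraction: `|f x / f y - 1| ≤ |x / y - 1| / 2` for `x, y ≥ 1`: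
`f x - f y = (θ ^ 9 - 1) (x - y) / ((x + 1) (y + 1))`. Covering: for `2 ≤ τ ≤ 8` there are `m < 2 ^ (g + 3)` and
`2 ≤ τ' ≤ 8` with `τ = θ ^ m * f τ'`: `m` is the largest number with `θ ^ m * f 2 ≤ τ` (`f 2 ≤ θ ^ 9 ≤ 2`),
then `f 2 ≤ τ / θ ^ m ≤ θ f 2 ≤ f 8`.
-/

namespace Pool.Agent.Lib.Pa7c826h

open Pool.Agent.Lib.Pa7c826 Pool.Agent.Lib.Pa7c826g

namespace BTuneAux

/-- the map of one level -/
noncomputable def ph (a x : ℝ) : ℝ := (a * x + 1) / (x + 1)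

theorem ph_pos {a x : ℝ} (ha : 1 ≤ a) (hx : 1 ≤ x) : 1 ≤ ph a x := by
  unfold ph
  rw [one_le_div (by linarith)]
  nlinarith

theorem contract {a x y : ℝ} (ha : 1 ≤ a) (hx : 1 ≤ x) (hy : 1 ≤ y) :
    |ph a x / ph a y - 1| ≤ |x / y - 1| / 2 := by
  have h1 : 0 < x + 1 := by linarith
  have h2 : 0 < y + 1 := by linarith
  have h3 : 0 < a * y + 1 := by nlinarith
  have h0 : 0 < y := by linarith
  have e1 : ph a x / ph a y - 1 = (x / y - 1) * ((a - 1) * y / ((x + 1) * (a * y + 1))) := by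
    unfold ph
    field_simp
    ring
  have h4 : 0 ≤ (a - 1) * y / ((x + 1) * (a * y + 1)) := by
    have : 0 ≤ a - 1 := by linarith
    positivity
  have h5 : (a - 1) * y / ((x + 1) * (a * y + 1)) ≤ 1 / 2 := by
    rw [div_le_div_iff₀ (by positivity) (by norm_num)]
    nlinarith
  rw [e1, abs_mul, abs_of_nonneg h4]
  have h6 := abs_nonneg (x / y - 1)
  calc |x / y - 1| * ((a - 1) * y / ((x + 1) * (a * y + 1))) ≤ |x / y - 1| * (1 / 2) :=
        mul_le_mul_of_nonneg_left h5 h6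
    _ = |x / y - 1| / 2 := by ring

theorem cover {θ : ℝ} {M : ℕ} (h1 : 1 < θ) (h2 : θ ≤ 17 / 16) (hM : 8 ≤ θ ^ M) {τ : ℝ}
    (ht2 : 2 ≤ τ) (ht8 : τ ≤ 8) :
    ∃ m < M, ∃ τ', 2 ≤ τ' ∧ τ' ≤ 8 ∧ τ = θ ^ m * ph (θ ^ 9) τ' := by
  have hθ0 : 0 < θ := by linarith
  have ha1 : 1 < θ ^ 9 := one_lt_pow₀ h1 (by norm_num)
  have ha2 : θ ^ 9 ≤ 2 := by
    calc θ ^ 9 ≤ (17 / 16) ^ 9 := pow_le_pow_left₀ hθ0.le h2 9
      _ ≤ 2 := by norm_num
  have hber : 1 + 9 * (θ - 1) ≤ θ ^ 9 := by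
    have h3 := one_add_mul_le_pow (a := θ - 1) (by linarith) 9
    have e : (1 + (θ - 1)) = θ := by ring
    rw [e] at h3
    push_cast at h3
    linarith
  set a := θ ^ 9 with ha
  set f2 : ℝ := (2 * a + 1) / 3 with hf2
  have hf2' : 1 < f2 := by
    rw [hf2, lt_div_iff₀ (by norm_num)]
    linarith
  have hex : ∃ m, τ < θ ^ (m + 1) * f2 := by
    refine ⟨M, ?_⟩
    have h3 : θ ^ M ≤ θ ^ (M + 1) := pow_le_pow_right₀ h1.le (Nat.le_succ M)
    nlinarith
  have hM0 : M ≠ 0 := by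
    rintro rfl
    norm_num at hM
  classical
  set m := Nat.find hex with hm
  have hm1 : τ < θ ^ (m + 1) * f2 := Nat.find_spec hex
  have hmM : m < M := by
    have h3 : m ≤ M - 1 := by
      refine Nat.find_min' hex ?_
      rw [Nat.sub_add_cancel (by omega)]
      nlinarith
    omega
  have hm2 : θ ^ m * f2 ≤ τ := by
    rcases Nat.eq_zero_or_pos m with h0 | h0
    · rw [h0, pow_zero, one_mul, hf2, div_le_iff₀ (by norm_num)]
      linarith
    · have h3 := Nat.find_min hex (m := m - 1) (by omega)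
      rw [Nat.sub_add_cancel h0] at h3
      exact not_lt.1 h3
  have hpm : 0 < θ ^ m := by positivity
  set σ := τ / θ ^ m with hσ
  have hσ1 : f2 ≤ σ := by
    rw [hσ, le_div_iff₀ hpm]
    linarith
  have hσ2 : σ ≤ θ * f2 := by
    rw [hσ, div_le_iff₀ hpm]
    have : θ ^ (m + 1) * f2 = θ * f2 * θ ^ m := by ring
    linarith
  have hs3 : 2 * a + 1 ≤ 3 * σ := by
    rw [hf2, div_le_iff₀ (by norm_num)] at hσ1
    linarith
  have hs9 : 9 * σ ≤ 8 * a + 1 := by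
    have h3 : θ * f2 * 9 ≤ 8 * a + 1 := by
      rw [hf2]
      have h4 : θ * ((2 * a + 1) / 3) * 9 = 3 * θ * (2 * a + 1) := by ring
      rw [h4]
      have h5 : 0 ≤ 8 - 6 * θ := by linarith
      have h6 : (1 + 9 * (θ - 1)) * (8 - 6 * θ) ≤ a * (8 - 6 * θ) :=
        mul_le_mul_of_nonneg_right hber h5
      have h7 : 0 ≤ (θ - 1) * (1 - 6 * (θ - 1)) :=
        mul_nonneg (by linarith) (by linarith)
      nlinarith
    linarith
  have hd : 0 < a - σ := by linarith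
  refine ⟨m, hmM, (σ - 1) / (a - σ), ?_, ?_, ?_⟩
  · rw [le_div_iff₀ hd]
    linarith
  · rw [div_le_iff₀ hd]
    linarith
  · have h4 : ph a ((σ - 1) / (a - σ)) = σ := by
      unfold ph
      have h5 : a - σ ≠ 0 := hd.ne'
      have h6 : a - 1 ≠ 0 := by linarith
      have h7 : (σ - 1) / (a - σ) + 1 = (a - 1) / (a - σ) := by
        field_simp
        ring
      have h8 : a * ((σ - 1) / (a - σ)) + 1 = σ * (a - 1) / (a - σ) := by
        field_simp
        ring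
      rw [h7, h8]
      field_simp
    rw [h4, hσ]
    field_simp

theorem SS_congr {P Q A c : ℕ} {m m' : ℕ → ℕ} : ∀ N, (∀ j < N, m j = m' j) →
    SS P Q A c m N = SS P Q A c m' N := by
  intro N
  induction N with
  | zero => intro _; rfl
  | succ N ih =>
    intro h
    have h1 := ih (fun j hj => h j (by omega))
    have h2 := h N (by omega)
    unfold SS
    rw [h1, h2]

theorem dig_low {g s m N j : ℕ} (hj : j < N) :
    dig g (s + 2 ^ ((g + 3) * N) * m) j = dig g s j := by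
  unfold dig
  obtain ⟨k, rfl⟩ : ∃ k, N = j + (k + 1) := ⟨N - j - 1, by omega⟩
  have e : 2 ^ ((g + 3) * (j + (k + 1))) * m =
      2 ^ ((g + 3) * j) * (2 ^ (g + 3) * (2 ^ ((g + 3) * k) * m)) := by
    rw [Nat.mul_add, Nat.mul_add, pow_add, pow_add, Nat.mul_one]
    ring
  rw [e, Nat.add_mul_div_left _ _ (by positivity), Nat.add_mul_mod_self_left]

theorem dig_top {g s m N : ℕ} (hs : s < 2 ^ ((g + 3) * N)) (hm : m < 2 ^ (g + 3)) :
    dig g (s + 2 ^ ((g + 3) * N) * m) N = m := by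
  unfold dig
  rw [Nat.add_mul_div_left _ _ (by positivity), Nat.div_eq_of_lt hs, Nat.zero_add,
    Nat.mod_eq_of_lt hm]

/-- `θ` -/
noncomputable def th (g D : ℕ) : ℝ := (PB g D : ℝ) / QB g D

theorem PB_QB {g D : ℕ} (hD : 1 ≤ D) : PB g D = QB g D + 2 ^ (D - 1) ∧
    2 ^ (D - 1) * 2 ^ (g + 1) ≤ QB g D ∧ QB g D ≤ 2 ^ (D - 1) * (2 ^ (g + 1) + 1) := by
  obtain ⟨e, rfl⟩ : ∃ e, D = e + 1 := ⟨D - 1, by omega⟩
  unfold PB QB
  have h1 : 2 ^ (e + 1 + g) = 2 ^ e * 2 ^ (g + 1) := by rw [← pow_add]; congr 1; omega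
  have h2 : 2 ^ (e + 1) = 2 * 2 ^ e := by rw [pow_succ]; ring
  have h3 : 1 ≤ 2 ^ e := Nat.one_le_two_pow
  rw [h1, h2, Nat.add_sub_cancel, Nat.mul_add, Nat.mul_one]
  generalize 2 ^ e * 2 ^ (g + 1) = z
  generalize 2 ^ e = y at *
  omega

theorem th_facts {g D : ℕ} (hg : 3 ≤ g) (hD : 1 ≤ D) : 1 < th g D ∧ th g D ≤ 17 / 16 ∧
    8 ≤ th g D ^ (2 ^ (g + 3) - 1) := by
  obtain ⟨h1, h2, h3⟩ := PB_QB (g := g) hD
  have hx : (0 : ℝ) < 2 ^ (D - 1) := by positivity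
  have hG16 : 16 ≤ 2 ^ (g + 1) := by
    calc 16 = 2 ^ 4 := by norm_num
      _ ≤ 2 ^ (g + 1) := Nat.pow_le_pow_right (by norm_num) (by omega)
  have hQ : (0 : ℝ) < QB g D := by
    have : 0 < 2 ^ (D - 1) * 2 ^ (g + 1) := by positivity
    exact_mod_cast this.trans_le h2
  have e : th g D = 1 + 2 ^ (D - 1) / QB g D := by
    unfold th
    rw [h1]
    push_cast
    field_simp
  have h2' : (2 : ℝ) ^ (D - 1) * 2 ^ (g + 1) ≤ QB g D := by exact_mod_cast h2
  have h3' : (QB g D : ℝ) ≤ 2 ^ (D - 1) * (2 ^ (g + 1) + 1) := by exact_mod_cast h3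
  have hG' : (16 : ℝ) ≤ 2 ^ (g + 1) := by exact_mod_cast hG16
  have hlow : 1 + 1 / ((2 : ℝ) ^ (g + 1) + 1) ≤ th g D := by
    rw [e]
    have : 1 / ((2 : ℝ) ^ (g + 1) + 1) ≤ 2 ^ (D - 1) / QB g D := by
      rw [div_le_div_iff₀ (by positivity) hQ]
      linarith
    linarith
  refine ⟨?_, ?_, ?_⟩
  · refine lt_of_lt_of_le ?_ hlow
    have : 0 < 1 / ((2 : ℝ) ^ (g + 1) + 1) := by positivity
    linarith
  · rw [e]
    have : (2 : ℝ) ^ (D - 1) / QB g D ≤ 1 / 16 := by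
      rw [div_le_div_iff₀ hQ (by norm_num)]
      nlinarith
    linarith
  · have hb : (2 : ℝ) ≤ th g D ^ (2 ^ (g + 1) + 1) := by
      have h4 := one_add_mul_le_pow (a := 1 / ((2 : ℝ) ^ (g + 1) + 1))
        (by have : 0 < 1 / ((2 : ℝ) ^ (g + 1) + 1) := by positivity
            linarith) (2 ^ (g + 1) + 1)
      have h5 : 1 + ((2 ^ (g + 1) + 1 : ℕ) : ℝ) * (1 / ((2 : ℝ) ^ (g + 1) + 1)) = 2 := by
        push_cast
        field_simp
        norm_num
      rw [h5] at h4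
      exact h4.trans (pow_le_pow_left₀ (by positivity) hlow _)
    have hth1 : 1 ≤ th g D := by
      have : 0 < 1 / ((2 : ℝ) ^ (g + 1) + 1) := by positivity
      linarith
    have h6 : (2 ^ (g + 1) + 1) * 3 ≤ 2 ^ (g + 3) - 1 := by
      have : 2 ^ (g + 3) = 4 * 2 ^ (g + 1) := by rw [show g + 3 = g + 1 + 2 by ring, pow_add]; ring
      omega
    calc (8 : ℝ) = 2 ^ 3 := by norm_num
      _ ≤ (th g D ^ (2 ^ (g + 1) + 1)) ^ 3 := pow_le_pow_left₀ (by norm_num) hb 3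
      _ = th g D ^ ((2 ^ (g + 1) + 1) * 3) := by rw [← pow_mul]
      _ ≤ th g D ^ (2 ^ (g + 3) - 1) := pow_le_pow_right₀ hth1 h6

/-- the ratio of the weights -/
noncomputable def rh (g D s N : ℕ) : ℝ := ((SB g D s N).1 : ℝ) / (SB g D s N).2

theorem rh_zero (g D s : ℕ) : rh g D s 0 = 1 := by
  unfold rh SB SS
  norm_num

theorem rh_succ {g D : ℕ} (hD : 1 ≤ D) (s N : ℕ) :
    rh g D s (N + 1) = th g D ^ dig g s N * ph (th g D ^ 9) (rh g D s N) := by
  obtain ⟨hA, hB⟩ := SB_pos g D s N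
  have hQ : (0 : ℝ) < QB g D := by
    obtain ⟨_, h2, _⟩ := PB_QB (g := g) hD
    have : 0 < 2 ^ (D - 1) * 2 ^ (g + 1) := by positivity
    exact_mod_cast this.trans_le h2
  have hP : (0 : ℝ) < PB g D := by
    obtain ⟨h1, _, _⟩ := PB_QB (g := g) hD
    rw [h1]
    push_cast
    positivity
  have hA' : (0 : ℝ) < (SB g D s N).1 := by exact_mod_cast hA
  have hB' : (0 : ℝ) < (SB g D s N).2 := by exact_mod_cast hB
  have e1 : (SB g D s (N + 1)).1 = PB g D ^ cB g * (SB g D s N).1 +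
      QB g D ^ 9 * PB g D ^ (cB g - 9) * (SB g D s N).2 := rfl
  have e2 : (SB g D s (N + 1)).2 = QB g D ^ (9 + dig g s N) *
      PB g D ^ (cB g - (9 + dig g s N)) * ((SB g D s N).1 + (SB g D s N).2) := rfl
  have hd := dig_le g s N
  obtain ⟨k, hk⟩ := Nat.exists_eq_add_of_le hd
  have e3 : cB g - (9 + dig g s N) = k := by omega
  have e4 : cB g - 9 = dig g s N + k := by omega
  unfold rh
  rw [e1, e2, e3, e4, hk]
  unfold th ph
  push_cast
  rw [div_pow, div_pow]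
  generalize (SB g D s N).1 = A at *
  generalize (SB g D s N).2 = B at *
  generalize (PB g D : ℝ) = P at *
  generalize (QB g D : ℝ) = Q at *
  generalize dig g s N = m at *
  have hAB : (A : ℝ) / B + 1 ≠ 0 := by positivity
  have hAB' : (A : ℝ) + B ≠ 0 := by positivity
  rw [pow_add, pow_add, pow_add, pow_add]
  field_simp

theorem rh_ge {g D : ℕ} (hg : 3 ≤ g) (hD : 1 ≤ D) (s N : ℕ) : 1 ≤ rh g D s N := by
  obtain ⟨h1, _, _⟩ := th_facts hg hD
  induction N with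
  | zero => rw [rh_zero]
  | succ N ih =>
    rw [rh_succ hD]
    have h2 : 1 ≤ th g D ^ dig g s N := one_le_pow₀ h1.le
    have h3 : 1 ≤ ph (th g D ^ 9) (rh g D s N) := ph_pos (one_le_pow₀ h1.le) ih
    nlinarith

theorem main {g D : ℕ} (hg : 3 ≤ g) (hD : 1 ≤ D) : ∀ (N : ℕ) (τ : ℝ), 2 ≤ τ → τ ≤ 8 →
    ∃ s < 2 ^ ((g + 3) * N), |rh g D s N / τ - 1| ≤ (1 / 2 : ℝ) ^ N := by
  obtain ⟨h1, h2, h3⟩ := th_facts hg hD
  intro N
  induction N with
  | zero =>
    intro τ ht2 ht8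
    refine ⟨0, by positivity, ?_⟩
    rw [rh_zero, pow_zero, abs_le]
    have h4 : 0 < 1 / τ := by positivity
    have h5 : 1 / τ ≤ 1 := by
      rw [div_le_one (by linarith)]
      linarith
    constructor <;> linarith
  | succ N ih =>
    intro τ ht2 ht8
    obtain ⟨m, hm, τ', ht2', ht8', he⟩ := cover h1 h2 h3 ht2 ht8
    obtain ⟨s, hs, hr⟩ := ih τ' ht2' ht8'
    have hm' : m < 2 ^ (g + 3) := by omega
    refine ⟨s + 2 ^ ((g + 3) * N) * m, ?_, ?_⟩
    · have e : 2 ^ ((g + 3) * (N + 1)) = 2 ^ ((g + 3) * N) * 2 ^ (g + 3) := by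
        rw [← pow_add]
        congr 1
      rw [e]
      calc s + 2 ^ ((g + 3) * N) * m < 2 ^ ((g + 3) * N) + 2 ^ ((g + 3) * N) * m := by omega
        _ = 2 ^ ((g + 3) * N) * (m + 1) := by ring
        _ ≤ 2 ^ ((g + 3) * N) * 2 ^ (g + 3) := Nat.mul_le_mul_left _ hm'
    · have e1 : rh g D (s + 2 ^ ((g + 3) * N) * m) N = rh g D s N := by
        unfold rh SB
        rw [SS_congr N (fun j hj => dig_low hj)]
      rw [rh_succ hD, e1, dig_top hs hm', he]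
      have hpm : 0 < th g D ^ m := by positivity
      rw [mul_div_mul_left _ _ hpm.ne']
      refine (contract (one_le_pow₀ h1.le) (rh_ge hg hD s N) (by linarith)).trans ?_
      rw [pow_succ]
      linarith

end BTuneAux

open BTuneAux

theorem exists_digits {g D : ℕ} (hg : 3 ≤ g) (hD : 1 ≤ D) {T N : ℕ} (hT : 2 * T ≤ 2 ^ N) :
    ∃ s < 2 ^ ((g + 3) * N), tstB g D T N s = true := by
  obtain ⟨s, hs, hr⟩ := main hg hD N 2 le_rfl (by norm_num)
  refine ⟨s, hs, ?_⟩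
  obtain ⟨_, hB⟩ := SB_pos g D s N
  have hB' : (0 : ℝ) < (SB g D s N).2 := by exact_mod_cast hB
  unfold rh at hr
  unfold tstB
  generalize (SB g D s N).1 = A at *
  generalize (SB g D s N).2 = B at *
  have hT' : 2 * (T : ℝ) ≤ 2 ^ N := by exact_mod_cast hT
  have h2N : (0 : ℝ) < 2 ^ N := by positivity
  have e : (1 / 2 : ℝ) ^ N * 2 ^ N = 1 := by
    rw [← mul_pow]
    norm_num
  have h1 : |(A : ℝ) - 2 * B| * 2 ^ N ≤ 2 * B := by
    have h3 : (A : ℝ) / B / 2 - 1 = (A - 2 * B) / (2 * B) := by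
      field_simp
    rw [h3, abs_div, abs_of_pos (show (0 : ℝ) < 2 * B by linarith), div_le_iff₀ (by linarith)] at hr
    calc |(A : ℝ) - 2 * B| * 2 ^ N ≤ ((1 / 2 : ℝ) ^ N * (2 * B)) * 2 ^ N :=
          mul_le_mul_of_nonneg_right hr h2N.le
      _ = ((1 / 2 : ℝ) ^ N * 2 ^ N) * (2 * B) := by ring
      _ = 2 * B := by rw [e, one_mul]
  have h2 : |(A : ℝ) - 2 * B| * T ≤ B := by
    have h3 : |(A : ℝ) - 2 * B| * (2 * T) ≤ |(A : ℝ) - 2 * B| * 2 ^ N :=
      mul_le_mul_of_nonneg_left hT' (abs_nonneg _)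
    linarith
  have h0 : (0 : ℝ) ≤ T := Nat.cast_nonneg _
  have h4 := mul_le_mul_of_nonneg_right (le_abs_self ((A : ℝ) - 2 * B)) h0
  have h5 := mul_le_mul_of_nonneg_right (neg_le_abs ((A : ℝ) - 2 * B)) h0
  have h6 : (A : ℝ) * T ≤ 2 * B * T + B := by linarith
  have h7 : 2 * (B : ℝ) * T ≤ A * T + B := by linarith
  rw [Bool.and_eq_true, decide_eq_true_eq, decide_eq_true_eq]
  exact ⟨by exact_mod_cast h6, by exact_mod_cast h7⟩

theorem fstB_spec {g D T N : ℕ} (h : ∃ s < 2 ^ ((g + 3) * N), tstB g D T N s = true) :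
    tstB g D T N (fstB g D T N) = true := by
  classical
  obtain ⟨s0, hs0, ht0⟩ := h
  have hex : ∃ s, tstB g D T N s = true := ⟨s0, ht0⟩
  have h1 : fstB g D T N = Nat.find hex := by
    unfold fstB
    have h2 : (Finset.range (2 ^ ((g + 3) * N))).filter
        (fun s => ∀ s' < s + 1, tstB g D T N s' = false) = Finset.range (Nat.find hex) := by
      ext s
      rw [Finset.mem_filter, Finset.mem_range, Finset.mem_range]
      constructor
      · rintro ⟨_, h4⟩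
        by_contra h5
        have h6 := h4 (Nat.find hex) (by omega)
        rw [Nat.find_spec hex] at h6
        exact absurd h6 (by simp)
      · intro h4
        have h5 : Nat.find hex ≤ s0 := Nat.find_min' hex ht0
        refine ⟨by omega, fun s' hs' => ?_⟩
        have h6 := Nat.find_min hex (m := s') (by omega)
        simpa using h6
    rw [h2, Finset.card_range]
  rw [h1]
  exact Nat.find_spec hex

end Pool.Agent.Lib.Pa7c826h
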