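import Pool.Agent.Lib.Pa7c826h.FinH

/-!
Fixed degrees: the gap `log₂ D + 6` is enough, see `easy_const` in `FinH.lean`.
-/
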