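import Pool.Agent.Lib.Pa7c826k.Comp

/-!
The key estimate: a weighted sum over the connected sets that contain a given vertex, with the
exact constant.

`N u` is the neighbourhood of `u`, `V` a set of vertices with at least `d` neighbours, every `r` is
a neighbour of at most `D` elements of `V`. Two elements of `V` are related if they have a common
neighbour. The proof is a decision tree with a potential.
-/

namespace Pool.Agent.Lib.Pa7c826h

open Finset Pool.Agent.Lib.Pa7c826k

/-- `u` and `v` are equal or have a common neighbour -/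
def tc (N : ℕ → Finset ℕ) (u v : ℕ) : Prop := u = v ∨ ∃ r, r ∈ N u ∧ r ∈ N v

open Classical in
/-- the elements of `V` that are related to an element of `T` -/
noncomputable def tch (r : ℕ → ℕ → Prop) (V T : Finset ℕ) : Finset ℕ :=
  V.filter (fun y => ∃ x ∈ T, r x y)

namespace KeyAux

variable {N : ℕ → Finset ℕ} {V : Finset ℕ} {d D : ℕ} {p ρ σ : ℝ}

/-- every part of `S` that is far from the rest meets `Z` -/
def Lk (N : ℕ → Finset ℕ) (Z S : Finset ℕ) : Prop :=
  ∀ Y, Y ⊆ S → Y.Nonempty → Far (tc N) Y (S \ Y) → (Y ∩ Z).Nonempty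

/-- the number of common neighbours of `u` and `Z` -/
def ov (N : ℕ → Finset ℕ) (Z : Finset ℕ) (u : ℕ) : ℕ := (N u ∩ Z.biUnion N).card

/-- the weight of a set -/
noncomputable def wt (N : ℕ → Finset ℕ) (V : Finset ℕ) (p ρ : ℝ) (S : Finset ℕ) : ℝ :=
  p ^ (S.biUnion N).card * ρ ^ (tch (tc N) V S).card

open Classical in
/-- the sets that contain `Z`, do not meet `O`, and are linked to `Z` -/
noncomputable def fam (N : ℕ → Finset ℕ) (V Z O : Finset ℕ) : Finset (Finset ℕ) :=
  V.powerset.filter (fun S => Z ⊆ S ∧ Disjoint S O ∧ Lk N Z S)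

/-- the elements of `O` with a neighbour in common with `Z` -/
def ot (N : ℕ → Finset ℕ) (Z O : Finset ℕ) : Finset ℕ := O.filter (fun u => 1 ≤ ov N Z u)

/-- the potential -/
noncomputable def Phi (N : ℕ → Finset ℕ) (V : Finset ℕ) (d : ℕ) (p ρ σ : ℝ) (Z O : Finset ℕ) : ℝ :=
  p ^ (Z.biUnion N).card * ρ ^ (Z.card + (ot N Z O).card) *
    σ ^ (∑ u ∈ V \ (Z ∪ O), min (ov N Z u) d)

theorem wt_nn (hp : 0 < p) (hρ : 1 ≤ ρ) (S : Finset ℕ) : 0 ≤ wt N V p ρ S := by
  unfold wt
  positivity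

/-- new overlaps -/
theorem ov_insert (Z : Finset ℕ) (v u : ℕ) :
    ov N (insert v Z) u = ov N Z u + (N u ∩ (N v \ Z.biUnion N)).card := by
  unfold ov
  rw [biUnion_insert, ← card_union_of_disjoint]
  · congr 1
    ext r
    simp only [mem_inter, mem_union, mem_sdiff, mem_biUnion]
    by_cases h : ∃ a ∈ Z, r ∈ N a <;> simp [h]
  · rw [disjoint_left]
    intro r h1 h2
    exact (mem_sdiff.1 (mem_inter.1 h2).2).2 (mem_inter.1 h1).2

/-- the total of the new overlaps -/
theorem sum_new (hD : ∀ r, (V.filter (fun u => r ∈ N u)).card ≤ D) (Z : Finset ℕ) {v : ℕ}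
    (hv : v ∈ V) :
    ∑ u ∈ V.erase v, (N u ∩ (N v \ Z.biUnion N)).card ≤
      (D - 1) * (N v \ Z.biUnion N).card := by
  classical
  set W := N v \ Z.biUnion N with hW
  have h1 : ∀ u, (N u ∩ W).card = ∑ r ∈ W, if r ∈ N u then 1 else 0 := by
    intro u
    rw [← card_filter]
    congr 1
    ext r
    simp only [mem_inter, mem_filter]
    tauto
  simp only [h1]
  rw [sum_comm]
  have h2 : ∀ r ∈ W, ∑ u ∈ V.erase v, (if r ∈ N u then 1 else 0) ≤ D - 1 := by
    intro r hr
    rw [← card_filter]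
    have h3 : (V.erase v).filter (fun u => r ∈ N u) = (V.filter (fun u => r ∈ N u)).erase v := by
      rw [filter_erase]
    have h4 : v ∈ V.filter (fun u => r ∈ N u) := mem_filter.2 ⟨hv, (mem_sdiff.1 (hW ▸ hr)).1⟩
    rw [h3, card_erase_of_mem h4]
    have := hD r
    omega
  refine (sum_le_card_nsmul _ _ _ h2).trans ?_
  rw [smul_eq_mul, mul_comm]

/-- the family splits at an undecided vertex -/
theorem fam_split {Z O : Finset ℕ} (v : ℕ) :
    fam N V Z O ⊆ fam N V (insert v Z) O ∪ fam N V Z (insert v O) := by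
  classical
  intro S hS
  unfold fam at hS ⊢
  rw [mem_filter, mem_powerset] at hS
  obtain ⟨h1, h2, h3, h4⟩ := hS
  rw [mem_union, mem_filter, mem_filter, mem_powerset]
  by_cases hv : v ∈ S
  · left
    refine ⟨h1, insert_subset hv h2, h3, ?_⟩
    intro Y hY hne hf
    exact (h4 Y hY hne hf).mono (inter_subset_inter_left (subset_insert _ _))
  · right
    refine ⟨h1, h2, ?_, h4⟩
    rw [disjoint_insert_right]
    exact ⟨hv, h3⟩

/-- if no undecided vertex is linked to `Z` then `Z` is the only set -/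
theorem fam_term {Z O : Finset ℕ} (h : ∀ u ∈ V \ (Z ∪ O), ov N Z u = 0) :
    ∀ S ∈ fam N V Z O, S = Z := by
  classical
  intro S hS
  unfold fam at hS
  rw [mem_filter, mem_powerset] at hS
  obtain ⟨h1, h2, h3, h4⟩ := hS
  by_contra hne
  have h5 : (S \ Z).Nonempty := by
    rw [nonempty_iff_ne_empty]
    intro h6
    exact hne (Subset.antisymm (sdiff_eq_empty_iff_subset.1 h6) h2)
  obtain ⟨x, hx⟩ := h4 (S \ Z) sdiff_subset h5 (by
    intro u hu w hw
    have hu' := mem_sdiff.1 hu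
    have hwZ : w ∈ Z := by
      have := mem_sdiff.1 hw
      by_contra hc
      exact this.2 (mem_sdiff.2 ⟨this.1, hc⟩)
    have hu0 := h u (mem_sdiff.2 ⟨h1 hu'.1, fun hc => (mem_union.1 hc).elim hu'.2
      (fun h7 => (disjoint_left.1 h3) hu'.1 h7)⟩)
    unfold ov at hu0
    rw [card_eq_zero] at hu0
    rintro (rfl | ⟨r, hr1, hr2⟩)
    · exact hu'.2 hwZ
    · have : r ∈ N u ∩ Z.biUnion N := mem_inter.2 ⟨hr1, mem_biUnion.2 ⟨w, hwZ, hr2⟩⟩
      rw [hu0] at this
      exact absurd this (notMem_empty r))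
  exact (mem_sdiff.1 (mem_inter.1 hx).1).2 (mem_inter.1 hx).2

theorem tch_term {Z O : Finset ℕ} (h : ∀ u ∈ V \ (Z ∪ O), ov N Z u = 0) :
    (tch (tc N) V Z).card ≤ Z.card + (ot N Z O).card := by
  classical
  refine (card_le_card (t := Z ∪ ot N Z O) ?_).trans (card_union_le _ _)
  intro y hy
  unfold tch at hy
  rw [mem_filter] at hy
  obtain ⟨hyV, x, hx, hxy⟩ := hy
  rw [mem_union]
  by_cases hyZ : y ∈ Z
  · exact Or.inl hyZ
  right
  rcases hxy with rfl | ⟨r, hr1, hr2⟩
  · exact absurd hx hyZ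
  · have h1 : 1 ≤ ov N Z y := by
      unfold ov
      exact card_pos.2 ⟨r, mem_inter.2 ⟨hr2, mem_biUnion.2 ⟨x, hx, hr1⟩⟩⟩
    by_cases hyO : y ∈ O
    · exact mem_filter.2 ⟨hyO, h1⟩
    · have := h y (mem_sdiff.2 ⟨hyV, fun hc => (mem_union.1 hc).elim hyZ hyO⟩)
      omega

theorem pow_mix {a a' s s' e : ℕ} (hρ : 1 ≤ ρ) (hσ : ρ ≤ σ) (ha : a ≤ a')
    (h : a' + s' ≤ a + s + e) : ρ ^ a' * σ ^ s' ≤ ρ ^ a * σ ^ (s + e) := by
  have h0 : 0 ≤ ρ := by linarith
  have hσ1 : 1 ≤ σ := hρ.trans hσ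
  obtain ⟨b, rfl⟩ := Nat.exists_eq_add_of_le ha
  calc ρ ^ (a + b) * σ ^ s' = ρ ^ a * (ρ ^ b * σ ^ s') := by ring
    _ ≤ ρ ^ a * (σ ^ b * σ ^ s') := by
      refine mul_le_mul_of_nonneg_left ?_ (by positivity)
      exact mul_le_mul_of_nonneg_right (pow_le_pow_left₀ h0 hσ b) (by positivity)
    _ = ρ ^ a * σ ^ (b + s') := by rw [← pow_add]
    _ ≤ ρ ^ a * σ ^ (s + e) := by
      refine mul_le_mul_of_nonneg_left (pow_le_pow_right₀ hσ1 (by omega)) (by positivity)

/-- the combinatorial part of the step -/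
theorem step_comb (hD : ∀ r, (V.filter (fun u => r ∈ N u)).card ≤ D) {Z O : Finset ℕ} {v : ℕ}
    (hv : v ∈ V \ (Z ∪ O)) (hO : O ⊆ V) (d : ℕ) :
    (ot N (insert v Z) O).card + ∑ u ∈ (V \ (Z ∪ O)).erase v, min (ov N (insert v Z) u) d ≤
      (ot N Z O).card + ∑ u ∈ (V \ (Z ∪ O)).erase v, min (ov N Z u) d +
        (D - 1) * (N v \ Z.biUnion N).card := by
  classical
  have hv' := mem_sdiff.1 hv
  have hvO : v ∉ O := fun h => hv'.2 (mem_union_right _ h)
  set W := N v \ Z.biUnion N with hW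
  have h1 : (ot N (insert v Z) O).card ≤ (ot N Z O).card + ∑ u ∈ O, (N u ∩ W).card := by
    have h2 : ot N (insert v Z) O ⊆ ot N Z O ∪ O.filter (fun u => 1 ≤ (N u ∩ W).card) := by
      intro u hu
      unfold ot at hu ⊢
      rw [mem_filter, ov_insert, ← hW] at hu
      rw [mem_union, mem_filter, mem_filter]
      by_cases h3 : 1 ≤ ov N Z u
      · exact Or.inl ⟨hu.1, h3⟩
      · exact Or.inr ⟨hu.1, by omega⟩
    refine (card_le_card h2).trans ((card_union_le _ _).trans (Nat.add_le_add_left ?_ _))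
    rw [card_filter]
    refine sum_le_sum fun u _ => ?_
    split_ifs with h
    · exact h
    · exact Nat.zero_le _
  have h2 : ∑ u ∈ (V \ (Z ∪ O)).erase v, min (ov N (insert v Z) u) d ≤
      ∑ u ∈ (V \ (Z ∪ O)).erase v, min (ov N Z u) d +
        ∑ u ∈ (V \ (Z ∪ O)).erase v, (N u ∩ W).card := by
    rw [← sum_add_distrib]
    refine sum_le_sum fun u _ => ?_
    rw [ov_insert, ← hW]
    omega
  have h3 : ∑ u ∈ O, (N u ∩ W).card + ∑ u ∈ (V \ (Z ∪ O)).erase v, (N u ∩ W).card ≤
      (D - 1) * W.card := by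
    refine le_trans ?_ (sum_new hD Z hv'.1)
    rw [← sum_union]
    · refine sum_le_sum_of_subset ?_
      intro u hu
      rw [mem_union, mem_erase, mem_sdiff] at hu
      rw [mem_erase]
      rcases hu with h | h
      · exact ⟨fun hc => hvO (hc ▸ h), hO h⟩
      · exact ⟨h.1, h.2.1⟩
    · rw [disjoint_left]
      intro u hu1 hu2
      exact (mem_sdiff.1 (mem_erase.1 hu2).2).2 (mem_union_right _ hu1)
  omega

theorem term_case (hp : 0 < p) (hρ : 1 ≤ ρ) {Z O : Finset ℕ}
    (hterm : ∀ u ∈ V \ (Z ∪ O), ov N Z u = 0) :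
    ∑ S ∈ fam N V Z O, wt N V p ρ S ≤ Phi N V d p ρ σ Z O := by
  classical
  have h1 : fam N V Z O ⊆ {Z} := fun S hS => mem_singleton.2 (fam_term hterm S hS)
  refine (sum_le_sum_of_subset_of_nonneg h1 (fun S _ _ => wt_nn hp hρ S)).trans ?_
  rw [sum_singleton]
  unfold wt Phi
  have h2 : ∑ u ∈ V \ (Z ∪ O), min (ov N Z u) d = 0 :=
    sum_eq_zero fun u hu => by rw [hterm u hu, Nat.zero_min]
  rw [h2, pow_zero, mul_one]
  exact mul_le_mul_of_nonneg_left (pow_le_pow_right₀ hρ (tch_term hterm)) (by positivity)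

theorem main (hd0 : 0 < d) (hd : ∀ u ∈ V, d ≤ (N u).card)
    (hD : ∀ r, (V.filter (fun u => r ∈ N u)).card ≤ D) (hp : 0 < p) (hρ : 1 ≤ ρ) (hσ : ρ ≤ σ)
    (hq : p * σ ^ (D - 1) ≤ 1)
    (hstep : ∀ m, m < d → ρ * (1 + (p * σ ^ (D - 1)) ^ m) ≤ σ ^ (d - m)) :
    ∀ (k : ℕ) (Z O : Finset ℕ), Z ⊆ V → O ⊆ V → (V \ (Z ∪ O)).card = k →
      ∑ S ∈ fam N V Z O, wt N V p ρ S ≤ Phi N V d p ρ σ Z O := by
  classical
  have hρ0 : 0 < ρ := by linarith
  have hσ0 : 0 < σ := by linarith
  intro k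
  induction k with
  | zero =>
    intro Z O hZ hO hk
    have h0 : V \ (Z ∪ O) = ∅ := card_eq_zero.1 hk
    refine term_case hp hρ fun u hu => ?_
    rw [h0] at hu
    exact absurd hu (notMem_empty u)
  | succ k ih =>
    intro Z O hZ hO hk
    by_cases hterm : ∀ u ∈ V \ (Z ∪ O), ov N Z u = 0
    · exact term_case hp hρ hterm
    push Not at hterm
    obtain ⟨v, hv, hov⟩ := hterm
    have hv' := mem_sdiff.1 hv
    have hvZ : v ∉ Z := fun h => hv'.2 (mem_union_left _ h)
    have hvO : v ∉ O := fun h => hv'.2 (mem_union_right _ h)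
    have e1 : V \ (insert v Z ∪ O) = (V \ (Z ∪ O)).erase v := by
      ext u
      simp only [mem_sdiff, mem_union, mem_insert, mem_erase]
      tauto
    have e2 : V \ (Z ∪ insert v O) = (V \ (Z ∪ O)).erase v := by
      ext u
      simp only [mem_sdiff, mem_union, mem_insert, mem_erase]
      tauto
    have hc : ((V \ (Z ∪ O)).erase v).card = k := by
      rw [card_erase_of_mem hv]
      omega
    have i1 := ih (insert v Z) O (insert_subset hv'.1 hZ) hO (by rw [e1]; exact hc)
    have i2 := ih Z (insert v O) hZ (insert_subset hv'.1 hO) (by rw [e2]; exact hc)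
    have hsum : ∑ S ∈ fam N V Z O, wt N V p ρ S ≤
        ∑ S ∈ fam N V (insert v Z) O, wt N V p ρ S +
          ∑ S ∈ fam N V Z (insert v O), wt N V p ρ S := by
      refine (sum_le_sum_of_subset_of_nonneg (fam_split v)
        (fun S _ _ => wt_nn hp hρ S)).trans ?_
      have := sum_union_inter (s₁ := fam N V (insert v Z) O) (s₂ := fam N V Z (insert v O))
        (f := wt N V p ρ)
      have h2 : 0 ≤ ∑ S ∈ fam N V (insert v Z) O ∩ fam N V Z (insert v O), wt N V p ρ S :=
        sum_nonneg fun S _ => wt_nn hp hρ S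
      linarith
    refine hsum.trans ((add_le_add i1 i2).trans ?_)
    -- the numbers
    have hcomb := step_comb hD hv hO d
    set U' := (V \ (Z ∪ O)).erase v with hU'
    have hsplit : ∑ u ∈ V \ (Z ∪ O), min (ov N Z u) d =
        ∑ u ∈ U', min (ov N Z u) d + min (ov N Z v) d := by
      rw [hU', sum_erase_add _ _ hv]
    have hot2 : ot N Z (insert v O) = insert v (ot N Z O) := by
      unfold ot
      rw [filter_insert, if_pos (by omega)]
    have hot2c : (ot N Z (insert v O)).card = (ot N Z O).card + 1 := by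
      rw [hot2, card_insert_of_notMem]
      exact fun h => hvO (mem_filter.1 h).1
    have hotm : (ot N Z O).card ≤ (ot N (insert v Z) O).card := by
      refine card_le_card fun u hu => ?_
      unfold ot at hu ⊢
      rw [mem_filter] at hu ⊢
      rw [ov_insert]
      exact ⟨hu.1, by omega⟩
    have hNZ : ((insert v Z).biUnion N).card = (Z.biUnion N).card +
        (N v \ Z.biUnion N).card := by
      rw [biUnion_insert, union_comm, ← union_sdiff_self_eq_union,
        card_union_of_disjoint disjoint_sdiff]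
    have hovm : ov N Z v + (N v \ Z.biUnion N).card = (N v).card := by
      unfold ov
      exact card_inter_add_card_sdiff _ _
    unfold Phi
    rw [e1, e2, hNZ, hot2c, card_insert_of_notMem hvZ, hsplit]
    set A := (Z.biUnion N).card
    set m' := (N v \ Z.biUnion N).card
    set a := (ot N Z O).card
    set a' := (ot N (insert v Z) O).card
    set s := ∑ u ∈ U', min (ov N Z u) d
    set s' := ∑ u ∈ U', min (ov N (insert v Z) u) d
    set q := p * σ ^ (D - 1) with hqdef
    have hq0 : 0 < q := by positivity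
    have hmix := pow_mix (a := a) (a' := a') (s := s) (s' := s') (e := (D - 1) * m') hρ hσ hotm
      (by omega)
    have hkey : ρ * (1 + q ^ m') ≤ σ ^ (min (ov N Z v) d) := by
      rcases le_or_gt d (ov N Z v) with hle | hlt
      · rw [min_eq_right hle]
        have h3 := hstep 0 hd0
        rw [pow_zero, Nat.sub_zero] at h3
        refine le_trans ?_ h3
        refine mul_le_mul_of_nonneg_left ?_ hρ0.le
        have := pow_le_one₀ (n := m') hq0.le hq
        linarith
      · rw [min_eq_left hlt.le]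
        have h3 := hstep (d - ov N Z v) (by omega)
        have h4 : d - (d - ov N Z v) = ov N Z v := by omega
        rw [h4] at h3
        refine le_trans ?_ h3
        refine mul_le_mul_of_nonneg_left ?_ hρ0.le
        have h5 := hd v hv'.1
        have := pow_le_pow_of_le_one hq0.le hq (show d - ov N Z v ≤ m' by omega)
        linarith
    calc p ^ (A + m') * ρ ^ (Z.card + 1 + a') * σ ^ s' +
          p ^ A * ρ ^ (Z.card + (a + 1)) * σ ^ s
        = p ^ A * ρ ^ (Z.card + 1) * (p ^ m' * (ρ ^ a' * σ ^ s') + ρ ^ a * σ ^ s) := by ring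
      _ ≤ p ^ A * ρ ^ (Z.card + 1) *
          (p ^ m' * (ρ ^ a * σ ^ (s + (D - 1) * m')) + ρ ^ a * σ ^ s) := by
        refine mul_le_mul_of_nonneg_left ?_ (by positivity)
        have := mul_le_mul_of_nonneg_left hmix (show 0 ≤ p ^ m' by positivity)
        linarith
      _ = p ^ A * ρ ^ (Z.card + a) * σ ^ s * (ρ * (1 + q ^ m')) := by
        rw [hqdef, mul_pow, ← pow_mul]
        ring
      _ ≤ p ^ A * ρ ^ (Z.card + a) * σ ^ s * σ ^ (min (ov N Z v) d) :=
        mul_le_mul_of_nonneg_left hkey (by positivity)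
      _ = p ^ A * ρ ^ (Z.card + a) * σ ^ (s + min (ov N Z v) d) := by rw [pow_add]; ring

end KeyAux

open KeyAux

/-- **The key estimate.** -/
theorem key_sum {N : ℕ → Finset ℕ} {V : Finset ℕ} {d D : ℕ} {p ρ σ : ℝ} (hd0 : 1 ≤ d)
    (hd : ∀ u ∈ V, d ≤ (N u).card) (hD : ∀ r, (V.filter (fun u => r ∈ N u)).card ≤ D)
    (hp : 0 < p) (hρ : 1 ≤ ρ) (hσ : ρ ≤ σ) (hq : p * σ ^ (D - 1) ≤ 1)
    (hstep : ∀ m, m < d → ρ * (1 + (p * σ ^ (D - 1)) ^ m) ≤ σ ^ (d - m)) {v : ℕ} (hv : v ∈ V) :
    ∑ T ∈ cns (tc N) V v, p ^ (T.biUnion N).card * ρ ^ (tch (tc N) V T).card ≤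
      ρ * (p * σ ^ (D - 1)) ^ (N v).card := by
  classical
  have hρ0 : 0 < ρ := by linarith
  have hσ1 : 1 ≤ σ := hρ.trans hσ
  have h1 : cns (tc N) V v ⊆ fam N V {v} ∅ := by
    intro T hT
    unfold cns at hT
    unfold fam
    rw [mem_filter, mem_powerset] at hT ⊢
    refine ⟨hT.1, singleton_subset_iff.2 hT.2.1, disjoint_empty_right _, ?_⟩
    intro Y hY hne hf
    have h2 := hT.2.2.2 Y hY hne hf
    exact ⟨v, mem_inter.2 ⟨h2 ▸ hT.2.1, mem_singleton_self v⟩⟩
  refine (sum_le_sum_of_subset_of_nonneg (f := wt N V p ρ) h1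
    (fun S _ _ => wt_nn hp hρ S)).trans ?_
  refine (main hd0 hd hD hp hρ hσ hq hstep _ {v} ∅ (singleton_subset_iff.2 hv)
    (empty_subset _) rfl).trans ?_
  unfold Phi
  have h2 : ∑ u ∈ V \ ({v} ∪ ∅), min (ov N {v} u) d ≤ (D - 1) * (N v).card := by
    have h3 := sum_new hD ∅ hv
    rw [biUnion_empty, sdiff_empty] at h3
    refine le_trans ?_ h3
    rw [union_empty, sdiff_singleton_eq_erase]
    refine sum_le_sum fun u _ => (min_le_left _ _).trans ?_
    unfold ov
    rw [singleton_biUnion]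
  have h3 : (ot N {v} ∅).card = 0 := by
    unfold ot
    rw [filter_empty, card_empty]
  rw [h3, singleton_biUnion, card_singleton, Nat.add_zero, pow_one]
  calc p ^ (N v).card * ρ * σ ^ (∑ u ∈ V \ ({v} ∪ ∅), min (ov N {v} u) d)
      ≤ p ^ (N v).card * ρ * σ ^ ((D - 1) * (N v).card) :=
        mul_le_mul_of_nonneg_left (pow_le_pow_right₀ hσ1 h2) (by positivity)
    _ = ρ * (p * σ ^ (D - 1)) ^ (N v).card := by
      rw [mul_pow, ← pow_mul]
      ring

end Pool.Agent.Lib.Pa7c826h
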