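import Pool.Agent.Lib.Pa7c826h.Class
import Pool.Agent.Lib.Pa7c826h.Key
import Pool.Agent.Lib.Pa7c826k.Defs

/-!
Definitions for the algorithm for bipartite graphs with a gap between the degrees of the two sides.

`sd` is the side with the large degrees (`sd = true`: the vertices below `a`).
-/

namespace Pool.Agent.Lib.Pa7c826h

open Finset Pool.Agent.Lib.Pa7c826 Pool.Agent.Lib.Pa7c826t Pool.Agent.Lib.Pa7c826e
  Pool.Agent.Lib.Pa7c826k

/-! ### The hypotheses -/

/-- a bipartite graph on the vertices below `n` -/
structure GB (n a : ℕ) (adj : ℕ → ℕ → Bool) : Prop where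
  han : a ≤ n
  sym : ∀ u v, adj u v = adj v u
  irr : ∀ u, adj u u = false
  lt : ∀ u v, adj u v = true → u < n
  bip : ∀ u v, adj u v = true → (u < a ↔ ¬ v < a)

/-- on the side `sd` all degrees are at least `d`, on the other side at most `D < d` -/
structure GD (n a d D : ℕ) (sd : Bool) (adj : ℕ → ℕ → Bool) : Prop extends GB n a adj where
  low : ∀ u ∈ sideS a sd (range n), d ≤ dg adj (range n) u
  rgt : ∀ v ∈ sideS a (!sd) (range n), dg adj (range n) v ≤ D
  hDd : D < d

/-- all degrees are less than `2 ^ l`, and the gap is at least `log₂ d + l / (2 E) + 3` -/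
structure GH (n a d D l E : ℕ) (sd : Bool) (adj : ℕ → ℕ → Bool) : Prop
    extends GD n a d D sd adj where
  upp : ∀ v < n, dg adj (range n) v < 2 ^ l
  hl : d < 2 ^ l
  hE : 1 ≤ E
  gap : Real.logb 2 d + l / (2 * E) + 3 ≤ (d : ℝ) - D

/-- the hypotheses on the parameters `K` (truncation) and `q` (unit of precision) -/
structure PrH (n a d D l E x K q : ℕ) (sd : Bool) (adj : ℕ → ℕ → Bool) : Prop
    extends GH n a d D l E sd adj where
  hK : 1 ≤ K
  hx : 16 * E * (x + 8) ≤ l * K
  hq : l * K ≤ q

section

variable (n a d : ℕ) (adj : ℕ → ℕ → Bool) (sd : Bool)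

/-! ### Weights -/

/-- the number of vertices on the other side -/
def os : ℕ := (sideS a (!sd) (range n)).card

/-- the weight of a skeleton -/
noncomputable def w1 (Z : Finset ℕ) : ℝ := (om n a d adj sd Z : ℝ) / 2 ^ os n a sd

/-- the weight of a set of vertices of the side `sd` -/
noncomputable def fw (S : Finset ℕ) : ℝ := (1 / 2 : ℝ) ^ (NB n adj S).card

/-- the neighbourhood of a vertex -/
def nbh (u : ℕ) : Finset ℕ := NB n adj {u}

/-- to be equal or to have a common neighbour -/
def r2 (u v : ℕ) : Prop := tc (nbh n adj) u v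

/-! ### The algorithm, in terms of its parameters -/

/-- approximation of `2 ^ p * w1 Z`; `k` is the threshold for leaves, `T` the threshold for the
number of neighbours -/
def omV (k T p : ℕ) (Z : Finset ℕ) : ℕ :=
  if (NB n adj Z).card ≤ T then omU n a d adj sd k p Z else 0

/-- approximation of `2 ^ p * Xi Y` -/
def xiV (k T p : ℕ) (Y : Finset ℕ) : ℕ :=
  ∑ σ ∈ range (2 ^ Y.card), omV n a d adj sd k T p (sel Y σ)

/-- approximation of `2 ^ p * Rt v Y` -/
def rtV (k T p v : ℕ) (Y : Finset ℕ) : ℕ :=
  2 ^ p * xiV n a d adj sd k T p Y / xiV n a d adj sd k T p (insert v Y)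

/-- the terms of one sign in the Moebius transform of `rtV` -/
def mbV (k T p v e : ℕ) (X : Finset ℕ) : ℕ :=
  ∑ τ ∈ range (2 ^ X.card), if (X.card + (sel X τ).card) % 2 = e then
    rtV n a d adj sd k T p v (sel X τ) else 0

/-- the terms of one sign in the expansion of the ratio at `v` -/
def sgV (l K k T p v e : ℕ) : ℕ :=
  ∑ c ∈ range (2 ^ (12 * l * K)), if adm n a adj sd l K c v then
    mbV n a d adj sd k T p v e ((dec n adj l K c v).erase v) else 0

/-- approximation of `2 ^ p / Rt v (blw V v)` -/
def qvV (l K k T p v : ℕ) : ℕ :=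
  if v ∈ sideS a sd (range n) then
    2 ^ p * 2 ^ p / (sgV n a d adj sd l K k T p v 0 - sgV n a d adj sd l K k T p v 1)
  else 2 ^ p

/-- approximation of `2 ^ (p n) * Xi V` -/
def prV (l K k T p : ℕ) : ℕ := ∏ v ∈ range n, qvV n a d adj sd l K k T p v

end

/-! ### The parameters as functions of the input string

`E` is a constant, `adjOf w` the adjacency of the input graph, `nOf w` its number of vertices,
`aOf w` the number of vertices on the side `true`. -/

/-- `D` is at least the degree of every vertex on the side `s` -/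
def topB (w : List Bool) (s : Bool) (D : ℕ) : Bool :=
  decide (∀ v ∈ range (nOf w), v ∈ sideS (aOf w) s (range (nOf w)) →
    dg (adjOf w) (range (nOf w)) v ≤ D)

/-- the maximal degree on the side `s` -/
def mxK (w : List Bool) (s : Bool) : ℕ :=
  ((range (nOf w)).filter (fun D => topB w s D = false)).card

/-- some vertex of the side `s` has degree at most `D` -/
def botB (w : List Bool) (s : Bool) (D : ℕ) : Bool :=
  decide (∃ v ∈ range (nOf w), v ∈ sideS (aOf w) s (range (nOf w)) ∧
    dg (adjOf w) (range (nOf w)) v ≤ D)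

/-- the minimal degree on the side `s` (`nOf w` if there is no vertex on this side) -/
def mnK (w : List Bool) (s : Bool) : ℕ :=
  ((range (nOf w)).filter (fun D => botB w s D = false)).card

/-- the side with the large degrees -/
def sdK (w : List Bool) : Bool := decide (mxK w false < mnK w true)

/-- whether the graph has no edges -/
def noE (w : List Bool) : Bool := decide (mxK w true = 0)

/-- the minimal degree on the large side -/
def dK (w : List Bool) : ℕ := if sdK w = true then mnK w true else mnK w false

/-- `log₂ Δ + 1`, `Δ` the maximal degree -/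
def lH (w : List Bool) : ℕ := Nat.log 2 (max (mxK w true) (mxK w false)) + 1

/-- the logarithm of the precision -/
def xH (w : List Bool) : ℕ := Nat.log 2 (64 * nOf w * tOf w)

/-- the truncation -/
def KH (E : ℕ) (w : List Bool) : ℕ := 16 * E * (xH w + 8) / lH w + 1

/-- the unit of precision -/
def qH (E : ℕ) (w : List Bool) : ℕ := 16 * E * (xH w + 8) + lH w

/-- the threshold for leaves -/
def kH (E : ℕ) (w : List Bool) : ℕ := 19200 * E * qH E w

/-- the threshold for the number of neighbours -/
def TH (E : ℕ) (w : List Bool) : ℕ := 64 * E * KH E w * dK w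

/-- the binary precision -/
def pH (E : ℕ) (w : List Bool) : ℕ := 20600 * E * qH E w

/-- the product -/
def prH (E : ℕ) (w : List Bool) : ℕ :=
  if sdK w = true then
    prV (nOf w) (aOf w) (dK w) (adjOf w) true (lH w) (KH E w) (kH E w) (TH E w) (pH E w)
  else prV (nOf w) (aOf w) (dK w) (adjOf w) false (lH w) (KH E w) (kH E w) (TH E w) (pH E w)

/-- the numerator of the output -/
def algH (E : ℕ) (w : List Bool) : ℕ :=
  if noE w = true then 2 ^ nOf w
  else if sdK w = true then 2 ^ (nOf w - aOf w) * prH E w else 2 ^ aOf w * prH E w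

/-- the binary logarithm of the denominator of the output -/
def expH (E : ℕ) (w : List Bool) : ℕ := if noE w = true then 0 else pH E w * nOf w

/-- the input strings with the hypotheses of the algorithm -/
def VldH (E : ℕ) (w : List Bool) : Prop :=
  1 ≤ tOf w ∧ noE w = false ∧ ∃ D, GH (nOf w) (aOf w) (dK w) D (lH w) E (sdK w) (adjOf w)

end Pool.Agent.Lib.Pa7c826h
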