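import Pool.Agent.Lib.Pa7c826h.Defs
import Pool.Agent.Lib.Pa7c826k.Deg

/-!
Walks whose every sixth vertex is given.

PROOFS. Copy `DegAux.six`, `walk6` of `Pa7c826k/Deg.lean` with `GD n a d D sd adj` in place of
`XHost n a d A adj`. Every vertex of the side `sd` has a neighbour (`hh.low`, `1 ≤ d` from `hh.hDd`),
so the case `u = v` of `r6` is a walk back and forth along one edge.
-/

namespace Pool.Agent.Lib.Pa7c826h

open Finset Pool.Agent.Lib.Pa7c826 Pool.Agent.Lib.Pa7c826t Pool.Agent.Lib.Pa7c826e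
  Pool.Agent.Lib.Pa7c826k

variable {n a d D : ℕ} {adj : ℕ → ℕ → Bool} {sd : Bool}

namespace DegHAux

theorem exists_nb (hh : GD n a d D sd adj) {u : ℕ} (hu : u ∈ sideS a sd (range n)) :
    ∃ z, adj u z = true := by
  have h1 := hh.low u hu
  have h2 := hh.hDd
  have h3 : 0 < ((range n).filter (fun z => adj u z = true)).card := by
    have : dg adj (range n) u = ((range n).filter (fun z => adj u z = true)).card := rfl
    omega
  obtain ⟨z, hz⟩ := card_pos.1 h3
  exact ⟨z, (mem_filter.1 hz).2⟩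

theorem six (hh : GD n a d D sd adj) {u v : ℕ} (hu : u ∈ sideS a sd (range n))
    (h : r6 adj u v) :
    ∃ w : ℕ → ℕ, w 0 = u ∧ w 6 = v ∧ ∀ s < 6, adj (w s) (w (s + 1)) = true := by
  rcases h with h | ⟨x1, x2, x3, x4, x5, h1, h2, h3, h4, h5, h6⟩
  · obtain ⟨z, hz⟩ := exists_nb hh hu
    have hz' : adj z u = true := by rw [hh.sym]; exact hz
    refine ⟨fun s => if s % 2 = 0 then u else z, by simp, by simpa using h, ?_⟩
    intro s hs
    interval_cases s <;> simp [hz, hz']
  · refine ⟨fun s => ([u, x1, x2, x3, x4, x5, v] : List ℕ).getD s 0, by simp, by simp, ?_⟩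
    intro s hs
    interval_cases s <;> simp [h1, h2, h3, h4, h5, h6]

end DegHAux

open DegHAux

theorem walk6H (hh : GD n a d D sd adj) {p : ℕ → ℕ} (hp : ∀ i, r6 adj (p i) (p (i + 1)))
    (hn : ∀ i, p i ∈ sideS a sd (range n)) :
    ∃ g : ℕ → ℕ, (∀ i, g (6 * i) = p i) ∧ ∀ j, adj (g j) (g (j + 1)) = true := by
  choose w hw0 hw6 hw using fun i => DegHAux.six hh (hn i) (hp i)
  refine ⟨fun j => w (j / 6) (j % 6), ?_, ?_⟩
  · intro i
    have h1 : 6 * i / 6 = i := by omega
    have h2 : 6 * i % 6 = 0 := by omega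
    show w (6 * i / 6) (6 * i % 6) = p i
    rw [h1, h2]
    exact hw0 i
  · intro j
    show adj (w (j / 6) (j % 6)) (w ((j + 1) / 6) ((j + 1) % 6)) = true
    have h6 : j % 6 < 6 := Nat.mod_lt _ (by norm_num)
    by_cases h5 : j % 6 = 5
    · have h1 : (j + 1) / 6 = j / 6 + 1 := by omega
      have h2 : (j + 1) % 6 = 0 := by omega
      rw [h1, h2, hw0]
      have h3 := hw (j / 6) (j % 6) h6
      rw [h5] at h3 ⊢
      rw [← hw6 (j / 6)]
      exact h3
    · have h1 : (j + 1) / 6 = j / 6 := by omega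
      have h2 : (j + 1) % 6 = j % 6 + 1 := by omega
      rw [h1, h2]
      exact hw (j / 6) (j % 6) h6

end Pool.Agent.Lib.Pa7c826h
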