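import Pool.Agent.Lib.Pa7c826h.DegH
import Pool.Agent.Lib.Pa7c826k.Fam

/-!
The family of the sets that are given by codes.

PROOFS. Copy `exists_fam` (`Pa7c826k/Fam.lean`) with `GH n a d D l E sd adj` in place of
`XHost n a d A adj`, `hh.upp` in place of `hh.reg` and `d < 2 ^ l`, `walk6H` in place of `walk6`.
`nbr_eq`, `exists_code` and the private lemmas there do not use the host graph (copy them if
they are private).
-/

namespace Pool.Agent.Lib.Pa7c826h

open Finset Pool.Agent.Lib.Pa7c826 Pool.Agent.Lib.Pa7c826t Pool.Agent.Lib.Pa7c826e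
  Pool.Agent.Lib.Pa7c826k

variable {n a d D l E : ℕ} {adj : ℕ → ℕ → Bool} {sd : Bool}

theorem exists_famH (hh : GH n a d D l E sd adj) {K v : ℕ} (hK : 1 ≤ K)
    (hv : v ∈ sideS a sd (range n)) :
    ∃ F : Finset (Finset ℕ), F ⊆ (blw (sideS a sd (range n)) v).powerset ∧
      (∀ X ∈ F, X.card < K) ∧ F.card ≤ 2 ^ (12 * l * K) ∧
      (∀ X, X ⊆ blw (sideS a sd (range n)) v → Conn (r6 adj) (insert v X) → X.card < K →
        X ∈ F) ∧
      ∀ g : Finset ℕ → ℕ, (∑ c ∈ range (2 ^ (12 * l * K)), if adm n a adj sd l K c v then
        g ((dec n adj l K c v).erase v) else 0) = ∑ X ∈ F, g X := by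
  classical
  set V := sideS a sd (range n) with hV
  have hvn : v < n := by
    have h1 := hv
    rw [hV] at h1
    unfold sideS at h1
    rw [mem_filter, mem_range] at h1
    exact h1.1
  have hVn : V ⊆ range n := by
    rw [hV]
    unfold sideS
    exact filter_subset _ _
  have hdec : ∀ c, dec n adj l K c v ⊆ range n := by
    intro c
    unfold dec
    exact filter_subset _ _
  have hdsub : ∀ c, adm n a adj sd l K c v → (dec n adj l K c v).erase v ⊆ blw V v := by
    intro c hc u hu
    rw [mem_erase] at hu
    unfold blw
    rw [mem_filter]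
    have h1 := hc.2.1 u (hdec c hu.2) hu.2
    exact ⟨h1.1, lt_of_le_of_ne h1.2 hu.1⟩
  set S := (range (2 ^ (12 * l * K))).filter (fun c => adm n a adj sd l K c v) with hS
  have hinj : ∀ c ∈ S, ∀ c' ∈ S, (dec n adj l K c v).erase v = (dec n adj l K c' v).erase v →
      c = c' := by
    have key : ∀ c ∈ S, ∀ c' ∈ S, (dec n adj l K c v).erase v = (dec n adj l K c' v).erase v →
        ¬ c' < c := by
      intro c hc c' hc' he hlt
      rw [hS, mem_filter] at hc hc'
      have h1 : dec n adj l K c v = dec n adj l K c' v := by
        rw [← insert_erase hc.2.1.1, he, insert_erase hc'.2.1.1]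
      refine hc.2.2.2 c' (mem_range.2 hlt) (fun u _ => ?_)
      rw [h1]
    intro c hc c' hc' he
    rcases lt_trichotomy c c' with h | h | h
    · exact absurd h (key c' hc' c hc he.symm)
    · exact h
    · exact absurd h (key c hc c' hc' he)
  refine ⟨S.image (fun c => (dec n adj l K c v).erase v), ?_, ?_, ?_, ?_, ?_⟩
  · intro X hX
    rw [mem_image] at hX
    obtain ⟨c, hc, rfl⟩ := hX
    rw [hS, mem_filter] at hc
    rw [mem_powerset]
    exact hdsub c hc.2
  · intro X hX
    rw [mem_image] at hX
    obtain ⟨c, hc, rfl⟩ := hX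
    rw [hS, mem_filter] at hc
    have h1 := card_erase_of_mem hc.2.1.1
    have h2 := hc.2.1.2
    omega
  · refine card_image_le.trans ?_
    rw [hS]
    exact (card_filter_le _ _).trans (by rw [card_range])
  · intro X hX hconn hXK
    set T := insert v X with hT
    have hvX : v ∉ X := by
      intro h
      have h1 := hX h
      unfold blw at h1
      rw [mem_filter] at h1
      omega
    have hTc : T.card = X.card + 1 := card_insert_of_notMem hvX
    have hTV : T ⊆ V := by
      refine insert_subset hv ?_
      intro x hx
      have h1 := hX hx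
      unfold blw at h1
      rw [mem_filter] at h1
      exact h1.1
    have hTn : T ⊆ range n := hTV.trans hVn
    obtain ⟨p, hp0, hp1, hp2, hp3⟩ := conn_walk (r6_refl adj) (r6_symm hh.sym) hconn
      (mem_insert_self v X) (m := K - 1) (by omega)
    obtain ⟨g, hg1, hg2⟩ := walk6H hh.toGD hp1 (fun i => hTV (hp2 i))
    have hgn : ∀ j, g j < n := fun j => hh.lt _ _ (hg2 j)
    obtain ⟨c, hc1, hc2⟩ := Pool.Agent.Lib.Pa7c826k.exists_code l
      (fun j => ((range (g (j + 1))).filter (fun x => adj (g j) x = true)).card)
      (fun j => by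
        refine lt_trans ?_ (hh.upp (g j) (hgn j))
        unfold dg
        refine card_lt_card ?_
        rw [ssubset_iff_of_subset]
        · refine ⟨g (j + 1), ?_, ?_⟩
          · rw [mem_filter, mem_range]
            exact ⟨hgn (j + 1), hg2 j⟩
          · rw [mem_filter, mem_range]
            omega
        · intro x hx
          rw [mem_filter, mem_range] at hx ⊢
          have h1 := hgn (j + 1)
          exact ⟨by omega, hx.2⟩) (12 * K)
    have hw : ∀ j, j ≤ 12 * K → wlk n adj l c v j = g j := by
      intro j
      induction j with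
      | zero =>
        intro _
        have h1 := hg1 0
        rw [Nat.mul_zero] at h1
        rw [h1, hp0]
        rfl
      | succ j ih =>
        intro hj
        show nbr n adj (wlk n adj l c v j) (c / 2 ^ (l * j) % 2 ^ l) = g (j + 1)
        rw [ih (by omega), hc2 j (by omega)]
        exact nbr_eq (hgn (j + 1)) (hg2 j)
    have hdT : dec n adj l K c v = T := by
      ext u
      unfold dec
      rw [mem_filter, mem_image]
      constructor
      · rintro ⟨_, j, hj, hju⟩
        rw [mem_range] at hj
        rw [hw (6 * j) (by omega), hg1] at hju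
        rw [← hju]
        exact hp2 j
      · intro hu
        refine ⟨hTn hu, ?_⟩
        rw [hp3, mem_image] at hu
        obtain ⟨j, hj, hju⟩ := hu
        rw [mem_range] at hj
        refine ⟨j, mem_range.2 (by omega), ?_⟩
        rw [hw (6 * j) (by omega), hg1, hju]
    have hex : ∃ c, c < 2 ^ (12 * l * K) ∧ dec n adj l K c v = T := by
      refine ⟨c, ?_, hdT⟩
      have h1 : 12 * l * K = l * (12 * K) := by ring
      rw [h1]
      exact hc1
    have hf := Nat.find_spec hex
    have hm : ∀ c', c' < Nat.find hex → ¬ (c' < 2 ^ (12 * l * K) ∧ dec n adj l K c' v = T) :=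
      fun c' hc' => Nat.find_min hex hc'
    generalize Nat.find hex = c0 at hf hm
    rw [mem_image]
    refine ⟨c0, ?_, ?_⟩
    · rw [hS, mem_filter, mem_range]
      refine ⟨hf.1, ?_⟩
      unfold adm
      rw [hf.2]
      refine ⟨⟨mem_insert_self _ _, by omega⟩, ?_, ?_⟩
      · intro u _ hu
        refine ⟨hTV hu, ?_⟩
        rcases mem_insert.1 hu with h | h
        · rw [h]
        · have h1 := hX h
          unfold blw at h1
          rw [mem_filter] at h1
          omega
      · intro c' hc' hall
        rw [mem_range] at hc'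
        refine hm c' hc' ⟨by omega, ?_⟩
        ext u
        constructor
        · intro hu
          exact (hall u (hdec c' hu)).1 hu
        · intro hu
          exact (hall u (hTn hu)).2 hu
    · show (dec n adj l K c0 v).erase v = X
      rw [hf.2]
      exact erase_insert hvX
  · intro g
    rw [sum_image hinj, hS, sum_filter]

end Pool.Agent.Lib.Pa7c826h
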