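import Pool.Agent.Lib.Pa7c826h.PParH
import Pool.Agent.Lib.Pa7c826.Fptas
import Pool.Agent.Lib.Pa7c826e.EClass
import Pool.Agent.Lib.Pa7c826e.EFin

/-!
The input strings of unbalanced bipartite graphs.

PROOFS. `gap_unb`: put `A = logb 2 D ≥ 0`, `B = logb 2 Δ ≥ 0`, `logb 2 (D Δ) = A + B`,
`l ≤ B + 1`, so `l / (2 E) ≤ ε B / 2 + 1 / 10`. If `d ≤ 2 D`: `logb 2 d ≤ A + 1`. If `d > 2 D`:
`d - D ≥ d / 2`, so `d - D ≥ d / 8 + (3 / 4) (A + ε (A + B) + 7)`, and `logb 2 d ≤ d / 8 + 2.1`.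
`gap_const`: the same with `l / (2 E) ≤ 1 / 10`.
`dg_row`, `dg_colH`: see `Pa7c826/Fptas.lean`, `Pa7c826e/EClass.lean`, `Pa7c826g/Easy.lean`.
`mx_spec`: `mxK w s` is the number of the `D < n` such that some vertex of the side `s` has degree
`> D`; all degrees are at most `n`. So it is the largest degree of the side `s` (`0` if there is no vertex).
`mn_spec`: similarly, if the side has a vertex then `mnK w s` is the smallest degree.
`ghH`: let `w = inCode G t`. Since `noE w = false`, `mxK w true ≥ 1`, so some row has degree at least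
`1` and both sides have vertices. First case of `Band` (the columns have degree `≤ D`, the rows
at least `x`, at most `Δ`): some column has degree `≥ 1`, so `1 ≤ D`;
`mxK w false ≤ D < x ≤ mnK w true`, so `sdK w = true`, `dK w = mnK w true =: d`; the hypotheses of
`GH` with this `D`: `low` (`mn_spec`), `rgt`, `hDd`, `upp`: all degrees are at most
`m = max (mxK w true) (mxK w false) < 2 ^ lH w` (`Nat.lt_pow_succ_log_self`), `hl`: `d ≤ m`,
`gap`: the hypothesis on `x` with `l = lH w`: `2 ^ (l - 1) ≤ m ≤ Δ` (`D ≤ Δ`, as `D < x ≤ Δ`). Second case: the columns have degree `≥ x > D`, the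
rows `≤ D`; `1 ≤ D` because some row has degree `≥ 1`; `mxK w false ≥ mnK w false ≥ x > D ≥ mxK w true ≥ mnK w true`, so `sdK w = false`,
`dK w = mnK w false`. `ind_noE`: all rows have degree `0`, so there are no edges and all subsets
of `range n` are independent.
-/

namespace Pool.Agent.Lib.Pa7c826h

open Finset Pool.Agent.Lib.Pa7c826 Pool.Agent.Lib.Pa7c826t Pool.Agent.Lib.Pa7c826e
  Pool.Agent.Lib.Pa7c826k

namespace HostHAux

theorem card_down (n : ℕ) (p : ℕ → Prop) [DecidablePred p] (h : ∀ D D', D' ≤ D → p D → p D') :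
    ∀ D < n, (p D ↔ D < ((range n).filter p).card) := by
  set F := (range n).filter p with hF
  have h1 : F ⊆ range F.card := by
    intro D hD
    rw [hF, mem_filter, mem_range] at hD
    have h2 : range (D + 1) ⊆ F := by
      intro D' hD'
      rw [mem_range] at hD'
      rw [hF, mem_filter, mem_range]
      exact ⟨by omega, h D D' (by omega) hD.2⟩
    have h3 := card_le_card h2
    rw [card_range] at h3
    rw [mem_range]
    omega
  have h2 : F = range F.card := eq_of_subset_of_card_le h1 (by rw [card_range])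
  intro D hD
  constructor
  · intro hp
    have : D ∈ F := by
      rw [hF, mem_filter, mem_range]
      exact ⟨hD, hp⟩
    exact mem_range.1 (h1 this)
  · intro hlt
    have : D ∈ F := by
      rw [h2]
      exact mem_range.2 hlt
    rw [hF, mem_filter] at this
    exact this.2

theorem dg_le (adj : ℕ → ℕ → Bool) (n v : ℕ) : dg adj (range n) v ≤ n := by
  unfold dg
  refine (card_filter_le _ _).trans ?_
  rw [card_range]

theorem mem_side {a : ℕ} {s : Bool} {n v : ℕ} :
    v ∈ sideS a s (range n) ↔ v < n ∧ decide (v < a) = s := by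
  unfold sideS
  rw [mem_filter, mem_range]

theorem topB_false {w : List Bool} {s : Bool} {D : ℕ} : topB w s D = false ↔
    ∃ v ∈ sideS (aOf w) s (range (nOf w)), D < dg (adjOf w) (range (nOf w)) v := by
  unfold topB
  rw [decide_eq_false_iff_not]
  push Not
  constructor
  · rintro ⟨v, _, h2, h3⟩
    exact ⟨v, h2, h3⟩
  · rintro ⟨v, h2, h3⟩
    exact ⟨v, mem_range.2 (mem_side.1 h2).1, h2, h3⟩

theorem botB_false {w : List Bool} {s : Bool} {D : ℕ} : botB w s D = false ↔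
    ∀ v ∈ sideS (aOf w) s (range (nOf w)), D < dg (adjOf w) (range (nOf w)) v := by
  unfold botB
  rw [decide_eq_false_iff_not]
  push Not
  constructor
  · intro h v hv
    exact h v (mem_range.2 (mem_side.1 hv).1) hv
  · intro h v _ hv
    exact h v hv

theorem mx_down (w : List Bool) (s : Bool) :
    ∀ D < nOf w, (topB w s D = false ↔ D < mxK w s) := by
  refine card_down (nOf w) (fun D => topB w s D = false) ?_
  intro D D' hD h
  rw [topB_false] at h ⊢
  obtain ⟨v, h1, h2⟩ := h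
  exact ⟨v, h1, by omega⟩

theorem mn_down (w : List Bool) (s : Bool) :
    ∀ D < nOf w, (botB w s D = false ↔ D < mnK w s) := by
  refine card_down (nOf w) (fun D => botB w s D = false) ?_
  intro D D' hD h
  rw [botB_false] at h ⊢
  intro v hv
  have := h v hv
  omega

theorem mx_le_n (w : List Bool) (s : Bool) : mxK w s ≤ nOf w := by
  unfold mxK
  refine (card_filter_le _ _).trans ?_
  rw [card_range]

theorem mn_le_n (w : List Bool) (s : Bool) : mnK w s ≤ nOf w := by
  unfold mnK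
  refine (card_filter_le _ _).trans ?_
  rw [card_range]

end HostHAux

open HostHAux

/-- the degrees on one side are at most `D`, on the other side in `[x, Δ]`, and every integer `d` in
`[x, Δ]` satisfies the condition on the gap for every `l` with `2 ^ (l - 1) ≤ Δ` -/
def Cls (E : ℕ) (G : BGraph) : Prop :=
  ∃ (D Δ : ℕ) (x : ℝ), Band D Δ x G ∧ ∀ d l : ℕ, 1 ≤ D → x ≤ d → d ≤ Δ → 1 ≤ l →
    2 ^ (l - 1) ≤ Δ → Real.logb 2 d + l / (2 * E) + 3 ≤ (d : ℝ) - D

namespace HostHAux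

theorem log_tan {c d : ℝ} (hc : 0 < c) (hd : 0 < d) :
    Real.logb 2 d ≤ Real.logb 2 c + (d / c - 1) / Real.log 2 := by
  have hlog2 : (0 : ℝ) < Real.log 2 := Real.log_pos (by norm_num)
  have h2 : Real.logb 2 d = Real.logb 2 c + Real.logb 2 (d / c) := by
    rw [← Real.logb_mul hc.ne' (by positivity)]
    congr 1
    field_simp
  rw [h2]
  have h3 := Real.log_le_sub_one_of_pos (div_pos hd hc)
  have h4 : Real.logb 2 (d / c) ≤ (d / c - 1) / Real.log 2 :=
    div_le_div_of_nonneg_right h3 hlog2.le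
  linarith

theorem l_le {Δ l : ℕ} (hl : 1 ≤ l) (hlΔ : 2 ^ (l - 1) ≤ Δ) : (l : ℝ) ≤ Real.logb 2 Δ + 1 := by
  have hΔ1 : 1 ≤ Δ := by
    have : 0 < 2 ^ (l - 1) := by positivity
    omega
  have hΔR : (1 : ℝ) ≤ Δ := by exact_mod_cast hΔ1
  have h1 : ((l - 1 : ℕ) : ℝ) ≤ Real.logb 2 Δ := by
    rw [Real.le_logb_iff_rpow_le (by norm_num) (by positivity), Real.rpow_natCast]
    exact_mod_cast hlΔ
  have h2 : ((l - 1 : ℕ) : ℝ) = l - 1 := by
    push_cast [Nat.cast_sub hl]
    ring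
  linarith

theorem log_small {d D : ℝ} (hD : 0 < D) (hd0 : 0 < d) (h : d ≤ 2 * D) :
    Real.logb 2 d ≤ Real.logb 2 D + 1 := by
  have h2 : Real.logb 2 d ≤ Real.logb 2 (2 * D) :=
    Real.logb_le_logb_of_le (by norm_num) hd0 h
  rw [Real.logb_mul (by norm_num) hD.ne', Real.logb_self_eq_one (by norm_num)] at h2
  linarith

theorem logb_16 : Real.logb 2 16 = 4 := by
  rw [show (16 : ℝ) = 2 ^ (4 : ℝ) by norm_num, Real.logb_rpow (by norm_num) (by norm_num)]

theorem inv_log2 : 14426 / 10000 ≤ 1 / Real.log 2 ∧ 1 / Real.log 2 ≤ 14427 / 10000 := by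
  have h1 := Real.log_two_gt_d9
  have h2 := Real.log_two_lt_d9
  constructor
  · rw [le_div_iff₀ (by linarith)]
    linarith
  · rw [div_le_iff₀ (by linarith)]
    linarith

theorem logb_le_sub {D : ℕ} (hD : 1 ≤ D) : Real.logb 2 D ≤ D - 1 := by
  have h0 : (0 : ℝ) < D := by exact_mod_cast hD
  rw [Real.logb_le_iff_le_rpow (by norm_num) h0]
  have h1 : (D : ℝ) - 1 = ((D - 1 : ℕ) : ℝ) := by
    rw [Nat.cast_sub hD, Nat.cast_one]
  rw [h1, Real.rpow_natCast]
  have h2 : D - 1 + 1 ≤ 2 ^ (D - 1) := Nat.lt_two_pow_self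
  have h3 : D ≤ 2 ^ (D - 1) := by omega
  exact_mod_cast h3

end HostHAux

theorem gap_unb {ε : ℝ} {E D Δ d l : ℕ} (hE : 1 ≤ ε * E) (hE5 : 5 ≤ E)
    (hε : 0 < ε) (hD : 1 ≤ D)
    (hx : (D : ℝ) + Real.logb 2 D + ε * Real.logb 2 (D * Δ) + 7 ≤ d)
    (hl : 1 ≤ l) (hlΔ : 2 ^ (l - 1) ≤ Δ) :
    Real.logb 2 d + l / (2 * E) + 3 ≤ (d : ℝ) - D := by
  have hDR : (1 : ℝ) ≤ D := by exact_mod_cast hD
  have hER : (5 : ℝ) ≤ E := by exact_mod_cast hE5
  have hΔ1 : 1 ≤ Δ := by
    have : 0 < 2 ^ (l - 1) := by positivity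
    omega
  have hΔR : (1 : ℝ) ≤ Δ := by exact_mod_cast hΔ1
  have hA : 0 ≤ Real.logb 2 (D : ℝ) := Real.logb_nonneg (by norm_num) hDR
  have hB : 0 ≤ Real.logb 2 (Δ : ℝ) := Real.logb_nonneg (by norm_num) hΔR
  have hAB : Real.logb 2 ((D : ℝ) * Δ) = Real.logb 2 D + Real.logb 2 Δ :=
    Real.logb_mul (by positivity) (by positivity)
  have hlB := l_le hl hlΔ
  rw [hAB] at hx
  set A := Real.logb 2 (D : ℝ) with hAdef
  set B := Real.logb 2 (Δ : ℝ) with hBdef
  have hlE : (l : ℝ) / (2 * E) ≤ ε * B / 2 + 1 / 10 := by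
    rw [div_le_iff₀ (by positivity)]
    have h1 : B ≤ ε * E * B := by nlinarith
    nlinarith
  have hεA : 0 ≤ ε * A := by positivity
  have hεB : 0 ≤ ε * B := by positivity
  have hd0 : (0 : ℝ) < d := by linarith
  have hlog2 := Real.log_two_gt_d9
  rcases le_or_gt (d : ℝ) (2 * D) with h | h
  · have h1 := log_small (by linarith) hd0 h
    linarith
  · have h1 : Real.logb 2 (d : ℝ) ≤ d / 11 + 256 / 100 := by
      have h2 := log_tan (c := 16) (by norm_num) hd0
      rw [logb_16] at h2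
      obtain ⟨e1, e2⟩ := inv_log2
      have h3 : ((d : ℝ) / 16 - 1) / Real.log 2 = d / 16 * (1 / Real.log 2) - 1 / Real.log 2 := by
        ring
      have h4 : (d : ℝ) / 16 * (1 / Real.log 2) ≤ d / 16 * (14427 / 10000) :=
        mul_le_mul_of_nonneg_left e2 (by positivity)
      linarith
    linarith

theorem gap_const {E D d l : ℕ} (hE : 5 * l ≤ E) (hE1 : 1 ≤ E) (hD : 1 ≤ D)
    (hx : (D : ℝ) + Real.logb 2 D + 6 ≤ d) :
    Real.logb 2 d + l / (2 * E) + 3 ≤ (d : ℝ) - D := by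
  have hDR : (1 : ℝ) ≤ D := by exact_mod_cast hD
  have hER : (1 : ℝ) ≤ E := by exact_mod_cast hE1
  have hA : 0 ≤ Real.logb 2 (D : ℝ) := Real.logb_nonneg (by norm_num) hDR
  have hA2 := logb_le_sub hD
  have hlE : (l : ℝ) / (2 * E) ≤ 1 / 10 := by
    rw [div_le_iff₀ (by positivity)]
    have h1 : (5 : ℝ) * l ≤ E := by exact_mod_cast hE
    linarith
  set A := Real.logb 2 (D : ℝ) with hAdef
  obtain ⟨s, hs⟩ : ∃ s : ℝ, (d : ℝ) = D + A + 6 + s := ⟨d - D - A - 6, by ring⟩
  have hs0 : 0 ≤ s := by linarith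
  have hd0 : (0 : ℝ) < d := by linarith
  have h2 := log_tan (c := 8 * (D : ℝ)) (by positivity) hd0
  have h8 : Real.logb 2 (8 * (D : ℝ)) = 3 + A := by
    rw [Real.logb_mul (by norm_num) (by positivity), show (8 : ℝ) = 2 ^ (3 : ℝ) by norm_num,
      Real.logb_rpow (by norm_num) (by norm_num)]
  rw [h8] at h2
  obtain ⟨e1, e2⟩ := inv_log2
  have h3 : (d : ℝ) / (8 * D) - 1 ≤ (s - 1) / 8 := by
    rw [sub_le_iff_le_add, div_le_iff₀ (by positivity)]
    nlinarith
  have hl0 : (0 : ℝ) < Real.log 2 := Real.log_pos (by norm_num)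
  have h4 : ((d : ℝ) / (8 * D) - 1) / Real.log 2 ≤ (s - 1) / 8 / Real.log 2 :=
    div_le_div_of_nonneg_right h3 hl0.le
  have h5 : (s - 1) / 8 / Real.log 2 = s / 8 * (1 / Real.log 2) - 1 / 8 * (1 / Real.log 2) := by
    ring
  have h6 : s / 8 * (1 / Real.log 2) ≤ s / 8 * (14427 / 10000) :=
    mul_le_mul_of_nonneg_left e2 (by positivity)
  linarith

theorem unb_cls {ε : ℝ} {E : ℕ} (hε : 0 < ε) (hE : 1 ≤ ε * E) (hE5 : 5 ≤ E) {G : BGraph}
    (hG : Unbalanced ε 7 G) : Cls E G := by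
  obtain ⟨D, Δ, hB⟩ := hG
  exact ⟨D, Δ, _, hB, fun d l hD hx _ hl hlΔ => gap_unb hE hE5 hε hD hx hl hlΔ⟩

theorem const_cls {D Δ : ℕ} {G : BGraph} (hG : Band D Δ (D + Real.logb 2 D + 6) G) :
    Cls (5 * (Nat.log 2 Δ + 1)) G := by
  refine ⟨D, Δ, _, hG, fun d l hD hx _ hl hlΔ => gap_const ?_ (by omega) hD hx⟩
  have h1 : Δ ≠ 0 := by
    have : 0 < 2 ^ (l - 1) := by positivity
    omega
  have h2 := Nat.le_log_of_pow_le (by norm_num : 1 < 2) hlΔ
  omega

theorem mx_spec (w : List Bool) (s : Bool) :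
    (∀ v ∈ sideS (aOf w) s (range (nOf w)), dg (adjOf w) (range (nOf w)) v ≤ mxK w s) ∧
      (mxK w s ≠ 0 → ∃ v ∈ sideS (aOf w) s (range (nOf w)),
        dg (adjOf w) (range (nOf w)) v = mxK w s) := by
  have h1 : ∀ v ∈ sideS (aOf w) s (range (nOf w)), dg (adjOf w) (range (nOf w)) v ≤ mxK w s := by
    intro v hv
    by_contra h
    push Not at h
    have h2 := dg_le (adjOf w) (nOf w) v
    have h3 := (mx_down w s (mxK w s) (by omega)).1 (topB_false.2 ⟨v, hv, h⟩)
    omega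
  refine ⟨h1, fun h0 => ?_⟩
  have h2 := mx_le_n w s
  have h3 := (mx_down w s (mxK w s - 1) (by omega)).2 (by omega)
  rw [topB_false] at h3
  obtain ⟨v, hv, h4⟩ := h3
  exact ⟨v, hv, by have := h1 v hv; omega⟩

theorem mn_spec (w : List Bool) (s : Bool) (h : (sideS (aOf w) s (range (nOf w))).Nonempty) :
    (∀ v ∈ sideS (aOf w) s (range (nOf w)), mnK w s ≤ dg (adjOf w) (range (nOf w)) v) ∧
      ∃ v ∈ sideS (aOf w) s (range (nOf w)), dg (adjOf w) (range (nOf w)) v = mnK w s := by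
  have h1 : ∀ v ∈ sideS (aOf w) s (range (nOf w)),
      mnK w s ≤ dg (adjOf w) (range (nOf w)) v := by
    intro v hv
    by_contra hlt
    push Not at hlt
    have h2 := mn_le_n w s
    have h3 := (mn_down w s (dg (adjOf w) (range (nOf w)) v) (by omega)).2 hlt
    rw [botB_false] at h3
    exact lt_irrefl _ (h3 v hv)
  refine ⟨h1, ?_⟩
  rcases Nat.lt_or_ge (mnK w s) (nOf w) with h2 | h2
  · have h3 : ¬ botB w s (mnK w s) = false := fun h3 => by
      have := (mn_down w s (mnK w s) h2).1 h3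
      omega
    rw [botB_false] at h3
    push Not at h3
    obtain ⟨v, hv, h4⟩ := h3
    exact ⟨v, hv, le_antisymm h4 (h1 v hv)⟩
  · obtain ⟨v, hv⟩ := h
    have h3 := h1 v hv
    have h4 := dg_le (adjOf w) (nOf w) v
    have h5 := mn_le_n w s
    exact ⟨v, hv, by omega⟩

namespace HostHAux

theorem gb (w : List Bool) : GB (nOf w) (aOf w) (adjOf w) := by
  refine ⟨by unfold nOf; omega, adjOf_symm w, adjOf_self w, ?_, ?_⟩
  · intro u v h
    have := adjOf_bip h
    unfold nOf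
    omega
  · intro u v h
    have := adjOf_bip h
    omega

theorem core {E : ℕ} (hE : 1 ≤ E) (w : List Bool) (s : Bool)
    {D Δ : ℕ} {x : ℝ} (hD : 1 ≤ D) (hΔ : 1 ≤ Δ)
    (hgap : ∀ d l : ℕ, x ≤ d → d ≤ Δ → 1 ≤ l → 2 ^ (l - 1) ≤ Δ →
      Real.logb 2 d + l / (2 * E) + 3 ≤ (d : ℝ) - D)
    (h1 : ∀ v ∈ sideS (aOf w) s (range (nOf w)),
      x ≤ dg (adjOf w) (range (nOf w)) v ∧ dg (adjOf w) (range (nOf w)) v ≤ Δ)
    (h2 : ∀ v ∈ sideS (aOf w) (!s) (range (nOf w)), dg (adjOf w) (range (nOf w)) v ≤ D)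
    (hne : (sideS (aOf w) s (range (nOf w))).Nonempty)
    (hne2 : (sideS (aOf w) (!s) (range (nOf w))).Nonempty) :
    sdK w = s ∧ GH (nOf w) (aOf w) (dK w) D (lH w) E (sdK w) (adjOf w) := by
  obtain ⟨v0, hv0, hd0⟩ := (mn_spec w s hne).2
  obtain ⟨v1, hv1⟩ := hne2
  have hx := h1 v0 hv0
  rw [hd0] at hx
  have hDd : D < mnK w s := by
    have h3 := hgap (mnK w s) 1 hx.1 hx.2 le_rfl (by simpa using hΔ)
    have h4 : 0 ≤ Real.logb 2 (mnK w s : ℝ) := by
      rcases Nat.eq_zero_or_pos (mnK w s) with h | h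
      · rw [h]
        simp
      · exact Real.logb_nonneg (by norm_num) (by exact_mod_cast h)
    have h5 : (0 : ℝ) ≤ (1 : ℕ) / (2 * E) := by positivity
    have : (D : ℝ) < (mnK w s : ℝ) := by linarith
    exact_mod_cast this
  have hmx2 : mxK w (!s) ≤ D := by
    rcases Nat.eq_zero_or_pos (mxK w (!s)) with h | h
    · omega
    · obtain ⟨v, hv, h3⟩ := (mx_spec w (!s)).2 (by omega)
      rw [← h3]
      exact h2 v hv
  have hmn2 : mnK w (!s) ≤ D :=
    ((mn_spec w (!s) ⟨v1, hv1⟩).1 v1 hv1).trans (h2 v1 hv1)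
  have hmx1 : mnK w s ≤ mxK w s := by
    rw [← hd0]
    exact (mx_spec w s).1 v0 hv0
  have hmxΔ : mxK w s ≤ Δ := by
    obtain ⟨v, hv, h3⟩ := (mx_spec w s).2 (by omega)
    rw [← h3]
    exact (h1 v hv).2
  have hsd : sdK w = s := by
    unfold sdK
    cases s
    · simp only [Bool.not_false] at hmx2 hmn2
      rw [decide_eq_false_iff_not]
      omega
    · simp only [Bool.not_true] at hmx2 hmn2
      rw [decide_eq_true_eq]
      omega
  have hdK : dK w = mnK w s := by
    unfold dK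
    rw [hsd]
    cases s <;> simp
  refine ⟨hsd, ?_⟩
  rw [hsd, hdK]
  have hmax : max (mxK w true) (mxK w false) = max (mxK w s) (mxK w (!s)) := by
    cases s
    · exact max_comm _ _
    · rfl
  have hup : ∀ v < nOf w, dg (adjOf w) (range (nOf w)) v ≤ max (mxK w true) (mxK w false) := by
    intro v hv
    rw [hmax]
    rcases Bool.eq_false_or_eq_true (decide (v < aOf w) == s) with h | h
    · have h3 : v ∈ sideS (aOf w) s (range (nOf w)) := mem_side.2 ⟨hv, by simpa using h⟩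
      exact ((mx_spec w s).1 v h3).trans (le_max_left _ _)
    · have h3 : v ∈ sideS (aOf w) (!s) (range (nOf w)) := by
        refine mem_side.2 ⟨hv, ?_⟩
        rw [beq_eq_false_iff_ne] at h
        cases s <;> cases h4 : decide (v < aOf w) <;> simp_all
      exact ((mx_spec w (!s)).1 v h3).trans (le_max_right _ _)
  have hlog : max (mxK w true) (mxK w false) < 2 ^ lH w := by
    unfold lH
    exact Nat.lt_pow_succ_log_self (by norm_num) _
  refine { toGB := gb w, low := (mn_spec w s hne).1, rgt := h2, hDd := hDd, upp := ?_, hl := ?_,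
           hE := ?_, gap := ?_ }
  · intro v hv
    exact (hup v hv).trans_lt hlog
  · refine lt_of_le_of_lt ?_ hlog
    rw [hmax]
    exact hmx1.trans (le_max_left _ _)
  · exact hE
  · refine hgap _ _ hx.1 hx.2 (by unfold lH; omega) ?_
    unfold lH
    rw [Nat.add_sub_cancel]
    have h3 : max (mxK w true) (mxK w false) ≠ 0 := by
      rw [hmax]
      have := le_max_left (mxK w s) (mxK w (!s))
      omega
    refine (Nat.pow_log_le_self 2 h3).trans ?_
    rw [hmax]
    exact max_le hmxΔ (by omega)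

theorem row_of (G : BGraph) (t : ℕ) {v : ℕ}
    (hv : v ∈ sideS (aOf (inCode G t)) true (range (nOf (inCode G t)))) :
    ∃ i : Fin G.a, (i : ℕ) = v ∧
      dg (adjOf (inCode G t)) (range (nOf (inCode G t))) v = G.rowDeg i := by
  rw [mem_side, aOf_inCode, nOf_inCode, decide_eq_true_eq] at hv
  rw [nOf_inCode]
  exact ⟨⟨v, hv.2⟩, rfl, dg_row G t ⟨v, hv.2⟩⟩

theorem col_of (G : BGraph) (t : ℕ) {v : ℕ}
    (hv : v ∈ sideS (aOf (inCode G t)) false (range (nOf (inCode G t)))) :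
    ∃ j : Fin G.b, G.a + (j : ℕ) = v ∧
      dg (adjOf (inCode G t)) (range (nOf (inCode G t))) v = G.colDeg j := by
  rw [mem_side, aOf_inCode, nOf_inCode, decide_eq_false_iff_not] at hv
  rw [nOf_inCode]
  have h := dg_col G t ⟨v - G.a, by omega⟩
  simp only at h
  rw [show G.a + (v - G.a) = v by omega] at h
  exact ⟨⟨v - G.a, by omega⟩, by simp only; omega, h⟩

/-- an edge -/
theorem edge (G : BGraph) (t : ℕ) (hn : noE (inCode G t) = false) :
    ∃ (i : Fin G.a) (j : Fin G.b), G.E i j = true := by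
  unfold noE at hn
  rw [decide_eq_false_iff_not] at hn
  obtain ⟨v, hv, h1⟩ := (mx_spec (inCode G t) true).2 hn
  obtain ⟨i, _, h2⟩ := row_of G t hv
  rw [h1] at h2
  have h3 : 0 < G.rowDeg i := by omega
  unfold BGraph.rowDeg at h3
  obtain ⟨j, hj⟩ := card_pos.1 h3
  rw [mem_filter] at hj
  exact ⟨i, j, hj.2⟩

theorem ghH' {E : ℕ} (hE : 1 ≤ E) (G : BGraph) (t : ℕ)
    (hG : Cls E G) (hn : noE (inCode G t) = false) :
    ∃ D, GH (nOf (inCode G t)) (aOf (inCode G t)) (dK (inCode G t)) D (lH (inCode G t)) E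
      (sdK (inCode G t)) (adjOf (inCode G t)) := by
  obtain ⟨i0, j0, hij⟩ := edge G t hn
  have hr0 : 1 ≤ G.rowDeg i0 := by
    unfold BGraph.rowDeg
    exact card_pos.2 ⟨j0, by rw [mem_filter]; exact ⟨mem_univ _, hij⟩⟩
  have hc0 : 1 ≤ G.colDeg j0 := by
    unfold BGraph.colDeg
    exact card_pos.2 ⟨i0, by rw [mem_filter]; exact ⟨mem_univ _, hij⟩⟩
  have hi : (i0 : ℕ) ∈ sideS (aOf (inCode G t)) true (range (nOf (inCode G t))) := by
    rw [mem_side, aOf_inCode, nOf_inCode, decide_eq_true_eq]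
    have := i0.2
    exact ⟨by omega, this⟩
  have hj : G.a + (j0 : ℕ) ∈ sideS (aOf (inCode G t)) false (range (nOf (inCode G t))) := by
    rw [mem_side, aOf_inCode, nOf_inCode, decide_eq_false_iff_not]
    have := j0.2
    exact ⟨by omega, by omega⟩
  obtain ⟨D, Δ, x, hB, hgap⟩ := hG
  rcases hB with ⟨h1, h2⟩ | ⟨h1, h2⟩
  · refine ⟨D, (core hE (inCode G t) true (D := D) (Δ := Δ) (hc0.trans (h1 j0))
      (hr0.trans (h2 i0).2) (fun d l => hgap d l (hc0.trans (h1 j0))) ?_ ?_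
      ⟨_, hi⟩ ⟨_, hj⟩).2⟩
    · intro v hv
      obtain ⟨i, _, h3⟩ := row_of G t hv
      rw [h3]
      exact h2 i
    · intro v hv
      obtain ⟨j, _, h3⟩ := col_of G t hv
      rw [h3]
      exact h1 j
  · refine ⟨D, (core hE (inCode G t) false (D := D) (Δ := Δ) (hr0.trans (h1 i0))
      (hc0.trans (h2 j0).2) (fun d l => hgap d l (hr0.trans (h1 i0))) ?_ ?_
      ⟨_, hj⟩ ⟨_, hi⟩).2⟩
    · intro v hv
      obtain ⟨j, _, h3⟩ := col_of G t hv
      rw [h3]
      exact h2 j
    · intro v hv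
      obtain ⟨i, _, h3⟩ := row_of G t hv
      rw [h3]
      exact h1 i

end HostHAux

theorem ghH {E : ℕ} (hE : 1 ≤ E) (G : BGraph) (t : ℕ)
    (hG : Cls E G) (hn : noE (inCode G t) = false) :
    ∃ D, GH (G.a + G.b) G.a (dK (inCode G t)) D (lH (inCode G t)) E (sdK (inCode G t))
      (adjOf (inCode G t)) := by
  have h := ghH' hE G t hG hn
  rw [nOf_inCode, aOf_inCode] at h
  exact h

theorem vldH {E : ℕ} (hE : 1 ≤ E) (G : BGraph) {t : ℕ} (ht : 1 ≤ t)
    (hG : Cls E G) (hn : noE (inCode G t) = false) : VldH E (inCode G t) :=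
  ⟨by rw [tOf_inCode]; exact ht, hn, ghH' hE G t hG hn⟩

theorem prH_of {E : ℕ} {w : List Bool} (h : VldH E w) :
    ∃ D, PrH (nOf w) (aOf w) (dK w) D (lH w) E (xH w) (KH E w) (qH E w) (sdK w) (adjOf w) := by
  obtain ⟨_, _, D, hD⟩ := h
  exact ⟨D, { toGH := hD, hK := KH_pos E w, hx := le_lH_KH E w, hq := lH_KH_le E w }⟩

theorem ind_noE (G : BGraph) (t : ℕ) (hn : noE (inCode G t) = true) :
    ind (adjOf (inCode G t)) (range (G.a + G.b)) = 2 ^ (G.a + G.b) := by
  unfold noE at hn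
  rw [decide_eq_true_eq] at hn
  have hrow : ∀ u < G.a, ∀ v, adjOf (inCode G t) u v = false := by
    intro u hu v
    by_contra h
    rw [Bool.not_eq_false] at h
    have h1 := lt_of_adjOf h
    have h2 : u ∈ sideS (aOf (inCode G t)) true (range (nOf (inCode G t))) := by
      rw [mem_side, aOf_inCode, nOf_inCode, decide_eq_true_eq]
      exact ⟨h1.1, hu⟩
    have h3 := (mx_spec (inCode G t) true).1 u h2
    rw [hn, nOf_inCode] at h3
    have h4 : 0 < dg (adjOf (inCode G t)) (range (G.a + G.b)) u := by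
      unfold dg
      exact card_pos.2 ⟨v, by rw [mem_filter, mem_range]; exact ⟨h1.2, h⟩⟩
    omega
  have hall : ∀ u v, adjOf (inCode G t) u v = false := by
    intro u v
    by_contra h
    rw [Bool.not_eq_false] at h
    have h1 := adjOf_bip h
    rw [aOf_inCode] at h1
    rcases h1 with h1 | h1
    · rw [hrow u h1.1 v] at h
      exact Bool.false_ne_true h
    · rw [adjOf_symm, hrow v h1.1 u] at h
      exact Bool.false_ne_true h
  unfold ind
  rw [filter_true_of_mem (fun I _ u _ v _ => hall u v), card_powerset, card_range]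

theorem TH_lt (w : List Bool) : 64 * nOf w * tOf w < 2 ^ (xH w + 1) := by
  unfold xH
  exact Nat.lt_pow_succ_log_self (by norm_num) _

end Pool.Agent.Lib.Pa7c826h
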