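import Pool.Agent.Lib.Pa7c826h.PParH
import Pool.Agent.Lib.Pa7c826k.PWalk

/-!
The codes of walks are computable in polynomial time.

PROOFS. Copy `poly_wlk`, `poly_dec`, `poly_adm` of `Pa7c826k/PWalk.lean` with `VldH E`, `lH`,
`KH E`, `qH E` in place of `Vld`, `lk`, `Kk`, `qk` (`poly_nbr` and `PWalkAux.nbr_le` can be used from
there; `lH w ≤ qH E w` by definition).
-/

namespace Pool.Agent.Lib.Pa7c826h

open Pool.Agent.Lib.PolyTime Pool.Agent.Lib.Pa7c826 Pool.Agent.Lib.Pa7c826t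
  Pool.Agent.Lib.Pa7c826e Pool.Agent.Lib.Pa7c826k Finset Pool.Agent.Lib.P8e91ed.PT

variable {α : Type} {D : α → Prop} {ctx : List (α → List Bool)} {w : α → List Bool}
  {c v j : α → ℕ} {E : ℕ}

theorem polyH_wlk (hw : PolyC D ctx w) (hV : ∀ x, D x → VldH E (w x)) (hc : PolyN D ctx c)
    (hv : PolyN D ctx v) (hj : PolyN D ctx j) :
    PolyN D ctx (fun x => wlk (nOf (w x)) (adjOf (w x)) (lH (w x)) (c x) (v x) (j x)) := by
  obtain ⟨pv, hpv⟩ := PolyC.length_le hv
  obtain ⟨pn, hpn⟩ := PolyC.length_le (poly_nOf hw)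
  have hlk : PolyN D ctx (fun x => lH (w x)) := upoly_lH hw
  refine PolyC.natRec
    (fun x k => un (wlk (nOf (w x)) (adjOf (w x)) (lH (w x)) (c x) (v x) k)) hj
    (PolyC.congr hv (fun a _ => by simp [wlk])) ?_ ⟨pv + pn, fun a ha k _ => ?_⟩
  · have h1 : PolyN (fun p : α × ℕ => D p.1 ∧ p.2 < j p.1)
        (PolyTime.lift ctx ++ [fun p => un p.2,
          fun p => un (wlk (nOf (w p.1)) (adjOf (w p.1)) (lH (w p.1)) (c p.1) (v p.1) p.2)])
        (fun p => wlk (nOf (w p.1)) (adjOf (w p.1)) (lH (w p.1)) (c p.1) (v p.1) p.2) :=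
      PolyC.var (by simp)
    have h2 : PolyN (fun p : α × ℕ => D p.1 ∧ p.2 < j p.1)
        (PolyTime.lift ctx ++ [fun p => un p.2,
          fun p => un (wlk (nOf (w p.1)) (adjOf (w p.1)) (lH (w p.1)) (c p.1) (v p.1) p.2)])
        (fun p => p.2) := PolyC.var (by simp)
    have W : PolyC (fun p : α × ℕ => D p.1 ∧ p.2 < j p.1)
        (PolyTime.lift ctx ++ [fun p => un p.2,
          fun p => un (wlk (nOf (w p.1)) (adjOf (w p.1)) (lH (w p.1)) (c p.1) (v p.1) p.2)])
        (fun p => w p.1) := up2 hw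
    have C : PolyN (fun p : α × ℕ => D p.1 ∧ p.2 < j p.1)
        (PolyTime.lift ctx ++ [fun p => un p.2,
          fun p => un (wlk (nOf (w p.1)) (adjOf (w p.1)) (lH (w p.1)) (c p.1) (v p.1) p.2)])
        (fun p => c p.1) := up2 hc
    have K : PolyN (fun p : α × ℕ => D p.1 ∧ p.2 < j p.1)
        (PolyTime.lift ctx ++ [fun p => un p.2,
          fun p => un (wlk (nOf (w p.1)) (adjOf (w p.1)) (lH (w p.1)) (c p.1) (v p.1) p.2)])
        (fun p => lH (w p.1)) := up2 hlk
    have P : PolyN (fun p : α × ℕ => D p.1 ∧ p.2 < j p.1)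
        (PolyTime.lift ctx ++ [fun p => un p.2,
          fun p => un (wlk (nOf (w p.1)) (adjOf (w p.1)) (lH (w p.1)) (c p.1) (v p.1) p.2)])
        (fun p => 2 ^ lH (w p.1)) :=
      polyH_pow2 W (fun p hp => hV p.1 hp.1) K 1 (fun p _ => by
        rw [one_mul]
        unfold qH
        omega)
    have hd := PolyN.modz (PolyN.divPow C (K.mul h2)) P
    exact (poly_nbr W h1 hd).congr (fun p _ => rfl)
  · have h1 := hpv a ha
    have h2 := hpn a ha
    rw [un_length] at h1 h2 ⊢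
    rw [Polynomial.eval_add]
    beta_reduce at h2
    rcases k with _ | k
    · simp only [wlk]
      omega
    · have := PWalkAux.nbr_le (nOf (w a)) (adjOf (w a))
        (wlk (nOf (w a)) (adjOf (w a)) (lH (w a)) (c a) (v a) k)
        (c a / 2 ^ (lH (w a) * k) % 2 ^ lH (w a))
      simp only [wlk]
      omega

theorem polyH_dec (hw : PolyC D ctx w) (hV : ∀ x, D x → VldH E (w x)) (hc : PolyN D ctx c)
    (hv : PolyN D ctx v) :
    PolyS D ctx (fun x => nOf (w x))
      (fun x => dec (nOf (w x)) (adjOf (w x)) (lH (w x)) (KH E (w x)) (c x) (v x)) := by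
  have hn := poly_nOf hw
  have W := up (n := fun x => nOf (w x)) hw
  have C := upN (n := fun x => nOf (w x)) hc
  have V := upN (n := fun x => nOf (w x)) hv
  have L := last (D := D) (ctx := ctx) (n := fun x => nOf (w x))
  have K : PolyN _ _ (fun p : α × ℕ => KH E (w p.1)) := upN (n := fun x => nOf (w x)) (upoly_KH E hw)
  have h2K := (PolyN.const 2).mul K
  have hP : PolyP (Dx D (fun x => nOf (w x))) (cx ctx) (fun p =>
      ∃ j ∈ range (2 * KH E (w p.1)),
        wlk (nOf (w p.1)) (adjOf (w p.1)) (lH (w p.1)) (c p.1) (v p.1) (6 * j) = p.2) := by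
    refine PolyP.exists_range (n := fun p : α × ℕ => 2 * KH E (w p.1)) h2K ?_
    have L2 := last (D := fun p : α × ℕ => D p.1 ∧ p.2 < nOf (w p.1))
      (ctx := PolyTime.lift ctx ++ [fun p => un p.2]) (n := fun p : α × ℕ => 2 * KH E (w p.1))
    have L3 := upN (n := fun p : α × ℕ => 2 * KH E (w p.1)) L
    have W3 := up (n := fun p : α × ℕ => 2 * KH E (w p.1)) W
    have C3 := upN (n := fun p : α × ℕ => 2 * KH E (w p.1)) C
    have V3 := upN (n := fun p : α × ℕ => 2 * KH E (w p.1)) V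
    exact PolyP.eq (polyH_wlk W3 (fun p hp => hV p.1.1 hp.1.1) C3 V3
      ((PolyN.const 6).mul L2)) L3
  obtain ⟨φ, h1, h2⟩ := hP
  refine (PolyS.filter hn (PolyS.range hn) h1).congr (fun x hx => ?_)
  unfold dec
  apply filter_congr
  intro y hy
  rw [h2 (x, y) ⟨hx, mem_range.1 hy⟩, mem_image]

theorem polyH_adm (sd : Bool) (hw : PolyC D ctx w) (hV : ∀ x, D x → VldH E (w x))
    (hc : PolyN D ctx c) (hv : PolyN D ctx v) :
    PolyP D ctx (fun x => adm (nOf (w x)) (aOf (w x)) (adjOf (w x)) sd (lH (w x)) (KH E (w x))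
      (c x) (v x)) := by
  have hn := poly_nOf hw
  have hS := polyH_dec hw hV hc hv
  have hm : PolyP D ctx (fun x => v x ∈
      dec (nOf (w x)) (adjOf (w x)) (lH (w x)) (KH E (w x)) (c x) (v x)) :=
    (PolyP.ofB (hS.mem hv)).congr (fun x _ => by simp)
  have hcd := PolyP.le (PolyS.card hn hS) (upoly_KH E hw)
  have h2 : PolyP D ctx (fun x => ∀ u ∈ range (nOf (w x)),
      u ∈ dec (nOf (w x)) (adjOf (w x)) (lH (w x)) (KH E (w x)) (c x) (v x) →
      u ∈ sideS (aOf (w x)) sd (range (nOf (w x))) ∧ u ≤ v x) := by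
    refine PolyP.forall_range (n := fun x => nOf (w x)) hn ?_
    have L := last (D := D) (ctx := ctx) (n := fun x => nOf (w x))
    have V := upN (n := fun x => nOf (w x)) hv
    have S1 : PolyP (Dx D (fun x => nOf (w x))) (cx ctx) (fun p : α × ℕ => p.2 ∈
        dec (nOf (w p.1)) (adjOf (w p.1)) (lH (w p.1)) (KH E (w p.1)) (c p.1) (v p.1)) :=
      (PolyP.ofB ((PolyS.up (m := fun x => nOf (w x)) hS).mem L)).congr (fun x _ => by simp)
    have S2 : PolyP (Dx D (fun x => nOf (w x))) (cx ctx) (fun p : α × ℕ => p.2 ∈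
        sideS (aOf (w p.1)) sd (range (nOf (w p.1)))) :=
      (PolyP.ofB ((PolyS.up (m := fun x => nOf (w x)) (poly_side sd hw)).mem L)).congr
        (fun x _ => by simp)
    exact S1.imp (S2.and (PolyP.le L V))
  have h3 : PolyP D ctx (fun x => ∀ c' ∈ range (c x), ¬ ∀ u ∈ range (nOf (w x)),
      (u ∈ dec (nOf (w x)) (adjOf (w x)) (lH (w x)) (KH E (w x)) c' (v x) ↔
        u ∈ dec (nOf (w x)) (adjOf (w x)) (lH (w x)) (KH E (w x)) (c x) (v x))) := by
    refine PolyP.forall_range (n := c) hc (PolyP.not ?_)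
    have W := up (n := c) hw
    have V := upN (n := c) hv
    have C := upN (n := c) hc
    have L := last (D := D) (ctx := ctx) (n := c)
    refine PolyP.forall_range (n := fun p : α × ℕ => nOf (w p.1)) (poly_nOf W) ?_
    have hV' : ∀ p : α × ℕ, D p.1 ∧ p.2 < c p.1 → VldH E (w p.1) := fun p hp => hV p.1 hp.1
    have T1 := polyH_dec W hV' L V
    have T2 := polyH_dec W hV' C V
    have L2 := last (D := fun p : α × ℕ => D p.1 ∧ p.2 < c p.1)
      (ctx := PolyTime.lift ctx ++ [fun p => un p.2]) (n := fun p : α × ℕ => nOf (w p.1))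
    have P1 := PolyP.ofB ((PolyS.up (m := fun p : α × ℕ => nOf (w p.1)) T1).mem L2)
    have P2 := PolyP.ofB ((PolyS.up (m := fun p : α × ℕ => nOf (w p.1)) T2).mem L2)
    refine ((P1.imp P2).and (P2.imp P1)).congr (fun p _ => ?_)
    simp only [decide_eq_true_eq]
    tauto
  exact ((hm.and hcd).and (h2.and h3)).congr (fun x _ => by rfl)

end Pool.Agent.Lib.Pa7c826h
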