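import Pool.Agent.Lib.Pa7c826h.POmH
import Pool.Agent.Lib.Pa7c826h.PWalkH
import Pool.Agent.Lib.Pa7c826k.PAlg

/-!
The output of the algorithm is computable in polynomial time.

PROOFS. Copy `poly_xiU`, `poly_rtU`, `poly_mbU`, `poly_sgR`, `PAlgAux_qv`, `poly_prd` of
`Pa7c826k/PAlg.lean` with `VldH E`, `dK`, `lH`, `KH E`, `kH E`, `TH E`, `pH E`, `qH E` in place of the
corresponding objects there, for a fixed side `sd` and the hypothesis `hsd`. `polyH_prH`: `PolyBin.ite` with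
`polyH_sdK`; in the branches the domain gives `sdK (w x) = true` or `= false`.
-/

namespace Pool.Agent.Lib.Pa7c826h

open Pool.Agent.Lib.PolyTime Pool.Agent.Lib.Pa7c826 Pool.Agent.Lib.Pa7c826t
  Pool.Agent.Lib.Pa7c826e Pool.Agent.Lib.Pa7c826k Finset Pool.Agent.Lib.P8e91ed.PT

variable {α : Type} {D : α → Prop} {ctx : List (α → List Bool)} {w : α → List Bool} {E : ℕ}
  {X Y : α → Finset ℕ} {v : α → ℕ}

namespace PAlgHAux

theorem poly_xiV (sd : Bool) (hw : PolyC D ctx w) (hV : ∀ x, D x → VldH E (w x))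
    (hsd : ∀ x, D x → sdK (w x) = sd)
    (hY : PolyS D ctx (fun x => nOf (w x)) Y) (hc : ∀ x, D x → (Y x).card ≤ KH E (w x)) :
    PolyN D ctx (fun x => xiV (nOf (w x)) (aOf (w x)) (dK (w x)) (adjOf (w x)) sd
      (kH E (w x)) (TH E (w x)) (pH E (w x)) (Y x)) := by
  have h2 : PolyN D ctx (fun x => 2 ^ (Y x).card) :=
    polyH_pow2 hw hV (PolyS.card (poly_nOf hw) hY) 1
      (fun x hx => by rw [one_mul]; exact (hc x hx).trans (KH_le E _))
  have W := up (n := fun x => 2 ^ (Y x).card) hw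
  have YY := hY.up (m := fun x => 2 ^ (Y x).card)
  have L := last (D := D) (ctx := ctx) (n := fun x => 2 ^ (Y x).card)
  exact nSum (f := fun x σ => omV (nOf (w x)) (aOf (w x)) (dK (w x)) (adjOf (w x)) sd
      (kH E (w x)) (TH E (w x)) (pH E (w x)) (sel (Y x) σ)) h2
    (polyH_omV sd W (fun p hp => hV p.1 hp.1) (fun p hp => hsd p.1 hp.1) (poly_sel W YY L))

theorem poly_rtV (sd : Bool) (hw : PolyC D ctx w) (hV : ∀ x, D x → VldH E (w x))
    (hsd : ∀ x, D x → sdK (w x) = sd)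
    (hY : PolyS D ctx (fun x => nOf (w x)) Y) (hv : PolyN D ctx v)
    (hvn : ∀ x, D x → v x < nOf (w x)) (hc : ∀ x, D x → (Y x).card < KH E (w x)) :
    PolyN D ctx (fun x => rtV (nOf (w x)) (aOf (w x)) (dK (w x)) (adjOf (w x)) sd
      (kH E (w x)) (TH E (w x)) (pH E (w x)) (v x) (Y x)) := by
  have h1 : PolyN D ctx (fun x => 2 ^ pH E (w x)) :=
    polyH_pow2 hw hV (upoly_pH E hw) (20600 * E) (fun x _ => le_rfl)
  exact PolyN.divz (h1.mul (poly_xiV sd hw hV hsd hY (fun x hx => (hc x hx).le)))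
    (poly_xiV sd hw hV hsd (poly_insert hw hY hv hvn)
      (fun x hx => (card_insert_le _ _).trans (hc x hx)))

theorem poly_mbV (sd : Bool) (e : ℕ) (hw : PolyC D ctx w) (hV : ∀ x, D x → VldH E (w x))
    (hsd : ∀ x, D x → sdK (w x) = sd)
    (hX : PolyS D ctx (fun x => nOf (w x)) X) (hv : PolyN D ctx v)
    (hvn : ∀ x, D x → v x < nOf (w x)) (hc : ∀ x, D x → (X x).card < KH E (w x)) :
    PolyN D ctx (fun x => mbV (nOf (w x)) (aOf (w x)) (dK (w x)) (adjOf (w x)) sd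
      (kH E (w x)) (TH E (w x)) (pH E (w x)) (v x) e (X x)) := by
  have h2 : PolyN D ctx (fun x => 2 ^ (X x).card) :=
    polyH_pow2 hw hV (PolyS.card (poly_nOf hw) hX) 1
      (fun x hx => by rw [one_mul]; exact (hc x hx).le.trans (KH_le E _))
  have W := up (n := fun x => 2 ^ (X x).card) hw
  have XX := hX.up (m := fun x => 2 ^ (X x).card)
  have VV := upN (n := fun x => 2 ^ (X x).card) hv
  have L := last (D := D) (ctx := ctx) (n := fun x => 2 ^ (X x).card)
  have SS := poly_sel W XX L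
  refine nSum (f := fun x τ => if ((X x).card + (sel (X x) τ).card) % 2 = e then
    rtV (nOf (w x)) (aOf (w x)) (dK (w x)) (adjOf (w x)) sd (kH E (w x)) (TH E (w x))
      (pH E (w x)) (v x) (sel (X x) τ) else 0) h2 ?_
  refine n_ite (PolyP.eq (PolyN.modz ((PolyS.card (poly_nOf W) XX).add
    (PolyS.card (poly_nOf W) SS)) (PolyN.const 2)) (PolyN.const e)) ?_ (PolyN.const 0)
  exact poly_rtV sd (PolyC.mono W fun _ h => h.1) (fun p hp => hV p.1 hp.1.1)
    (fun p hp => hsd p.1 hp.1.1)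
    (SS.mono fun _ h => h.1) (PolyC.mono VV fun _ h => h.1) (fun p hp => hvn p.1 hp.1.1)
    (fun p hp => (card_le_card (filter_subset _ _)).trans_lt (hc p.1 hp.1.1))

theorem poly_sgV (sd : Bool) (e : ℕ) (hw : PolyC D ctx w) (hV : ∀ x, D x → VldH E (w x))
    (hsd : ∀ x, D x → sdK (w x) = sd)
    (hv : PolyN D ctx v) (hvn : ∀ x, D x → v x < nOf (w x)) :
    PolyN D ctx (fun x => sgV (nOf (w x)) (aOf (w x)) (dK (w x)) (adjOf (w x)) sd
      (lH (w x)) (KH E (w x)) (kH E (w x)) (TH E (w x)) (pH E (w x)) (v x) e) := by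
  have h2 : PolyN D ctx (fun x => 2 ^ (12 * lH (w x) * KH E (w x))) :=
    polyH_pow2 hw hV (((PolyN.const 12).mul (upoly_lH hw)).mul (upoly_KH E hw)) 12
      (fun x _ => by
        rw [mul_assoc]
        exact Nat.mul_le_mul_left _ (lH_KH_le E _))
  have W := up (n := fun x => 2 ^ (12 * lH (w x) * KH E (w x))) hw
  have VV := upN (n := fun x => 2 ^ (12 * lH (w x) * KH E (w x))) hv
  have L := last (D := D) (ctx := ctx) (n := fun x => 2 ^ (12 * lH (w x) * KH E (w x)))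
  refine nSum (f := fun x c => if adm (nOf (w x)) (aOf (w x)) (adjOf (w x)) sd (lH (w x))
      (KH E (w x)) c (v x) then
    mbV (nOf (w x)) (aOf (w x)) (dK (w x)) (adjOf (w x)) sd (kH E (w x)) (TH E (w x))
      (pH E (w x)) (v x) e
      ((dec (nOf (w x)) (adjOf (w x)) (lH (w x)) (KH E (w x)) c (v x)).erase (v x)) else 0) h2 ?_
  have hV' : ∀ p : α × ℕ, (D p.1 ∧ p.2 < 2 ^ (12 * lH (w p.1) * KH E (w p.1))) →
      VldH E (w p.1) := fun p hp => hV p.1 hp.1
  refine n_ite (polyH_adm sd W hV' L VV) ?_ (PolyN.const 0)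
  refine poly_mbV sd e (PolyC.mono W fun _ h => h.1) (fun p hp => hV p.1 hp.1.1)
    (fun p hp => hsd p.1 hp.1.1)
    (poly_erase (PolyC.mono W fun _ h => h.1)
      ((polyH_dec W hV' L VV).mono fun _ h => h.1) (PolyC.mono VV fun _ h => h.1))
    (PolyC.mono VV fun _ h => h.1) (fun p hp => hvn p.1 hp.1.1) (fun p hp => ?_)
  have h3 := hp.2.1
  have h4 := card_erase_of_mem h3.1
  have h5 := card_pos.2 ⟨_, h3.1⟩
  have h6 := h3.2
  omega

theorem poly_qvV (sd : Bool) (hw : PolyC D ctx w) (hV : ∀ x, D x → VldH E (w x))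
    (hsd : ∀ x, D x → sdK (w x) = sd) (hv : PolyN D ctx v) :
    PolyN D ctx (fun x => qvV (nOf (w x)) (aOf (w x)) (dK (w x)) (adjOf (w x)) sd
      (lH (w x)) (KH E (w x)) (kH E (w x)) (TH E (w x)) (pH E (w x)) (v x)) := by
  have h1 : PolyN D ctx (fun x => 2 ^ pH E (w x)) :=
    polyH_pow2 hw hV (upoly_pH E hw) (20600 * E) (fun x _ => le_rfl)
  have hm : PolyP D ctx (fun x => v x ∈ sideS (aOf (w x)) sd (range (nOf (w x)))) :=
    ⟨_, PolyS.mem (poly_side sd hw) hv, fun a _ => by simp⟩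
  unfold qvV
  refine n_ite hm ?_ (PolyC.mono h1 fun _ h => h.1)
  have hw' := PolyC.mono (D' := fun x => D x ∧ v x ∈ sideS (aOf (w x)) sd (range (nOf (w x))))
    hw (fun _ h => h.1)
  have hv' := PolyC.mono (D' := fun x => D x ∧ v x ∈ sideS (aOf (w x)) sd (range (nOf (w x))))
    hv (fun _ h => h.1)
  have h1' := PolyC.mono (D' := fun x => D x ∧ v x ∈ sideS (aOf (w x)) sd (range (nOf (w x))))
    h1 (fun _ h => h.1)
  have hlt : ∀ x, (D x ∧ v x ∈ sideS (aOf (w x)) sd (range (nOf (w x)))) →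
      v x < nOf (w x) := by
    intro x hx
    exact mem_range.1 ((filter_subset _ _) hx.2)
  exact PolyN.divz (PolyN.mul h1' h1') (PolyN.sub
    (poly_sgV sd 0 hw' (fun x hx => hV x hx.1) (fun x hx => hsd x hx.1) hv' hlt)
    (poly_sgV sd 1 hw' (fun x hx => hV x hx.1) (fun x hx => hsd x hx.1) hv' hlt))

end PAlgHAux

open PAlgHAux

theorem polyH_prV (sd : Bool) (hw : PolyC D ctx w) (hV : ∀ x, D x → VldH E (w x))
    (hsd : ∀ x, D x → sdK (w x) = sd) :
    PolyBin D ctx (fun x => prV (nOf (w x)) (aOf (w x)) (dK (w x)) (adjOf (w x)) sd (lH (w x))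
      (KH E (w x)) (kH E (w x)) (TH E (w x)) (pH E (w x))) := by
  have W := up (n := fun x => nOf (w x)) hw
  have L := last (D := D) (ctx := ctx) (n := fun x => nOf (w x))
  exact binProd (f := fun x v => qvV (nOf (w x)) (aOf (w x)) (dK (w x)) (adjOf (w x)) sd
      (lH (w x)) (KH E (w x)) (kH E (w x)) (TH E (w x)) (pH E (w x)) v) (poly_nOf hw)
    (bin_ofN (poly_qvV sd W (fun p hp => hV p.1 hp.1) (fun p hp => hsd p.1 hp.1) L))

theorem polyH_prH (hw : PolyC D ctx w) (hV : ∀ x, D x → VldH E (w x)) :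
    PolyBin D ctx (fun x => prH E (w x)) := by
  unfold prH
  exact bin_ite (PolyP.ofB (polyH_sdK hw))
    (polyH_prV true (PolyC.mono hw fun _ h => h.1) (fun x hx => hV x hx.1) (fun x hx => hx.2))
    (polyH_prV false (PolyC.mono hw fun _ h => h.1) (fun x hx => hV x hx.1)
      (fun x hx => Bool.eq_false_iff.2 hx.2))

end Pool.Agent.Lib.Pa7c826h
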