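import Pool.Agent.Lib.Pa7c826h.OutH
import Pool.Agent.Lib.Pa7c826h.HostH
import Pool.Agent.Lib.Pa7c826h.PAlgH
import Pool.Agent.Lib.Pa7c826k.Fin
import Pool.Agent.Lib.Pa7c826t.FMono

/-!
The approximation scheme.

PROOFS. As `Pa7c826k/Fin.lean`, for the class `Cls E`. `os n a true` is the number of vertices on the side `false`, `n - a`, and
`os n a false = a` (`a ≤ n`), so in the second case of `algH` the factor is `2 ^ os n a (sdK w)`.
`algH_spec`: `ind_noE` or `out_errH` with `prH_of`, `TH_lt` (`kH`, `TH`, `pH` unfold to the parameters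
there).
-/

namespace Pool.Agent.Lib.Pa7c826h

open Pool.Agent.Lib.PolyTime Pool.Agent.Lib.Pa7c826 Pool.Agent.Lib.Pa7c826t
  Pool.Agent.Lib.Pa7c826e Pool.Agent.Lib.Pa7c826k Pool.Agent.Lib.P8e91ed.PT Finset

theorem vld_case {E : ℕ} (hE : 1 ≤ E) {G : BGraph} {t : ℕ}
    (ht : 1 ≤ t) (hG : Cls E G) (hn : noE (inCode G t) = false) :
    VldH E (inCode G t) := vldH hE G ht hG hn

theorem os_true {n a : ℕ} : os n a true = n - a := by
  unfold os sideS
  have h : (range n).filter (fun v => decide (v < a) = !true) = Ico a n := by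
    ext v
    rw [mem_filter, mem_range, mem_Ico, Bool.not_true, decide_eq_false_iff_not, not_lt]
    tauto
  rw [h, Nat.card_Ico]

theorem os_false {n a : ℕ} (h : a ≤ n) : os n a false = a := by
  unfold os sideS
  have h : (range n).filter (fun v => decide (v < a) = !false) = range a := by
    ext v
    rw [mem_filter, mem_range, mem_range, Bool.not_false, decide_eq_true_eq]
    omega
  rw [h, card_range]

theorem algH_poly {E : ℕ} (hE : 1 ≤ E) :
    ∃ u : BGraph × ℕ → List Bool,
    PolyC (fun x : BGraph × ℕ => Cls E x.1 ∧ 1 ≤ x.2) [fun x => inCode x.1 x.2]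
      (fun x => un (expH E (inCode x.1 x.2)) ++ false :: u x) ∧
    ∀ x : BGraph × ℕ, Cls E x.1 ∧ 1 ≤ x.2 →
      bval (u x) = algH E (inCode x.1 x.2) := by
  let D : BGraph × ℕ → Prop := fun x => Cls E x.1 ∧ 1 ≤ x.2
  let enc : BGraph × ℕ → List Bool := fun x => inCode x.1 x.2
  have hw : PolyC D [enc] enc := PolyC.var (by simp)
  have hz : PolyB D [enc] (fun x => noE (enc x)) := polyH_noE hw
  have hw1 : PolyC (fun x => D x ∧ noE (enc x) = false) [enc] enc :=
    PolyC.mono hw (fun x h => h.1)
  have hV1 : ∀ x, D x ∧ noE (enc x) = false → VldH E (enc x) := fun x hx =>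
    vld_case hE hx.1.2 hx.1.1 hx.2
  have hsp : PolyB (fun x => D x ∧ noE (enc x) = false) [enc] (fun x => sdK (enc x)) :=
    polyH_sdK hw1
  have hval : PolyBin D [enc] (fun x => algH E (enc x)) := by
    refine PolyBin.ite hz (PolyBin.mono (PolyBin.pow2 (poly_nOf hw)) (fun x h => h.1)) ?_
    refine PolyBin.ite hsp ?_ ?_
    · have hw2 : PolyC (fun x => (D x ∧ noE (enc x) = false) ∧ sdK (enc x) = true) [enc] enc :=
        PolyC.mono hw1 (fun x h => h.1)
      exact PolyBin.mulPow2 (polyH_prH hw2 (fun x hx => hV1 x hx.1))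
        (PolyN.sub (poly_nOf hw2) (poly_aOf hw2))
    · have hw2 : PolyC (fun x => (D x ∧ noE (enc x) = false) ∧ sdK (enc x) = false) [enc] enc :=
        PolyC.mono hw1 (fun x h => h.1)
      exact PolyBin.mulPow2 (polyH_prH hw2 (fun x hx => hV1 x hx.1)) (poly_aOf hw2)
  have hexp : PolyN D [enc] (fun x => expH E (enc x)) := by
    refine PolyC.congr (PolyC.ite hz PolyC.nil
      ((upoly_pH E hw1).mul (poly_nOf hw1))) ?_
    intro x _
    unfold expH
    by_cases h : noE (enc x) = true
    · simp only [h, if_true]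
      rfl
    · rw [if_neg h]
      show _ = un (if noE (enc x) = true then 0 else pH E (enc x) * nOf (enc x))
      rw [if_neg h]
  obtain ⟨u, hu, hval⟩ := hval
  exact ⟨u, hexp.append (PolyC.cons false hu), hval⟩

theorem algH_spec {E : ℕ} (hE : 1 ≤ E) {G : BGraph} {t : ℕ}
    (ht : 1 ≤ t) (hG : Cls E G) :
    |(algH E (inCode G t) : ℝ) / 2 ^ expH E (inCode G t) - numIndep G.graph| ≤
      (numIndep G.graph : ℝ) / t := by
  rw [← ind_eq_numIndep G t]
  have htr : (0 : ℝ) < t := by exact_mod_cast ht
  have hn : nOf (inCode G t) = G.a + G.b := nOf_inCode G t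
  have ha : aOf (inCode G t) = G.a := aOf_inCode G t
  unfold algH expH
  by_cases hd : noE (inCode G t) = true
  · simp only [hd, if_true, pow_zero, div_one]
    rw [ind_noE G t hd, hn]
    simp only [sub_self, abs_zero]
    positivity
  have hd' : noE (inCode G t) = false := by simpa using hd
  have hV := vldH hE G ht hG hd'
  obtain ⟨D, hP⟩ := prH_of hV
  have hT := TH_lt (inCode G t)
  rw [tOf_inCode] at hT
  have key := out_errH hP ht hT
  rw [hd']
  simp only [Bool.false_eq_true, if_false]
  rw [← hn]
  have hle : aOf (inCode G t) ≤ nOf (inCode G t) := by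
    rw [hn, ha]
    exact Nat.le_add_right _ _
  have hk : kH E (inCode G t) = 19200 * E * qH E (inCode G t) := rfl
  have hp : pH E (inCode G t) = 20600 * E * qH E (inCode G t) := rfl
  have hTT : TH E (inCode G t) = 64 * E * KH E (inCode G t) * dK (inCode G t) := rfl
  unfold prH
  rw [hk, hp, hTT]
  by_cases hs : sdK (inCode G t) = true
  · rw [hs, os_true] at key
    simp only [hs, if_true]
    push_cast
    exact key
  · have hs' : sdK (inCode G t) = false := by simpa using hs
    rw [hs', os_false hle] at key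
    simp only [hs', Bool.false_eq_true, if_false]
    push_cast
    exact key

/-- For all `E ≥ 1` there is a deterministic approximation scheme for the number of independent
sets of the graphs in `Cls E`. -/
theorem easy_cls {E : ℕ} (hE : 1 ≤ E) : HasFPTAS (Cls E) := by
  obtain ⟨u, hout, hval⟩ := algH_poly hE
  refine ⟨fun x => un (expH E (inCode x.1.1 x.1.2)) ++ false :: u x.1,
    PolyC.toTM2 (fun x : BGraph × ℕ => inCode x.1 x.2)
      (fun x => un (expH E (inCode x.1 x.2)) ++ false :: u x) id hout, ?_⟩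
  rintro ⟨⟨G, t⟩, hG, ht⟩
  have hG' : Cls E G := hG
  have ht' : 1 ≤ t := ht
  have h1 := algH_spec hE ht' hG'
  have h2 : binVal (u (G, t)) = algH E (inCode G t) := by
    rw [binVal_eq_bval]
    exact hval (G, t) ⟨hG, ht⟩
  unfold Good
  simp only [outVal_un, h2]
  have h3 : (|(algH E (inCode G t) : ℚ) / 2 ^ expH E (inCode G t) - numIndep G.graph| : ℚ) ≤
      (numIndep G.graph : ℚ) / t := by
    have h4 : (((|(algH E (inCode G t) : ℚ) / 2 ^ expH E (inCode G t) -
        numIndep G.graph| : ℚ)) : ℝ) ≤ (((numIndep G.graph : ℚ) / t : ℚ) : ℝ) := by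
      push_cast
      exact h1
    exact_mod_cast h4
  exact h3

/-- For all `ε > 0` there is a deterministic approximation scheme for the number of independent
sets of bipartite graphs with all degrees on one side at most `D` and all degrees on the other
side at least `D + log₂ D + ε log₂ (D Δ) + 7` and at most `Δ`. -/
theorem easy_unb {ε : ℝ} (hε : 0 < ε) : HasFPTAS (Unbalanced ε 7) := by
  obtain ⟨E, hE0⟩ := exists_nat_ge (1 / ε)
  have hE : 1 ≤ ε * ((max E 5 : ℕ) : ℝ) := by
    rw [div_le_iff₀ hε] at hE0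
    have h1 : (E : ℝ) ≤ ((max E 5 : ℕ) : ℝ) := by exact_mod_cast le_max_left E 5
    nlinarith
  have h5 : 5 ≤ max E 5 := le_max_right _ _
  exact Pa7c826t.HasFPTAS.mono (fun G hG => unb_cls hε hE h5 hG) (easy_cls (by omega))

/-- For all `D`, `Δ` there is a deterministic approximation scheme for the number of independent
sets of bipartite graphs with all degrees on one side at most `D` and all degrees on the other
side at least `D + log₂ D + 6` and at most `Δ`. -/
theorem easy_const (D Δ : ℕ) : HasFPTAS (Band D Δ (D + Real.logb 2 D + 6)) :=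
  Pa7c826t.HasFPTAS.mono (fun _ hG => const_cls hG) (easy_cls (by omega))

end Pool.Agent.Lib.Pa7c826h
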