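import Pool.Agent.Lib.Pa7c826h.GGrec
import Pool.Agent.Lib.Pa7c826k.Nrm
import Pool.Agent.Lib.Pa7c826k.Comp

/-!
The norm of the ratios of partition functions of skeletons.

PROOFS. Write `G W Y = GG f sk W Y > 0`, `ε = 1 - 1 / ρ`, `ε / (1 - ε) = ρ - 1`. `Y` always runs over
the subsets of `U`, `nrm = nrm l U`. Facts on norms: `Pa7c826k/Nrm.lean`.
`rem_one`: strong induction on `W`. For `T ∈ cns r W v` the set `W' = awy r W T` is contained in
`W.erase v` (`v ∈ T`, `r v v`), and `W \ W' = tch r W T`, so `(W.erase v) \ W'` has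
`|tch r W T| - 1` elements; removing them one by one from `W.erase v` and the induction hypothesis
(`nrm_mul_le`, the ratios multiply) give `nrm (G W' / G (W.erase v)) ≤ ρ ^ (|tch r W T| - 1)`. By
`GG_rec`, `nrm_sum_le`, `nrm_smul`, `nrm_mul_le`, and `nrm (Y ↦ if sk T ⊆ Y then 1 else 0) ≤
l ^ |sk T|` (`nrm_ind` if `sk T ⊆ U`; otherwise the function is `0` on the subsets of `U`):
`nrm (G W / G (W.erase v) - 1) ≤ ∑ T ∈ cns r W v, f T * l ^ |sk T| * ρ ^ |tch r W T| ≤ ε`, as
`cns r W v ⊆ cns r V v`, `tch r W T ⊆ tch r V T` (`h.kp`). `nrm_inv` (for `ε < 1`) gives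
`nrm (G (W.erase v) / G W - 1) ≤ ρ - 1`, and `nrm_const`, `nrm_add_le` give the claim.
`rem_many`: induction on `|W \ W0|`, as above.
`fine`: by `GG_rec2` for `Y ⊆ U` (so `v ∉ Y`), with `hw`, `1 / Rt w v Y - 1` is the sum over the
`T ∈ cns r V v` with `v ∈ sk T` of `f T * ((if (sk T).erase v ⊆ Y then 1 else 0) *
(G (awy r V T) Y / G V Y))`; its norm is at most
`∑ T, f T * l ^ |(sk T).erase v| * ρ ^ |tch r V T| ≤ ε` (`rem_many` with `W = V`,
`|V \ awy r V T| = |tch r V T|`, `l ≥ 1`). `nrm_inv`.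
-/

namespace Pool.Agent.Lib.Pa7c826h

open Finset Pool.Agent.Lib.Pa7c826k

variable {r : ℕ → ℕ → Prop} {V : Finset ℕ} {f : Finset ℕ → ℝ} {sk : Finset ℕ → Finset ℕ}
  {l ρ : ℝ}

namespace FineAux

theorem ind_le (hl : 1 ≤ l) (U A : Finset ℕ) :
    nrm l U (fun Y => if A ⊆ Y then (1 : ℝ) else 0) ≤ l ^ A.card := by
  by_cases hA : A ⊆ U
  · exact le_of_eq (nrm_ind hA)
  · have h1 : nrm l U (fun Y => if A ⊆ Y then (1 : ℝ) else 0) = nrm l U (fun _ => (0 : ℝ)) :=
      nrm_congr fun Y hY => if_neg fun hc => hA (hc.trans hY)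
    rw [h1, nrm_const, abs_zero]
    exact pow_nonneg (by linarith) _

theorem many_aux (h : Mdl r V f sk l ρ) (U : Finset ℕ) (k : ℕ) : ∀ W1 W0 : Finset ℕ,
    (∀ W, W ⊆ W1 → ∀ v ∈ W, nrm l U (fun Y => GG f sk (W.erase v) Y / GG f sk W Y) ≤ ρ) →
    W0 ⊆ W1 → (W1 \ W0).card = k →
    nrm l U (fun Y => GG f sk W0 Y / GG f sk W1 Y) ≤ ρ ^ k := by
  have hl0 : 0 ≤ l := by linarith [h.hl]
  have hρ0 : 0 ≤ ρ := by linarith [h.hρ]
  induction k with
  | zero =>
    intro W1 W0 _ h1 h3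
    have h4 : W1 = W0 := by
      refine Subset.antisymm ?_ h1
      rw [← sdiff_eq_empty_iff_subset]
      exact card_eq_zero.1 h3
    rw [h4]
    have h5 : nrm l U (fun Y => GG f sk W0 Y / GG f sk W0 Y) = nrm l U (fun _ => (1 : ℝ)) :=
      nrm_congr fun Y _ => div_self (GG_pos h.toMod _ _).ne'
    rw [h5, nrm_const, abs_one, pow_zero]
  | succ k ih =>
    intro W1 W0 hP h1 h3
    have hne : (W1 \ W0).Nonempty := by
      rw [← card_pos]
      omega
    obtain ⟨u, hu⟩ := hne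
    obtain ⟨hu1, hu0⟩ := mem_sdiff.1 hu
    have h4 : W0 ⊆ W1.erase u := by
      intro x hx
      refine mem_erase.2 ⟨?_, h1 hx⟩
      rintro rfl
      exact hu0 hx
    have h6 : ((W1.erase u) \ W0).card = k := by
      rw [card_sdiff_of_subset h4, card_erase_of_mem hu1]
      rw [card_sdiff_of_subset h1] at h3
      omega
    have h7 := ih (W1.erase u) W0 (fun W hW => hP W (hW.trans (erase_subset _ _))) h4 h6
    have h8 := hP W1 (Subset.refl _) u hu1
    have h9 : nrm l U (fun Y => GG f sk W0 Y / GG f sk W1 Y) =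
        nrm l U (fun Y => (GG f sk W0 Y / GG f sk (W1.erase u) Y) *
          (GG f sk (W1.erase u) Y / GG f sk W1 Y)) := by
      refine nrm_congr fun Y _ => ?_
      have hp := (GG_pos h.toMod (W1.erase u) Y).ne'
      rw [div_mul_div_cancel₀ hp]
    rw [h9, pow_succ]
    exact (nrm_mul_le h.hl).trans (mul_le_mul h7 h8 (nrm_nonneg hl0) (pow_nonneg hρ0 _))

theorem eps_lt (h : Mdl r V f sk l ρ) : 1 - 1 / ρ < 1 := by
  have hρ0 : 0 < ρ := by linarith [h.hρ]
  have : 0 < 1 / ρ := by positivity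
  linarith

theorem eps_div (h : Mdl r V f sk l ρ) : (1 - 1 / ρ) / (1 - (1 - 1 / ρ)) = ρ - 1 := by
  have hρ0 : 0 < ρ := by linarith [h.hρ]
  have h1 : 1 - (1 - 1 / ρ) = 1 / ρ := by ring
  rw [h1]
  field_simp

/-- the norm of a sum over connected sets -/
theorem sum_le (h : Mdl r V f sk l ρ) {v : ℕ} (hv : v ∈ V) (U : Finset ℕ)
    (C : Finset (Finset ℕ)) (hC : C ⊆ cns r V v) (A : Finset ℕ → Finset ℕ)
    (hA : ∀ T ∈ C, (A T).card ≤ (sk T).card) (R : Finset ℕ → Finset ℕ → ℝ)
    (hR : ∀ T ∈ C, nrm l U (R T) ≤ ρ ^ (tch r V T).card) :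
    nrm l U (fun Y => ∑ T ∈ C, f T * ((if A T ⊆ Y then 1 else 0) * R T Y)) ≤ 1 - 1 / ρ := by
  have hl0 : 0 ≤ l := by linarith [h.hl]
  have hρ0 : 0 ≤ ρ := by linarith [h.hρ]
  refine (nrm_sum_le hl0 C (fun T Y => f T * ((if A T ⊆ Y then 1 else 0) * R T Y))).trans ?_
  refine le_trans ?_ (h.kp v hv)
  refine le_trans (sum_le_sum (g := fun T => f T * l ^ (sk T).card * ρ ^ (tch r V T).card)
    (fun T hT => ?_)) (sum_le_sum_of_subset_of_nonneg hC (fun T _ _ => ?_))
  · rw [nrm_smul (f T) (f := fun Y => (if A T ⊆ Y then (1 : ℝ) else 0) * R T Y),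
      abs_of_nonneg (h.nn T), mul_assoc]
    refine mul_le_mul_of_nonneg_left ?_ (h.nn T)
    refine (nrm_mul_le h.hl).trans ?_
    refine mul_le_mul ?_ (hR T hT) (nrm_nonneg hl0) (pow_nonneg hl0 _)
    exact (ind_le h.hl U (A T)).trans (pow_le_pow_right₀ h.hl (hA T hT))
  · exact mul_nonneg (mul_nonneg (h.nn T) (pow_nonneg hl0 _)) (pow_nonneg hρ0 _)

end FineAux

open FineAux

theorem rem_one (h : Mdl r V f sk l ρ) (U : Finset ℕ) : ∀ W, W ⊆ V → ∀ v ∈ W,
    nrm l U (fun Y => GG f sk (W.erase v) Y / GG f sk W Y) ≤ ρ := by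
  classical
  intro W
  induction W using Finset.strongInduction with
  | H W ih =>
    intro hW v hv
    have hl0 : 0 ≤ l := by linarith [h.hl]
    have hρ0 : 0 ≤ ρ := by linarith [h.hρ]
    have hvV : v ∈ V := hW hv
    have hsub : cns r W v ⊆ cns r V v := by
      intro T hT
      unfold cns at hT ⊢
      rw [mem_filter, mem_powerset] at hT ⊢
      exact ⟨hT.1.trans hW, hT.2⟩
    have hP : ∀ W', W' ⊆ W.erase v → ∀ u ∈ W',
        nrm l U (fun Y => GG f sk (W'.erase u) Y / GG f sk W' Y) ≤ ρ := by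
      intro W' hW' u hu
      have h1 : W' ⊂ W := lt_of_le_of_lt hW' (erase_ssubset hv)
      exact ih W' h1 (h1.1.trans hW) u hu
    have h1 : nrm l U (fun Y => GG f sk W Y / GG f sk (W.erase v) Y - 1) ≤ 1 - 1 / ρ := by
      have h2 : nrm l U (fun Y => GG f sk W Y / GG f sk (W.erase v) Y - 1) =
          nrm l U (fun Y => ∑ T ∈ cns r W v, f T * ((if sk T ⊆ Y then 1 else 0) *
            (fun T Y => GG f sk (awy r W T) Y / GG f sk (W.erase v) Y) T Y)) := by
        refine nrm_congr fun Y _ => ?_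
        have hp := (GG_pos h.toMod (W.erase v) Y).ne'
        rw [GG_rec h.toMod hW hv Y, add_div, div_self hp, add_sub_cancel_left, sum_div]
        refine sum_congr rfl (fun T _ => ?_)
        simp only []
        rw [mul_div_assoc, mul_div_assoc]
      rw [h2]
      refine sum_le h hvV U (cns r W v) hsub sk (fun T _ => le_refl _) _ (fun T hT => ?_)
      have hT' := hT
      unfold cns at hT'
      rw [mem_filter, mem_powerset] at hT'
      have h3 : awy r W T ⊆ W.erase v := by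
        intro x hx
        unfold awy at hx
        rw [mem_filter] at hx
        rw [mem_erase]
        refine ⟨?_, hx.1⟩
        rintro rfl
        exact hx.2 x hT'.2.1 (h.refl x)
      have h4 := many_aux h U _ (W.erase v) (awy r W T) hP h3 rfl
      refine h4.trans (pow_le_pow_right₀ h.hρ (card_le_card ?_))
      intro x hx
      rw [mem_sdiff, mem_erase] at hx
      unfold awy at hx
      rw [mem_filter, not_and] at hx
      have h5 := hx.2 hx.1.2
      push Not at h5
      unfold tch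
      rw [mem_filter]
      exact ⟨hW hx.1.2, h5⟩
    have h3 := nrm_inv h.hl h1 (eps_lt h)
      (fun Y _ => (div_pos (GG_pos h.toMod W Y) (GG_pos h.toMod (W.erase v) Y)).ne')
    rw [eps_div h] at h3
    have h4 : nrm l U (fun Y => GG f sk (W.erase v) Y / GG f sk W Y) =
        nrm l U (fun Y => (fun _ => (1 : ℝ)) Y +
          (fun Y => 1 / (GG f sk W Y / GG f sk (W.erase v) Y) - 1) Y) := by
      refine nrm_congr fun Y _ => ?_
      simp only []
      rw [one_div_div]
      ring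
    rw [h4]
    refine (nrm_add_le hl0).trans ?_
    rw [nrm_const, abs_one]
    linarith

theorem rem_many (h : Mdl r V f sk l ρ) (U : Finset ℕ) {W W0 : Finset ℕ} (hW : W ⊆ V)
    (h0 : W0 ⊆ W) :
    nrm l U (fun Y => GG f sk W0 Y / GG f sk W Y) ≤ ρ ^ (W \ W0).card :=
  many_aux h U _ W W0 (fun W' hW' => rem_one h U W' (hW'.trans hW)) h0 rfl

theorem fine (h : Mdl r V f sk l ρ) {w : Finset ℕ → ℝ} (hw : ∀ Y, Y ⊆ V → Xi w Y = GG f sk V Y)
    {U : Finset ℕ} (hU : U ⊆ V) {v : ℕ} (hv : v ∈ V) (hvU : v ∉ U) :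
    nrm l U (fun Y => Rt w v Y - 1) ≤ ρ - 1 := by
  classical
  have hXi : ∀ Y, Y ⊆ U → Rt w v Y = GG f sk V Y / GG f sk V (insert v Y) := by
    intro Y hY
    unfold Rt
    rw [hw Y (hY.trans hU), hw (insert v Y) (insert_subset hv (hY.trans hU))]
  have h1 : nrm l U (fun Y => 1 / Rt w v Y - 1) ≤ 1 - 1 / ρ := by
    have h2 : nrm l U (fun Y => 1 / Rt w v Y - 1) =
        nrm l U (fun Y => ∑ T ∈ (cns r V v).filter (fun T => v ∈ sk T),
          f T * ((if (fun T => (sk T).erase v) T ⊆ Y then 1 else 0) *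
            (fun T Y => GG f sk (awy r V T) Y / GG f sk V Y) T Y)) := by
      refine nrm_congr fun Y hY => ?_
      have hp := (GG_pos h.toMod V Y).ne'
      rw [hXi Y hY, one_div_div, GG_rec2 h.toMod hv (fun hc => hvU (hY hc)), add_div,
        div_self hp, add_sub_cancel_left, sum_div]
      refine sum_congr rfl (fun T _ => ?_)
      simp only []
      rw [mul_div_assoc, mul_div_assoc]
    rw [h2]
    refine sum_le h hv U _ (filter_subset _ _) (fun T => (sk T).erase v)
      (fun T _ => card_erase_le) _ (fun T hT => ?_)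
    have h3 : awy r V T ⊆ V := by
      intro x hx
      unfold awy at hx
      rw [mem_filter] at hx
      exact hx.1
    refine (rem_many h U (Subset.refl V) h3).trans (pow_le_pow_right₀ h.hρ (card_le_card ?_))
    intro x hx
    rw [mem_sdiff] at hx
    unfold awy at hx
    rw [mem_filter, not_and] at hx
    have h5 := hx.2 hx.1
    push Not at h5
    unfold tch
    rw [mem_filter]
    exact ⟨hx.1, h5⟩
  have hpos : ∀ Y, Y ⊆ U → 0 < Rt w v Y := by
    intro Y hY
    rw [hXi Y hY]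
    exact div_pos (GG_pos h.toMod _ _) (GG_pos h.toMod _ _)
  have h3 := nrm_inv (g := fun Y => 1 / Rt w v Y) h.hl h1 (eps_lt h)
    (fun Y hY => (one_div_pos.2 (hpos Y hY)).ne')
  rw [eps_div h] at h3
  refine le_trans (le_of_eq (nrm_congr fun Y _ => ?_)) h3
  rw [one_div_one_div]

end Pool.Agent.Lib.Pa7c826h
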