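import Pool.Agent.Lib.Pa7c826g.Easy

/-!
The deterministic scheme for large degrees: a gap of `log₂ (n / D) + ε log₂ n`.
-/

namespace Pool.Agent.Lib.Pa7c826h

open Finset Pool.Agent.Lib.PolyTime Pool.Agent.Lib.Pa7c826 Pool.Agent.Lib.Pa7c826g

/-- the numerical conditions of the algorithm with parameter `k` -/
def NumCond (k n D M : ℕ) : Prop :=
  n ^ (k + 1) * 2 ^ (k * D) ≤ D ^ k * 2 ^ (k * M) ∧ n ≤ 2 ^ (k * M) ∧ D ≤ M

theorem spec_sideX {k : ℕ} (hk : 1 ≤ k) (w : List Bool) {t : ℕ} (ht : 1 ≤ t) {D : ℕ} {x : ℝ}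
    (hn : 2 ≤ nOf w) (hcond : ∀ M : ℕ, M ≤ nOf w → x ≤ M → NumCond k (nOf w) D M) (hD1 : 1 ≤ D)
    (hside : 0 < sideN w)
    (hs : ∀ u v, adjO w u v = adjO w v u) (hl : ∀ u, adjO w u u = false)
    (hbip : ∀ u v, adjO w u v = true → v < nOf w ∧ (u < sideN w ↔ ¬ v < sideN w))
    (hhi : ∀ u < sideN w, x ≤ (dg (adjO w) (range (nOf w)) u : ℕ))
    (hlo : ∀ v < nOf w, ¬ v < sideN w → dg (adjO w) (range (nOf w)) v ≤ D) :
    outVal0 k (nOf w) t (minDegG w) (adjO w) ≤ ind (adjO w) (range (nOf w)) ∧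
      t * ind (adjO w) (range (nOf w)) ≤
        t * outVal0 k (nOf w) t (minDegG w) (adjO w) + ind (adjO w) (range (nOf w)) := by
  have hM1 : ∀ u < sideN w, ⌈x⌉₊ ≤ dg (adjO w) (range (nOf w)) u := fun u hu =>
    Nat.ceil_le.2 (hhi u hu)
  have hM2 : ⌈x⌉₊ ≤ nOf w := by
    refine (hM1 0 hside).trans ?_
    unfold dg
    refine (card_filter_le _ _).trans ?_
    rw [card_range]
  have hM3 := le_minDeg hM2 hM1
  have hM4 : x ≤ (minDegG w : ℕ) := (Nat.le_ceil _).trans (by exact_mod_cast hM3)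
  have hM5 : minDegG w ≤ nOf w := by
    unfold minDegG
    refine (card_filter_le _ _).trans ?_
    rw [card_range]
  obtain ⟨e1, e2, e3⟩ := hcond (minDegG w) hM5 hM4
  exact approx_gap (p := fun u => u < sideN w) hs hl (fun u v hu hv => by omega) hbip hD1 e3
    (fun u _ hu => minDeg_le hu) (fun v hv hv' => hlo v hv hv') hn hk ht e1 e2

/-- The guarantee of the algorithm for a graph with `D < x`. -/
theorem algoX_spec {k : ℕ} (hk : 1 ≤ k) (G : BGraph) {D : ℕ} {x : ℝ} (hD1 : 1 ≤ D)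
    (hDx : 0 < G.a → 0 < G.b → (D : ℝ) < x)
    (hcond : 2 ≤ G.a + G.b → ∀ M : ℕ, M ≤ G.a + G.b → x ≤ M → NumCond k (G.a + G.b) D M)
    (hcase : ((∀ j, G.colDeg j ≤ D) ∧ ∀ i, x ≤ G.rowDeg i) ∨
      ((∀ i, G.rowDeg i ≤ D) ∧ ∀ j, x ≤ G.colDeg j)) {t : ℕ} (ht : 1 ≤ t) :
    algoG k (inCode G t) ≤ numIndep G.graph ∧
      t * numIndep G.graph ≤ t * algoG k (inCode G t) + numIndep G.graph := by
  have hnw : nOf (inCode G t) = G.a + G.b := nOf_inCode G t
  have hind : ind (adjO (inCode G t)) (range (nOf (inCode G t))) = numIndep G.graph := by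
    rw [ind_adjO, hnw, ind_eq_numIndep]
  have hr : ∀ u (hu : u < G.a), dg (adjOf (inCode G t)) (range (nOf (inCode G t))) u =
      G.rowDeg ⟨u, hu⟩ := by
    intro u hu
    rw [hnw]
    exact dg_row G t ⟨u, hu⟩
  have hc : ∀ j (hj : j < G.b), dg (adjOf (inCode G t)) (range (nOf (inCode G t))) (G.a + j) =
      G.colDeg ⟨j, hj⟩ := by
    intro j hj
    rw [hnw]
    exact dg_col G t ⟨j, hj⟩
  unfold algoG
  rw [tOf_inCode, ← hind]
  by_cases hab : G.a = 0 ∨ G.b = 0
  · apply approx_trivial _ ht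
    have h2 : ∀ u v, adjOf (inCode G t) u v = false := by
      intro u v
      by_contra hcon
      rw [Bool.not_eq_false] at hcon
      have h3 := adjOf_bip hcon
      rw [aOf_inCode, bOf_inCode] at h3
      omega
    intro u v
    rcases Bool.eq_false_or_eq_true (flagG (inCode G t)) with hf | hf
    · rw [adjO_of_flag hf, h2]
    · rw [adjO_of_not_flag hf]
      unfold adjR
      rw [h2, Bool.and_false]
  have ha : 0 < G.a := by omega
  have hb : 0 < G.b := by omega
  have hn : 2 ≤ nOf (inCode G t) := by omega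
  have hDx' := hDx ha hb
  have hcond' : ∀ M : ℕ, M ≤ nOf (inCode G t) → x ≤ M → NumCond k (nOf (inCode G t)) D M := by
    rw [hnw]
    exact hcond (by omega)
  rcases hcase with ⟨hcol, hrow⟩ | ⟨hrow, hcol⟩
  · have hrowD : ∀ i, D < G.rowDeg i := by
      intro i
      have h2 : (D : ℝ) < G.rowDeg i := lt_of_lt_of_le hDx' (hrow i)
      exact_mod_cast h2
    have hf : flagG (inCode G t) = true := by
      unfold flagG
      rw [Bool.not_eq_true', decide_eq_false_iff_not]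
      rintro ⟨u, hu, hu2⟩
      rw [decide_eq_true_eq] at hu2
      obtain ⟨j, hj, hj2⟩ := hu2
      rw [decide_eq_true_eq, aOf_inCode] at hj2
      rw [aOf_inCode] at hu
      rw [bOf_inCode] at hj
      rw [hr u hu, hc j hj] at hj2
      have := hrowD ⟨u, hu⟩
      have := hcol ⟨j, hj⟩
      omega
    have hadj := adjO_of_flag hf
    have hside : sideN (inCode G t) = G.a := by
      unfold sideN
      rw [if_pos hf, aOf_inCode]
    apply spec_sideX hk (inCode G t) ht hn hcond' hD1 (by rw [hside]; exact ha)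
    · rw [hadj]; exact adjOf_symm _
    · rw [hadj]; exact adjOf_self _
    · intro u v huv
      rw [hadj] at huv
      have h3 := adjOf_bip huv
      rw [aOf_inCode, bOf_inCode] at h3
      rw [hside, hnw]
      omega
    · intro u hu
      rw [hside] at hu
      rw [hadj, hr u hu]
      exact hrow ⟨u, hu⟩
    · intro v hv hv2
      rw [hside] at hv2
      rw [hnw] at hv
      have h3 : v = G.a + (v - G.a) := by omega
      rw [hadj, h3, hc (v - G.a) (by omega)]
      exact hcol _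
  · have hf : flagG (inCode G t) = false := by
      unfold flagG
      rw [Bool.not_eq_false', decide_eq_true_eq]
      refine ⟨0, by rw [aOf_inCode]; exact ha, ?_⟩
      rw [decide_eq_true_eq]
      refine ⟨0, by rw [bOf_inCode]; exact hb, ?_⟩
      rw [decide_eq_true_eq, aOf_inCode, hr 0 ha, hc 0 hb]
      have h2 : ((G.rowDeg ⟨0, ha⟩ : ℕ) : ℝ) < (G.colDeg ⟨0, hb⟩ : ℕ) := by
        have h3 := hcol ⟨0, hb⟩
        have h4 : ((G.rowDeg ⟨0, ha⟩ : ℕ) : ℝ) ≤ D := by exact_mod_cast hrow ⟨0, ha⟩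
        linarith
      exact_mod_cast h2
    have hadj := adjO_of_not_flag hf
    have hside : sideN (inCode G t) = G.b := by
      unfold sideN
      rw [hf, bOf_inCode]
      simp
    apply spec_sideX hk (inCode G t) ht hn hcond' hD1 (by rw [hside]; exact hb)
    · rw [hadj]; exact adjR_symm _
    · rw [hadj]; exact adjR_self _
    · intro u v huv
      rw [hadj] at huv
      have h3 := adjR_bip huv
      rw [bOf_inCode] at h3
      rw [hside]
      exact h3
    · intro u hu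
      rw [hside] at hu
      have hun : u < nOf (inCode G t) := by omega
      have h3 : nOf (inCode G t) - 1 - u = G.a + (G.b - 1 - u) := by omega
      rw [hadj, dg_rev hun, h3, hc (G.b - 1 - u) (by omega)]
      exact hcol _
    · intro v hv hv2
      rw [hside] at hv2
      have h3 : nOf (inCode G t) - 1 - v < G.a := by omega
      rw [hadj, dg_rev hv, hr _ h3]
      exact hrow _

/-- A scheme from a machine computing a lower approximation. -/
theorem fptas_of_algo {P : BGraph → Prop} (A : List Bool → ℕ)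
    (hA : PolyBin (fun x : BGraph × ℕ => P x.1 ∧ 1 ≤ x.2) [fun x => inCode x.1 x.2]
      (fun x => A (inCode x.1 x.2)))
    (h : ∀ G t, P G → 1 ≤ t → A (inCode G t) ≤ numIndep G.graph ∧
      t * numIndep G.graph ≤ t * A (inCode G t) + numIndep G.graph) : HasFPTAS P := by
  let D : BGraph × ℕ → Prop := fun x => P x.1 ∧ 1 ≤ x.2
  let enc : BGraph × ℕ → List Bool := fun x => inCode x.1 x.2
  obtain ⟨u, hu, hval⟩ := hA
  have hout : PolyC D [enc] (fun x => false :: u x) := PolyC.cons false hu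
  refine ⟨fun x => false :: u x.1, PolyC.toTM2 enc (fun x => false :: u x) id hout, ?_⟩
  rintro ⟨⟨G, t⟩, hG, ht⟩
  have hG' : P G := hG
  have ht' : 1 ≤ t := ht
  have h1 := h G t hG' ht'
  have h2 : binVal (u (G, t)) = A (inCode G t) := by
    rw [binVal_eq_bval]
    exact hval (G, t) ⟨hG, ht⟩
  unfold Good
  simp only [outVal, h2]
  have htq : (0 : ℚ) < t := by exact_mod_cast ht'
  have h3 : (A (inCode G t) : ℚ) ≤ numIndep G.graph := by exact_mod_cast h1.1
  have h4 : (t : ℚ) * numIndep G.graph ≤ t * A (inCode G t) + numIndep G.graph := by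
    exact_mod_cast h1.2
  rw [abs_sub_comm, abs_of_nonneg (by linarith), le_div_iff₀ htq]
  linarith

/-- The two schemes `P`, `Q` and a polynomial time test give a scheme for `R`. -/
theorem fptas_union {P Q R : BGraph → Prop} (φ : BGraph × ℕ → Bool)
    (hφ : PolyB (fun x : BGraph × ℕ => R x.1 ∧ 1 ≤ x.2) [fun x => inCode x.1 x.2] φ)
    (h1 : ∀ G t, R G → 1 ≤ t → φ (G, t) = true → P G)
    (h2 : ∀ G t, R G → 1 ≤ t → φ (G, t) = false → Q G)
    (HP : HasFPTAS P) (HQ : HasFPTAS Q) : HasFPTAS R := by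
  classical
  obtain ⟨f, hf, fgood⟩ := HP
  obtain ⟨g, hg, ggood⟩ := HQ
  let F : BGraph × ℕ → List Bool := fun x =>
    if hx : P x.1 ∧ 1 ≤ x.2 then f ⟨x, hx⟩ else []
  let F' : BGraph × ℕ → List Bool := fun x =>
    if hx : Q x.1 ∧ 1 ≤ x.2 then g ⟨x, hx⟩ else []
  let D : BGraph × ℕ → Prop := fun x => R x.1 ∧ 1 ≤ x.2
  let enc : BGraph × ℕ → List Bool := fun x => inCode x.1 x.2
  have eF : ∀ G t (hx : P G ∧ 1 ≤ t), F (G, t) = f ⟨(G, t), hx⟩ := fun G t hx => dif_pos hx
  have eF' : ∀ G t (hx : Q G ∧ 1 ≤ t), F' (G, t) = g ⟨(G, t), hx⟩ := fun G t hx => dif_pos hx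
  have hF : PolyC (fun x => D x ∧ φ x = true) [enc] F := by
    refine PolyC.applyTM2 hf enc F (PolyC.var (by simp)) ?_
    rintro ⟨G, t⟩ ⟨⟨hG, ht⟩, hb⟩
    have hx : P G ∧ 1 ≤ t := ⟨h1 G t hG ht hb, ht⟩
    exact ⟨⟨(G, t), hx⟩, rfl, (eF G t hx).symm⟩
  have hF' : PolyC (fun x => D x ∧ φ x = false) [enc] F' := by
    refine PolyC.applyTM2 hg enc F' (PolyC.var (by simp)) ?_
    rintro ⟨G, t⟩ ⟨⟨hG, ht⟩, hb⟩
    have hx : Q G ∧ 1 ≤ t := ⟨h2 G t hG ht hb, ht⟩
    exact ⟨⟨(G, t), hx⟩, rfl, (eF' G t hx).symm⟩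
  have hout : PolyC D [enc] (fun x => if φ x then F x else F' x) := PolyC.ite hφ hF hF'
  refine ⟨fun x => if φ x.1 then F x.1 else F' x.1,
    PolyC.toTM2 enc (fun x => if φ x then F x else F' x) id hout, ?_⟩
  rintro ⟨⟨G, t⟩, hG, ht⟩
  have hG' : R G := hG
  have ht' : 1 ≤ t := ht
  show Good G t (if φ (G, t) then F (G, t) else F' (G, t))
  cases hb : φ (G, t) with
  | true =>
    have hx : P G ∧ 1 ≤ t := ⟨h1 G t hG' ht' hb, ht'⟩
    rw [if_pos rfl, eF G t hx]
    exact fgood ⟨(G, t), hx⟩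
  | false =>
    have hx : Q G ∧ 1 ≤ t := ⟨h2 G t hG' ht' hb, ht'⟩
    rw [if_neg (by simp), eF' G t hx]
    exact ggood ⟨(G, t), hx⟩

end Pool.Agent.Lib.Pa7c826h
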