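import Pool.Agent.Lib.Pa7c826h.Mdl

/-!
Decomposition of the sums `GG` at a vertex.

PROOFS. The decomposition: for `W ⊆ V`, `v ∈ W` the map `(T, S') ↦ T ∪ S'` is a bijection from the
pairs with `T ∈ cns r W v`, `S' ⊆ awy r W T` onto the sets `S ⊆ W` with `v ∈ S` (`exists_comp`,
`comp_unique` of `Pa7c826k/Comp.lean`, see there the proof of `Xi_rec`; `Far r T S'` by the definition
of `awy`; `T`, `S'` are disjoint as `r` is reflexive). For such a pair `f S = f T * f S'` and
`sk S = sk T ∪ sk S'`, `sk T ⊆ T`, `sk S' ⊆ S'`.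
`dec_sum` is this statement for an arbitrary function `F`. `GG_rec`: sets without `v` give
`GG (W.erase v) Y`; for the others `sk S ⊆ Y` if and only if `sk T ⊆ Y` and `sk S' ⊆ Y`.
`GG_rec2`: `GG V (insert v Y) - GG V Y` is the sum over the `S ⊆ V` with `v ∈ sk S` and
`sk S ⊆ insert v Y`; then `v ∈ S` and, as `v ∉ S'`: `v ∈ sk T`, `(sk T).erase v ⊆ Y`, `sk S' ⊆ Y`.
-/

namespace Pool.Agent.Lib.Pa7c826h

open Finset Pool.Agent.Lib.Pa7c826k

variable {r : ℕ → ℕ → Prop} {V : Finset ℕ} {f : Finset ℕ → ℝ} {sk : Finset ℕ → Finset ℕ}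

theorem dec_sum (hr : ∀ x, r x x) (hs : ∀ x y, r x y → r y x) {W : Finset ℕ} {v : ℕ}
    (hv : v ∈ W) (F : Finset ℕ → ℝ) :
    ∑ S ∈ W.powerset.filter (fun S => v ∈ S), F S =
      ∑ T ∈ cns r W v, ∑ S' ∈ (awy r W T).powerset, F (T ∪ S') := by
  classical
  rw [sum_sigma']
  have hT : ∀ Z ∈ W.powerset.filter (fun Z => v ∈ Z), ∃ T, T ⊆ Z ∧ v ∈ T ∧ Conn r T ∧
      Far r T (Z \ T) := by
    intro Z hZ
    rw [mem_filter] at hZ
    exact exists_comp hr hs hZ.2
  choose! cT hT1 hT2 hT3 hT4 using hT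
  refine sum_bij' (fun Z _ => (⟨cT Z, Z \ cT Z⟩ : Σ _ : Finset ℕ, Finset ℕ))
    (fun p _ => p.1 ∪ p.2) ?_ ?_ ?_ ?_ ?_
  · intro Z hZ
    have hZ' := hZ
    rw [mem_filter, mem_powerset] at hZ'
    rw [mem_sigma]
    constructor
    · unfold cns
      rw [mem_filter, mem_powerset]
      exact ⟨(hT1 Z hZ).trans hZ'.1, hT2 Z hZ, hT3 Z hZ⟩
    · rw [mem_powerset]
      intro y hy
      unfold awy
      rw [mem_filter]
      have hy' := mem_sdiff.1 hy
      exact ⟨hZ'.1 hy'.1, fun x hx => hT4 Z hZ x hx y hy⟩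
  · rintro ⟨T, Z'⟩ hp
    rw [mem_sigma] at hp
    obtain ⟨hp1, hp2⟩ := hp
    simp only [] at hp1 hp2
    unfold cns at hp1
    rw [mem_filter, mem_powerset] at hp1
    rw [mem_powerset] at hp2
    rw [mem_filter, mem_powerset]
    constructor
    · refine union_subset hp1.1 ?_
      intro x hx
      have h2 := hp2 hx
      unfold awy at h2
      rw [mem_filter] at h2
      exact h2.1
    · exact mem_union_left _ hp1.2.1
  · intro Z hZ
    exact union_sdiff_of_subset (hT1 Z hZ)
  · rintro ⟨T, Z'⟩ hp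
    rw [mem_sigma] at hp
    obtain ⟨hp1, hp2⟩ := hp
    simp only [] at hp1 hp2
    unfold cns at hp1
    rw [mem_filter, mem_powerset] at hp1
    rw [mem_powerset] at hp2
    have hfar : Far r T Z' := by
      intro x hx y hy
      have h2 := hp2 hy
      unfold awy at h2
      rw [mem_filter] at h2
      exact h2.2 x hx
    have hdis := Far.disjoint hr hfar
    have hsd : (T ∪ Z') \ T = Z' := by
      rw [union_sdiff_left]
      exact sdiff_eq_self_of_disjoint hdis.symm
    have hmem : T ∪ Z' ∈ W.powerset.filter (fun Z => v ∈ Z) := by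
      rw [mem_filter, mem_powerset]
      constructor
      · refine union_subset hp1.1 ?_
        intro x hx
        have h2 := hp2 hx
        unfold awy at h2
        rw [mem_filter] at h2
        exact h2.1
      · exact mem_union_left _ hp1.2.1
    have hfar' : Far r T ((T ∪ Z') \ T) := by rw [hsd]; exact hfar
    have heq : cT (T ∪ Z') = T :=
      comp_unique hs (hT1 _ hmem) subset_union_left (hT2 _ hmem) hp1.2.1 (hT3 _ hmem) hp1.2.2
        (hT4 _ hmem) hfar'
    show (⟨cT (T ∪ Z'), (T ∪ Z') \ cT (T ∪ Z')⟩ : Σ _ : Finset ℕ, Finset ℕ) = ⟨T, Z'⟩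
    rw [heq, hsd]
  · intro Z hZ
    show F Z = F (cT Z ∪ Z \ cT Z)
    rw [union_sdiff_of_subset (hT1 Z hZ)]

namespace GGrecAux

theorem far_awy {W T S' : Finset ℕ} (h : S' ⊆ awy r W T) : Far r T S' := by
  classical
  intro x hx y hy
  have h2 := h hy
  unfold awy at h2
  rw [mem_filter] at h2
  exact h2.2 x hx

theorem awy_sub {W T : Finset ℕ} : awy r W T ⊆ W := by
  classical
  intro x hx
  unfold awy at hx
  rw [mem_filter] at hx
  exact hx.1

theorem cns_sub {W T : Finset ℕ} {v : ℕ} (h : T ∈ cns r W v) : T ⊆ W ∧ v ∈ T := by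
  classical
  unfold cns at h
  rw [mem_filter, mem_powerset] at h
  exact ⟨h.1, h.2.1⟩

/-- sum form of `GG` -/
theorem GG_eq (W Y : Finset ℕ) :
    GG f sk W Y = ∑ S ∈ W.powerset, (if sk S ⊆ Y then f S else 0) := by
  unfold GG
  rw [sum_filter]

theorem inner (h : Mod r V f sk) {W : Finset ℕ} (hW : W ⊆ V) {T Y : Finset ℕ} (hT : T ⊆ W) :
    ∑ S' ∈ (awy r W T).powerset, (if sk (T ∪ S') ⊆ Y then f (T ∪ S') else 0) =
      f T * ((if sk T ⊆ Y then 1 else 0) * GG f sk (awy r W T) Y) := by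
  rw [GG_eq, mul_sum, mul_sum]
  refine sum_congr rfl (fun S' hS' => ?_)
  rw [mem_powerset] at hS'
  have hf := far_awy hS'
  have hSV : S' ⊆ V := (hS'.trans awy_sub).trans hW
  rw [h.uni T S' (hT.trans hW) hSV hf, h.mul T S' (hT.trans hW) hSV hf]
  by_cases h1 : sk T ⊆ Y
  · by_cases h2 : sk S' ⊆ Y
    · rw [if_pos (union_subset h1 h2), if_pos h1, if_pos h2, one_mul]
    · rw [if_neg (fun hc => h2 (subset_union_right.trans hc)), if_neg h2]
      ring
  · rw [if_neg (fun hc => h1 (subset_union_left.trans hc)), if_neg h1]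
    ring

end GGrecAux

open GGrecAux

theorem GG_pos (h : Mod r V f sk) (W Y : Finset ℕ) : 0 < GG f sk W Y := by
  unfold GG
  have h1 : (∅ : Finset ℕ) ∈ W.powerset.filter (fun S => sk S ⊆ Y) := by
    rw [mem_filter]
    exact ⟨empty_mem_powerset W, (h.sub ∅).trans (empty_subset Y)⟩
  have h2 := single_le_sum (f := f) (fun Z _ => h.nn Z) h1
  rw [h.emp] at h2
  linarith

theorem GG_rec (h : Mod r V f sk) {W : Finset ℕ} (hW : W ⊆ V) {v : ℕ} (hv : v ∈ W)
    (Y : Finset ℕ) :
    GG f sk W Y = GG f sk (W.erase v) Y +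
      ∑ T ∈ cns r W v, f T * ((if sk T ⊆ Y then 1 else 0) * GG f sk (awy r W T) Y) := by
  classical
  rw [GG_eq, GG_eq (W := W.erase v)]
  rw [← sum_filter_add_sum_filter_not W.powerset (fun Z => v ∉ Z)]
  congr 1
  · refine sum_congr ?_ (fun _ _ => rfl)
    ext Z
    rw [mem_filter, mem_powerset, mem_powerset]
    constructor
    · rintro ⟨h1, h2⟩ x hx
      rw [mem_erase]
      exact ⟨fun he => h2 (he ▸ hx), h1 hx⟩
    · intro h1
      exact ⟨h1.trans (erase_subset _ _), fun hz => (notMem_erase v W) (h1 hz)⟩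
  · have e : W.powerset.filter (fun Z => ¬ v ∉ Z) = W.powerset.filter (fun Z => v ∈ Z) := by
      ext Z
      rw [mem_filter, mem_filter, not_not]
    rw [e, dec_sum h.refl h.symm hv (fun S => if sk S ⊆ Y then f S else 0)]
    exact sum_congr rfl (fun T hT => inner h hW (cns_sub hT).1)

theorem GG_rec2 (h : Mod r V f sk) {v : ℕ} (hv : v ∈ V) {Y : Finset ℕ} (hY : v ∉ Y) :
    GG f sk V (insert v Y) = GG f sk V Y +
      ∑ T ∈ (cns r V v).filter (fun T => v ∈ sk T),
        f T * ((if (sk T).erase v ⊆ Y then 1 else 0) * GG f sk (awy r V T) Y) := by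
  classical
  have h0 : ∀ S, S ∈ V.powerset → ((if sk S ⊆ insert v Y then f S else 0) =
      (if sk S ⊆ Y then f S else 0) +
        (if v ∈ S then (if v ∈ sk S ∧ sk S ⊆ insert v Y then f S else 0) else 0)) := by
    intro S _
    by_cases h1 : v ∈ sk S
    · have h2 : v ∈ S := h.sub S h1
      have h3 : ¬ sk S ⊆ Y := fun hc => hY (hc h1)
      rw [if_neg h3, if_pos h2, zero_add]
      by_cases h4 : sk S ⊆ insert v Y
      · rw [if_pos h4, if_pos ⟨h1, h4⟩]
      · rw [if_neg h4, if_neg (fun hc => h4 hc.2)]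
    · have h5 : (if v ∈ S then (if v ∈ sk S ∧ sk S ⊆ insert v Y then f S else 0) else 0) = 0 := by
        rw [if_neg (fun hc : v ∈ sk S ∧ sk S ⊆ insert v Y => h1 hc.1)]
        simp
      rw [h5, add_zero]
      have h6 : sk S ⊆ insert v Y ↔ sk S ⊆ Y := by
        constructor
        · intro h7 x hx
          rcases mem_insert.1 (h7 hx) with h8 | h8
          · exact absurd (h8 ▸ hx) h1
          · exact h8
        · intro h7
          exact h7.trans (subset_insert _ _)
      simp only [h6]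
  rw [GG_eq, GG_eq (W := V) (Y := Y), sum_congr rfl h0, sum_add_distrib]
  congr 1
  rw [← sum_filter]
  rw [dec_sum h.refl h.symm hv (fun S => if v ∈ sk S ∧ sk S ⊆ insert v Y then f S else 0),
    sum_filter]
  refine sum_congr rfl (fun T hT => ?_)
  have hTV := (cns_sub hT).1
  have hu : ∀ S' ∈ (awy r V T).powerset, (if v ∈ sk (T ∪ S') ∧ sk (T ∪ S') ⊆ insert v Y then
      f (T ∪ S') else 0) = (if v ∈ sk T then
        f T * ((if (sk T).erase v ⊆ Y then 1 else 0) * (if sk S' ⊆ Y then f S' else 0)) else 0) := by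
    intro S' hS'
    rw [mem_powerset] at hS'
    have hf := far_awy hS'
    have hSV : S' ⊆ V := hS'.trans awy_sub
    have hvS : v ∉ S' := fun hc => hf v (cns_sub hT).2 v hc (h.refl v)
    have hvk : v ∉ sk S' := fun hc => hvS (h.sub S' hc)
    rw [h.uni T S' hTV hSV hf, h.mul T S' hTV hSV hf]
    have e1 : v ∈ sk T ∪ sk S' ↔ v ∈ sk T := by
      rw [mem_union]
      exact ⟨fun hc => hc.resolve_right hvk, Or.inl⟩
    have e2 : sk S' ⊆ insert v Y ↔ sk S' ⊆ Y := by
      constructor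
      · intro h7 x hx
        rcases mem_insert.1 (h7 hx) with h8 | h8
        · exact absurd (h8 ▸ hx) hvk
        · exact h8
      · intro h7
        exact h7.trans (subset_insert _ _)
    have e3 : sk T ⊆ insert v Y ↔ (sk T).erase v ⊆ Y := by
      constructor
      · intro h7 x hx
        rw [mem_erase] at hx
        exact (mem_insert.1 (h7 hx.2)).resolve_left hx.1
      · intro h7 x hx
        rw [mem_insert]
        by_cases h8 : x = v
        · exact Or.inl h8
        · exact Or.inr (h7 (mem_erase.2 ⟨h8, hx⟩))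
    by_cases h1 : v ∈ sk T
    · rw [if_pos h1]
      by_cases h2 : (sk T).erase v ⊆ Y
      · by_cases h3 : sk S' ⊆ Y
        · rw [if_pos ⟨e1.2 h1, union_subset (e3.2 h2) (e2.2 h3)⟩, if_pos h2, if_pos h3, one_mul]
        · rw [if_neg (fun hc => h3 (e2.1 (subset_union_right.trans hc.2))), if_neg h3]
          ring
      · rw [if_neg (fun hc => h2 (e3.1 (subset_union_left.trans hc.2))), if_neg h2]
        ring
    · rw [if_neg h1, if_neg (fun hc => h1 (e1.1 hc.1))]
  rw [sum_congr rfl hu]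
  by_cases h1 : v ∈ sk T
  · rw [if_pos h1, GG_eq, mul_sum, mul_sum]
    refine sum_congr rfl (fun S' _ => ?_)
    rw [if_pos h1]
  · rw [if_neg h1]
    exact sum_eq_zero (fun S' _ => if_neg h1)

end Pool.Agent.Lib.Pa7c826h
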