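import Pool.Agent.Lib.Pa7c826h.Class
import Pool.Agent.Lib.Pa7c826w.Det

/-!
Hardness below the threshold, at every density `D = n ^ (p / q)` exactly.
-/

namespace Pool.Agent.Lib.Pa7c826h

open Pool.Agent.Lib.PolyTime Pool.Agent.Lib.Pa7c826 Pool.Agent.Lib.Pa7c826y
  Pool.Agent.Lib.Pa7c826g Pool.Agent.Lib.Pa7c826w

/-- more isolated right vertices -/
def padR (G : BGraph) (r : ℕ) : BGraph := mkGraph G.a (G.b + r) G.F

theorem F_out (G : BGraph) {i j : ℕ} (h : G.a ≤ i ∨ G.b ≤ j) : G.F i j = false := by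
  unfold BGraph.F
  rw [dif_neg]
  rintro ⟨h1, h2⟩
  omega

theorem numIndep_padR (G : BGraph) (r : ℕ) :
    numIndep (padR G r).graph = numIndep G.graph * 2 ^ r := by
  have h1 := cnt_pad (γ := Fin 0) (δ := Fin r)
    (fun (i : Fin G.a) (j : Fin G.b) => G.F i j = true)
  rw [cnt_graph, Nat.card_fin, Nat.card_fin, Nat.zero_add] at h1
  rw [← h1]
  refine numIndep_mkGraph (Equiv.sumEmpty (Fin G.a) (Fin 0))
    (finSumFinEquiv (m := G.b) (n := r)) ?_
  rintro (x | x) (y | y)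
  · simp [pad]
  · have h2 : G.F ((Equiv.sumEmpty (Fin G.a) (Fin 0) (Sum.inl x) : Fin G.a) : ℕ)
        ((finSumFinEquiv (m := G.b) (n := r) (Sum.inr y) : Fin (G.b + r)) : ℕ) = false := by
      apply F_out
      right
      simp
    rw [h2]
    simp [pad]
  · exact x.elim0
  · exact x.elim0

theorem padR_rowDeg (G : BGraph) (r : ℕ) (i : Fin G.a) :
    (padR G r).rowDeg i = G.rowDeg i := by
  unfold BGraph.rowDeg
  show (Finset.univ.filter fun j : Fin (G.b + r) => G.F i j = true).card = _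
  refine Finset.card_bij' (fun j hj => (⟨j, ?_⟩ : Fin G.b)) (fun j _ => Fin.castAdd r j)
    ?_ ?_ ?_ ?_
  · by_contra h
    rw [Finset.mem_filter] at hj
    rw [F_out G (Or.inr (by omega))] at hj
    exact absurd hj.2 (by simp)
  · intro j hj
    rw [Finset.mem_filter] at hj ⊢
    exact ⟨Finset.mem_univ _, by rw [← G.F_eq]; exact hj.2⟩
  · intro j hj
    rw [Finset.mem_filter] at hj ⊢
    exact ⟨Finset.mem_univ _, by rw [← G.F_eq] at hj; exact hj.2⟩
  · intro j _
    rfl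
  · intro j _
    rfl

theorem padR_colDeg_le (G : BGraph) (r D : ℕ) (h : ∀ j, G.colDeg j ≤ D) (j : Fin (G.b + r)) :
    (padR G r).colDeg j ≤ D := by
  by_cases hj : (j : ℕ) < G.b
  · refine le_trans (le_of_eq ?_) (h ⟨j, hj⟩)
    unfold BGraph.colDeg
    show (Finset.univ.filter fun i : Fin G.a => G.F i j = true).card = _
    congr 1
    ext i
    simp only [Finset.mem_filter, Finset.mem_univ, true_and]
    rw [← G.F_eq]
  · have h0 : (padR G r).colDeg j = 0 := by
      unfold BGraph.colDeg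
      show (Finset.univ.filter fun i : Fin G.a => G.F i j = true).card = _
      rw [Finset.card_eq_zero, Finset.filter_eq_empty_iff]
      intro i _
      rw [F_out G (Or.inr (by omega))]
      simp
    rw [h0]
    exact Nat.zero_le _

/-- the padding -/
def padN (p g Q : ℕ) (G : BGraph) (t : ℕ) : ℕ :=
  PG G t ^ Q - ((redG p g G t).a + (redG p g G t).b)

/-- the reduction -/
def redH (p g Q : ℕ) (G : BGraph) (t : ℕ) : BGraph := padR (redG p g G t) (padN p g Q G t)

/-- the exponent -/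
def KHd (p g Q : ℕ) (G : BGraph) (t : ℕ) : ℕ := KG p g G t + padN p g Q G t

theorem size_redH {p g Q : ℕ} (hg : 1 ≤ g) (hp : g < p) (hQ : p + g + 1 ≤ Q) (G : BGraph) (t : ℕ) :
    (redH p g Q G t).a + (redH p g Q G t).b = PG G t ^ Q := by
  have h1 := size_redG hg hp G t
  have h2 : PG G t ^ (p + g + 1) ≤ PG G t ^ Q := Nat.pow_le_pow_right (PG_pos2 G t) hQ
  show (redG p g G t).a + ((redG p g G t).b + padN p g Q G t) = _
  unfold padN
  omega

theorem close_redH {p g : ℕ} (Q : ℕ) (hg : 1 ≤ g) (hp : g < p) (G : BGraph) (t : ℕ) :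
    |(numIndep (redH p g Q G t).graph : ℚ) / 2 ^ KHd p g Q G t - numIndep G.graph| ≤
      numIndep G.graph / (2 * t + 1) := by
  have h := close_redG hg hp G t
  have e : ((numIndep (redH p g Q G t).graph : ℕ) : ℚ) / 2 ^ KHd p g Q G t =
      (numIndep (redG p g G t).graph : ℚ) / 2 ^ KG p g G t := by
    unfold redH KHd
    rw [numIndep_padR, pow_add]
    push_cast
    have h2 : (0 : ℚ) < 2 ^ padN p g Q G t := by positivity
    have h3 : (0 : ℚ) < 2 ^ KG p g G t := by positivity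
    field_simp
  rw [e]
  exact h

theorem poly_padN (p g Q : ℕ) (D : BGraph × ℕ → Prop) :
    PolyN D [fun x => inCode x.1 x.2] (fun x => padN p g Q x.1 x.2) := by
  have hw : PolyC D [fun x => inCode x.1 x.2] (fun x => inCode x.1 x.2) := PolyC.var (by simp)
  have ha := poly_a hw
  have hb := poly_b hw
  have hs := poly_sG p g D
  have hd := poly_dG p D
  have hc := poly_cG p g D
  exact PolyN.sub (PolyN.pow (poly_PG D) Q)
    (((ha.mul hs).mul hd).add ((((ha.mul hs).mul hc)).add hb))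

theorem poly_KHd (p g Q : ℕ) (D : BGraph × ℕ → Prop) :
    PolyN D [fun x => inCode x.1 x.2] (fun x => KHd p g Q x.1 x.2) :=
  (poly_KG p g D).add (poly_padN p g Q D)

/-- the adjacency function of the padded graph -/
def FH (p g : ℕ) (x : BGraph × ℕ) (I J : ℕ) : Bool :=
  decide (J < x.1.a * sG p g x.1 x.2 * cG p g x.1 x.2 + x.1.b) &&
    FG x.1.a (sG p g x.1 x.2) (dG p x.1 x.2) (cG p g x.1 x.2) (scG x.1 x.2) x.1.F I J

theorem redH_eq (p g Q : ℕ) (x : BGraph × ℕ) :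
    redH p g Q x.1 x.2 = mkGraph (x.1.a * sG p g x.1 x.2 * dG p x.1 x.2)
      ((x.1.a * sG p g x.1 x.2 * cG p g x.1 x.2 + x.1.b) + padN p g Q x.1 x.2) (FH p g x) := by
  unfold redH padR redG mkGraph
  simp only [BGraph.mk.injEq, heq_eq_eq, true_and]
  funext i j
  unfold BGraph.F FH
  have hi := i.2
  by_cases h : (j : ℕ) < x.1.a * sG p g x.1 x.2 * cG p g x.1 x.2 + x.1.b
  · rw [dif_pos ⟨hi, h⟩, decide_eq_true h, Bool.true_and]
    rfl
  · rw [dif_neg (fun h' => h h'.2), decide_eq_false h, Bool.false_and]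

theorem poly_redH (p g Q : ℕ) (D : BGraph × ℕ → Prop) :
    PolyC D [fun x => inCode x.1 x.2] (fun x => inCode (redH p g Q x.1 x.2) (2 * x.2)) := by
  have hw : PolyC D [fun x => inCode x.1 x.2] (fun x => inCode x.1 x.2) := PolyC.var (by simp)
  have ha := poly_a hw
  have hb := poly_b hw
  have ht := poly_s hw
  have h2t := (PolyN.const 2).mul ht
  have hs := poly_sG p g D
  have hd := poly_dG p D
  have hc := poly_cG p g D
  have hm := poly_scG D
  have hasc := (ha.mul hs).mul hc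
  have hB := hasc.add hb
  let n1 : BGraph × ℕ → ℕ := fun x => x.1.a * sG p g x.1 x.2 * dG p x.1 x.2
  let n1' : BGraph × ℕ → ℕ := fun x =>
    (x.1.a * sG p g x.1 x.2 * cG p g x.1 x.2 + x.1.b) + padN p g Q x.1 x.2
  have hn1 : PolyN D [fun x => inCode x.1 x.2] n1 := (ha.mul hs).mul hd
  have hn1' : PolyN D [fun x => inCode x.1 x.2] n1' := hB.add (poly_padN p g Q D)
  have key : PolyC D [fun x => inCode x.1 x.2]
      (fun x => inCode (mkGraph (n1 x) (n1' x) (FH p g x)) (2 * x.2)) := by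
    refine poly_inCode (a := n1) (b := n1') hn1 hn1' h2t ?_
    have S1 := upN (n := n1) hs
    have D1 := upN (n := n1) hd
    have C1 := upN (n := n1) hc
    have M1 := upN (n := n1) hm
    have A1 := upN (n := n1) hasc
    have B1 := upN (n := n1) hB
    have W1 := up (n := n1) hw
    have I1 := last (D := D) (ctx := [fun x => inCode x.1 x.2]) (n := n1)
    let n2 : (BGraph × ℕ) × ℕ → ℕ := fun p => n1' p.1
    have S2 := upN (n := n2) S1
    have D2 := upN (n := n2) D1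
    have C2 := upN (n := n2) C1
    have M2 := upN (n := n2) M1
    have A2 := upN (n := n2) A1
    have B2 := upN (n := n2) B1
    have W2 := up (n := n2) W1
    have I2 := upN (n := n2) I1
    have J2 := last (D := fun p : (BGraph × ℕ) × ℕ => D p.1 ∧ p.2 < n1 p.1)
      (ctx := PolyTime.lift [fun x : BGraph × ℕ => inCode x.1 x.2] ++
        [fun p : (BGraph × ℕ) × ℕ => un p.2]) (n := n2)
    have q1 := PolyN.div I2 D2 (fun x _ => dG_pos p x.1.1.1 x.1.1.2)
    have q2 := PolyN.div J2 C2 (fun x _ => cG_pos p g x.1.1.1 x.1.1.2)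
    have q3 := PolyN.mod I2 D2 (fun x _ => dG_pos p x.1.1.1 x.1.1.2)
    have q4 := PolyN.div q1 S2 (fun x _ => sG_pos p g x.1.1.1 x.1.1.2)
    have J2' := PolyN.sub J2 A2
    exact (PolyB.lt J2 B2).and (((PolyB.lt J2 A2).and (PolyB.natEq q1 q2)).or
      ((PolyB.le A2 J2).and ((PolyB.lt q3 M2).and (poly_F W2 q4 J2'))))
  exact key.congr (fun x _ => by rw [redH_eq])

/-- the logarithm of the number of vertices -/
theorem logb_size {p g Q : ℕ} (hg : 1 ≤ g) (hp : g < p) (hQ : p + g + 1 ≤ Q) (G : BGraph)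
    (t : ℕ) : Real.logb 2 (((redH p g Q G t).a + (redH p g Q G t).b : ℕ) : ℝ) =
      (Q : ℝ) * jG G t := by
  rw [size_redH hg hp hQ]
  unfold PG
  push_cast
  rw [Real.logb_pow, Real.logb_pow, Real.logb_self_eq_one (by norm_num)]
  ring

theorem rowDeg_redH {p g Q : ℕ} (G : BGraph) (t : ℕ) (i) :
    dG p G t + g * jG G t ≤ (redH p g Q G t).rowDeg i := by
  have h2 : (redH p g Q G t).rowDeg i = (redG p g G t).rowDeg i :=
    padR_rowDeg (redG p g G t) (padN p g Q G t) i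
  rw [h2]
  exact rowDeg_redG G t i

theorem min_two_pow (u v : ℕ) : min ((2 : ℝ) ^ u) (2 ^ v) = 2 ^ min u v := by
  rcases le_total u v with h | h
  · rw [min_eq_left h, min_eq_left (pow_le_pow_right₀ (by norm_num) h)]
  · rw [min_eq_right h, min_eq_right (pow_le_pow_right₀ (by norm_num) h)]

theorem thr_redH {p g Q : ℕ} (hg : 1 ≤ g) (hp : g < p) (hQ : p + g + 1 ≤ Q) (G : BGraph)
    (t : ℕ) : thr (dG p G t) (redH p g Q G t) = (min p (Q - p) : ℕ) * (jG G t : ℝ) := by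
  unfold thr
  rw [size_redH hg hp hQ]
  have h1 : ((PG G t ^ Q : ℕ) : ℝ) / ((dG p G t : ℕ) : ℝ) = 2 ^ ((Q - p) * jG G t) := by
    unfold dG PG
    push_cast
    rw [← pow_mul, ← pow_mul, div_eq_iff (by positivity), ← pow_add]
    congr 1
    have h2 : Q = (Q - p) + p := by omega
    calc jG G t * Q = jG G t * ((Q - p) + p) := by rw [← h2]
      _ = (Q - p) * jG G t + jG G t * p := by ring
  have h3 : ((dG p G t : ℕ) : ℝ) = 2 ^ (p * jG G t) := by
    unfold dG PG
    push_cast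
    rw [← pow_mul]
    congr 1
    ring
  rw [h1, h3, min_two_pow, Real.logb_pow, Real.logb_self_eq_one (by norm_num), mul_one]
  have h4 : min (p * jG G t) ((Q - p) * jG G t) = min p (Q - p) * jG G t :=
    Nat.mul_min_mul_right p (Q - p) (jG G t)
  rw [h4]
  push_cast
  rfl

theorem band_redH {p g Q : ℕ} (hg : 1 ≤ g) (hp : g < p) (hQ : p + g + 1 ≤ Q) {η : ℝ}
    (hγ : ((min p (Q - p) : ℕ) : ℝ) + η * Q ≤ g) (G : BGraph) (t : ℕ) :
    Band (dG p G t) ((redH p g Q G t).a + (redH p g Q G t).b)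
      ((dG p G t : ℕ) + thr (dG p G t) (redH p g Q G t) +
        η * Real.logb 2 (((redH p g Q G t).a + (redH p g Q G t).b : ℕ) : ℝ))
      (redH p g Q G t) := by
  refine Or.inl ⟨fun j => padR_colDeg_le _ _ _ (fun j => colDeg_redG hg hp G t j) j,
    fun i => ⟨?_, ?_⟩⟩
  · rw [logb_size hg hp hQ, thr_redH hg hp hQ]
    have h1 : ((dG p G t : ℕ) : ℝ) + g * jG G t ≤ (redH p g Q G t).rowDeg i := by
      exact_mod_cast rowDeg_redH G t i
    refine le_trans ?_ h1
    have h3 : (0 : ℝ) ≤ jG G t := Nat.cast_nonneg _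
    have h4 := mul_le_mul_of_nonneg_right hγ h3
    linarith
  · unfold BGraph.rowDeg
    refine (Finset.card_filter_le _ _).trans ?_
    rw [Finset.card_univ, Fintype.card_fin]
    omega

/-- Choice of the parameters. -/
theorem exists_par {p q : ℕ} (hp : 0 < p) (hpq : p < q) {γ : ℝ} (h1 : γ < (p : ℝ) / q)
    (h2 : γ < 1 - (p : ℝ) / q) :
    ∃ N g : ℕ, 0 < N ∧ 1 ≤ g ∧ g < N * p ∧ N * p + g + 1 ≤ N * q ∧
      ((N * q : ℕ) : ℝ) * γ ≤ g := by
  have hq : (0 : ℝ) < q := by exact_mod_cast (hp.trans hpq)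
  have hpR : (1 : ℝ) ≤ p := by exact_mod_cast hp
  have hpqR : (p : ℝ) + 1 ≤ q := by exact_mod_cast hpq
  -- everything is at most `μ * q = min (p, q - p)` minus something
  have e1 : γ * q < p := by rwa [lt_div_iff₀ hq] at h1
  have e2 : γ * q < (q : ℝ) - p := by
    have h3 : 1 - (p : ℝ) / q = ((q : ℝ) - p) / q := by field_simp
    rw [h3, lt_div_iff₀ hq] at h2
    exact h2
  obtain ⟨N, hN⟩ := exists_nat_gt (max (3 / ((p : ℝ) - γ * q)) (max (3 / ((q : ℝ) - p - γ * q)) 3))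
  rw [max_lt_iff, max_lt_iff] at hN
  obtain ⟨n1, n2, n3⟩ := hN
  have d1 : 0 < (p : ℝ) - γ * q := by linarith
  have d2 : 0 < (q : ℝ) - p - γ * q := by linarith
  have n1' : 3 < N * ((p : ℝ) - γ * q) := (div_lt_iff₀ d1).1 n1
  have n2' : 3 < N * ((q : ℝ) - p - γ * q) := (div_lt_iff₀ d2).1 n2
  have hN0 : (0 : ℝ) < N := by linarith
  have hNpos : 0 < N := by exact_mod_cast hN0
  refine ⟨N, max ⌈(N : ℝ) * (γ * q)⌉₊ 1, hNpos, le_max_right _ _, ?_, ?_, ?_⟩
  · have h3 : ((⌈(N : ℝ) * (γ * q)⌉₊ : ℕ) : ℝ) < N * p := by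
      rcases le_or_gt ((N : ℝ) * (γ * q)) 0 with h | h
      · rw [Nat.ceil_eq_zero.2 h, Nat.cast_zero]
        positivity
      · have := Nat.ceil_lt_add_one h.le
        nlinarith
    have h4 : ⌈(N : ℝ) * (γ * q)⌉₊ < N * p := by exact_mod_cast h3
    have h5 : 1 < N * p := by
      have h6 : (3 : ℝ) < N * p := by nlinarith
      have h7 : 3 < N * p := by exact_mod_cast h6
      omega
    exact max_lt h4 h5
  · have h3 : ((⌈(N : ℝ) * (γ * q)⌉₊ : ℕ) : ℝ) + 1 ≤ N * q - N * p := by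
      rcases le_or_gt ((N : ℝ) * (γ * q)) 0 with h | h
      · rw [Nat.ceil_eq_zero.2 h, Nat.cast_zero]
        nlinarith
      · have := Nat.ceil_lt_add_one h.le
        nlinarith
    have h4 : ((N * p + ⌈(N : ℝ) * (γ * q)⌉₊ + 1 : ℕ) : ℝ) ≤ ((N * q : ℕ) : ℝ) := by
      push_cast
      linarith
    have h4' : N * p + ⌈(N : ℝ) * (γ * q)⌉₊ + 1 ≤ N * q := by exact_mod_cast h4
    have h5 : ((N * p + 1 + 1 : ℕ) : ℝ) ≤ ((N * q : ℕ) : ℝ) := by
      push_cast
      nlinarith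
    have h5' : N * p + 1 + 1 ≤ N * q := by exact_mod_cast h5
    rcases max_choice ⌈(N : ℝ) * (γ * q)⌉₊ 1 with h | h
    · rw [h]; exact h4'
    · rw [h]; exact h5'
  · have h3 := Nat.le_ceil ((N : ℝ) * (γ * q))
    have h4 : ((⌈(N : ℝ) * (γ * q)⌉₊ : ℕ) : ℝ) ≤ ((max ⌈(N : ℝ) * (γ * q)⌉₊ 1 : ℕ) : ℝ) := by
      exact_mod_cast le_max_left _ _
    push_cast at h3 ⊢
    refine le_trans (le_of_eq ?_) (h3.trans ?_)
    · ring
    · exact_mod_cast le_max_left _ _

theorem gapAt_redH {p q N g : ℕ} (hN : 0 < N) (hpq : p < q) (hg : 1 ≤ g) (hgp : g < N * p)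
    (hQ : N * p + g + 1 ≤ N * q) {ε : ℝ}
    (hγ : ((N * q : ℕ) : ℝ) * (min ((p : ℝ) / q) (1 - (p : ℝ) / q) - ε) ≤ g)
    (G : BGraph) (t : ℕ) : GapAt p q (-ε) (redH (N * p) g (N * q) G t) := by
  refine ⟨dG (N * p) G t, ?_, band_redH hg hgp hQ ?_ G t⟩
  · rw [size_redH hg hgp hQ]
    unfold dG
    rw [← pow_mul, ← pow_mul]
    congr 1
    ring
  · refine le_trans (le_of_eq ?_) hγ
    have hq : (0 : ℝ) < q := by exact_mod_cast (by omega : 0 < q)
    have h1 : min (N * p) (N * q - N * p) = N * min p (q - p) := by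
      rw [← Nat.mul_sub, Nat.mul_min_mul_left]
    have h2 : ((min p (q - p) : ℕ) : ℝ) = min (p : ℝ) ((q : ℝ) - p) := by
      rw [Nat.cast_min, Nat.cast_sub hpq.le]
    have h3 : min ((p : ℝ) / q) (1 - (p : ℝ) / q) * q = min (p : ℝ) ((q : ℝ) - p) := by
      rw [min_mul_of_nonneg _ _ hq.le]
      congr 1
      · field_simp
      · field_simp
    rw [h1]
    push_cast
    rw [← Nat.cast_min, h2, ← h3]
    ring

/-- **Hardness below the threshold**, at every density `D = n ^ (p / q)`. -/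
theorem gapAt_hard {p q : ℕ} (hp : 0 < p) (hpq : p < q) {ε : ℝ} (hε : 0 < ε) :
    (HasFPRAS (GapAt p q (-ε)) ↔ HasFPRAS (fun _ => True)) ∧
      (HasFPTAS (GapAt p q (-ε)) ↔ HasFPTAS (fun _ => True)) := by
  have h1 : min ((p : ℝ) / q) (1 - (p : ℝ) / q) - ε < (p : ℝ) / q := by
    have := min_le_left ((p : ℝ) / q) (1 - (p : ℝ) / q)
    linarith
  have h2 : min ((p : ℝ) / q) (1 - (p : ℝ) / q) - ε < 1 - (p : ℝ) / q := by
    have := min_le_right ((p : ℝ) / q) (1 - (p : ℝ) / q)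
    linarith
  obtain ⟨N, g, hN, hg, hgp, hQ, hγ⟩ := exists_par hp hpq h1 h2
  refine ⟨⟨fun H => ?_, HasFPRAS.mono fun _ _ => trivial⟩,
    ⟨fun H => ?_, Pa7c826t.HasFPTAS.mono fun _ _ => trivial⟩⟩
  · exact HasFPRAS.transfer2 (redH (N * p) g (N * q)) (KHd (N * p) g (N * q)) (poly_redH _ _ _ _)
      (poly_KHd _ _ _ _) (fun G t _ _ => gapAt_redH hN hpq hg hgp hQ hγ G t)
      (fun G t _ _ => close_redH _ hg hgp G t) H
  · exact Pa7c826t.HasFPTAS.transfer2 (redH (N * p) g (N * q)) (KHd (N * p) g (N * q))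
      (poly_redH _ _ _ _) (poly_KHd _ _ _ _)
      (fun G t _ _ => gapAt_redH hN hpq hg hgp hQ hγ G t)
      (fun G t _ _ => close_redH _ hg hgp G t) H

end Pool.Agent.Lib.Pa7c826h
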