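import Pool.Agent.Lib.Pa7c826h.GSmall

/-!
The scheme for a gap of `log₂ (n / D) + ε log₂ n`.
-/

namespace Pool.Agent.Lib.Pa7c826h

open Finset Pool.Agent.Lib.PolyTime Pool.Agent.Lib.Pa7c826 Pool.Agent.Lib.Pa7c826g

/-- the lower bound for the large degrees -/
noncomputable def xHigh (ε : ℝ) (n D : ℕ) : ℝ :=
  (D : ℝ) + Real.logb 2 ((n : ℝ) / D) + ε * Real.logb 2 n

/-- One side has degrees at most `D`, the other side has degrees at least
`D + log₂ (n / D) + ε log₂ n`. -/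
def High (ε : ℝ) (G : BGraph) : Prop :=
  ∃ D : ℕ, 1 ≤ D ∧ (((∀ j, G.colDeg j ≤ D) ∧ ∀ i, xHigh ε (G.a + G.b) D ≤ G.rowDeg i) ∨
    ((∀ i, G.rowDeg i ≤ D) ∧ ∀ j, xHigh ε (G.a + G.b) D ≤ G.colDeg j))

theorem le_of_xHigh {ε : ℝ} (hε : 0 < ε) {n D : ℕ} (hn : 2 ≤ n) (hD : 1 ≤ D)
    (h : xHigh ε n D ≤ n) : D ≤ n := by
  by_contra hcon
  have hcon' : n < D := by omega
  have hnR : (2 : ℝ) ≤ n := by exact_mod_cast hn
  have hn0 : (0 : ℝ) < n := by linarith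
  have hD0 : (0 : ℝ) < D := by exact_mod_cast (by omega : 0 < D)
  have hDn : (n : ℝ) < D := by exact_mod_cast hcon'
  have hl2 : (0 : ℝ) < Real.log 2 := Real.log_pos (by norm_num)
  have hl2' : (1 : ℝ) / 2 < Real.log 2 := by
    have := Real.log_two_gt_d9
    linarith
  have h1 : 0 ≤ ε * Real.logb 2 n := mul_nonneg hε.le (Real.logb_nonneg (by norm_num) (by linarith))
  have h2 : Real.logb 2 ((n : ℝ) / D) = - (Real.log (D / n) / Real.log 2) := by
    unfold Real.logb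
    rw [Real.log_div hn0.ne' hD0.ne', Real.log_div hD0.ne' hn0.ne']
    ring
  have h3 : Real.log ((D : ℝ) / n) ≤ (D : ℝ) / n - 1 := Real.log_le_sub_one_of_pos (by positivity)
  have h3' : (D : ℝ) / n - 1 = (D - n) / n := by field_simp
  have h3'' : Real.log ((D : ℝ) / n) ≤ (D - n) / 2 := by
    rw [h3'] at h3
    refine h3.trans ?_
    exact div_le_div_of_nonneg_left (by linarith) (by norm_num) hnR
  have h4 : Real.log ((D : ℝ) / n) / Real.log 2 < D - n := by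
    rw [div_lt_iff₀ hl2]
    nlinarith
  unfold xHigh at h
  rw [h2] at h
  linarith

theorem high_numeric {ε : ℝ} (hε : 0 < ε) : ∃ k : ℕ, 1 ≤ k ∧ ∀ n D M : ℕ, 2 ≤ n → 1 ≤ D →
    M ≤ n → xHigh ε n D ≤ M → NumCond k n D M := by
  obtain ⟨k1, hk1⟩ := exists_nat_ge (1 / ε)
  rw [div_le_iff₀ hε] at hk1
  refine ⟨max k1 1, le_max_right _ _, ?_⟩
  set k := max k1 1 with hk
  have hkk1 : (k1 : ℝ) ≤ k := by exact_mod_cast le_max_left _ _
  have e1 : 1 ≤ (k : ℝ) * ε := hk1.trans (mul_le_mul_of_nonneg_right hkk1 hε.le)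
  intro n D M hn hD hMn hx
  have hDn : D ≤ n := le_of_xHigh hε hn hD (hx.trans (by exact_mod_cast hMn))
  have hnR : (2 : ℝ) ≤ n := by exact_mod_cast hn
  have hn0 : (0 : ℝ) < n := by linarith
  have hn1 : (1 : ℝ) ≤ n := by linarith
  have hD0 : (0 : ℝ) < D := by exact_mod_cast (by omega : 0 < D)
  have hDnR : (D : ℝ) ≤ n := by exact_mod_cast hDn
  have hk0 : (0 : ℝ) ≤ k := Nat.cast_nonneg k
  set L : ℝ := Real.logb 2 n with hL
  have hL0 : 0 ≤ L := Real.logb_nonneg (by norm_num) hn1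
  have h2L : (2 : ℝ) ^ L = n := Real.rpow_logb (by norm_num) (by norm_num) hn0
  set Q : ℝ := Real.logb 2 ((n : ℝ) / D) with hQ
  have hQ0 : 0 ≤ Q := Real.logb_nonneg (by norm_num) (by rw [le_div_iff₀ hD0]; linarith)
  have h2Q : (2 : ℝ) ^ Q = n / D := Real.rpow_logb (by norm_num) (by norm_num) (by positivity)
  unfold xHigh at hx
  rw [← hL, ← hQ] at hx
  have hkx : (k : ℝ) * D + k * Q + L ≤ k * M := by
    have h5 := mul_le_mul_of_nonneg_left hx hk0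
    have h6 : L ≤ k * ε * L := by
      have := mul_le_mul_of_nonneg_right e1 hL0
      linarith
    nlinarith
  have hA : (2 : ℝ) ^ (k * D) * ((n : ℝ) / D) ^ k * n ≤ (2 : ℝ) ^ (k * M) := by
    have a1 : (2 : ℝ) ^ (k * D) = (2 : ℝ) ^ ((k : ℝ) * D) := by
      rw [← Real.rpow_natCast]
      push_cast
      rfl
    have a2 : ((n : ℝ) / D) ^ k = (2 : ℝ) ^ ((k : ℝ) * Q) := by
      rw [← h2Q, ← Real.rpow_natCast, ← Real.rpow_mul (by norm_num)]
      congr 1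
      ring
    have a3 : (2 : ℝ) ^ (k * M) = (2 : ℝ) ^ ((k : ℝ) * M) := by
      rw [← Real.rpow_natCast]
      push_cast
      rfl
    have a4 : (n : ℝ) = (2 : ℝ) ^ L := h2L.symm
    calc (2 : ℝ) ^ (k * D) * ((n : ℝ) / D) ^ k * n
        = (2 : ℝ) ^ ((k : ℝ) * D) * (2 : ℝ) ^ ((k : ℝ) * Q) * (2 : ℝ) ^ L := by
          rw [a2, a1, h2L]
      _ = (2 : ℝ) ^ ((k : ℝ) * D + k * Q + L) := by
          rw [← Real.rpow_add (by norm_num), ← Real.rpow_add (by norm_num)]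
      _ ≤ (2 : ℝ) ^ ((k : ℝ) * M) := Real.rpow_le_rpow_of_exponent_le (by norm_num) hkx
      _ = (2 : ℝ) ^ (k * M) := a3.symm
  refine ⟨?_, ?_, ?_⟩
  · have h7 : (n : ℝ) ^ (k + 1) * 2 ^ (k * D) ≤ (D : ℝ) ^ k * 2 ^ (k * M) := by
      have hDk : (0 : ℝ) < (D : ℝ) ^ k := by positivity
      calc (n : ℝ) ^ (k + 1) * 2 ^ (k * D)
          = (D : ℝ) ^ k * (2 ^ (k * D) * ((n : ℝ) / D) ^ k * n) := by
            rw [div_pow, pow_succ]
            field_simp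
        _ ≤ (D : ℝ) ^ k * 2 ^ (k * M) := mul_le_mul_of_nonneg_left hA hDk.le
    exact_mod_cast h7
  · have h9 : (1 : ℝ) ≤ (2 : ℝ) ^ (k * D) := one_le_pow₀ (by norm_num)
    have h8 : (1 : ℝ) ≤ ((n : ℝ) / D) ^ k := one_le_pow₀ (by rw [le_div_iff₀ hD0]; linarith)
    have h10 : (n : ℝ) ≤ (2 : ℝ) ^ (k * M) := by
      calc (n : ℝ) = 1 * 1 * n := by ring
        _ ≤ (2 : ℝ) ^ (k * D) * ((n : ℝ) / D) ^ k * n := by
            gcongr
        _ ≤ _ := hA
    exact_mod_cast h10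
  · have h11 : (D : ℝ) ≤ M := by
      have : 0 ≤ ε * L := mul_nonneg hε.le hL0
      linarith
    exact_mod_cast h11

theorem high_fptas {ε : ℝ} (hε : 0 < ε) : HasFPTAS (High ε) := by
  obtain ⟨k, hk, hnum⟩ := high_numeric hε
  refine fptas_of_algo (algoG k) (algoG_poly k (PolyC.var (by simp))) ?_
  rintro G t ⟨D, hD, hcase⟩ ht
  refine algoX_spec hk G hD ?_ (fun hn M hM hx => hnum _ D M hn hD hM hx) hcase ht
  intro ha hb
  have hn : 2 ≤ G.a + G.b := by omega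
  have hrow : ∀ i, G.rowDeg i ≤ G.a + G.b := by
    intro i
    unfold BGraph.rowDeg
    refine (card_filter_le _ _).trans ?_
    rw [card_univ, Fintype.card_fin]
    omega
  have hcol : ∀ j, G.colDeg j ≤ G.a + G.b := by
    intro j
    unfold BGraph.colDeg
    refine (card_filter_le _ _).trans ?_
    rw [card_univ, Fintype.card_fin]
    omega
  have hxn : xHigh ε (G.a + G.b) D ≤ ((G.a + G.b : ℕ) : ℝ) := by
    rcases hcase with ⟨_, h⟩ | ⟨_, h⟩
    · exact (h ⟨0, ha⟩).trans (by exact_mod_cast hrow _)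
    · exact (h ⟨0, hb⟩).trans (by exact_mod_cast hcol _)
  have hDn := le_of_xHigh hε hn hD hxn
  have hnR : (2 : ℝ) ≤ ((G.a + G.b : ℕ) : ℝ) := by exact_mod_cast hn
  have hD0 : (0 : ℝ) < D := by exact_mod_cast (by omega : 0 < D)
  have h1 : 0 < ε * Real.logb 2 ((G.a + G.b : ℕ) : ℝ) :=
    mul_pos hε (Real.logb_pos (by norm_num) (by linarith))
  have h2 : 0 ≤ Real.logb 2 (((G.a + G.b : ℕ) : ℝ) / D) := Real.logb_nonneg (by norm_num) (by
    rw [le_div_iff₀ hD0]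
    have : (D : ℝ) ≤ ((G.a + G.b : ℕ) : ℝ) := by exact_mod_cast hDn
    linarith)
  unfold xHigh
  linarith

end Pool.Agent.Lib.Pa7c826h
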