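import Pool.Agent.Lib.Pa7c826h.GEasy

/-!
Exact counting for graphs of bounded size.
-/

namespace Pool.Agent.Lib.Pa7c826h

open Finset Pool.Agent.Lib.PolyTime Pool.Agent.Lib.Pa7c826 Pool.Agent.Lib.Pa7c826g

/-- exact count by enumeration of a vertex cover -/
def algoS (K : ℕ) (w : List Bool) : ℕ := leaf (nOf w) (adjO w) K (range (nOf w))

theorem algoS_poly (K : ℕ) {α : Type} {D : α → Prop} {ctx : List (α → List Bool)}
    {w : α → List Bool} (hw : PolyC D ctx w) : PolyBin D ctx (fun a => algoS K (w a)) :=
  poly_leafA adjO_polyAdj (K := fun _ => K) (fun _ => PolyN.const K) hw (PolyS.range (poly_nOf hw))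

theorem adjO_symm (w : List Bool) (u v : ℕ) : adjO w u v = adjO w v u := by
  unfold adjO
  rw [adjOf_symm, adjR_symm]

theorem adjO_self (w : List Bool) (u : ℕ) : adjO w u u = false := by
  unfold adjO
  rw [adjOf_self, adjR_self, Bool.and_false, Bool.and_false, Bool.or_false]

theorem fptas_small (n0 : ℕ) : HasFPTAS (fun G => G.a + G.b ≤ n0) := by
  refine fptas_of_algo (algoS (2 ^ n0)) (algoS_poly _ (PolyC.var (by simp))) ?_
  intro G t hG ht
  have hnw : nOf (inCode G t) = G.a + G.b := nOf_inCode G t
  have hind : ind (adjO (inCode G t)) (range (nOf (inCode G t))) = numIndep G.graph := by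
    rw [ind_adjO, hnw, ind_eq_numIndep]
  have h1 : algoS (2 ^ n0) (inCode G t) = numIndep G.graph := by
    rw [← hind]
    unfold algoS
    refine leaf_small (adjO_symm _) (adjO_self _) subset_rfl ?_
    refine Nat.pow_le_pow_right (by norm_num) ?_
    have h2 : (cov (nOf (inCode G t)) (adjO (inCode G t)) (range (nOf (inCode G t)))).card ≤
        (range (nOf (inCode G t))).card := card_filter_le _ _
    rw [card_range, hnw] at h2
    rw [hnw]
    exact h2.trans hG
  rw [h1]
  exact ⟨le_rfl, Nat.le_add_right _ _⟩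

end Pool.Agent.Lib.Pa7c826h
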