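import Pool.Agent.Lib.Pa7c826h.GHigh
import Pool.Agent.Lib.Pa7c826h.Class

/-!
The scheme above the threshold, for all densities.
-/

namespace Pool.Agent.Lib.Pa7c826h

open Finset Pool.Agent.Lib.PolyTime Pool.Agent.Lib.Pa7c826 Pool.Agent.Lib.Pa7c826g

/-- all degrees on one of the two sides are at most the square root of the number of vertices -/
def sqB (w : List Bool) : Bool :=
  !decide (∃ u < aOf w, decide (nOf w < dg (adjOf w) (range (nOf w)) u *
      dg (adjOf w) (range (nOf w)) u) = true) ||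
    !decide (∃ j < bOf w, decide (nOf w < dg (adjOf w) (range (nOf w)) (aOf w + j) *
      dg (adjOf w) (range (nOf w)) (aOf w + j)) = true)

theorem poly_sqB {α : Type} {D : α → Prop} {ctx : List (α → List Bool)} {w : α → List Bool}
    (hw : PolyC D ctx w) : PolyB D ctx (fun a => sqB (w a)) := by
  have W := up (n := fun a => aOf (w a)) hw
  have L := last (D := D) (ctx := ctx) (n := fun a => aOf (w a))
  have D1 := poly_dg W (PolyS.range (poly_nOf W)) L
  have W' := up (n := fun a => bOf (w a)) hw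
  have L' := last (D := D) (ctx := ctx) (n := fun a => bOf (w a))
  have D2 := poly_dg W' (PolyS.range (poly_nOf W')) ((poly_aOf W').add L')
  exact ((PolyB.exists_lt (φ := fun p : α × ℕ => decide (nOf (w p.1) <
      dg (adjOf (w p.1)) (range (nOf (w p.1))) p.2 * dg (adjOf (w p.1)) (range (nOf (w p.1))) p.2))
      (poly_aOf hw) (PolyB.lt (poly_nOf W) (D1.mul D1))).not).or
    ((PolyB.exists_lt (φ := fun p : α × ℕ => decide (nOf (w p.1) <
      dg (adjOf (w p.1)) (range (nOf (w p.1))) (aOf (w p.1) + p.2) *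
        dg (adjOf (w p.1)) (range (nOf (w p.1))) (aOf (w p.1) + p.2)))
      (poly_bOf hw) (PolyB.lt (poly_nOf W') (D2.mul D2))).not)

theorem sqB_iff (G : BGraph) (t : ℕ) : sqB (inCode G t) = true ↔
    (∀ i, G.rowDeg i * G.rowDeg i ≤ G.a + G.b) ∨ (∀ j, G.colDeg j * G.colDeg j ≤ G.a + G.b) := by
  have hnw : nOf (inCode G t) = G.a + G.b := nOf_inCode G t
  have hr : ∀ u (hu : u < G.a), dg (adjOf (inCode G t)) (range (nOf (inCode G t))) u =
      G.rowDeg ⟨u, hu⟩ := by
    intro u hu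
    rw [hnw]
    exact dg_row G t ⟨u, hu⟩
  have hc : ∀ j (hj : j < G.b), dg (adjOf (inCode G t)) (range (nOf (inCode G t))) (G.a + j) =
      G.colDeg ⟨j, hj⟩ := by
    intro j hj
    rw [hnw]
    exact dg_col G t ⟨j, hj⟩
  unfold sqB
  rw [Bool.or_eq_true, Bool.not_eq_true', Bool.not_eq_true', decide_eq_false_iff_not,
    decide_eq_false_iff_not, aOf_inCode, bOf_inCode]
  refine or_congr ?_ ?_
  · constructor
    · intro h i
      by_contra hcon
      refine h ⟨i, i.2, ?_⟩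
      rw [hr i i.2, hnw, decide_eq_true_eq]
      exact Nat.lt_of_not_le hcon
    · rintro h ⟨u, hu, h2⟩
      rw [hr u hu, hnw, decide_eq_true_eq] at h2
      have := h ⟨u, hu⟩
      omega
  · constructor
    · intro h j
      by_contra hcon
      refine h ⟨j, j.2, ?_⟩
      rw [hc j j.2, hnw, decide_eq_true_eq]
      exact Nat.lt_of_not_le hcon
    · rintro h ⟨u, hu, h2⟩
      rw [hc u hu, hnw, decide_eq_true_eq] at h2
      have := h ⟨u, hu⟩
      omega

theorem sub_logb_mono {r D : ℕ} (hr : 1 ≤ r) (h : r ≤ D) :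
    (r : ℝ) - Real.logb 2 r ≤ D - Real.logb 2 D := by
  obtain ⟨m, rfl⟩ := Nat.exists_eq_add_of_le h
  have h1 : r + m ≤ r * 2 ^ m := by
    have h2 : m + 1 ≤ 2 ^ m := Nat.lt_two_pow_self
    calc r + m ≤ r * (m + 1) := by nlinarith
      _ ≤ r * 2 ^ m := Nat.mul_le_mul_left _ h2
  have hr0 : (0 : ℝ) < r := by exact_mod_cast hr
  have h3 : Real.logb 2 ((r + m : ℕ) : ℝ) ≤ Real.logb 2 ((r : ℝ) * 2 ^ m) := by
    apply Real.logb_le_logb_of_le (by norm_num)
    · positivity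
    · exact_mod_cast h1
  rw [Real.logb_mul hr0.ne' (by positivity), Real.logb_pow, Real.logb_self_eq_one (by norm_num)]
    at h3
  push_cast at h3 ⊢
  linarith

/-- the lower bound of the class, as a number -/
noncomputable def xGap (η : ℝ) (n D : ℕ) : ℝ :=
  (D : ℝ) + Real.logb 2 (min (D : ℝ) ((n : ℝ) / D)) + η * Real.logb 2 n

theorem xGap_high {η : ℝ} {n D : ℕ} (h : n ≤ D * D) (hD : 1 ≤ D) :
    xGap η n D = xHigh η n D := by
  unfold xGap xHigh
  have hD0 : (0 : ℝ) < D := by exact_mod_cast (by omega : 0 < D)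
  rw [min_eq_right]
  rw [div_le_iff₀ hD0]
  exact_mod_cast h

theorem xGap_low {η : ℝ} (hη : 0 < η) {C : ℝ} {n D : ℕ} (hn : 1 ≤ n)
    (hC : C ≤ η / 2 * Real.logb 2 n) (hD : 1 ≤ D) :
    ((min D (Nat.sqrt n) : ℕ) : ℝ) + Real.logb 2 (min D (Nat.sqrt n) : ℕ) +
      η / 4 * Real.logb 2 (((min D (Nat.sqrt n) : ℕ) : ℝ) * n) + C ≤ xGap η n D := by
  have hn0 : (0 : ℝ) < n := by exact_mod_cast hn
  have hD0 : (0 : ℝ) < D := by exact_mod_cast (by omega : 0 < D)
  have hr1 : 1 ≤ Nat.sqrt n := Nat.sqrt_pos.2 (by omega)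
  have hrr : Nat.sqrt n * Nat.sqrt n ≤ n := Nat.sqrt_le n
  have hrn : Nat.sqrt n ≤ n := Nat.sqrt_le_self n
  set r := Nat.sqrt n with hr
  have hm1 : 1 ≤ min D r := le_min hD hr1
  have hm0 : (0 : ℝ) < ((min D r : ℕ) : ℝ) := by exact_mod_cast (by omega : 0 < min D r)
  have hmn : ((min D r : ℕ) : ℝ) ≤ n := by exact_mod_cast (min_le_right D r).trans hrn
  have h1 : Real.logb 2 (((min D r : ℕ) : ℝ) * n) ≤ 2 * Real.logb 2 n := by
    rw [Real.logb_mul hm0.ne' hn0.ne']
    have := Real.logb_le_logb_of_le (b := 2) (by norm_num) hm0 hmn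
    linarith
  have h2 : η / 4 * Real.logb 2 (((min D r : ℕ) : ℝ) * n) ≤ η / 2 * Real.logb 2 n := by
    have := mul_le_mul_of_nonneg_left h1 (by linarith : (0 : ℝ) ≤ η / 4)
    linarith
  have h3 : ((min D r : ℕ) : ℝ) + Real.logb 2 (min D r : ℕ) ≤
      (D : ℝ) + Real.logb 2 (min (D : ℝ) ((n : ℝ) / D)) := by
    rcases Nat.lt_or_ge r D with h | h
    · have hm : min D r = r := min_eq_right h.le
      have hDD : n < D * D := by
        have := Nat.lt_succ_sqrt n
        rw [← hr] at this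
        exact this.trans_le (Nat.mul_le_mul h h)
      rw [hm, min_eq_right (a := (D : ℝ)) (by
        rw [div_le_iff₀ hD0]
        exact_mod_cast hDD.le), Real.logb_div hn0.ne' hD0.ne']
      have hr0 : (0 : ℝ) < r := by exact_mod_cast (by omega : 0 < r)
      have h5 := sub_logb_mono hr1 h.le
      have h6 : 2 * Real.logb 2 (r : ℝ) ≤ Real.logb 2 n := by
        have h7 : Real.logb 2 ((r : ℝ) * r) ≤ Real.logb 2 n :=
          Real.logb_le_logb_of_le (by norm_num) (by positivity) (by exact_mod_cast hrr)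
        rw [Real.logb_mul hr0.ne' hr0.ne'] at h7
        linarith
      linarith
    · have hm : min D r = D := min_eq_left h
      have hDD : D * D ≤ n := (Nat.mul_le_mul h h).trans hrr
      rw [hm, min_eq_left (a := (D : ℝ)) (by
        rw [le_div_iff₀ hD0]
        exact_mod_cast hDD)]
  unfold xGap
  linarith

theorem colDeg_of_rows (G : BGraph) (h : G.a = 0) (j : Fin G.b) : G.colDeg j = 0 := by
  unfold BGraph.colDeg
  rw [card_eq_zero, filter_eq_empty_iff]
  intro i _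
  have := i.2
  omega

theorem rowDeg_of_cols (G : BGraph) (h : G.b = 0) (i : Fin G.a) : G.rowDeg i = 0 := by
  unfold BGraph.rowDeg
  rw [card_eq_zero, filter_eq_empty_iff]
  intro j _
  have := j.2
  omega

theorem rowDeg_of_colDeg (G : BGraph) (h : ∀ j, G.colDeg j = 0) (i : Fin G.a) :
    G.rowDeg i = 0 := by
  unfold BGraph.rowDeg
  rw [card_eq_zero, filter_eq_empty_iff]
  intro j _ hij
  have h1 := h j
  unfold BGraph.colDeg at h1
  rw [card_eq_zero, filter_eq_empty_iff] at h1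
  exact h1 (mem_univ i) hij

theorem colDeg_of_rowDeg (G : BGraph) (h : ∀ i, G.rowDeg i = 0) (j : Fin G.b) :
    G.colDeg j = 0 := by
  unfold BGraph.colDeg
  rw [card_eq_zero, filter_eq_empty_iff]
  intro i _ hij
  have h1 := h i
  unfold BGraph.rowDeg at h1
  rw [card_eq_zero, filter_eq_empty_iff] at h1
  exact h1 (mem_univ j) hij

theorem rowDeg_le (G : BGraph) (i : Fin G.a) : G.rowDeg i ≤ G.a + G.b := by
  unfold BGraph.rowDeg
  refine (card_filter_le _ _).trans ?_
  rw [card_univ, Fintype.card_fin]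
  omega

theorem colDeg_le (G : BGraph) (j : Fin G.b) : G.colDeg j ≤ G.a + G.b := by
  unfold BGraph.colDeg
  refine (card_filter_le _ _).trans ?_
  rw [card_univ, Fintype.card_fin]
  omega

theorem D_le_of_xGap {η : ℝ} (hη : 0 < η) {n D : ℕ} (hn : 2 ≤ n) (hD : 1 ≤ D)
    (h : xGap η n D ≤ n) : (D : ℝ) ≤ xGap η n D := by
  have hnR : (2 : ℝ) ≤ n := by exact_mod_cast hn
  have hn0 : (0 : ℝ) < n := by linarith
  have hD0 : (0 : ℝ) < D := by exact_mod_cast (by omega : 0 < D)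
  have hD1 : (1 : ℝ) ≤ D := by exact_mod_cast hD
  have hL : 0 < η * Real.logb 2 n := mul_pos hη (Real.logb_pos (by norm_num) (by linarith))
  have hDn : (D : ℝ) ≤ n := by
    rcases le_or_gt n (D * D) with h1 | h1
    · rw [xGap_high h1 hD] at h
      exact_mod_cast le_of_xHigh hη hn hD h
    · have h2 : D ≤ n := by nlinarith
      exact_mod_cast h2
  have h1 : 0 ≤ Real.logb 2 (min (D : ℝ) ((n : ℝ) / D)) := by
    apply Real.logb_nonneg (by norm_num)
    refine le_min hD1 ?_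
    rw [le_div_iff₀ hD0]
    linarith
  unfold xGap
  linarith

theorem xGap_zero {η : ℝ} {n : ℕ} : xGap η n 0 = η * Real.logb 2 n := by
  unfold xGap
  simp

/-- One half of the case distinction for one orientation, abstractly. -/
theorem low_aux {η : ℝ} (hη : 0 < η) {C : ℝ} {n D : ℕ} (hn : 2 ≤ n)
    (hC : C ≤ η / 2 * Real.logb 2 n) {ι κ : Type*} (lo : ι → ℕ) (hi : κ → ℕ)
    (hlo : ∀ j, lo j ≤ D) (hhi : ∀ i, xGap η n D ≤ hi i) (hin : ∀ i, hi i ≤ n)
    (hzero : (∀ j, lo j = 0) → ∀ i, hi i = 0) (hempty : IsEmpty κ → ∀ j, lo j = 0)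
    (hsq : (∀ i, hi i * hi i ≤ n) ∨ (∀ j, lo j * lo j ≤ n)) :
    ∃ D' : ℕ, (∀ j, lo j ≤ D') ∧ ∀ i, (D' : ℝ) + Real.logb 2 D' +
      η / 4 * Real.logb 2 ((D' : ℝ) * n) + C ≤ hi i := by
  have hnR : (2 : ℝ) ≤ n := by exact_mod_cast hn
  have hL : 0 < η * Real.logb 2 n := mul_pos hη (Real.logb_pos (by norm_num) (by linarith))
  rcases Nat.eq_zero_or_pos D with h0 | hD
  · subst h0
    have h1 : ∀ j, lo j = 0 := fun j => Nat.le_zero.1 (hlo j)
    have h2 := hzero h1
    refine ⟨0, hlo, fun i => ?_⟩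
    exfalso
    have h3 := hhi i
    rw [h2 i, xGap_zero, Nat.cast_zero] at h3
    linarith
  · have hsq' : ∀ j, lo j * lo j ≤ n := by
      rcases hsq with h | h
      · rcases isEmpty_or_nonempty κ with hκ | ⟨⟨i⟩⟩
        · intro j
          rw [hempty hκ j]
          omega
        · intro j
          have h1 := hhi i
          have h2 : (D : ℝ) ≤ xGap η n D := D_le_of_xGap hη hn hD
            (h1.trans (by exact_mod_cast hin i))
          have h3 : D ≤ hi i := by exact_mod_cast h2.trans h1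
          have h4 := (hlo j).trans h3
          exact (Nat.mul_le_mul h4 h4).trans (h i)
      · exact h
    refine ⟨min D (Nat.sqrt n), fun j => le_min (hlo j) (Nat.le_sqrt.2 (hsq' j)), fun i => ?_⟩
    exact (xGap_low hη (by omega) hC hD).trans (hhi i)

theorem gap_low {η C : ℝ} (hη : 0 < η) {G : BGraph} (hn : 2 ≤ G.a + G.b)
    (hC : C ≤ η / 2 * Real.logb 2 ((G.a + G.b : ℕ) : ℝ)) (hG : Gap η G)
    (hsq : (∀ i, G.rowDeg i * G.rowDeg i ≤ G.a + G.b) ∨
      (∀ j, G.colDeg j * G.colDeg j ≤ G.a + G.b)) : Unbalanced (η / 4) C G := by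
  obtain ⟨D, hcase⟩ := hG
  rcases hcase with ⟨hcol, hrow⟩ | ⟨hrow, hcol⟩
  · obtain ⟨D', h1, h2⟩ := low_aux hη hn hC (fun j => G.colDeg j) (fun i => G.rowDeg i) hcol
      (fun i => (hrow i).1) (rowDeg_le G) (rowDeg_of_colDeg G)
      (fun h => colDeg_of_rows G (by
        rcases Nat.eq_zero_or_pos G.a with h0 | h0
        · exact h0
        · exact (h.false ⟨0, h0⟩).elim)) hsq
    exact ⟨D', G.a + G.b, Or.inl ⟨h1, fun i => ⟨h2 i, rowDeg_le G i⟩⟩⟩
  · obtain ⟨D', h1, h2⟩ := low_aux hη hn hC (fun i => G.rowDeg i) (fun j => G.colDeg j) hrow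
      (fun j => (hcol j).1) (colDeg_le G) (colDeg_of_rowDeg G)
      (fun h => rowDeg_of_cols G (by
        rcases Nat.eq_zero_or_pos G.b with h0 | h0
        · exact h0
        · exact (h.false ⟨0, h0⟩).elim)) hsq.symm
    exact ⟨D', G.a + G.b, Or.inr ⟨h1, fun j => ⟨h2 j, colDeg_le G j⟩⟩⟩

theorem gap_high {η : ℝ} {G : BGraph} (hG : Gap η G)
    (hsq : ¬ ((∀ i, G.rowDeg i * G.rowDeg i ≤ G.a + G.b) ∨
      (∀ j, G.colDeg j * G.colDeg j ≤ G.a + G.b))) : High η G := by
  rw [not_or, not_forall, not_forall] at hsq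
  obtain ⟨⟨i, hi⟩, ⟨j, hj⟩⟩ := hsq
  obtain ⟨D, hcase⟩ := hG
  have key : G.a + G.b ≤ D * D ∧ 1 ≤ D := by
    have h1 : ∃ m, m ≤ D ∧ G.a + G.b < m * m := by
      rcases hcase with ⟨hcol, _⟩ | ⟨hrow, _⟩
      · exact ⟨G.colDeg j, hcol j, by omega⟩
      · exact ⟨G.rowDeg i, hrow i, by omega⟩
    obtain ⟨m, hm, hm2⟩ := h1
    have h2 := Nat.mul_le_mul hm hm
    refine ⟨by omega, ?_⟩
    by_contra h3
    have h4 : D = 0 := by omega
    subst h4
    omega
  have hx : (D : ℝ) + thr D G + η * Real.logb 2 ((G.a + G.b : ℕ) : ℝ) =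
      xHigh η (G.a + G.b) D := xGap_high key.1 key.2
  refine ⟨D, key.2, ?_⟩
  rw [← hx]
  rcases hcase with ⟨hcol, hrow⟩ | ⟨hrow, hcol⟩
  · exact Or.inl ⟨hcol, fun i => (hrow i).1⟩
  · exact Or.inr ⟨hrow, fun j => (hcol j).1⟩

/-- **The scheme above the threshold**, at all densities, from the scheme for unbalanced graphs. -/
theorem gap_fptas_of (H : ∀ ε : ℝ, 0 < ε → ∃ C, HasFPTAS (Unbalanced ε C)) {η : ℝ}
    (hη : 0 < η) : HasFPTAS (Gap η) := by
  obtain ⟨C, hC⟩ := H (η / 4) (by linarith)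
  obtain ⟨n0, hn0⟩ : ∃ n0 : ℕ, ∀ n : ℕ, n0 < n → 2 ≤ n ∧ C ≤ η / 2 * Real.logb 2 n := by
    refine ⟨max ⌈(2 : ℝ) ^ (2 * C / η)⌉₊ 1, fun n hn => ?_⟩
    rw [max_lt_iff] at hn
    refine ⟨hn.2, ?_⟩
    have h1 : (2 : ℝ) ^ (2 * C / η) < n := Nat.lt_of_ceil_lt hn.1
    have hnR : (0 : ℝ) < n := by exact_mod_cast (by omega : 0 < n)
    have h2 : 2 * C / η ≤ Real.logb 2 n := by
      rw [Real.le_logb_iff_rpow_le (by norm_num) hnR]
      exact h1.le
    rw [div_le_iff₀ hη] at h2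
    linarith
  have hbig : HasFPTAS (fun G => Gap η G ∧ n0 < G.a + G.b) := by
    refine fptas_union (P := Unbalanced (η / 4) C) (Q := High η)
      (fun x => sqB (inCode x.1 x.2)) (poly_sqB (PolyC.var (by simp))) ?_ ?_ hC (high_fptas hη)
    · intro G t hG _ hb
      exact gap_low hη (hn0 _ hG.2).1 (hn0 _ hG.2).2 hG.1 ((sqB_iff G t).1 hb)
    · intro G t hG _ hb
      refine gap_high hG.1 (fun h => ?_)
      have h1 := (sqB_iff G t).2 h
      change sqB (inCode G t) = false at hb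
      rw [h1] at hb
      exact absurd hb (by simp)
  refine fptas_union (P := fun G => G.a + G.b ≤ n0) (Q := fun G => Gap η G ∧ n0 < G.a + G.b)
    (fun x => decide (nOf (inCode x.1 x.2) ≤ n0))
    (PolyB.le (poly_nOf (PolyC.var (by simp))) (PolyN.const n0)) ?_ ?_ (fptas_small n0) hbig
  · intro G t _ _ hb
    have h1 : nOf (inCode G t) ≤ n0 := of_decide_eq_true hb
    rwa [nOf_inCode] at h1
  · intro G t hG _ hb
    have h1 : ¬ nOf (inCode G t) ≤ n0 := of_decide_eq_false hb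
    rw [nOf_inCode] at h1
    exact ⟨hG, by omega⟩

end Pool.Agent.Lib.Pa7c826h
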