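import Pool.Agent.Lib.Pa7c826h.Key

/-!
The key estimate for the sets that are linked to a given set.

PROOFS. `KeyAux.main` with `O = ∅` (`k = |V \ Z|`) bounds the sum by
`Phi N V d p ρ σ Z ∅ = p ^ |NZ| * ρ ^ |Z| * σ ^ (∑ u ∈ V \ Z, min (ov N Z u) d)`, `NZ = Z.biUnion N`
(`ot N Z ∅ = ∅`). The exponent is at most `∑ u ∈ V \ Z, |N u ∩ NZ|`, the number of pairs `(u, r)` with
`u ∈ V \ Z`, `r ∈ NZ`, `r ∈ N u` (`Finset.sum_card_bipartiteAbove_eq_sum_card_bipartiteBelow` or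
`Finset.sum_comm'`), and every `r ∈ NZ` lies in `N z` for some `z ∈ Z ⊆ V`, so it is in at most `D - 1`
of these pairs. So the exponent is at most `(D - 1) |NZ|`, `1 ≤ σ`.
-/

namespace Pool.Agent.Lib.Pa7c826h

open Finset Pool.Agent.Lib.Pa7c826k KeyAux

namespace KeyFamAux

theorem expo_le {N : ℕ → Finset ℕ} {V : Finset ℕ} {d D : ℕ}
    (hD : ∀ r, (V.filter (fun u => r ∈ N u)).card ≤ D) {Z : Finset ℕ} (hZ : Z ⊆ V) :
    ∑ u ∈ V \ (Z ∪ ∅), min (ov N Z u) d ≤ (D - 1) * (Z.biUnion N).card := by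
  classical
  set W := Z.biUnion N with hW
  have h1 : ∀ u, (N u ∩ W).card = ∑ r ∈ W, if r ∈ N u then 1 else 0 := by
    intro u
    rw [← card_filter]
    congr 1
    ext r
    simp only [mem_inter, mem_filter]
    tauto
  have h0 : ∑ u ∈ V \ (Z ∪ ∅), min (ov N Z u) d ≤ ∑ u ∈ V \ Z, (N u ∩ W).card := by
    rw [union_empty]
    exact sum_le_sum fun u _ => min_le_left _ _
  refine h0.trans ?_
  simp only [h1]
  rw [sum_comm]
  have h2 : ∀ r ∈ W, ∑ u ∈ V \ Z, (if r ∈ N u then 1 else 0) ≤ D - 1 := by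
    intro r hr
    rw [← card_filter]
    obtain ⟨z, hz, hrz⟩ := mem_biUnion.1 (hW ▸ hr)
    have h3 : (V \ Z).filter (fun u => r ∈ N u) ⊆ (V.filter (fun u => r ∈ N u)).erase z := by
      intro u hu
      rw [mem_filter, mem_sdiff] at hu
      rw [mem_erase, mem_filter]
      exact ⟨fun h => hu.1.2 (h ▸ hz), hu.1.1, hu.2⟩
    have h4 : z ∈ V.filter (fun u => r ∈ N u) := mem_filter.2 ⟨hZ hz, hrz⟩
    have h5 := card_le_card h3
    rw [card_erase_of_mem h4] at h5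
    have := hD r
    omega
  refine (sum_le_card_nsmul _ _ _ h2).trans ?_
  rw [smul_eq_mul, mul_comm]

end KeyFamAux

theorem key_fam {N : ℕ → Finset ℕ} {V : Finset ℕ} {d D : ℕ} {p ρ σ : ℝ} (hd0 : 1 ≤ d)
    (hd : ∀ u ∈ V, d ≤ (N u).card) (hD : ∀ r, (V.filter (fun u => r ∈ N u)).card ≤ D)
    (hp : 0 < p) (hρ : 1 ≤ ρ) (hσ : ρ ≤ σ) (hq : p * σ ^ (D - 1) ≤ 1)
    (hstep : ∀ m, m < d → ρ * (1 + (p * σ ^ (D - 1)) ^ m) ≤ σ ^ (d - m)) {Z : Finset ℕ}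
    (hZ : Z ⊆ V) :
    ∑ S ∈ fam N V Z ∅, p ^ (S.biUnion N).card * ρ ^ (tch (tc N) V S).card ≤
      ρ ^ Z.card * (p * σ ^ (D - 1)) ^ (Z.biUnion N).card := by
  have hρ0 : 0 < ρ := by linarith
  have hσ1 : 1 ≤ σ := hρ.trans hσ
  refine (main hd0 hd hD hp hρ hσ hq hstep _ Z ∅ hZ (empty_subset _) rfl).trans ?_
  unfold Phi
  have h3 : (ot N Z ∅).card = 0 := by
    unfold ot
    rw [filter_empty, card_empty]
  rw [h3, Nat.add_zero]
  calc p ^ (Z.biUnion N).card * ρ ^ Z.card * σ ^ (∑ u ∈ V \ (Z ∪ ∅), min (ov N Z u) d)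
      ≤ p ^ (Z.biUnion N).card * ρ ^ Z.card * σ ^ ((D - 1) * (Z.biUnion N).card) :=
        mul_le_mul_of_nonneg_left (pow_le_pow_right₀ hσ1 (KeyFamAux.expo_le hD hZ)) (by positivity)
    _ = ρ ^ Z.card * (p * σ ^ (D - 1)) ^ (Z.biUnion N).card := by
      rw [mul_pow, ← pow_mul]
      ring

end Pool.Agent.Lib.Pa7c826h
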