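import Pool.Agent.Lib.Pa7c826h.Key

/-!
Abstract models: sets `S ⊆ V` with multiplicative weights `f S` and skeletons `sk S ⊆ S`.
Definitions only.
-/

namespace Pool.Agent.Lib.Pa7c826h

open Finset Pool.Agent.Lib.Pa7c826k

/-- `r` is reflexive and symmetric, the weight `f` and the skeleton `sk` are multiplicative on
unrelated sets -/
structure Mod (r : ℕ → ℕ → Prop) (V : Finset ℕ) (f : Finset ℕ → ℝ) (sk : Finset ℕ → Finset ℕ) :
    Prop where
  refl : ∀ x, r x x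
  symm : ∀ x y, r x y → r y x
  emp : f ∅ = 1
  nn : ∀ S, 0 ≤ f S
  mul : ∀ X Y, X ⊆ V → Y ⊆ V → Far r X Y → f (X ∪ Y) = f X * f Y
  sub : ∀ S, sk S ⊆ S
  uni : ∀ X Y, X ⊆ V → Y ⊆ V → Far r X Y → sk (X ∪ Y) = sk X ∪ sk Y

/-- a model with the convergence condition -/
structure Mdl (r : ℕ → ℕ → Prop) (V : Finset ℕ) (f : Finset ℕ → ℝ) (sk : Finset ℕ → Finset ℕ)
    (l ρ : ℝ) : Prop extends Mod r V f sk where
  hl : 1 ≤ l
  hρ : 1 ≤ ρ
  kp : ∀ v ∈ V, ∑ T ∈ cns r V v, f T * l ^ (sk T).card * ρ ^ (tch r V T).card ≤ 1 - 1 / ρ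

/-- the total weight of the subsets of `W` with the skeleton in `Y` -/
noncomputable def GG (f : Finset ℕ → ℝ) (sk : Finset ℕ → Finset ℕ) (W Y : Finset ℕ) : ℝ :=
  ∑ S ∈ W.powerset.filter (fun S => sk S ⊆ Y), f S

end Pool.Agent.Lib.Pa7c826h
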