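import Pool.Agent.Lib.Pa7c826h.Defs
import Pool.Agent.Lib.Pa7c826h.Mdl
import Pool.Agent.Lib.Pa7c826k.SkelEq
import Pool.Agent.Lib.Pa7c826k.BBf

/-!
Weights and skeletons are multiplicative on sets without common neighbours.

PROOFS. `r2_nb`: `r2 n adj u v` means `u = v` or the sets `NB n adj {u}`, `NB n adj {v}` meet.
`far_nb`: an element of `NB X ∩ NB Y` is a common neighbour of some `x ∈ X`, `y ∈ Y`. `far_disj`: `r2`
is reflexive. `fw_mul`: `NB (X ∪ Y) = NB X ∪ NB Y`, a disjoint union. `skelA_union` (induction on `k`):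
`skelA (X ∪ Y) k = skelA X k ∪ skelA Y k`; in the step let `A = skelA X k ⊆ X`, `B = skelA Y k ⊆ Y`.
If `k ∈ X` then `k ∉ Y`, and `NB {k}` is disjoint from `NB B`, so
`NB {k} \ NB (A ∪ B) = NB {k} \ NB A` and `big (A ∪ B) k = big A k`; if `k ∈ Y` similarly.
`skel_nb`: `d * |skel S| ≤ 8 * |NB (skel S)|` as in the proof of `val_nb` (`Pa7c826k/BBf.lean`, which
does not use the host graph): every `u ∈ skel S` satisfies `big n d adj (blw (skel S) u) u = true`
(`SkelEqAux.mem_skel`, `SkelEqAux.skelA_lt` for `u < n`); and `skel S ⊆ S` (`skel_sub`).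
-/

namespace Pool.Agent.Lib.Pa7c826h

open Finset Pool.Agent.Lib.Pa7c826 Pool.Agent.Lib.Pa7c826t Pool.Agent.Lib.Pa7c826e
  Pool.Agent.Lib.Pa7c826k

variable {n a d : ℕ} {adj : ℕ → ℕ → Bool} {sd : Bool} {X Y : Finset ℕ}

theorem r2_refl (n : ℕ) (adj : ℕ → ℕ → Bool) : ∀ x, r2 n adj x x := fun _ => Or.inl rfl

namespace Skel2Aux

theorem mem_NB {X : Finset ℕ} {v : ℕ} :
    v ∈ NB n adj X ↔ v < n ∧ ∃ u ∈ X, adj u v = true := by
  unfold NB
  rw [mem_filter, mem_range]

theorem mem_nbh {u v : ℕ} : v ∈ nbh n adj u ↔ v < n ∧ adj u v = true := by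
  unfold nbh
  rw [mem_NB]
  constructor
  · rintro ⟨h, w, hw, h2⟩
    rw [mem_singleton] at hw
    rw [hw] at h2
    exact ⟨h, h2⟩
  · rintro ⟨h, h2⟩
    exact ⟨h, u, mem_singleton_self _, h2⟩

theorem nb_mono (h : X ⊆ Y) : NB n adj X ⊆ NB n adj Y := by
  intro v hv
  rw [mem_NB] at hv ⊢
  obtain ⟨h1, u, hu, huv⟩ := hv
  exact ⟨h1, u, h hu, huv⟩

theorem nb_emp (n : ℕ) (adj : ℕ → ℕ → Bool) : NB n adj ∅ = ∅ := by
  rw [eq_empty_iff_forall_notMem]
  intro v hv
  obtain ⟨_, u, hu, _⟩ := mem_NB.1 hv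
  exact absurd hu (notMem_empty u)

end Skel2Aux

theorem r2_symm (n : ℕ) (adj : ℕ → ℕ → Bool) : ∀ x y, r2 n adj x y → r2 n adj y x := by
  intro x y h
  rcases h with h | ⟨r, h1, h2⟩
  · exact Or.inl h.symm
  · exact Or.inr ⟨r, h2, h1⟩

theorem nb_union (X Y : Finset ℕ) : NB n adj (X ∪ Y) = NB n adj X ∪ NB n adj Y := by
  ext v
  rw [mem_union, Skel2Aux.mem_NB, Skel2Aux.mem_NB, Skel2Aux.mem_NB]
  constructor
  · rintro ⟨h, u, hu, huv⟩
    rcases mem_union.1 hu with h1 | h1
    · exact Or.inl ⟨h, u, h1, huv⟩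
    · exact Or.inr ⟨h, u, h1, huv⟩
  · rintro (⟨h, u, hu, huv⟩ | ⟨h, u, hu, huv⟩)
    · exact ⟨h, u, mem_union_left _ hu, huv⟩
    · exact ⟨h, u, mem_union_right _ hu, huv⟩

theorem nb_biUnion (X : Finset ℕ) : X.biUnion (nbh n adj) = NB n adj X := by
  ext v
  rw [mem_biUnion, Skel2Aux.mem_NB]
  constructor
  · rintro ⟨u, hu, huv⟩
    rw [Skel2Aux.mem_nbh] at huv
    exact ⟨huv.1, u, hu, huv.2⟩
  · rintro ⟨h, u, hu, huv⟩
    exact ⟨u, hu, Skel2Aux.mem_nbh.2 ⟨h, huv⟩⟩

theorem far_nb (hf : Far (r2 n adj) X Y) : Disjoint (NB n adj X) (NB n adj Y) := by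
  rw [disjoint_left]
  intro v h1 h2
  obtain ⟨h3, x, hx, hxv⟩ := Skel2Aux.mem_NB.1 h1
  obtain ⟨_, y, hy, hyv⟩ := Skel2Aux.mem_NB.1 h2
  exact hf x hx y hy
    (Or.inr ⟨v, Skel2Aux.mem_nbh.2 ⟨h3, hxv⟩, Skel2Aux.mem_nbh.2 ⟨h3, hyv⟩⟩)

theorem far_disj (hf : Far (r2 n adj) X Y) : Disjoint X Y := by
  rw [disjoint_left]
  intro v h1 h2
  exact hf v h1 v h2 (r2_refl n adj v)

theorem fw_mul (hf : Far (r2 n adj) X Y) : fw n adj (X ∪ Y) = fw n adj X * fw n adj Y := by
  unfold fw
  rw [nb_union, card_union_of_disjoint (far_nb hf), pow_add]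

namespace Skel2Aux

theorem far_symm (hf : Far (r2 n adj) X Y) : Far (r2 n adj) Y X :=
  fun y hy x hx h => hf x hx y hy (r2_symm n adj y x h)

/-- elements of `Y` do not influence `big` on `X` -/
theorem big_union (d : ℕ) (hf : Far (r2 n adj) X Y) {A B : Finset ℕ} (hB : B ⊆ Y) {k : ℕ}
    (hk : k ∈ X) : big n d adj (A ∪ B) k = big n d adj A k := by
  have h1 : Disjoint (NB n adj {k}) (NB n adj B) :=
    (far_nb hf).mono (nb_mono (singleton_subset_iff.2 hk)) (nb_mono hB)
  have h2 : NB n adj {k} \ NB n adj (A ∪ B) = NB n adj {k} \ NB n adj A := by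
    rw [nb_union]
    ext v
    rw [mem_sdiff, mem_sdiff, mem_union]
    constructor
    · rintro ⟨h3, h4⟩
      exact ⟨h3, fun h5 => h4 (Or.inl h5)⟩
    · rintro ⟨h3, h4⟩
      refine ⟨h3, ?_⟩
      rintro (h5 | h5)
      · exact h4 h5
      · exact disjoint_left.1 h1 h3 h5
  unfold big nw
  rw [h2]

theorem skelA_sub (d : ℕ) (S : Finset ℕ) (k : ℕ) : skelA n d adj S k ⊆ S :=
  fun x hx => (SkelEqAux.skelA_lt n d adj S k x hx).1

theorem skelA_union (d : ℕ) (hf : Far (r2 n adj) X Y) (k : ℕ) :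
    skelA n d adj (X ∪ Y) k = skelA n d adj X k ∪ skelA n d adj Y k := by
  induction k with
  | zero => rfl
  | succ k ih =>
    have hA : skelA n d adj X k ⊆ X := skelA_sub d X k
    have hB : skelA n d adj Y k ⊆ Y := skelA_sub d Y k
    have hs : skelA n d adj (X ∪ Y) (k + 1) = if k ∈ X ∪ Y ∧
        big n d adj (skelA n d adj (X ∪ Y) k) k = true then
        insert k (skelA n d adj (X ∪ Y) k) else skelA n d adj (X ∪ Y) k := rfl
    have hsX : skelA n d adj X (k + 1) = if k ∈ X ∧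
        big n d adj (skelA n d adj X k) k = true then
        insert k (skelA n d adj X k) else skelA n d adj X k := rfl
    have hsY : skelA n d adj Y (k + 1) = if k ∈ Y ∧
        big n d adj (skelA n d adj Y k) k = true then
        insert k (skelA n d adj Y k) else skelA n d adj Y k := rfl
    rw [hs, hsX, hsY, ih]
    by_cases hX : k ∈ X
    · have hY : k ∉ Y := fun h => disjoint_left.1 (far_disj hf) hX h
      have hb := big_union (A := skelA n d adj X k) d hf hB hX
      rw [hb]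
      rw [if_neg (fun h : k ∈ Y ∧ big n d adj (skelA n d adj Y k) k = true => hY h.1)]
      by_cases hc : big n d adj (skelA n d adj X k) k = true
      · rw [if_pos ⟨mem_union_left _ hX, hc⟩, if_pos ⟨hX, hc⟩, insert_union]
      · rw [if_neg (fun h : _ ∧ _ => hc h.2), if_neg (fun h : _ ∧ _ => hc h.2)]
    · rw [if_neg (fun h : k ∈ X ∧ big n d adj (skelA n d adj X k) k = true => hX h.1)]
      by_cases hY : k ∈ Y
      · have hb := big_union (A := skelA n d adj Y k) d (far_symm hf) hA hY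
        rw [union_comm (skelA n d adj X k) (skelA n d adj Y k), hb]
        by_cases hc : big n d adj (skelA n d adj Y k) k = true
        · rw [if_pos ⟨mem_union_right _ hY, hc⟩, if_pos ⟨hY, hc⟩, union_insert,
            union_comm (skelA n d adj X k) (skelA n d adj Y k)]
        · rw [if_neg (fun h : _ ∧ _ => hc h.2), if_neg (fun h : _ ∧ _ => hc h.2),
            union_comm (skelA n d adj X k) (skelA n d adj Y k)]
      · rw [if_neg (fun h : k ∈ Y ∧ big n d adj (skelA n d adj Y k) k = true => hY h.1)]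
        rw [if_neg]
        rintro ⟨h, _⟩
        rcases mem_union.1 h with h | h
        · exact hX h
        · exact hY h

end Skel2Aux

theorem skel_union (hf : Far (r2 n adj) X Y) :
    skel n d adj (X ∪ Y) = skel n d adj X ∪ skel n d adj Y := Skel2Aux.skelA_union d hf n

theorem val_nbH {Z : Finset ℕ} (hV : Val n d adj Z) :
    d * Z.card ≤ 8 * (NB n adj Z).card := by
  classical
  have h1 : (Z.biUnion (fun u => NB n adj {u} \ NB n adj (blw Z u))) ⊆ NB n adj Z := by
    intro v hv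
    rw [mem_biUnion] at hv
    obtain ⟨u, hu, hv⟩ := hv
    rw [mem_sdiff] at hv
    exact Skel2Aux.nb_mono (singleton_subset_iff.2 hu) hv.1
  have h2 : (Z.biUnion (fun u => NB n adj {u} \ NB n adj (blw Z u))).card =
      ∑ u ∈ Z, (NB n adj {u} \ NB n adj (blw Z u)).card := by
    apply card_biUnion
    intro x hx y hy hxy
    change Disjoint (NB n adj {x} \ NB n adj (blw Z x)) (NB n adj {y} \ NB n adj (blw Z y))
    rw [disjoint_left]
    intro v hv1 hv2
    rw [mem_sdiff] at hv1 hv2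
    have key : ∀ p q : ℕ, p ∈ Z → p < q → v ∈ NB n adj {p} → v ∈ NB n adj (blw Z q) := by
      intro p q hp hpq hv
      refine Skel2Aux.nb_mono (singleton_subset_iff.2 ?_) hv
      unfold blw
      rw [mem_filter]
      exact ⟨hp, hpq⟩
    rcases lt_or_gt_of_ne hxy with h | h
    · exact hv2.2 (key x y hx h hv1.1)
    · exact hv1.2 (key y x hy h hv2.1)
  have h3 : ∑ u ∈ Z, d ≤ ∑ u ∈ Z, 8 * (NB n adj {u} \ NB n adj (blw Z u)).card := by
    refine sum_le_sum fun u hu => ?_
    have := hV u hu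
    unfold big at this
    rw [decide_eq_true_eq] at this
    exact this
  rw [sum_const, smul_eq_mul, ← mul_sum, ← h2] at h3
  have h4 := card_le_card h1
  rw [mul_comm]
  omega

theorem skel_nb (S : Finset ℕ) : d * (skel n d adj S).card ≤ 8 * (NB n adj S).card := by
  have hV : Val n d adj (skel n d adj S) := by
    intro u hu
    have h1 : u < n := (SkelEqAux.skelA_lt n d adj S n u hu).2
    exact ((SkelEqAux.mem_skel d adj S h1).1 hu).2
  have h2 := val_nbH hV
  have h3 : (NB n adj (skel n d adj S)).card ≤ (NB n adj S).card :=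
    card_le_card (Skel2Aux.nb_mono (skel_sub n d adj S))
  omega

theorem mod_w (n d : ℕ) (adj : ℕ → ℕ → Bool) (V : Finset ℕ) :
    Mod (r2 n adj) V (fw n adj) (skel n d adj) where
  refl := r2_refl n adj
  symm := r2_symm n adj
  emp := by
    unfold fw
    rw [Skel2Aux.nb_emp, card_empty, pow_zero]
  nn := by
    intro S
    unfold fw
    positivity
  mul := fun _ _ _ _ hf => fw_mul hf
  sub := fun S => skel_sub n d adj S
  uni := fun _ _ _ _ hf => skel_union hf

end Pool.Agent.Lib.Pa7c826h
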