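import Pool.Agent.Lib.Pa7c826h.Defs
import Pool.Agent.Lib.Pa7c826h.Mdl
import Pool.Agent.Lib.Pa7c826k.SkelEq

/-!
The weight of a skeleton is the total weight of the sets with this skeleton.

PROOFS. `nb_sideH`: copy `nb_side` (`Pa7c826e/EExp.lean`; `hh.bip`). `cnt_side`: for
`S ⊆ sideS a sd (range n)` the independent `I ⊆ range n` with `sideS a sd I = S` are the sets `S ∪ J`
with `J ⊆ sideS a (!sd) (range n) \ NB n adj S` (vertices on the same side are not adjacent, an
independent set with the part `S` does not meet `NB S`), and `NB S ⊆ sideS a (!sd) (range n)`.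
`w1_sum`: sort the sets `I` counted by `om Z` according to `S = sideS a sd I ⊆ V`
(`card_eq_sum_card_fiberwise`): `om Z = ∑ S ⊆ V, skel S = Z, 2 ^ (os - |NB S|)`, `|NB S| ≤ os`.
`Xi_w1`: `Xi w Y = ∑ Z ∈ Y.powerset, w Z`; exchange the sums (each `S` with `skel S ⊆ Y` is counted
for `Z = skel S` only). `ind_w1`: `Xi_w1` for `Y = V` (`skel S ⊆ S ⊆ V`), and
`ind adj (range n) = ∑ S ∈ V.powerset, 2 ^ (os - |NB S|)` (`card_IS`).
-/

namespace Pool.Agent.Lib.Pa7c826h

open Finset Pool.Agent.Lib.Pa7c826 Pool.Agent.Lib.Pa7c826t Pool.Agent.Lib.Pa7c826e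
  Pool.Agent.Lib.Pa7c826k

variable {n a d : ℕ} {adj : ℕ → ℕ → Bool} {sd : Bool}

theorem nb_sideH (hh : GB n a adj) {sd : Bool} {X : Finset ℕ} (hX : X ⊆ sideS a sd (range n)) :
    NB n adj X ⊆ sideS a (!sd) (range n) := by
  intro v hv
  simp only [NB, mem_filter] at hv
  obtain ⟨hv, u, hu, huv⟩ := hv
  have h1 := hX hu
  have h2 := hh.bip u v huv
  simp only [sideS, mem_filter] at h1 ⊢
  refine ⟨hv, ?_⟩
  obtain ⟨_, h3⟩ := h1
  cases sd with
  | true =>
    simp only [decide_eq_true_eq] at h3
    simpa using h2.1 h3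
  | false =>
    simp only [decide_eq_false_iff_not] at h3
    simp only [Bool.not_false, decide_eq_true_eq]
    by_contra h4
    exact h3 (h2.2 h4)

namespace SumWAux

open SkelEqAux

theorem same_side (hh : GB n a adj) {S T : Finset ℕ} {u v : ℕ} (hu : u ∈ sideS a sd S)
    (hv : v ∈ sideS a sd T) : adj u v = false := by
  by_contra h
  rw [Bool.not_eq_false] at h
  have h1 := hh.bip u v h
  have h2 := (mem_side.1 hu).2
  have h3 := (mem_side.1 hv).2
  cases sd with
  | true =>
    simp only [decide_eq_true_eq] at h2 h3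
    exact h1.1 h2 h3
  | false =>
    simp only [decide_eq_false_iff_not] at h2 h3
    exact h2 (h1.2 h3)

theorem fiber_eq (hh : GB n a adj) {S : Finset ℕ} (hS : S ⊆ sideS a sd (range n)) :
    (IS adj (range n)).filter (fun I => sideS a sd I = S) =
      (sideS a (!sd) (range n) \ NB n adj S).powerset.image (fun J => S ∪ J) := by
  classical
  ext I
  rw [mem_filter, mem_image, mem_IS]
  constructor
  · rintro ⟨⟨hI, hind⟩, hside⟩
    refine ⟨sideS a (!sd) I, ?_, ?_⟩
    · rw [mem_powerset]
      intro v hv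
      rw [mem_sdiff]
      refine ⟨side_mono hI hv, ?_⟩
      intro hv2
      obtain ⟨_, u, hu, huv⟩ := mem_NB.1 hv2
      have h1 := hind u (side_le (by rw [hside]; exact hu)) v (side_le hv)
      rw [h1] at huv
      exact Bool.noConfusion huv
    · ext v
      rw [mem_union, ← hside]
      constructor
      · rintro (h | h)
        · exact side_le h
        · exact side_le h
      · exact fun h => side_or sd h
  · rintro ⟨J, hJ, rfl⟩
    rw [mem_powerset] at hJ
    have hJ1 : J ⊆ sideS a (!sd) (range n) := fun x hx => (mem_sdiff.1 (hJ hx)).1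
    have hJ2 : ∀ x ∈ J, x ∉ NB n adj S := fun x hx => (mem_sdiff.1 (hJ hx)).2
    have hadj : ∀ u ∈ S, ∀ v ∈ J, adj u v = false := by
      intro u hu v hv
      by_contra h
      rw [Bool.not_eq_false] at h
      exact hJ2 v hv (mem_NB.2 ⟨mem_range.1 (side_le (hJ1 hv)), u, hu, h⟩)
    refine ⟨⟨union_subset (hS.trans side_le) (hJ1.trans side_le), ?_⟩, ?_⟩
    · intro u hu v hv
      rw [mem_union] at hu hv
      rcases hu with hu | hu <;> rcases hv with hv | hv
      · exact same_side hh (hS hu) (hS hv)
      · exact hadj u hu v hv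
      · rw [hh.sym]; exact hadj v hv u hu
      · exact same_side hh (hJ1 hu) (hJ1 hv)
    · ext v
      rw [mem_side, mem_union]
      constructor
      · rintro ⟨h | h, h2⟩
        · exact h
        · exact absurd (side_ne (S := J) (T := range n) (mem_side.2 ⟨h, h2⟩) (hJ1 h)) id
      · intro h
        exact ⟨Or.inl h, (mem_side.1 (hS h)).2⟩

end SumWAux

open SkelEqAux SumWAux

theorem cnt_side (hh : GB n a adj) {S : Finset ℕ} (hS : S ⊆ sideS a sd (range n)) :
    ((IS adj (range n)).filter (fun I => sideS a sd I = S)).card =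
      2 ^ (os n a sd - (NB n adj S).card) := by
  classical
  rw [fiber_eq hh hS, card_image_of_injOn, card_powerset, card_sdiff_of_subset (nb_sideH hh hS)]
  · rfl
  · intro J hJ J' hJ' h
    rw [mem_coe, mem_powerset] at hJ hJ'
    simp only at h
    have key : ∀ {J1 J2 : Finset ℕ}, J1 ⊆ sideS a (!sd) (range n) \ NB n adj S → S ∪ J1 = S ∪ J2 →
        J1 ⊆ J2 := by
      intro J1 J2 h1 h2 x hx
      have h3 : x ∈ S ∪ J2 := by rw [← h2]; exact mem_union_right _ hx
      rcases mem_union.1 h3 with h4 | h4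
      · exact absurd (side_ne (hS h4) (mem_sdiff.1 (h1 hx)).1) id
      · exact h4
    exact Subset.antisymm (key hJ h) (key hJ' h.symm)

namespace SumWAux

theorem pow_fw (hh : GB n a adj) {S : Finset ℕ} (hS : S ⊆ sideS a sd (range n)) :
    ((2 ^ (os n a sd - (NB n adj S).card) : ℕ) : ℝ) / 2 ^ os n a sd = fw n adj S := by
  have h1 : (NB n adj S).card ≤ os n a sd := card_le_card (nb_sideH hh hS)
  unfold fw
  obtain ⟨k, hk⟩ := Nat.exists_eq_add_of_le h1
  rw [hk, Nat.add_sub_cancel_left, pow_add, one_div, inv_pow]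
  push_cast
  field_simp

theorem om_sum (hh : GB n a adj) (Z : Finset ℕ) :
    om n a d adj sd Z =
      ∑ S ∈ (sideS a sd (range n)).powerset.filter (fun S => skel n d adj S = Z),
        2 ^ (os n a sd - (NB n adj S).card) := by
  classical
  unfold om
  rw [card_eq_sum_card_fiberwise (f := fun I => sideS a sd I)
    (t := (sideS a sd (range n)).powerset.filter (fun S => skel n d adj S = Z))]
  · refine sum_congr rfl fun S hS => ?_
    rw [mem_filter, mem_powerset] at hS
    rw [← cnt_side hh hS.1, filter_filter]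
    congr 1
    refine filter_congr fun I _ => ?_
    constructor
    · exact fun h => h.2
    · intro h
      refine ⟨?_, h⟩
      rw [h]
      exact hS.2
  · intro I hI
    rw [mem_coe, mem_filter] at hI
    rw [mem_coe, mem_filter, mem_powerset]
    exact ⟨side_mono (mem_IS.1 hI.1).1, hI.2⟩

theorem ind_sum (hh : GB n a adj) (sd : Bool) :
    ind adj (range n) =
      ∑ S ∈ (sideS a sd (range n)).powerset, 2 ^ (os n a sd - (NB n adj S).card) := by
  classical
  rw [← card_IS, card_eq_sum_card_fiberwise (f := fun I => sideS a sd I)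
    (t := (sideS a sd (range n)).powerset)]
  · refine sum_congr rfl fun S hS => ?_
    rw [mem_powerset] at hS
    rw [← cnt_side hh hS]
  · intro I hI
    rw [mem_coe] at hI
    rw [mem_coe, mem_powerset]
    exact side_mono (mem_IS.1 hI).1

end SumWAux

theorem w1_sum (hh : GB n a adj) (Z : Finset ℕ) :
    w1 n a d adj sd Z =
      ∑ S ∈ (sideS a sd (range n)).powerset.filter (fun S => skel n d adj S = Z), fw n adj S := by
  classical
  unfold w1
  rw [om_sum hh Z, Nat.cast_sum, sum_div]
  refine sum_congr rfl fun S hS => ?_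
  rw [mem_filter, mem_powerset] at hS
  exact pow_fw hh hS.1

theorem Xi_w1 (hh : GB n a adj) (Y : Finset ℕ) :
    Xi (w1 n a d adj sd) Y = GG (fw n adj) (skel n d adj) (sideS a sd (range n)) Y := by
  classical
  unfold Xi GG
  have h1 : ∀ Z ∈ Y.powerset, w1 n a d adj sd Z =
      ∑ S ∈ (sideS a sd (range n)).powerset.filter (fun S => skel n d adj S ⊆ Y),
        if skel n d adj S = Z then fw n adj S else 0 := by
    intro Z hZ
    rw [w1_sum hh Z, ← sum_filter, filter_filter]
    refine sum_congr (filter_congr fun S _ => ?_) fun _ _ => rfl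
    constructor
    · intro h
      exact ⟨by rw [h]; exact mem_powerset.1 hZ, h⟩
    · exact fun h => h.2
  rw [sum_congr rfl h1, sum_comm]
  refine sum_congr rfl fun S hS => ?_
  rw [mem_filter] at hS
  rw [sum_ite_eq, if_pos (mem_powerset.2 hS.2)]

theorem ind_w1 (hh : GB n a adj) :
    (ind adj (range n) : ℝ) =
      2 ^ os n a sd * Xi (w1 n a d adj sd) (sideS a sd (range n)) := by
  classical
  rw [Xi_w1 hh, ind_sum hh sd]
  unfold GG
  rw [Nat.cast_sum, mul_sum]
  have h1 : (sideS a sd (range n)).powerset.filter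
      (fun S => skel n d adj S ⊆ sideS a sd (range n)) = (sideS a sd (range n)).powerset := by
    rw [filter_eq_self]
    intro S hS
    exact (skel_sub n d adj S).trans (mem_powerset.1 hS)
  rw [h1]
  refine sum_congr rfl fun S hS => ?_
  rw [← pow_fw hh (mem_powerset.1 hS)]
  have h2 : (2 : ℝ) ^ os n a sd ≠ 0 := by positivity
  field_simp

end Pool.Agent.Lib.Pa7c826h
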