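import Pool.Agent.Lib.Pa7c826h.KeyNum
import Pool.Agent.Lib.Pa7c826h.KeyFam
import Pool.Agent.Lib.Pa7c826h.Skel2
import Pool.Agent.Lib.Pa7c826h.SumW
import Pool.Agent.Lib.Pa7c826h.Fine

/-!
The convergence condition holds, and skeletons with many neighbours have small weights.

PROOFS. Let `V = sideS a sd (range n)`, `N = nbh n adj` (so `r2 n adj = tc N`), `p = pp d l E`.
`low_nb`: `nbh n adj u` is the set of the neighbours of `u` (`hh.low`). `rgt_nb`: if the filter is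
nonempty then `r < n` and `r` is on the side `!sd` (`nb_sideH`), and the filter is contained in the
set of the neighbours of `r` (`hh.rgt`, `hh.sym`). The numeric facts are in `KeyNum` (`hh.gap`,
`hh.hE`, `hh.hDd`, `d_ge`), `qq d D l E = p * sig d ^ (D - 1)`.
`mdl_w`: `mod_w`. For the condition `kp`: `fw T * lam ^ |skel T| ≤ p ^ |NB T|`, because
`lam ^ |skel T| ≤ tau ^ |NB T|` (`lam_tau`, `skel_nb`); `T.biUnion N = NB T` (`nb_biUnion`); `key_sum`
with `ρ = rho d`, `σ = sig d` bounds the sum by `rho * qq ^ |N v| ≤ rho * qq ^ d ≤ 1 - 1 / rho`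
(`qq ≤ 1`, `low_nb`, `kp`).
`w1_tau`: if `w1 Z ≠ 0` then `Z ⊆ V`, `Val n d adj Z` (`om_zero`). `w1_sum`. Let `S ⊆ V` with
`skel S = Z`; `Z ⊆ S ⊆ Z ∪ BB Z` (`skel_iff`). `fw S * tau ^ |NB Z| ≤ p ^ |NB S|` (`NB Z ⊆ NB S`,
`1 ≤ tau`) `≤ p ^ |NB S| * rho ^ |tch (r2 n adj) V S|`. And `S ∈ KeyAux.fam N V Z ∅`: let `Y ⊆ S` be
nonempty and far from `S \ Y`, `u ∈ Y`; if `u ∉ Z` then `u ∈ BB Z`, so `8 nw (blw Z u) u < d ≤ |NB {u}|`
and `u` has a neighbour in `NB (blw Z u)`, so `r2 u z` for some `z ∈ Z ⊆ S`, hence `z ∈ Y`. `key_fam`: the sum is at most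
`rho ^ |Z| * qq ^ |NB Z|`, and this is at most `(rho * qq) ^ |Z| ≤ 1` because `|Z| ≤ |NB Z|`
(count the pairs `z ∈ Z`, `r ∈ N z`: `d |Z| ≤ D |NB Z| ≤ d |NB Z|`, `rgt_nb`) and `qq ≤ 1`
(`rho_qq`).
`w1_far`: `w1_tau`, `1 ≤ tau`, `tau_pow`. `Rt_nrm`: `fine` with `mdl_w`, `Xi_w1`.
-/

namespace Pool.Agent.Lib.Pa7c826h

open Finset Pool.Agent.Lib.Pa7c826 Pool.Agent.Lib.Pa7c826t Pool.Agent.Lib.Pa7c826e
  Pool.Agent.Lib.Pa7c826k

variable {n a d D l E x K q : ℕ} {adj : ℕ → ℕ → Bool} {sd : Bool}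

namespace HypHAux

theorem nbh_eq (n : ℕ) (adj : ℕ → ℕ → Bool) (u : ℕ) :
    nbh n adj u = (range n).filter (fun v => adj u v = true) := by
  ext v
  rw [Skel2Aux.mem_nbh, mem_filter, mem_range]

theorem r2_eq (n : ℕ) (adj : ℕ → ℕ → Bool) : r2 n adj = tc (nbh n adj) := rfl

end HypHAux

open HypHAux

theorem low_nb (hh : GD n a d D sd adj) {u : ℕ} (hu : u ∈ sideS a sd (range n)) :
    d ≤ (nbh n adj u).card := by
  rw [nbh_eq]
  exact hh.low u hu

theorem rgt_nb (hh : GD n a d D sd adj) (r : ℕ) :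
    ((sideS a sd (range n)).filter (fun u => r ∈ nbh n adj u)).card ≤ D := by
  classical
  rcases ((sideS a sd (range n)).filter (fun u => r ∈ nbh n adj u)).eq_empty_or_nonempty
    with h | ⟨u, hu⟩
  · rw [h, card_empty]
    exact Nat.zero_le _
  · rw [mem_filter] at hu
    have h1 : r ∈ sideS a (!sd) (range n) :=
      nb_sideH hh.toGB (X := {u}) (singleton_subset_iff.2 hu.1) hu.2
    refine le_trans (card_le_card ?_) (hh.rgt r h1)
    intro w hw
    rw [mem_filter, Skel2Aux.mem_nbh] at hw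
    rw [mem_filter]
    exact ⟨SkelEqAux.side_le hw.1, by rw [hh.sym]; exact hw.2.2⟩

namespace HypHAux

theorem hd1 (hh : GH n a d D l E sd adj) : 6 ≤ d := d_ge hh.gap hh.hDd

theorem pp_pow (d l E N : ℕ) : pp d l E ^ N = (1 / 2 : ℝ) ^ N * tau d l E ^ N := by
  rw [← mul_pow]
  unfold pp
  congr 1
  ring

/-- the inequality between the weights of a set -/
theorem fw_lam (hh : GH n a d D l E sd adj) (T : Finset ℕ) :
    fw n adj T * lam l E ^ (skel n d adj T).card ≤ pp d l E ^ (T.biUnion (nbh n adj)).card := by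
  have h6 := hd1 hh
  have h1 := lam_tau (l := l) hh.hE (show 1 ≤ d by omega) (skel_nb (n := n) (adj := adj) (d := d) T)
  rw [nb_biUnion, pp_pow]
  unfold fw
  exact mul_le_mul_of_nonneg_left h1 (by positivity)

theorem fw_tau (_hh : GH n a d D l E sd adj) {S Z : Finset ℕ} (h : Z ⊆ S) :
    fw n adj S * tau d l E ^ (NB n adj Z).card ≤ pp d l E ^ (S.biUnion (nbh n adj)).card := by
  rw [nb_biUnion, pp_pow]
  unfold fw
  refine mul_le_mul_of_nonneg_left ?_ (by positivity)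
  exact pow_le_pow_right₀ tau_ge (card_le_card (Skel2Aux.nb_mono h))

theorem hstep' (hh : GH n a d D l E sd adj) : ∀ m, m < d →
    rho d * (1 + (pp d l E * sig d ^ (D - 1)) ^ m) ≤ sig d ^ (d - m) :=
  step hh.hE hh.hDd hh.gap

theorem hq' (hh : GH n a d D l E sd adj) : pp d l E * sig d ^ (D - 1) ≤ 1 :=
  qq_le_one hh.hE hh.hDd hh.gap

theorem card_le_nb (hh : GD n a d D sd adj) (hd : 1 ≤ d) {Z : Finset ℕ}
    (hZ : Z ⊆ sideS a sd (range n)) : Z.card ≤ (NB n adj Z).card := by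
  classical
  have h1 := Finset.card_mul_le_card_mul (s := Z) (t := NB n adj Z) (m := d) (n := D)
    (fun u r => r ∈ nbh n adj u) (by
      intro u hu
      refine (low_nb hh (hZ hu)).trans (card_le_card ?_)
      intro r hr
      rw [Finset.mem_bipartiteAbove]
      refine ⟨?_, hr⟩
      rw [Skel2Aux.mem_nbh] at hr
      exact Skel2Aux.mem_NB.2 ⟨hr.1, u, hu, hr.2⟩) (by
      intro r _
      refine (card_le_card ?_).trans (rgt_nb hh r)
      intro u hu
      rw [Finset.mem_bipartiteBelow] at hu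
      rw [mem_filter]
      exact ⟨hZ hu.1, hu.2⟩)
  have h2 := hh.hDd
  have h3 : (NB n adj Z).card * D ≤ (NB n adj Z).card * d := Nat.mul_le_mul_left _ h2.le
  exact Nat.le_of_mul_le_mul_right (h1.trans h3) (by omega)

theorem mem_fam (hh : GD n a d D sd adj) {Z S : Finset ℕ}
    (hS : S ⊆ sideS a sd (range n)) (hZS : Z ⊆ S) (hB : S ⊆ Z ∪ BB n a d adj sd Z) :
    S ∈ KeyAux.fam (nbh n adj) (sideS a sd (range n)) Z ∅ := by
  classical
  unfold KeyAux.fam
  rw [mem_filter, mem_powerset]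
  refine ⟨hS, hZS, disjoint_empty_right _, ?_⟩
  intro Y hY hne hf
  obtain ⟨u, hu⟩ := hne
  by_cases huZ : u ∈ Z
  · exact ⟨u, mem_inter.2 ⟨hu, huZ⟩⟩
  have huB : u ∈ BB n a d adj sd Z := by
    rcases mem_union.1 (hB (hY hu)) with h | h
    · exact absurd h huZ
    · exact h
  obtain ⟨h1, _, h2⟩ := SkelEqAux.mem_BB.1 huB
  unfold big nw at h2
  rw [decide_eq_false_iff_not, not_le] at h2
  have h3 : d ≤ (NB n adj {u}).card := low_nb hh h1
  have h4 : (NB n adj {u} ∩ NB n adj (blw Z u)).Nonempty := by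
    rw [nonempty_iff_ne_empty]
    intro h5
    have h6 : NB n adj {u} \ NB n adj (blw Z u) = NB n adj {u} :=
      sdiff_eq_self_iff_disjoint.2 (disjoint_iff_inter_eq_empty.2 h5)
    rw [h6] at h2
    omega
  obtain ⟨r, hr⟩ := h4
  rw [mem_inter] at hr
  obtain ⟨hr1, hr2⟩ := hr
  obtain ⟨hrn, z, hz, hzr⟩ := Skel2Aux.mem_NB.1 hr2
  have hzZ : z ∈ Z := (SkelEqAux.mem_blw.1 hz).1
  have htc : tc (nbh n adj) u z := Or.inr ⟨r, hr1, Skel2Aux.mem_nbh.2 ⟨hrn, hzr⟩⟩
  by_cases hzY : z ∈ Y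
  · exact ⟨z, mem_inter.2 ⟨hzY, hzZ⟩⟩
  · exact absurd htc (hf u hu z (mem_sdiff.2 ⟨hZS hzZ, hzY⟩))

end HypHAux

theorem mdl_w (hh : GH n a d D l E sd adj) :
    Mdl (r2 n adj) (sideS a sd (range n)) (fw n adj) (skel n d adj) (lam l E) (rho d) where
  toMod := mod_w n d adj _
  hl := lam_ge
  hρ := rho_ge
  kp := by
    intro v hv
    have h6 := hd1 hh
    have hρ := rho_ge (d := d)
    have hq0 : 0 < pp d l E * sig d ^ (D - 1) := KeyNumAux.qq_pos d D l E
    have h1 := key_sum (N := nbh n adj) (V := sideS a sd (range n)) (d := d) (D := D)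
      (p := pp d l E) (ρ := rho d) (σ := sig d) (by omega) (fun u hu => low_nb hh.toGD hu)
      (fun r => rgt_nb hh.toGD r) pp_pos hρ (rho_sig (by omega)) (hq' hh) (hstep' hh) hv
    have h2 : rho d * (pp d l E * sig d ^ (D - 1)) ^ (nbh n adj v).card ≤
        rho d * (pp d l E * sig d ^ (D - 1)) ^ d :=
      mul_le_mul_of_nonneg_left
        (pow_le_pow_of_le_one hq0.le (hq' hh) (low_nb hh.toGD hv)) (by linarith)
    refine le_trans ?_ (h1.trans (h2.trans (kp hh.hE hh.hDd hh.gap)))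
    rw [r2_eq]
    refine sum_le_sum fun T _ => ?_
    exact mul_le_mul_of_nonneg_right (fw_lam hh T) (by positivity)

theorem w1_tau (hh : GH n a d D l E sd adj) (Z : Finset ℕ) :
    w1 n a d adj sd Z * tau d l E ^ (NB n adj Z).card ≤ 1 := by
  classical
  by_cases hc : Z ⊆ sideS a sd (range n) ∧ Val n d adj Z
  swap
  · unfold w1
    rw [om_zero hc, Nat.cast_zero, zero_div, zero_mul]
    exact zero_le_one
  obtain ⟨hZ, _⟩ := hc
  have h6 := hd1 hh
  have hρ := rho_ge (d := d)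
  have hq0 : 0 < pp d l E * sig d ^ (D - 1) := KeyNumAux.qq_pos d D l E
  have hq1 := hq' hh
  have h1 := key_fam (N := nbh n adj) (V := sideS a sd (range n)) (d := d) (D := D)
    (p := pp d l E) (ρ := rho d) (σ := sig d) (by omega) (fun u hu => low_nb hh.toGD hu)
    (fun r => rgt_nb hh.toGD r) pp_pos hρ (rho_sig (by omega)) hq1 (hstep' hh) hZ
  have h2 : rho d ^ Z.card * (pp d l E * sig d ^ (D - 1)) ^ (Z.biUnion (nbh n adj)).card ≤ 1 := by
    rw [nb_biUnion]
    have h3 := card_le_nb hh.toGD (by omega) hZ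
    calc rho d ^ Z.card * (pp d l E * sig d ^ (D - 1)) ^ (NB n adj Z).card
        ≤ rho d ^ Z.card * (pp d l E * sig d ^ (D - 1)) ^ Z.card :=
          mul_le_mul_of_nonneg_left (pow_le_pow_of_le_one hq0.le hq1 h3) (by positivity)
      _ = (rho d * qq d D l E) ^ Z.card := by
          rw [← mul_pow]
          rfl
      _ ≤ 1 := pow_le_one₀ (mul_nonneg (by linarith) (KeyNumAux.qq_pos d D l E).le)
          (rho_qq hh.hE hh.hDd hh.gap)
  refine le_trans ?_ (h1.trans h2)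
  rw [w1_sum hh.toGB, sum_mul]
  have h4 : (sideS a sd (range n)).powerset.filter (fun S => skel n d adj S = Z) ⊆
      KeyAux.fam (nbh n adj) (sideS a sd (range n)) Z ∅ := by
    intro S hS
    rw [mem_filter, mem_powerset] at hS
    obtain ⟨h5, _, h7⟩ := (skel_iff (d := d) (adj := adj) (Z := Z) hS.1).1 hS.2
    exact mem_fam hh.toGD hS.1 h5 h7
  refine le_trans (sum_le_sum (g := fun S => pp d l E ^ (S.biUnion (nbh n adj)).card *
    rho d ^ (tch (tc (nbh n adj)) (sideS a sd (range n)) S).card) ?_)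
    (sum_le_sum_of_subset_of_nonneg h4 (fun S _ _ => ?_))
  · intro S hS
    rw [mem_filter, mem_powerset] at hS
    obtain ⟨h5, _, _⟩ := (skel_iff (d := d) (adj := adj) (Z := Z) hS.1).1 hS.2
    refine (fw_tau hh h5).trans ?_
    exact le_mul_of_one_le_right (pow_nonneg pp_pos.le _) (one_le_pow₀ hρ)
  · exact mul_nonneg (pow_nonneg pp_pos.le _) (by positivity)

theorem w1_far (hh : PrH n a d D l E x K q sd adj) {Z : Finset ℕ}
    (hN : 64 * E * K * d < (NB n adj Z).card) :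
    w1 n a d adj sd Z ≤ 1 / 2 ^ (32 * l * K) := by
  have h6 := hd1 hh.toGH
  have h1 := w1_tau hh.toGH Z
  have h2 : (2 : ℝ) ^ (32 * l * K) ≤ tau d l E ^ (NB n adj Z).card := by
    rw [← tau_pow (l := l) hh.hE (show 1 ≤ d by omega) K]
    exact pow_le_pow_right₀ tau_ge hN.le
  rw [le_div_iff₀ (by positivity)]
  refine le_trans ?_ h1
  refine mul_le_mul_of_nonneg_left h2 ?_
  unfold w1
  positivity

theorem Rt_nrm (hh : GH n a d D l E sd adj) {U : Finset ℕ} (hU : U ⊆ sideS a sd (range n))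
    {v : ℕ} (hv : v ∈ sideS a sd (range n)) (hvU : v ∉ U) :
    nrm (lam l E) U (fun Y => Rt (w1 n a d adj sd) v Y - 1) ≤ rho d - 1 :=
  fine (mdl_w hh) (fun Y _ => Xi_w1 hh.toGB Y) hU hv hvU

end Pool.Agent.Lib.Pa7c826h
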