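import Pool.Agent.Lib.Pa7c826h.Class

/-!
The constants of the key estimate.

PROOFS. Put `L = log 2 ∈ (0.6931, 0.6932)`, `ι = 1 / (4 d)`, `x = l / (2 E)` (real). From `hg`,
`D ≥ 0`, `logb 2 d ≥ 0`, `x ≥ 0`: `d ≥ 4 + logb 2 d + x + D`; so `d ≥ 4`, then `logb 2 d ≥ 2`,
`d ≥ 6`. `qq_pow`: `log (qq ^ d) = - L d + L x + (D - 1 : ℕ) (L + ι) ≤ - L (d - D - x) + D ι ≤
- L (logb 2 d + 4) + 1 / 4` (`D - 1 ≤ D`, `D ι ≤ 1 / 4`), so
`qq ^ d ≤ exp (1 / 4) / (16 d) ≤ 0.0803 / d` (`L logb 2 d = log d`; `exp (1 / 4) ≤ 1.2841`).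
`qq_le_one`: `qq ^ d ≤ 1`. `rho_qq`: `(rho * qq) ^ d ≤ exp (1 / 4) * 0.0803 / d ≤ 1`.
`kp`: `1 - 1 / rho = 1 - exp (- ι) ≥ ι - ι ^ 2 / 2 ≥ 0.24 / d` (or `exp (-ι) ≤ 1 / (1 + ι)`, so
`1 - exp (-ι) ≥ ι / (1 + ι) = 1 / (4 d + 1) ≥ 0.23 / d` as `d ≥ 6`), and
`rho * qq ^ d ≤ 1.05 * 0.0803 / d`.
`step`: `m = 0`: `2 rho = sig ^ d` (`sig ^ d = exp (L + ι)`). `1 ≤ m < d`: let `N = d - 1`. It is
enough to show `sig ^ m + (sig * qq) ^ m ≤ 2`, because `sig ^ (d - m) * sig ^ m = sig ^ d = 2 rho`.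
For real `u ≥ 0` and `1 ≤ m ≤ N`: `u ^ m ≤ (m / N) u ^ N + (1 - m / N)` (weighted arithmetic and
geometric means, `Real.geom_mean_le_arith_mean2_weighted`, or convexity), so it is enough to show
`sig ^ N + (sig * qq) ^ N ≤ 2`, that is `1 + qq ^ N ≤ 2 / sig ^ N = sig / rho =
exp ((L + ι) / d - ι) = exp ((L - 1/4 + ι) / d)`, where the right side is at least `1 + (L - 1 / 4) / d ≥ 1 + 0.443 / d`. And
`qq ^ N ≤ 0.443 / d`: otherwise `qq ^ (d N) > (0.443 / d) ^ d`, but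
`qq ^ (d N) = (qq ^ d) ^ N ≤ (0.0803 / d) ^ N`, so `(0.443 / d) * 5.5 ^ N < 1`, but
`5.5 ^ N ≥ 1 + 4.5 N ≥ d / 0.443` (`d ≥ 6`).
`lam_tau`: exponents: `L l k / (16 E) ≤ L l N / (2 E d)` because `k d ≤ 8 N`.
`lam_pow`: `L l K / (16 E) ≥ L (x + 8)`. `tau_pow`: `L l (64 E K d) / (2 E d) = 32 L l K`.
-/

namespace Pool.Agent.Lib.Pa7c826h

/-- the weight of a touched vertex -/
noncomputable def rho (d : ℕ) : ℝ := Real.exp (1 / (4 * d))

/-- the weight of a common neighbour -/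
noncomputable def sig (d : ℕ) : ℝ := Real.exp ((Real.log 2 + 1 / (4 * d)) / d)

/-- `2 ^ (l / (2 E d))` -/
noncomputable def tau (d l E : ℕ) : ℝ := Real.exp (Real.log 2 * l / (2 * E * d))

/-- `2 ^ (l / (16 E))` -/
noncomputable def lam (l E : ℕ) : ℝ := Real.exp (Real.log 2 * l / (16 * E))

/-- the weight of a neighbour, `tau / 2` -/
noncomputable def pp (d l E : ℕ) : ℝ := tau d l E / 2

/-- the weight of a neighbour, with the factors of the common neighbours -/
noncomputable def qq (d D l E : ℕ) : ℝ := pp d l E * sig d ^ (D - 1)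

variable {d D l E : ℕ}

theorem rho_ge : 1 ≤ rho d := by
  unfold rho
  exact Real.one_le_exp (by positivity)

theorem tau_ge : 1 ≤ tau d l E := by
  unfold tau
  have h : 0 ≤ Real.log 2 := Real.log_nonneg (by norm_num)
  exact Real.one_le_exp (by positivity)

theorem lam_ge : 1 ≤ lam l E := by
  unfold lam
  have h : 0 ≤ Real.log 2 := Real.log_nonneg (by norm_num)
  exact Real.one_le_exp (by positivity)

theorem pp_pos : 0 < pp d l E := by
  unfold pp
  have := tau_ge (d := d) (l := l) (E := E)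
  linarith

theorem rho_sig (hd : 1 ≤ d) : rho d ≤ sig d := by
  unfold rho sig
  have hd' : (1 : ℝ) ≤ d := by exact_mod_cast hd
  have hL := Real.log_two_gt_d9
  apply Real.exp_le_exp.2
  rw [le_div_iff₀ (by linarith)]
  have h1 : 1 / (4 * (d : ℝ)) * d = 1 / 4 := by field_simp
  rw [h1]
  have h2 : 0 ≤ 1 / (4 * (d : ℝ)) := by positivity
  linarith

theorem d_ge (hg : Real.logb 2 d + l / (2 * E) + 3 ≤ (d : ℝ) - D) (hDd : D < d) : 6 ≤ d := by
  have hd1 : 1 ≤ d := by omega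
  have hd1' : (1 : ℝ) ≤ d := by exact_mod_cast hd1
  have hD : (0 : ℝ) ≤ D := Nat.cast_nonneg D
  have hx : (0 : ℝ) ≤ l / (2 * E) := by positivity
  have h0 : 0 ≤ Real.logb 2 d := Real.logb_nonneg (by norm_num) hd1'
  have h3 : (3 : ℝ) ≤ d := by linarith
  have h1 : 1 ≤ Real.logb 2 d := by
    rw [Real.le_logb_iff_rpow_le (by norm_num) (by linarith), Real.rpow_one]
    linarith
  have h4 : (4 : ℝ) ≤ d := by linarith
  have e4 : (2 : ℝ) ^ (2 : ℝ) = 4 := by
    rw [show (2 : ℝ) = ((2 : ℕ) : ℝ) by norm_num, Real.rpow_natCast]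
    norm_num
  have h2 : 2 ≤ Real.logb 2 d := by
    rw [Real.le_logb_iff_rpow_le (by norm_num) (by linarith), e4]
    exact h4
  have h5 : (5 : ℝ) ≤ d := by linarith
  have h7 : 2 < Real.logb 2 d := by
    rw [Real.lt_logb_iff_rpow_lt (by norm_num) (by linarith), e4]
    linarith
  have h6 : (5 : ℝ) < d := by linarith
  have h8 : 5 < d := by exact_mod_cast h6
  omega

namespace KeyNumAux

theorem exp_24 : Real.exp (1 / 24) ≤ 24 / 23 := by
  have h := Real.add_one_le_exp (-(1 / 24) : ℝ)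
  rw [Real.exp_neg] at h
  have h1 : (0 : ℝ) < Real.exp (1 / 24) := Real.exp_pos _
  have h2 : (23 : ℝ) / 24 ≤ (Real.exp (1 / 24))⁻¹ := by linarith
  have h3 := inv_anti₀ (by norm_num) h2
  rw [inv_inv] at h3
  have h4 : ((23 : ℝ) / 24)⁻¹ = 24 / 23 := by norm_num
  rw [h4] at h3
  exact h3

theorem exp_4 : Real.exp (1 / 4) ≤ 162 / 125 := by
  have h : Real.exp (1 / 4) = Real.exp (1 / 24) ^ 6 := by
    rw [← Real.exp_nat_mul]
    norm_num
  rw [h]
  calc Real.exp (1 / 24) ^ 6 ≤ (24 / 23) ^ 6 :=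
        pow_le_pow_left₀ (Real.exp_pos _).le exp_24 6
    _ ≤ 162 / 125 := by norm_num

theorem sig_pow (hd : 1 ≤ d) : sig d ^ d = 2 * rho d := by
  have hd' : (0 : ℝ) < d := by exact_mod_cast hd
  unfold sig rho
  rw [← Real.exp_nat_mul]
  have h1 : (d : ℝ) * ((Real.log 2 + 1 / (4 * d)) / d) = Real.log 2 + 1 / (4 * d) := by
    field_simp
  rw [h1, Real.exp_add, Real.exp_log (by norm_num)]

theorem qq_exp (d D l E : ℕ) : qq d D l E = Real.exp (Real.log 2 * l / (2 * E * d) - Real.log 2 +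
    ((D - 1 : ℕ) : ℝ) * ((Real.log 2 + 1 / (4 * d)) / d)) := by
  unfold qq pp tau sig
  rw [Real.exp_add, Real.exp_sub, Real.exp_log (by norm_num), Real.exp_nat_mul]

theorem qq_pos (d D l E : ℕ) : 0 < qq d D l E := by
  rw [qq_exp]
  exact Real.exp_pos _

theorem qq_pow (hE : 1 ≤ E) (hDd : D < d)
    (hg : Real.logb 2 d + l / (2 * E) + 3 ≤ (d : ℝ) - D) :
    qq d D l E ^ d ≤ 81 / 500 / d := by
  have h6 := d_ge hg hDd
  have hd : (6 : ℝ) ≤ d := by exact_mod_cast h6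
  have hd0 : (0 : ℝ) < d := by linarith
  have hE0 : (0 : ℝ) < E := by exact_mod_cast hE
  have hL := Real.log_two_gt_d9
  rw [qq_exp, ← Real.exp_nat_mul]
  have h1 : (d : ℝ) * (Real.log 2 * l / (2 * E * d) - Real.log 2 +
      ((D - 1 : ℕ) : ℝ) * ((Real.log 2 + 1 / (4 * d)) / d)) =
      Real.log 2 * (l / (2 * E)) - Real.log 2 * d +
        ((D - 1 : ℕ) : ℝ) * (Real.log 2 + 1 / (4 * d)) := by
    field_simp
  rw [h1]
  have hD1 : ((D - 1 : ℕ) : ℝ) ≤ D := by exact_mod_cast Nat.sub_le D 1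
  have hDd' : (D : ℝ) ≤ d := by exact_mod_cast hDd.le
  have h2 : ((D - 1 : ℕ) : ℝ) * (Real.log 2 + 1 / (4 * d)) ≤ D * Real.log 2 + 1 / 4 := by
    have h3 : ((D - 1 : ℕ) : ℝ) * (Real.log 2 + 1 / (4 * d)) ≤ D * (Real.log 2 + 1 / (4 * d)) :=
      mul_le_mul_of_nonneg_right hD1 (by positivity)
    have h4 : (D : ℝ) * (1 / (4 * d)) ≤ 1 / 4 := by
      have h5 : (D : ℝ) * (1 / (4 * d)) ≤ d * (1 / (4 * d)) :=
        mul_le_mul_of_nonneg_right hDd' (by positivity)
      have h6 : (d : ℝ) * (1 / (4 * d)) = 1 / 4 := by field_simp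
      linarith
    have h7 : (D : ℝ) * (Real.log 2 + 1 / (4 * d)) = D * Real.log 2 + D * (1 / (4 * d)) := by ring
    linarith
  have hlog : Real.log 2 * Real.logb 2 d = Real.log d := by
    rw [Real.logb]
    field_simp
  have h3 : Real.log 2 * (l / (2 * E)) - Real.log 2 * d +
        ((D - 1 : ℕ) : ℝ) * (Real.log 2 + 1 / (4 * d)) ≤ 1 / 4 - 3 * Real.log 2 - Real.log d := by
    rw [← hlog]
    have h4 : Real.log 2 * (Real.logb 2 d + l / (2 * E) + 3) ≤ Real.log 2 * ((d : ℝ) - D) :=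
      mul_le_mul_of_nonneg_left hg (by linarith)
    have h5 : Real.log 2 * (Real.logb 2 d + l / (2 * E) + 3) =
      Real.log 2 * Real.logb 2 d + Real.log 2 * (l / (2 * E)) + 3 * Real.log 2 := by ring
    have h6 : Real.log 2 * ((d : ℝ) - D) = Real.log 2 * d - D * Real.log 2 := by ring
    linarith
  refine (Real.exp_le_exp.2 h3).trans ?_
  have h4 : Real.exp (1 / 4 - 3 * Real.log 2 - Real.log d) = Real.exp (1 / 4) / 8 / d := by
    rw [Real.exp_sub, Real.exp_sub, Real.exp_log hd0]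
    have h5 : Real.exp (3 * Real.log 2) = 8 := by
      have h6 : (3 : ℝ) * Real.log 2 = ((3 : ℕ) : ℝ) * Real.log 2 := by norm_num
      rw [h6, Real.exp_nat_mul, Real.exp_log (by norm_num)]
      norm_num
    rw [h5]
  rw [h4]
  apply div_le_div_of_nonneg_right _ hd0.le
  have := exp_4
  linarith

theorem pow_conv {u : ℝ} (hu : 0 ≤ u) {m N : ℕ} (hN : 1 ≤ N) (hm : m ≤ N) :
    u ^ m ≤ (m / N : ℝ) * u ^ N + (1 - m / N) := by
  have hN0 : (0 : ℝ) < N := by exact_mod_cast hN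
  have hmN : (m : ℝ) / N ≤ 1 := by
    rw [div_le_one hN0]
    exact_mod_cast hm
  have h := Real.geom_mean_le_arith_mean2_weighted (w₁ := (m / N : ℝ)) (w₂ := 1 - m / N)
    (p₁ := u ^ N) (p₂ := 1) (by positivity) (by linarith) (by positivity) (by norm_num) (by ring)
  rw [Real.one_rpow, mul_one, mul_one] at h
  have h2 : (u ^ N) ^ (m / N : ℝ) = u ^ m := by
    rw [← Real.rpow_natCast, ← Real.rpow_mul hu]
    have : (N : ℝ) * (m / N) = m := by field_simp
    rw [this, Real.rpow_natCast]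
  rw [h2] at h
  exact h

end KeyNumAux

open KeyNumAux

theorem rho_le (hd : 6 ≤ d) : rho d ≤ 21 / 20 := by
  unfold rho
  have hd' : (6 : ℝ) ≤ d := by exact_mod_cast hd
  have h1 : 1 / (4 * (d : ℝ)) ≤ 1 / 24 := by
    apply one_div_le_one_div_of_le (by norm_num)
    linarith
  refine (Real.exp_le_exp.2 h1).trans (exp_24.trans (by norm_num))

theorem qq_le_one (hE : 1 ≤ E) (hDd : D < d)
    (hg : Real.logb 2 d + l / (2 * E) + 3 ≤ (d : ℝ) - D) : qq d D l E ≤ 1 := by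
  have h6 := d_ge hg hDd
  have hd : (6 : ℝ) ≤ d := by exact_mod_cast h6
  have h1 := qq_pow hE hDd hg
  have h2 : (81 : ℝ) / 500 / d ≤ 1 := by
    rw [div_le_one (by linarith)]
    linarith
  exact (pow_le_one_iff_of_nonneg (qq_pos d D l E).le (by omega)).1 (h1.trans h2)

theorem rho_qq (hE : 1 ≤ E) (hDd : D < d)
    (hg : Real.logb 2 d + l / (2 * E) + 3 ≤ (d : ℝ) - D) : rho d * qq d D l E ≤ 1 := by
  have h6 := d_ge hg hDd
  have hd : (6 : ℝ) ≤ d := by exact_mod_cast h6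
  have h1 := qq_pow hE hDd hg
  have hr := rho_ge (d := d)
  have h3 : rho d ^ d ≤ 162 / 125 := by
    unfold rho
    rw [← Real.exp_nat_mul]
    have : (d : ℝ) * (1 / (4 * d)) = 1 / 4 := by field_simp
    rw [this]
    exact exp_4
  have hq := qq_pos d D l E
  have h2 : (81 : ℝ) / 500 / d ≤ 81 / 500 / 6 :=
    div_le_div_of_nonneg_left (by norm_num) (by norm_num) hd
  have h4 : (rho d * qq d D l E) ^ d ≤ 1 := by
    rw [mul_pow]
    calc rho d ^ d * qq d D l E ^ d ≤ 162 / 125 * (81 / 500 / 6) :=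
          mul_le_mul h3 (h1.trans h2) (by positivity) (by norm_num)
      _ ≤ 1 := by norm_num
  exact (pow_le_one_iff_of_nonneg (by positivity) (by omega)).1 h4

theorem kp (hE : 1 ≤ E) (hDd : D < d)
    (hg : Real.logb 2 d + l / (2 * E) + 3 ≤ (d : ℝ) - D) :
    rho d * qq d D l E ^ d ≤ 1 - 1 / rho d := by
  have h6 := d_ge hg hDd
  have hd : (6 : ℝ) ≤ d := by exact_mod_cast h6
  have hd0 : (0 : ℝ) < d := by linarith
  have h1 := qq_pow hE hDd hg
  have hr := rho_ge (d := d)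
  have hr2 := rho_le h6
  have hq := qq_pos d D l E
  have h2 : rho d * qq d D l E ^ d ≤ 21 / 20 * (81 / 500 / d) :=
    mul_le_mul hr2 h1 (by positivity) (by norm_num)
  have h3 : 1 + 1 / (4 * (d : ℝ)) ≤ rho d := by
    unfold rho
    have := Real.add_one_le_exp (1 / (4 * (d : ℝ)))
    linarith
  have h4 : 1 / rho d ≤ 1 / (1 + 1 / (4 * (d : ℝ))) :=
    one_div_le_one_div_of_le (by positivity) h3
  have h5 : 1 / (1 + 1 / (4 * (d : ℝ))) = 1 - 1 / (4 * d + 1) := by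
    field_simp
    ring
  have h7 : 21 / 20 * (81 / 500 / (d : ℝ)) ≤ 1 / (4 * d + 1) := by
    rw [le_div_iff₀ (by positivity)]
    have h8 : 21 / 20 * (81 / 500 / (d : ℝ)) * (4 * d + 1) =
        21 / 20 * (81 / 500) * 4 + 21 / 20 * (81 / 500) / d := by
      field_simp
    rw [h8]
    have h9 : 21 / 20 * (81 / 500) / (d : ℝ) ≤ 21 / 20 * (81 / 500) / 6 :=
      div_le_div_of_nonneg_left (by norm_num) (by norm_num) hd
    linarith
  rw [h5] at h4
  linarith

theorem step (hE : 1 ≤ E) (hDd : D < d)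
    (hg : Real.logb 2 d + l / (2 * E) + 3 ≤ (d : ℝ) - D) :
    ∀ m, m < d → rho d * (1 + (pp d l E * sig d ^ (D - 1)) ^ m) ≤ sig d ^ (d - m) := by
  intro m hmd
  have h6 := d_ge hg hDd
  have hd : (6 : ℝ) ≤ d := by exact_mod_cast h6
  have hd0 : (0 : ℝ) < d := by linarith
  have hr := rho_ge (d := d)
  have hr0 : 0 < rho d := by linarith
  have hs0 : 0 < sig d := Real.exp_pos _
  have hsd := sig_pow (d := d) (by omega)
  have hqe : pp d l E * sig d ^ (D - 1) = qq d D l E := rfl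
  rw [hqe]
  have hq := qq_pos d D l E
  rcases Nat.eq_zero_or_pos m with rfl | hm
  · rw [pow_zero, Nat.sub_zero, hsd]
    linarith
  obtain ⟨N, hN⟩ : ∃ N, d = N + 1 := ⟨d - 1, by omega⟩
  have hN5 : 5 ≤ N := by omega
  have hdN : (d : ℝ) = N + 1 := by rw [hN]; push_cast; ring
  have hqN : qq d D l E ^ N ≤ 443 / 1000 / d := by
    by_contra hcon
    push Not at hcon
    have h1 := qq_pow hE hDd hg
    have h2 : (443 / 1000 / (d : ℝ)) ^ d < (qq d D l E ^ N) ^ d :=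
      pow_lt_pow_left₀ hcon (by positivity) (by omega)
    have h3 : (qq d D l E ^ N) ^ d = (qq d D l E ^ d) ^ N := by
      rw [← pow_mul, ← pow_mul, Nat.mul_comm]
    have h4 : (qq d D l E ^ d) ^ N ≤ (81 / 500 / (d : ℝ)) ^ N :=
      pow_le_pow_left₀ (by positivity) h1 N
    have h5 : (443 / 1000 / (d : ℝ)) ^ d < (81 / 500 / (d : ℝ)) ^ N := by
      rw [h3] at h2
      exact lt_of_lt_of_le h2 h4
    have h7 : (27 / 10 : ℝ) ^ N * (81 / 500 / (d : ℝ)) ^ N ≤ (443 / 1000 / (d : ℝ)) ^ N := by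
      rw [← mul_pow]
      apply pow_le_pow_left₀ (by positivity)
      have h8 : 27 / 10 * (81 / 500 / (d : ℝ)) = (27 / 10 * (81 / 500)) / d := by ring
      rw [h8]
      apply div_le_div_of_nonneg_right _ hd0.le
      norm_num
    have h8 : 90 + (N : ℝ) * 10 ≤ (27 / 10 : ℝ) ^ N := by
      obtain ⟨M, hM⟩ : ∃ M, N = M + 5 := ⟨N - 5, by omega⟩
      rw [hM, pow_add]
      have h9 := one_add_mul_le_pow (a := (17 / 10 : ℝ)) (by norm_num) M
      have h10 : (1 + 17 / 10 : ℝ) = 27 / 10 := by norm_num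
      rw [h10] at h9
      have h11 : (143 : ℝ) ≤ (27 / 10) ^ 5 := by norm_num
      have h12 : (0 : ℝ) ≤ M := Nat.cast_nonneg M
      have h13 : (1 + (M : ℝ) * (17 / 10)) * 143 ≤ (27 / 10) ^ M * (27 / 10) ^ 5 :=
        mul_le_mul h9 h11 (by norm_num) (by positivity)
      push_cast
      linarith
    have h9 : (443 / 1000 / (d : ℝ)) ^ d = (443 / 1000 / (d : ℝ)) ^ N * (443 / 1000 / d) := by
      have h10 : ∀ y : ℝ, y ^ d = y ^ N * y := by
        intro y
        rw [hN, pow_succ]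
      exact h10 _
    have h11 : 1 ≤ (27 / 10 : ℝ) ^ N * (443 / 1000 / (d : ℝ)) := by
      rw [← mul_div_assoc, one_le_div hd0, hdN]
      have h12 : (5 : ℝ) ≤ N := by exact_mod_cast hN5
      nlinarith
    have h13 : (81 / 500 / (d : ℝ)) ^ N ≤ (443 / 1000 / (d : ℝ)) ^ d := by
      rw [h9]
      have h14 : 0 ≤ (81 / 500 / (d : ℝ)) ^ N := by positivity
      calc (81 / 500 / (d : ℝ)) ^ N
          ≤ (81 / 500 / (d : ℝ)) ^ N * ((27 / 10 : ℝ) ^ N * (443 / 1000 / (d : ℝ))) :=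
            le_mul_of_one_le_right h14 h11
        _ = ((27 / 10 : ℝ) ^ N * (81 / 500 / (d : ℝ)) ^ N) * (443 / 1000 / (d : ℝ)) := by ring
        _ ≤ (443 / 1000 / (d : ℝ)) ^ N * (443 / 1000 / (d : ℝ)) :=
            mul_le_mul_of_nonneg_right h7 (by positivity)
    linarith
  have hsum : sig d ^ N + (sig d * qq d D l E) ^ N ≤ 2 := by
    have h1 : sig d ^ N * sig d = 2 * rho d := by
      rw [← pow_succ, ← hN, hsd]
    have hL := Real.log_two_gt_d9
    have h2 : rho d * (1 + 443 / 1000 / d) ≤ sig d := by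
      have h3 : sig d = rho d * Real.exp ((Real.log 2 - 1 / 4 + 1 / (4 * d)) / d) := by
        unfold sig rho
        rw [← Real.exp_add]
        congr 1
        field_simp
        ring
      rw [h3]
      apply mul_le_mul_of_nonneg_left _ hr0.le
      have h4 := Real.add_one_le_exp ((Real.log 2 - 1 / 4 + 1 / (4 * (d : ℝ))) / d)
      have h5 : 443 / 1000 / (d : ℝ) ≤ (Real.log 2 - 1 / 4 + 1 / (4 * d)) / d := by
        apply div_le_div_of_nonneg_right _ hd0.le
        have : 0 ≤ 1 / (4 * (d : ℝ)) := by positivity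
        linarith
      linarith
    have h3 : rho d * (sig d ^ N * (1 + qq d D l E ^ N)) ≤ rho d * 2 := by
      have h4 : 0 ≤ sig d ^ N := by positivity
      calc rho d * (sig d ^ N * (1 + qq d D l E ^ N))
          = sig d ^ N * (rho d * (1 + qq d D l E ^ N)) := by ring
        _ ≤ sig d ^ N * (rho d * (1 + 443 / 1000 / d)) := by
            apply mul_le_mul_of_nonneg_left _ h4
            apply mul_le_mul_of_nonneg_left _ hr0.le
            linarith
        _ ≤ sig d ^ N * sig d := mul_le_mul_of_nonneg_left h2 h4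
        _ = rho d * 2 := by rw [h1]; ring
    have h5 := le_of_mul_le_mul_left h3 hr0
    rw [mul_pow]
    linarith
  have hm2 : sig d ^ m + (sig d * qq d D l E) ^ m ≤ 2 := by
    have h1 := pow_conv hs0.le (m := m) (N := N) (by omega) (by omega)
    have h2 := pow_conv (u := sig d * qq d D l E) (by positivity) (m := m) (N := N) (by omega) (by omega)
    have h3 : (m : ℝ) / N * (sig d ^ N + (sig d * qq d D l E) ^ N) ≤ (m : ℝ) / N * 2 :=
      mul_le_mul_of_nonneg_left hsum (by positivity)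
    linarith
  have h1 : sig d ^ (d - m) * sig d ^ m = 2 * rho d := by
    rw [← pow_add, Nat.sub_add_cancel hmd.le, hsd]
  have h2 : rho d * (1 + qq d D l E ^ m) * sig d ^ m ≤ sig d ^ (d - m) * sig d ^ m := by
    rw [h1]
    calc rho d * (1 + qq d D l E ^ m) * sig d ^ m
        = rho d * (sig d ^ m + (sig d * qq d D l E) ^ m) := by rw [mul_pow]; ring
      _ ≤ rho d * 2 := mul_le_mul_of_nonneg_left hm2 hr0.le
      _ = 2 * rho d := by ring
  exact le_of_mul_le_mul_right h2 (by positivity)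

theorem lam_tau (hE : 1 ≤ E) (hd : 1 ≤ d) {k N : ℕ} (h : d * k ≤ 8 * N) :
    lam l E ^ k ≤ tau d l E ^ N := by
  unfold lam tau
  rw [← Real.exp_nat_mul, ← Real.exp_nat_mul]
  apply Real.exp_le_exp.2
  have hE0 : (0 : ℝ) < E := by exact_mod_cast hE
  have hd0 : (0 : ℝ) < d := by exact_mod_cast hd
  have hL : 0 ≤ Real.log 2 := Real.log_nonneg (by norm_num)
  have h' : (d : ℝ) * k ≤ 8 * N := by exact_mod_cast h
  have h1 : (k : ℝ) * (Real.log 2 * l / (16 * E)) = Real.log 2 * l / (16 * E * d) * (d * k) := by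
    field_simp
  have h2 : (N : ℝ) * (Real.log 2 * l / (2 * E * d)) = Real.log 2 * l / (16 * E * d) * (8 * N) := by
    field_simp
    ring
  rw [h1, h2]
  exact mul_le_mul_of_nonneg_left h' (by positivity)

theorem lam_pow (hE : 1 ≤ E) {x K : ℕ} (h : 16 * E * (x + 8) ≤ l * K) :
    (2 : ℝ) ^ (x + 8) ≤ lam l E ^ K := by
  unfold lam
  have hE0 : (0 : ℝ) < E := by exact_mod_cast hE
  have hL : 0 ≤ Real.log 2 := Real.log_nonneg (by norm_num)
  have h' : 16 * (E : ℝ) * (x + 8) ≤ l * K := by exact_mod_cast h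
  have h0 : (2 : ℝ) ^ (x + 8) = Real.exp (((x + 8 : ℕ) : ℝ) * Real.log 2) := by
    rw [Real.exp_nat_mul, Real.exp_log (by norm_num)]
  rw [h0, ← Real.exp_nat_mul]
  apply Real.exp_le_exp.2
  push_cast
  have h1 : (K : ℝ) * (Real.log 2 * l / (16 * E)) = Real.log 2 / (16 * E) * (l * K) := by
    field_simp
  have h2 : ((x : ℝ) + 8) * Real.log 2 = Real.log 2 / (16 * E) * (16 * E * (x + 8)) := by
    field_simp
  rw [h1, h2]
  exact mul_le_mul_of_nonneg_left h' (by positivity)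

theorem tau_pow (hE : 1 ≤ E) (hd : 1 ≤ d) (K : ℕ) :
    tau d l E ^ (64 * E * K * d) = 2 ^ (32 * l * K) := by
  unfold tau
  have hE0 : (0 : ℝ) < E := by exact_mod_cast hE
  have hd0 : (0 : ℝ) < d := by exact_mod_cast hd
  have h0 : (2 : ℝ) ^ (32 * l * K) = Real.exp (((32 * l * K : ℕ) : ℝ) * Real.log 2) := by
    rw [Real.exp_nat_mul, Real.exp_log (by norm_num)]
  rw [h0, ← Real.exp_nat_mul]
  congr 1
  push_cast
  field_simp
  ring

end Pool.Agent.Lib.Pa7c826h
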