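import Pool.Agent.Lib.Pa7c826h.Defs
import Pool.Agent.Lib.Pa7c826k.LeafF

/-!
Facts about greedy matchings in sets without vertices of large degree.

PROOFS. Copy `dg_side`, `sum_side`, `cov_side`, `light_edges` of `Pa7c826k/LeafF.lean` with
`GB n a adj` in place of `XHost n a d A adj`; only `hh.sym`, `hh.irr`, `hh.bip` are used there.
-/

namespace Pool.Agent.Lib.Pa7c826h

open Finset Pool.Agent.Lib.Pa7c826 Pool.Agent.Lib.Pa7c826t Pool.Agent.Lib.Pa7c826e
  Pool.Agent.Lib.Pa7c826k

variable {n a : ℕ} {adj : ℕ → ℕ → Bool}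

namespace LeafHAux

theorem side_not (sd : Bool) (J : Finset ℕ) :
    J.filter (fun v => ¬ decide (v < a) = sd) = sideS a (!sd) J := by
  unfold sideS
  apply filter_congr
  intro v _
  cases sd <;> simp

theorem dg_side (hh : GB n a adj) (sd : Bool) (S : Finset ℕ) {v : ℕ}
    (hv : v ∈ sideS a sd S) :
    dg adj S v = ((sideS a (!sd) S).filter (fun u => adj v u = true)).card := by
  unfold dg
  congr 1
  ext u
  rw [mem_filter, mem_filter]
  constructor
  · rintro ⟨hu, hvu⟩
    refine ⟨?_, hvu⟩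
    have hb := hh.bip v u hvu
    unfold sideS at hv ⊢
    rw [mem_filter] at hv ⊢
    refine ⟨hu, ?_⟩
    obtain ⟨_, h⟩ := hv
    subst h
    by_cases h1 : v < a
    · have h2 := hb.1 h1
      simp [h1, h2]
    · have h2 : u < a := by
        by_contra h3
        exact h1 (hb.2 h3)
      simp [h1, h2]
  · rintro ⟨hu, hvu⟩
    unfold sideS at hu
    rw [mem_filter] at hu
    exact ⟨hu.1, hvu⟩

theorem sum_side (hh : GB n a adj) (sd : Bool) (S : Finset ℕ) :
    ∑ v ∈ sideS a sd S, dg adj S v = ∑ v ∈ sideS a (!sd) S, dg adj S v := by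
  rw [sum_congr rfl (fun v hv => dg_side hh sd S hv)]
  rw [sum_congr rfl (fun v hv => dg_side hh (!sd) S hv)]
  rw [Bool.not_not]
  have h := sum_card_bipartiteAbove_eq_sum_card_bipartiteBelow (s := sideS a sd S)
    (t := sideS a (!sd) S) (fun v w => adj v w = true)
  unfold bipartiteAbove bipartiteBelow at h
  rw [h]
  refine sum_congr rfl fun w _ => ?_
  congr 1
  apply filter_congr
  intro x _
  rw [hh.sym]

theorem sum_split (sd : Bool) (S : Finset ℕ) (f : ℕ → ℕ) :
    ∑ v ∈ S, f v = ∑ v ∈ sideS a sd S, f v + ∑ v ∈ sideS a (!sd) S, f v := by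
  rw [← side_not (a := a) sd S]
  unfold sideS
  rw [sum_filter_add_sum_filter_not]

theorem side_ge (g : ℕ × ℕ → ℕ) (sd : Bool) {S R : Finset ℕ} {M : Finset (ℕ × ℕ)} (hRS : R ⊆ S)
    (h1 : ∀ e ∈ M, g e ∈ sideS a sd S) (h2 : ∀ e ∈ M, g e ∉ R)
    (h3 : ∀ e ∈ M, ∀ f ∈ M, g e = g f → e = f) :
    (sideS a sd R).card + M.card ≤ (sideS a sd S).card := by
  have h4 : (M.image g).card = M.card := card_image_of_injOn (fun e he f hf h => h3 e he f hf h)
  have h5 : Disjoint (sideS a sd R) (M.image g) := by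
    rw [disjoint_left]
    intro x hx hx2
    obtain ⟨e, he, rfl⟩ := mem_image.1 hx2
    unfold sideS at hx
    exact h2 e he (mem_filter.1 hx).1
  rw [← h4, ← card_union_of_disjoint h5]
  apply card_le_card
  apply union_subset
  · exact filter_subset_filter _ hRS
  · intro x hx
    obtain ⟨e, he, rfl⟩ := mem_image.1 hx
    exact h1 e he

end LeafHAux

open LeafHAux

theorem cov_sideH (hh : GB n a adj) {S : Finset ℕ} (hS : S ⊆ range n) :
    ∃ m, (cov n adj S).card = 2 * m ∧ (rest n adj S).card + 2 * m = S.card ∧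
      (∀ sd, (sideS a sd S).card = (sideS a sd (rest n adj S)).card + m) ∧
      ind adj S ≤ 3 ^ m * 2 ^ (rest n adj S).card ∧
      (∀ u ∈ rest n adj S, ∀ v ∈ rest n adj S, adj u v = false) ∧ rest n adj S ⊆ S := by
  obtain ⟨hI, m, h1, h2, h3⟩ := rest_spec hh.sym hh.irr hS
  have hRS : rest n adj S ⊆ S := iterate_mStep_subset S n
  refine ⟨m, h1, h2, ?_, h3, hI, hRS⟩
  obtain ⟨M, hM, hM1, hM2⟩ := CovMatchAux_step hh.sym hh.irr (fun v => v < a) hh.bip hS n
  change (rest n adj S).card + 2 * M.card = S.card at hM1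
  change ∀ e ∈ M, e.1 ∉ rest n adj S ∧ e.2 ∉ rest n adj S at hM2
  have hMm : M.card = m := by omega
  have ht := side_ge (a := a) Prod.fst true hRS (M := M)
    (fun e he => by
      unfold sideS
      rw [mem_filter]
      exact ⟨hM.left_mem e he, by simpa using hM.left_p e he⟩)
    (fun e he => (hM2 e he).1) hM.inj_left
  have hf := side_ge (a := a) Prod.snd false hRS (M := M)
    (fun e he => by
      unfold sideS
      rw [mem_filter]
      refine ⟨hM.right_mem e he, ?_⟩
      have h5 := (hh.bip _ _ (hM.edge e he)).1 (hM.left_p e he)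
      simpa using h5)
    (fun e he => (hM2 e he).2) hM.inj_right
  have hs1 := EExpAux.card_split (a := a) true S
  have hs2 := EExpAux.card_split (a := a) true (rest n adj S)
  rw [Bool.not_true] at hs1 hs2
  intro sd
  cases sd <;> omega

theorem light_edgesH (hh : GB n a adj) {d : ℕ} {S : Finset ℕ} (hS : S ⊆ range n)
    (hl : ∀ v ∈ S, 8 * dg adj S v ≤ d) {m : ℕ} (hm : (cov n adj S).card = 2 * m) (sd : Bool) :
    4 * ∑ v ∈ sideS a sd S, dg adj S v ≤ m * d := by
  have h1 := sum_split (a := a) sd S (fun v => dg adj S v)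
  have h2 := sum_side hh sd S
  obtain ⟨hI, -⟩ := rest_spec hh.sym hh.irr hS
  have h3 := sum_dg_le hh.sym (cov_union_rest (n := n) (adj := adj) S)
    (cov_disjoint_rest (n := n) (adj := adj) S) hI
  have hcs : cov n adj S ⊆ S := filter_subset _ _
  have h4 : 8 * ∑ w ∈ cov n adj S, dg adj S w ≤ 2 * m * d := by
    rw [mul_sum, ← hm, ← smul_eq_mul (a := (cov n adj S).card)]
    exact sum_le_card_nsmul _ _ _ (fun w hw => hl w (hcs hw))
  have h5 : ∑ v ∈ S, dg adj S v = 2 * ∑ v ∈ sideS a sd S, dg adj S v := by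
    rw [h1, ← h2]
    ring
  have h6 : 2 * m * d = 2 * (m * d) := by ring
  omega

end Pool.Agent.Lib.Pa7c826h
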