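import Pool.Agent.Lib.Pa7c826h.SkelH
import Pool.Agent.Lib.Pa7c826k.Mult

/-!
The weights of skeletons are multiplicative.

PROOFS. Copy `om_mul`, `wt_w0` of `Pa7c826k/Mult.lean` with `GD n a d D sd adj` in place of
`XHost n a d A adj`, `os n a sd` in place of `a` in the exponents, `om_eqH`, `om_emptyH`, `nq_leH` in
place of `om_eq`, `om_empty`, `nq_le`. The degrees are used only in `card_NB1`, `bb_two`: for a vertex
`u` of the side `sd` the set `NB {u}` has at least `d ≥ 1` elements (`hh.low`), and a vertex of `BB X`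
is on the side `sd`.
-/

namespace Pool.Agent.Lib.Pa7c826h

open Finset Pool.Agent.Lib.Pa7c826 Pool.Agent.Lib.Pa7c826t Pool.Agent.Lib.Pa7c826e
  Pool.Agent.Lib.Pa7c826k

variable {n a d D : ℕ} {adj : ℕ → ℕ → Bool} {sd : Bool}

namespace MultHAux

open MultAux

theorem card_NB1H (hh : GD n a d D sd adj) {u : ℕ} (hu : u ∈ sideS a sd (range n)) :
    d ≤ (NB n adj {u}).card := by
  refine (hh.low u hu).trans (le_of_eq ?_)
  unfold dg
  congr 1
  ext v
  rw [mem_NB1, mem_filter, mem_range]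

/-- a vertex of `BB X` has distance two to `X` -/
theorem bb_twoH (hh : GD n a d D sd adj) {X : Finset ℕ} {u : ℕ}
    (hu : u ∈ BB n a d adj sd X) : ∃ x ∈ X, ∃ z, adj x z = true ∧ adj u z = true := by
  by_contra hc
  simp only [Pa7c826k.BB, mem_filter] at hu
  obtain ⟨hu1, _, hu2⟩ := hu
  have h1 : NB n adj {u} \ NB n adj (blw X u) = NB n adj {u} := by
    apply sdiff_eq_self_of_disjoint
    rw [disjoint_left]
    intro z hz hz2
    obtain ⟨_, x, hx, h2⟩ := mem_NB.1 hz2
    exact hc ⟨x, blw_sub X u hx, z, h2, (mem_NB1.1 hz).2⟩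
  unfold big nw at hu2
  rw [h1, decide_eq_false_iff_not] at hu2
  have := hh.hDd
  have := card_NB1H hh hu1
  omega

/-- if the neighbourhood of `u` does not meet `NB Y` -/
theorem bb_iffH (hh : GD n a d D sd adj) {X Y : Finset ℕ} {u : ℕ}
    (h : Disjoint (NB n adj {u}) (NB n adj Y)) :
    u ∈ BB n a d adj sd (X ∪ Y) ↔ u ∈ BB n a d adj sd X := by
  simp only [Pa7c826k.BB, mem_filter]
  rw [big_union h]
  constructor
  · rintro ⟨h1, h2, h3⟩
    exact ⟨h1, fun h4 => h2 (mem_union_left _ h4), h3⟩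
  · rintro ⟨h1, h2, h3⟩
    refine ⟨h1, ?_, h3⟩
    intro h4
    rcases mem_union.1 h4 with h4 | h4
    · exact h2 h4
    · have h5 := sing_sub (n := n) (adj := adj) h4
      have h6 : NB n adj {u} = ∅ := by
        rw [← disjoint_self_iff_empty]
        exact disjoint_of_subset_right h5 h
      have h7 := card_NB1H hh h1
      rw [h6, card_empty] at h7
      have := hh.hDd
      omega

theorem bb_disj_nbH (hh : GD n a d D sd adj) {X Y : Finset ℕ} (h : Far (r6 adj) X Y)
    {u : ℕ} (hu : u ∈ BB n a d adj sd X) : Disjoint (NB n adj {u}) (NB n adj Y) := by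
  obtain ⟨x, hx, z, h1, h2⟩ := bb_twoH hh hu
  rw [disjoint_left]
  intro w hw hw2
  obtain ⟨_, y, hy, h3⟩ := mem_NB.1 hw2
  exact h x hx y hy (short4 hh.sym h1 (by rw [hh.sym]; exact h2) (mem_NB1.1 hw).2
    (by rw [hh.sym]; exact h3))

theorem bb_unionH (hh : GD n a d D sd adj) {X Y : Finset ℕ} (h : Far (r6 adj) X Y) :
    BB n a d adj sd (X ∪ Y) = BB n a d adj sd X ∪ BB n a d adj sd Y := by
  ext u
  rw [mem_union]
  constructor
  · intro hu
    by_cases h1 : Disjoint (NB n adj {u}) (NB n adj Y)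
    · exact Or.inl ((bb_iffH hh h1).1 hu)
    · right
      have h2 : Disjoint (NB n adj {u}) (NB n adj X) := by
        rw [not_disjoint_iff] at h1
        obtain ⟨w, hw, hw2⟩ := h1
        obtain ⟨_, y, hy, h3⟩ := mem_NB.1 hw2
        rw [disjoint_left]
        intro z hz hz2
        obtain ⟨_, x, hx, h4⟩ := mem_NB.1 hz2
        exact h x hx y hy (short4 hh.sym h4 (by rw [hh.sym]; exact (mem_NB1.1 hz).2)
          (mem_NB1.1 hw).2 (by rw [hh.sym]; exact h3))
      rw [union_comm] at hu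
      exact (bb_iffH hh h2).1 hu
  · rintro (hu | hu)
    · exact (bb_iffH hh (bb_disj_nbH hh h hu)).2 hu
    · rw [union_comm]
      exact (bb_iffH hh (bb_disj_nbH hh (far_symm hh.sym h) hu)).2 hu

theorem bb_disjH (hh : GD n a d D sd adj) {X Y : Finset ℕ} (h : Far (r6 adj) X Y) :
    Disjoint (BB n a d adj sd X) (BB n a d adj sd Y) := by
  rw [disjoint_left]
  intro u hu hu2
  have h1 := bb_disj_nbH hh h hu
  obtain ⟨y, hy, z, h2, h3⟩ := bb_twoH hh hu2
  have hz : z < n := hh.lt z y (by rw [hh.sym]; exact h2)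
  exact disjoint_left.1 h1 (mem_NB1.2 ⟨hz, h3⟩) (mem_NB.2 ⟨hz, y, hy, h2⟩)

theorem qq_unionH (hh : GD n a d D sd adj) {X Y : Finset ℕ} (h : Far (r6 adj) X Y) :
    QQ n a d adj sd (X ∪ Y) = QQ n a d adj sd X ∪ QQ n a d adj sd Y := by
  ext q
  rw [mem_union, mem_QQ, mem_QQ, mem_QQ, bb_unionH hh h, NB_union]
  simp only [mem_union, not_or]
  constructor
  · rintro ⟨⟨h1, b, hb | hb, h2⟩, h3, h4⟩
    · exact Or.inl ⟨⟨h1, b, hb, h2⟩, h3⟩
    · exact Or.inr ⟨⟨h1, b, hb, h2⟩, h4⟩
  · rintro (⟨⟨h1, b, hb, h2⟩, h3⟩ | ⟨⟨h1, b, hb, h2⟩, h3⟩)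
    · exact ⟨⟨h1, b, Or.inl hb, h2⟩, h3,
        disjoint_left.1 (bb_disj_nbH hh h hb) (mem_NB1.2 ⟨h1, h2⟩)⟩
    · exact ⟨⟨h1, b, Or.inr hb, h2⟩,
        disjoint_left.1 (bb_disj_nbH hh (far_symm hh.sym h) hb) (mem_NB1.2 ⟨h1, h2⟩), h3⟩

/-- no common neighbour of `BB X` and `BB Y` -/
theorem bb_farH (hh : GD n a d D sd adj) {X Y : Finset ℕ} (h : Far (r6 adj) X Y)
    {b b' q : ℕ} (hb : b ∈ BB n a d adj sd X) (hb' : b' ∈ BB n a d adj sd Y)
    (h1 : adj b q = true) (h2 : adj b' q = true) : False := by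
  obtain ⟨x, hx, z, h3, h4⟩ := bb_twoH hh hb
  obtain ⟨y, hy, z', h5, h6⟩ := bb_twoH hh hb'
  exact h x hx y hy (Or.inr ⟨z, b, q, b', z', h3, by rw [hh.sym]; exact h4, h1,
    by rw [hh.sym]; exact h2, h6, by rw [hh.sym]; exact h5⟩)

theorem qq_sideH (hh : GD n a d D sd adj) {X : Finset ℕ} :
    QQ n a d adj sd X ⊆ sideS a (!sd) (range n) :=
  sdiff_subset.trans (nb_sideH hh.toGB bb_side)

/-- vertices on the same side are not adjacent -/
theorem side_irrH (hh : GD n a d D sd adj) {s : Bool} {u v : ℕ}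
    (hu : u ∈ sideS a s (range n)) (hv : v ∈ sideS a s (range n)) : adj u v = false := by
  by_contra hc
  rw [Bool.not_eq_false] at hc
  have h1 := hh.bip u v hc
  have h2 := (mem_filter.1 hu).2
  have h3 := (mem_filter.1 hv).2
  cases s with
  | true =>
    rw [decide_eq_true_eq] at h2 h3
    exact h1.1 h2 h3
  | false =>
    rw [decide_eq_false_iff_not] at h2 h3
    exact h2 (h1.2 h3)

end MultHAux

open MultAux MultHAux

theorem om_mulH (hh : GD n a d D sd adj) {X Y : Finset ℕ} (h : Far (r6 adj) X Y) :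
    om n a d adj sd (X ∪ Y) * 2 ^ os n a sd = om n a d adj sd X * om n a d adj sd Y := by
  by_cases hc : (X ∪ Y) ⊆ sideS a sd (range n) ∧ Val n d adj (X ∪ Y)
  · obtain ⟨hsub, hval⟩ := hc
    have hX : X ⊆ sideS a sd (range n) := subset_union_left.trans hsub
    have hY : Y ⊆ sideS a sd (range n) := subset_union_right.trans hsub
    obtain ⟨vX, vY⟩ := (val_union hh.sym h).1 hval
    rw [om_eqH hh.toGB hsub hval, om_eqH hh.toGB hX vX, om_eqH hh.toGB hY vY]
    have hle := nq_leH (d := d) hh.toGB hsub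
    have dN : Disjoint (NB n adj X) (NB n adj Y) := disj_NB hh.sym h
    have dQ : Disjoint (QQ n a d adj sd X) (QQ n a d adj sd Y) := by
      rw [disjoint_left]
      intro q hq hq2
      obtain ⟨⟨_, b, hb, h1⟩, _⟩ := mem_QQ.1 hq
      obtain ⟨⟨_, b', hb', h2⟩, _⟩ := mem_QQ.1 hq2
      exact bb_farH hh h hb hb' h1 h2
    rw [NB_union, qq_unionH hh h, card_union_of_disjoint dN, card_union_of_disjoint dQ] at hle ⊢
    have hS : BB n a d adj sd (X ∪ Y) ∪ (QQ n a d adj sd X ∪ QQ n a d adj sd Y) =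
        (BB n a d adj sd X ∪ QQ n a d adj sd X) ∪ (BB n a d adj sd Y ∪ QQ n a d adj sd Y) := by
      rw [bb_unionH hh h]
      ext u
      simp only [mem_union]
      tauto
    rw [hS, ind_union hh.sym]
    · have e1 : 2 ^ (os n a sd - ((NB n adj X).card + (NB n adj Y).card +
          ((QQ n a d adj sd X).card + (QQ n a d adj sd Y).card))) * 2 ^ os n a sd =
          2 ^ (os n a sd - ((NB n adj X).card + (QQ n a d adj sd X).card)) *
            2 ^ (os n a sd - ((NB n adj Y).card + (QQ n a d adj sd Y).card)) := by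
        rw [← pow_add, ← pow_add]
        congr 1
        omega
      calc _ = (2 ^ (os n a sd - ((NB n adj X).card + (NB n adj Y).card +
          ((QQ n a d adj sd X).card + (QQ n a d adj sd Y).card))) * 2 ^ os n a sd) *
          (ind adj (BB n a d adj sd X ∪ QQ n a d adj sd X) *
            ind adj (BB n a d adj sd Y ∪ QQ n a d adj sd Y)) := by ring
        _ = _ := by rw [e1]; ring
    · rw [disjoint_left]
      intro u hu hu2
      rcases mem_union.1 hu with hu | hu <;> rcases mem_union.1 hu2 with hu2 | hu2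
      · exact disjoint_left.1 (bb_disjH hh h) hu hu2
      · exact side_disj (bb_side hu) (qq_sideH hh hu2)
      · exact side_disj (bb_side hu2) (qq_sideH hh hu)
      · exact disjoint_left.1 dQ hu hu2
    · intro u hu v hv
      rcases mem_union.1 hu with hu | hu <;> rcases mem_union.1 hv with hv | hv
      · exact side_irrH hh (bb_side hu) (bb_side hv)
      · by_contra hc
        rw [Bool.not_eq_false] at hc
        obtain ⟨⟨_, b', hb', h2⟩, _⟩ := mem_QQ.1 hv
        exact bb_farH hh h hu hb' hc h2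
      · by_contra hc
        rw [Bool.not_eq_false] at hc
        obtain ⟨⟨_, b', hb', h2⟩, _⟩ := mem_QQ.1 hu
        exact bb_farH hh h hb' hv h2 (by rw [hh.sym]; exact hc)
      · exact side_irrH hh (qq_sideH hh hu) (qq_sideH hh hv)
  · rw [om_zero hc, zero_mul]
    by_cases hX : X ⊆ sideS a sd (range n) ∧ Val n d adj X
    · have hY : ¬ (Y ⊆ sideS a sd (range n) ∧ Val n d adj Y) := fun hY =>
        hc ⟨union_subset hX.1 hY.1, (val_union hh.sym h).2 ⟨hX.2, hY.2⟩⟩
      rw [om_zero hY, mul_zero]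
    · rw [om_zero hX, zero_mul]

theorem wt_w1 (hh : GD n a d D sd adj) : Wt (r6 adj) (w1 n a d adj sd) where
  emp := by
    unfold w1
    rw [om_emptyH hh]
    push_cast
    exact div_self (by positivity)
  nn := by
    intro X
    unfold w1
    positivity
  mul := by
    intro X Y h
    unfold w1
    have h1 : (om n a d adj sd (X ∪ Y) : ℝ) * 2 ^ os n a sd = om n a d adj sd X * om n a d adj sd Y := by
      exact_mod_cast om_mulH hh h
    have h2 : (2 : ℝ) ^ a ≠ 0 := by positivity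
    rw [div_mul_div_comm, ← h1]
    field_simp

end Pool.Agent.Lib.Pa7c826h
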