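import Pool.Agent.Lib.Pa7c826h.BBh
import Pool.Agent.Lib.Pa7c826k.Nodes

/-!
The number of nodes of the trees.

PROOFS. Copy `nodes_bq` of `Pa7c826k/Nodes.lean` (with `NodesAux.len_bd`), with `t0` in place of
`|Z|`: `7 |BB| ≤ 8 |NB Z| ≤ 8 t0 d` (`bb_cardH`), `d |y.2| ≤ 8 |BB|` (`lvT_cnt`, `bb_lightH`), so
`|y.2| ≤ 10 t0`; `|BB ∪ QQ| ≤ |BB| + d |BB| / 8 ≤ d ^ 2 t0` (`qq_cardH`, `2 ≤ d`). The number of nodes is
at most `(d ^ 2) ^ (10 t0) * exp 1 ^ t0 ≤ 2 ^ (20 l t0 + 2 t0) ≤ 2 ^ (21 l t0)`.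
-/

namespace Pool.Agent.Lib.Pa7c826h

open Finset Pool.Agent.Lib.Pa7c826 Pool.Agent.Lib.Pa7c826t Pool.Agent.Lib.Pa7c826e
  Pool.Agent.Lib.Pa7c826k

variable {n a d D l : ℕ} {adj : ℕ → ℕ → Bool} {sd : Bool} {Z : Finset ℕ}

theorem nodesH (hh : GD n a d D sd adj) (hl : d < 2 ^ l) (hl2 : 2 ≤ l) (hd : 2 ≤ d)
    (hZ : Z ⊆ sideS a sd (range n)) {t0 : ℕ} (hT : (NB n adj Z).card ≤ t0 * d) (t : ℕ) :
    (lvT n d 8 adj (BB n a d adj sd Z ∪ QQ n a d adj sd Z, ∅) t).length ≤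
      2 ^ (21 * l * t0) := by
  have hBn : BB n a d adj sd Z ⊆ range n := by
    intro x hx
    unfold Pool.Agent.Lib.Pa7c826k.BB sideS at hx
    exact (mem_filter.1 (mem_filter.1 hx).1).1
  have hQn : QQ n a d adj sd Z ⊆ range n := by
    intro x hx
    unfold QQ NB at hx
    exact (mem_filter.1 (mem_sdiff.1 hx).1).1
  have hS : BB n a d adj sd Z ∪ QQ n a d adj sd Z ⊆ range n := union_subset hBn hQn
  have b1 := bb_cardH hh hZ
  have b3 : 8 * (QQ n a d adj sd Z).card ≤ d * (BB n a d adj sd Z).card := qq_cardH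
  have b2 : t0 * d = d * t0 := Nat.mul_comm _ _
  have b4 : 7 * (BB n a d adj sd Z).card ≤ 8 * (d * t0) := by omega
  have hK : ∀ y ∈ lvT n d 8 adj (BB n a d adj sd Z ∪ QQ n a d adj sd Z, ∅) t,
      y.2.card ≤ 10 * t0 := by
    intro y hy
    have h1 := (lvT_cnt (n := n) (m := d) (g := 8) (adj := adj)
      (S₀ := BB n a d adj sd Z ∪ QQ n a d adj sd Z) hS (B := BB n a d adj sd Z)
      (C := QQ n a d adj sd Z)
      (fun S hS v hv hvd => bb_lightH hh.toGB hS hv hvd) t y hy).2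
    have h2 : d * (7 * y.2.card) ≤ d * (70 * t0) := by
      calc d * (7 * y.2.card) = 7 * (d * y.2.card) := by ring
        _ ≤ 8 * (7 * (BB n a d adj sd Z).card) := by omega
        _ ≤ 8 * (8 * (d * t0)) := by omega
        _ = d * (64 * t0) := by ring
        _ ≤ d * (70 * t0) := Nat.mul_le_mul_left d (by omega)
    have h3 := Nat.le_of_mul_le_mul_left h2 (by omega)
    omega
  have hM : (BB n a d adj sd Z ∪ QQ n a d adj sd Z).card ≤ (d ^ 2) * t0 := by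
    have h1 := card_union_le (BB n a d adj sd Z) (QQ n a d adj sd Z)
    have h2 : d * (7 * (BB n a d adj sd Z).card) ≤ d * (8 * (d * t0)) :=
      Nat.mul_le_mul_left d b4
    have h3 : 2 * (d * t0) ≤ d * (d * t0) := Nat.mul_le_mul_right _ hd
    have h4 : d ^ 2 * t0 = d * (d * t0) := by ring
    have h5 : d * (7 * (BB n a d adj sd Z).card) = 7 * (d * (BB n a d adj sd Z).card) := by ring
    have h6 : d * (8 * (d * t0)) = 8 * (d * (d * t0)) := by ring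
    rw [h4]
    omega
  have h1 := NodesAux.len_bd (n := n) (m := d) (g := 8) (adj := adj) (D := d ^ 2)
    (Nat.one_le_pow _ _ (by omega)) hS t (10 * t0) t0 hK hM
  have he : Real.exp 1 ≤ (2 : ℝ) ^ 2 := by
    have h2 := Real.exp_one_lt_d9
    linarith
  have h2 : (Real.exp 1) ^ t0 ≤ (2 : ℝ) ^ (2 * t0) := by
    rw [pow_mul]
    exact pow_le_pow_left₀ (by positivity) he _
  have h3 : ((d ^ 2 : ℕ) : ℝ) ^ (10 * t0) ≤ (2 : ℝ) ^ (l * (20 * t0)) := by
    rw [pow_mul (2 : ℝ) l]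
    have h4 : ((d ^ 2 : ℕ) : ℝ) ^ (10 * t0) = (d : ℝ) ^ (20 * t0) := by
      push_cast
      rw [← pow_mul]
      congr 1
      ring
    rw [h4]
    refine pow_le_pow_left₀ (by positivity) ?_ _
    exact_mod_cast hl.le
  have h4 : ((lvT n d 8 adj (BB n a d adj sd Z ∪ QQ n a d adj sd Z, ∅) t).length : ℝ) ≤
      (2 : ℝ) ^ (21 * l * t0) := by
    refine h1.trans ((mul_le_mul h3 h2 (by positivity) (by positivity)).trans ?_)
    rw [← pow_add]
    refine pow_le_pow_right₀ (by norm_num) ?_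
    have : 2 * t0 ≤ l * t0 := Nat.mul_le_mul_right _ hl2
    nlinarith
  exact_mod_cast h4

end Pool.Agent.Lib.Pa7c826h
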