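import Pool.Agent.Lib.Pa7c826h.SumW

/-!
The sets with a given skeleton.

PROOFS. Copy `Pa7c826k/SkelEq.lean` (`nq_le`, `om_eq`, `om_empty`) with `GB n a adj` in place of
`XHost n a d A adj`, `nb_sideH` in place of `nb_side`, `os n a sd` in place of `a` (`card_side`); the
lemmas of `SkelEqAux` there that use the host graph (`QQ_side`, `bip_side`) have to be restated.
`om_emptyH`: for `u ∈ sideS a sd (range n)` the set `NB {u}` has at least `d` elements (`hh.low`) and
`1 ≤ d`, so `BB ∅ = ∅`. `w1_eq`: as `OmErrAux.w0_eq` (`Pa7c826k/OmErr.lean`).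
-/

namespace Pool.Agent.Lib.Pa7c826h

open Finset Pool.Agent.Lib.Pa7c826 Pool.Agent.Lib.Pa7c826t Pool.Agent.Lib.Pa7c826e
  Pool.Agent.Lib.Pa7c826k

namespace SkelHAux

open SkelEqAux

theorem QQ_sideH {n a d : ℕ} {adj : ℕ → ℕ → Bool} (hh : GB n a adj) (sd : Bool)
    (Z : Finset ℕ) : QQ n a d adj sd Z ⊆ sideS a (!sd) (range n) := by
  intro v hv
  exact nb_sideH hh (BB_side n a d adj sd Z) (mem_QQ.1 hv).1

theorem bip_sideH {n a : ℕ} {adj : ℕ → ℕ → Bool} (hh : GB n a adj) {sd : Bool}
    {u v : ℕ} (hu : u ∈ sideS a sd (range n)) (huv : adj u v = true) :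
    v ∈ sideS a (!sd) (range n) := by
  have h1 : v < n := hh.lt v u (by rw [hh.sym]; exact huv)
  exact nb_sideH hh (X := {u}) (singleton_subset_iff.2 hu)
    (mem_NB.2 ⟨h1, u, mem_singleton_self _, huv⟩)

end SkelHAux

open SkelEqAux SkelHAux

variable {n a d D : ℕ} {adj : ℕ → ℕ → Bool} {sd : Bool} {Z : Finset ℕ}

theorem nq_leH (hh : GB n a adj) (hZ : Z ⊆ sideS a sd (range n)) :
    (NB n adj Z).card + (QQ n a d adj sd Z).card ≤ os n a sd := by
  rw [← card_union_of_disjoint (NQ_disj n a d adj sd Z)]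
  exact (card_le_card (union_subset (nb_sideH hh hZ) (QQ_sideH hh sd Z))).trans
    le_rfl

theorem om_eqH (hh : GB n a adj) (hZ : Z ⊆ sideS a sd (range n))
    (hV : Val n d adj Z) :
    om n a d adj sd Z = 2 ^ (os n a sd - ((NB n adj Z).card + (QQ n a d adj sd Z).card)) *
      ind adj (BB n a d adj sd Z ∪ QQ n a d adj sd Z) := by
  classical
  set S' := BB n a d adj sd Z ∪ QQ n a d adj sd Z with hS'
  set R := sideS a (!sd) (range n) \ (NB n adj Z ∪ QQ n a d adj sd Z) with hR
  have hZn : Z ⊆ range n := hZ.trans side_le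
  have hS'n : S' ⊆ range n := union_subset ((BB_side n a d adj sd Z).trans side_le)
    ((QQ_sideH hh sd Z).trans side_le)
  have hRn : R ⊆ range n := sdiff_subset.trans side_le
  have hRc : R.card = os n a sd - ((NB n adj Z).card + (QQ n a d adj sd Z).card) := by
    rw [hR, card_sdiff_of_subset (union_subset (nb_sideH hh hZ) (QQ_sideH hh sd Z)),
      card_union_of_disjoint (NQ_disj n a d adj sd Z)]
    rfl
  have hRmem : ∀ v, v ∈ R ↔ v ∈ sideS a (!sd) (range n) ∧ v ∉ NB n adj Z ∧
      v ∉ QQ n a d adj sd Z := by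
    intro v
    rw [hR, mem_sdiff, mem_union, not_or]
  have hT : (IS adj S' ×ˢ R.powerset).card =
      2 ^ (os n a sd - ((NB n adj Z).card + (QQ n a d adj sd Z).card)) * ind adj S' := by
    rw [card_product, card_powerset, card_IS, hRc, Nat.mul_comm]
  rw [← hT]
  unfold om
  refine card_nbij' (fun I => (I ∩ S', I ∩ R)) (fun q => Z ∪ q.1 ∪ q.2) ?_ ?_ ?_ ?_
  · intro I hI
    rw [mem_coe, mem_filter, mem_IS] at hI
    rw [mem_coe, mem_product, mem_IS, mem_powerset]
    refine ⟨⟨inter_subset_right, fun u hu v hv => ?_⟩, inter_subset_right⟩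
    exact hI.1.2 u (mem_inter.1 hu).1 v (mem_inter.1 hv).1
  · rintro ⟨J, W⟩ hJW
    rw [mem_coe, mem_product, mem_IS, mem_powerset] at hJW
    obtain ⟨⟨hJ, hJi⟩, hW⟩ := hJW
    simp only at hJ hJi hW
    rw [mem_coe, mem_filter, mem_IS]
    have hsub : Z ∪ J ∪ W ⊆ range n :=
      union_subset (union_subset hZn (hJ.trans hS'n)) (hW.trans hRn)
    -- the two parts
    have hpart1 : ∀ u ∈ Z ∪ J ∪ W, u ∈ sideS a sd (range n) → u ∈ Z ∨ (u ∈ J ∧
        u ∈ BB n a d adj sd Z) := by
      intro u hu hs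
      rcases mem_union.1 hu with hu | hu
      · rcases mem_union.1 hu with hu | hu
        · exact Or.inl hu
        · rcases mem_union.1 (hJ hu) with h1 | h1
          · exact Or.inr ⟨hu, h1⟩
          · exact (side_ne hs (QQ_sideH hh sd Z h1)).elim
      · exact (side_ne hs ((hRmem u).1 (hW hu)).1).elim
    have hpart2 : ∀ u ∈ Z ∪ J ∪ W, u ∈ sideS a (!sd) (range n) →
        (u ∈ J ∧ u ∈ QQ n a d adj sd Z) ∨ u ∈ R := by
      intro u hu hs
      rcases mem_union.1 hu with hu | hu
      · rcases mem_union.1 hu with hu | hu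
        · exact (side_ne (hZ hu) hs).elim
        · rcases mem_union.1 (hJ hu) with h1 | h1
          · exact (side_ne (BB_side n a d adj sd Z h1) hs).elim
          · exact Or.inl ⟨hu, h1⟩
      · exact Or.inr (hW hu)
    have key : ∀ u ∈ Z ∪ J ∪ W, ∀ v ∈ Z ∪ J ∪ W, u ∈ sideS a sd (range n) →
        adj u v = true → False := by
      intro u hu v hv hus huv
      have hvs := bip_sideH hh hus huv
      have hvn : v < n := mem_range.1 (side_le hvs)
      rcases hpart1 u hu hus with h1 | ⟨h1, h1'⟩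
      · have h2 : v ∈ NB n adj Z := mem_NB.2 ⟨hvn, u, h1, huv⟩
        rcases hpart2 v hv hvs with ⟨_, h3⟩ | h3
        · exact (mem_QQ.1 h3).2 h2
        · exact ((hRmem v).1 h3).2.1 h2
      · rcases hpart2 v hv hvs with ⟨h3, _⟩ | h3
        · have := hJi u h1 v h3
          rw [huv] at this
          exact absurd this (by simp)
        · have h4 : v ∈ NB n adj (BB n a d adj sd Z) := mem_NB.2 ⟨hvn, u, h1', huv⟩
          have h5 := (hRmem v).1 h3
          exact h5.2.2 (mem_QQ.2 ⟨h4, h5.2.1⟩)
    refine ⟨⟨hsub, fun u hu v hv => ?_⟩, ?_⟩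
    · rw [← Bool.not_eq_true]
      intro huv
      rcases side_or (a := a) sd (hsub hu) with hs | hs
      · exact key u hu v hv hs huv
      · have h1 := bip_sideH hh hs huv
        rw [Bool.not_not] at h1
        exact key v hv u hu h1 (by rw [hh.sym]; exact huv)
    · rw [skel_iff (side_mono hsub)]
      refine ⟨fun u hu => ?_, hV, fun u hu => ?_⟩
      · rw [mem_side]
        exact ⟨mem_union_left _ (mem_union_left _ hu), (mem_side.1 (hZ hu)).2⟩
      · have h1 := mem_side.1 hu
        rcases hpart1 u h1.1 (mem_side.2 ⟨hsub h1.1, h1.2⟩) with h2 | h2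
        · exact mem_union_left _ h2
        · exact mem_union_right _ h2.2
  · intro I hI
    rw [mem_coe, mem_filter, mem_IS] at hI
    obtain ⟨⟨hIn, hIi⟩, hsk⟩ := hI
    rw [skel_iff (side_mono hIn)] at hsk
    obtain ⟨hZI, _, hIZ⟩ := hsk
    have hZI' : Z ⊆ I := hZI.trans side_le
    simp only
    ext x
    simp only [mem_union, mem_inter]
    constructor
    · rintro ((h | h) | h)
      · exact hZI' h
      · exact h.1
      · exact h.1
    · intro hx
      rcases side_or (a := a) sd hx with hs | hs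
      · rcases mem_union.1 (hIZ hs) with h1 | h1
        · exact Or.inl (Or.inl h1)
        · exact Or.inl (Or.inr ⟨hx, by rw [hS']; exact mem_union_left _ h1⟩)
      · have h1 : x ∉ NB n adj Z := by
          intro h2
          obtain ⟨_, u, hu, hux⟩ := mem_NB.1 h2
          have := hIi u (hZI' hu) x hx
          rw [hux] at this
          exact absurd this (by simp)
        by_cases h2 : x ∈ QQ n a d adj sd Z
        · exact Or.inl (Or.inr ⟨hx, by rw [hS']; exact mem_union_right _ h2⟩)
        · exact Or.inr ⟨hx, (hRmem x).2 ⟨side_mono hIn hs, h1, h2⟩⟩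
  · rintro ⟨J, W⟩ hJW
    rw [mem_coe, mem_product, mem_IS, mem_powerset] at hJW
    obtain ⟨⟨hJ, hJi⟩, hW⟩ := hJW
    simp only at hJ hJi hW
    have h1 : ∀ x ∈ Z, x ∉ S' := by
      intro x hx hx'
      rcases mem_union.1 hx' with h | h
      · exact (mem_BB.1 h).2.1 hx
      · exact side_ne (hZ hx) (QQ_sideH hh sd Z h)
    have h2 : ∀ x ∈ R, x ∉ S' := by
      intro x hx hx'
      have h3 := (hRmem x).1 hx
      rcases mem_union.1 hx' with h | h
      · exact side_ne (BB_side n a d adj sd Z h) h3.1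
      · exact h3.2.2 h
    have h3 : ∀ x ∈ Z, x ∉ R := by
      intro x hx hx'
      exact side_ne (hZ hx) ((hRmem x).1 hx').1
    simp only [Prod.mk.injEq]
    constructor
    · ext x
      simp only [mem_union, mem_inter]
      constructor
      · rintro ⟨(h | h) | h, h'⟩
        · exact (h1 x h h').elim
        · exact h
        · exact (h2 x (hW h) h').elim
      · intro h
        exact ⟨Or.inl (Or.inr h), hJ h⟩
    · ext x
      simp only [mem_union, mem_inter]
      constructor
      · rintro ⟨(h | h) | h, h'⟩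
        · exact (h3 x h h').elim
        · exact (h2 x h' (hJ h)).elim
        · exact h
      · intro h
        exact ⟨Or.inr h, hW h⟩

theorem om_emptyH (hh : GD n a d D sd adj) : om n a d adj sd ∅ = 2 ^ os n a sd := by
  have hNB : NB n adj ∅ = ∅ := by
    ext v
    rw [mem_NB]
    simp
  have hblw : ∀ u, blw ∅ u = ∅ := by
    intro u
    ext x
    rw [mem_blw]
    simp
  have hBB : BB n a d adj sd ∅ = ∅ := by
    rw [eq_empty_iff_forall_notMem]
    intro u hu
    obtain ⟨h1, _, h2⟩ := mem_BB.1 hu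
    rw [hblw] at h2
    have hun : u < n := mem_range.1 (side_le h1)
    have h3 : nw n adj ∅ u = dg adj (range n) u := by
      unfold nw
      rw [hNB, sdiff_empty]
      unfold dg NB
      congr 1
      refine filter_congr fun v _ => ?_
      simp
    have h5 := hh.low u h1
    have h6 := hh.hDd
    unfold big at h2
    rw [h3] at h2
    simp only [decide_eq_false_iff_not] at h2
    omega
  have hQQ : QQ n a d adj sd ∅ = ∅ := by
    unfold QQ
    rw [hBB, hNB, sdiff_self]
    rfl
  rw [om_eqH hh.toGB (empty_subset _) (fun u hu => absurd hu (notMem_empty u)), hBB, hQQ, hNB,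
    empty_union, card_empty]
  have h4 : ind adj ∅ = 1 := by
    unfold ind
    rw [powerset_empty]
    rfl
  rw [h4, Nat.add_zero, Nat.sub_zero, Nat.mul_one]

theorem w1_eq (hh : GB n a adj) (hZ : Z ⊆ sideS a sd (range n)) (hV : Val n d adj Z) :
    w1 n a d adj sd Z = (ind adj (BB n a d adj sd Z ∪ QQ n a d adj sd Z) : ℝ) /
      2 ^ ((NB n adj Z).card + (QQ n a d adj sd Z).card) := by
  unfold w1
  rw [om_eqH hh hZ hV]
  have hle := nq_leH (d := d) hh hZ
  set E := (NB n adj Z).card + (QQ n a d adj sd Z).card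
  push_cast
  have h1 : (2 : ℝ) ^ os n a sd = 2 ^ (os n a sd - E) * 2 ^ E := by
    rw [← pow_add]
    congr 1
    omega
  rw [h1]
  field_simp

end Pool.Agent.Lib.Pa7c826h
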