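import Pool.Agent.Lib.Pa7c826h.LeafH
import Pool.Agent.Lib.Pa7c826h.BBh
import Pool.Agent.Lib.Pa7c826k.WB

/-!
The leaves of the trees.

PROOFS. Copy `leaf_bq` and `leaf_dead` of `Pa7c826k/WB.lean` without the part about the expansion
(nothing about `A`, the set `X` there, `hs`). The only change: in step (1) the vertices of `L = Z ∪ SB`
have degree at least `d` (`hh.low`), and the vertices of `W` are on the side `!sd` and have degree at
most `D ≤ d` (`hh.rgt`, `hh.hDd`): `d |L| ≤ D |W| + m d / 4 ≤ d |W| + m d / 4`. `pow_aux`: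
`Pa7c826k/LeafF.lean`; `lvT_tree`, `lvT_cnt`: `Pa7c826k/Tree.lean`.
-/

namespace Pool.Agent.Lib.Pa7c826h

open Finset Pool.Agent.Lib.Pa7c826 Pool.Agent.Lib.Pa7c826t Pool.Agent.Lib.Pa7c826e
  Pool.Agent.Lib.Pa7c826k

variable {n a d D : ℕ} {adj : ℕ → ℕ → Bool} {sd : Bool} {Z : Finset ℕ}

open WBAux

theorem leaf_bqH (hh : GD n a d D sd adj) (hZ : Z ⊆ sideS a sd (range n)) {y : Nd}
    (hy : y ∈ lvT n d 8 adj (BB n a d adj sd Z ∪ QQ n a d adj sd Z, ∅) n) :
    ∃ e m, (cov n adj y.1).card = 2 * m ∧ 7 * m ≤ 4 * e ∧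
      (rest n adj y.1).card + e + Z.card + y.2.card =
        (NB n adj Z).card + (QQ n a d adj sd Z).card ∧
      2 ^ e * ind adj y.1 ^ 12 ≤ 2 ^ (12 * ((NB n adj Z).card + (QQ n a d adj sd Z).card)) := by
  classical
  obtain ⟨S, J⟩ := y
  show ∃ e m, (cov n adj S).card = 2 * m ∧ 7 * m ≤ 4 * e ∧
      (rest n adj S).card + e + Z.card + J.card =
        (NB n adj Z).card + (QQ n a d adj sd Z).card ∧
      2 ^ e * ind adj S ^ 12 ≤ 2 ^ (12 * ((NB n adj Z).card + (QQ n a d adj sd Z).card))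
  have hBsd : BB n a d adj sd Z ⊆ sideS a sd (range n) := bb_side
  have hQsd : QQ n a d adj sd Z ⊆ sideS a (!sd) (range n) := sdiff_subset.trans (nb_sideH hh.toGB bb_side)
  have hNsd : NB n adj Z ⊆ sideS a (!sd) (range n) := nb_sideH hh.toGB hZ
  have hBr : BB n a d adj sd Z ⊆ range n := fun v hv => mem_range.2 (side_lt (hBsd hv))
  have hQr : QQ n a d adj sd Z ⊆ range n := fun v hv => mem_range.2 (side_lt (hQsd hv))
  have hZr : Z ⊆ range n := fun v hv => mem_range.2 (side_lt (hZ hv))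
  have h0 : BB n a d adj sd Z ∪ QQ n a d adj sd Z ⊆ range n := union_subset hBr hQr
  obtain ⟨hS, -, hdSJ, hJJ, hJS⟩ := lvT_tree (m := d) (g := 8) hh.sym hh.irr h0 n _ hy
  obtain ⟨hJQ, -⟩ := lvT_cnt (m := d) (g := 8) (adj := adj) h0 (B := BB n a d adj sd Z)
    (C := QQ n a d adj sd Z) (fun S hS v hv h => bb_lightH hh.toGB hS hv h) n _ hy
  have hlight := lvT_light (m := d) (g := 8) (ad := adj) (n := n) (x := (BB n a d adj sd Z ∪ QQ n a d adj sd Z, ∅)) h0 _ hy
  simp only at hS hdSJ hJJ hJS hJQ hlight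
  have hSr : S ⊆ range n := hS.trans h0
  have hlt : ∀ v ∈ S, 8 * dg adj S v ≤ d := by
    intro v hv
    have h1 := hlight v
    unfold hvy at h1
    simp only [hv, decide_true, Bool.true_and, decide_eq_false_iff_not, not_le] at h1
    exact h1.le
  obtain ⟨m, hm1, hm2, hm3, hm4, hm5, hm6⟩ := cov_sideH hh.toGB hSr
  have hle := light_edgesH hh.toGB hSr hlt hm1 sd
  have hDd := hh.hDd
  -- names
  obtain ⟨B, hB⟩ : ∃ B, B = BB n a d adj sd Z := ⟨_, rfl⟩
  obtain ⟨Q, hQ⟩ : ∃ Q, Q = QQ n a d adj sd Z := ⟨_, rfl⟩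
  obtain ⟨N, hN⟩ : ∃ N, N = NB n adj Z := ⟨_, rfl⟩
  have hNBB : NB n adj B ⊆ N ∪ Q := by
    intro v hv
    rw [mem_union, hN, hQ, mem_qq]
    by_cases h : v ∈ NB n adj Z
    · exact Or.inl h
    · right
      rw [hB] at hv
      exact ⟨hv, h⟩
  have hdNQ : Disjoint N Q := by
    rw [disjoint_left]
    intro v h1 h2
    rw [hQ, mem_qq] at h2
    rw [hN] at h1
    exact h2.2 h1
  have hdZB : Disjoint Z B := by
    rw [disjoint_left]
    intro v h1 h2
    rw [hB, mem_bb] at h2
    exact h2.2.1 h1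
  have hNr : N ⊆ range n := by
    rw [hN]
    exact fun v hv => mem_range.2 (side_lt (hNsd hv))
  rw [← hB] at hBsd hBr hS
  rw [← hQ] at hQsd hQr hS hJQ ⊢
  rw [← hN] at hNsd ⊢
  clear hlight hy h0
  obtain ⟨SB, hSB⟩ : ∃ SB, SB = sideS a sd S := ⟨_, rfl⟩
  obtain ⟨SQ, hSQ⟩ : ∃ SQ, SQ = sideS a (!sd) S := ⟨_, rfl⟩
  have hBQ : ∀ v, v ∈ B → v ∈ sideS a (!sd) (range n) → False := by
    intro v h1 h2
    have h3 := (mem_side.1 (hBsd h1)).2
    have h4 := (mem_side.1 h2).2
    rw [h3] at h4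
    cases sd <;> simp at h4
  have hQB : ∀ v, v ∈ Q → v ∈ sideS a sd (range n) → False := by
    intro v h1 h2
    have h3 := (mem_side.1 (hQsd h1)).2
    have h4 := (mem_side.1 h2).2
    rw [h3] at h4
    cases sd <;> simp at h4
  have hSBB : SB ⊆ B := by
    intro v hv
    rw [hSB] at hv
    rcases mem_union.1 (hS (mem_side.1 hv).1) with h | h
    · exact h
    · exact absurd (EExpAux.side_sub hSr hv) (fun h2 => hQB v h h2)
  have hSQQ : SQ ⊆ Q := by
    intro v hv
    rw [hSQ] at hv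
    rcases mem_union.1 (hS (mem_side.1 hv).1) with h | h
    · exact absurd (EExpAux.side_sub hSr hv) (fun h2 => hBQ v h h2)
    · exact h
  have hSBS : SB ⊆ S := by rw [hSB]; exact filter_subset _ _
  have hSQS : SQ ⊆ S := by rw [hSQ]; exact filter_subset _ _
  have hSsplit : ∀ v ∈ S, v ∈ SB ∨ v ∈ SQ := by
    intro v hv
    rw [hSB, hSQ, mem_side, mem_side]
    by_cases h : decide (v < a) = sd
    · exact Or.inl ⟨hv, h⟩
    · right
      refine ⟨hv, ?_⟩
      cases sd <;> simp_all
  have hScard : S.card = SB.card + SQ.card := by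
    have h1 : S = SB ∪ SQ := by
      ext v
      rw [mem_union]
      exact ⟨hSsplit v, fun h => h.elim (fun h => hSBS h) (fun h => hSQS h)⟩
    have h2 : Disjoint SB SQ := by
      rw [disjoint_left]
      intro v h3 h4
      exact hBQ v (hSBB h3) (hQsd (hSQQ h4))
    conv_lhs => rw [h1]
    exact card_union_of_disjoint h2
  obtain ⟨W, hW⟩ : ∃ W, W = N ∪ (Q \ (S ∪ J)) := ⟨_, rfl⟩
  have hWcard : N.card + Q.card = W.card + SQ.card + J.card := by
    have h1 : W.card = N.card + (Q \ (S ∪ J)).card := by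
      rw [hW]
      exact card_union_of_disjoint (disjoint_of_subset_right sdiff_subset hdNQ)
    have h2 : Q.card = (Q \ (S ∪ J)).card + (SQ ∪ J).card := by
      have h3 : Q ∩ (S ∪ J) = SQ ∪ J := by
        ext v
        rw [mem_inter, mem_union, mem_union]
        constructor
        · rintro ⟨h4, h5 | h5⟩
          · rcases hSsplit v h5 with h6 | h6
            · exact absurd h4 (fun h7 => hQB v h7 (hBsd (hSBB h6)))
            · exact Or.inl h6
          · exact Or.inr h5
        · rintro (h4 | h4)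
          · exact ⟨hSQQ h4, Or.inl (hSQS h4)⟩
          · exact ⟨hJQ h4, Or.inr h4⟩
      rw [← h3]
      exact (card_sdiff_add_card_inter Q (S ∪ J)).symm
    have h3 : (SQ ∪ J).card = SQ.card + J.card :=
      card_union_of_disjoint (disjoint_of_subset_left hSQS hdSJ)
    omega
  have hLcard : (Z ∪ SB).card = Z.card + SB.card :=
    card_union_of_disjoint (disjoint_of_subset_right hSBB hdZB)
  have hLr : Z ∪ SB ⊆ range n := union_subset hZr (hSBB.trans hBr)
  -- (1)
  have hstep1 : 4 * (Z ∪ SB).card ≤ 4 * W.card + m := by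
    have hLsd : Z ∪ SB ⊆ sideS a sd (range n) := union_subset hZ (hSBB.trans hBsd)
    have h1 : d * (Z ∪ SB).card ≤ ∑ u ∈ Z ∪ SB, dg adj (range n) u := by
      have h0 := card_nsmul_le_sum (Z ∪ SB) (fun u => dg adj (range n) u) d
        (fun u hu => hh.low u (hLsd hu))
      rw [smul_eq_mul, mul_comm] at h0
      exact h0
    have h2 : ∀ u ∈ Z ∪ SB, dg adj (range n) u ≤ dg adj W u + dg adj SQ u := by
      intro u hu
      unfold dg
      refine le_trans (card_le_card ?_) (card_union_le _ _)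
      intro w hw
      rw [mem_filter] at hw
      rw [mem_union, mem_filter, mem_filter]
      have hwn := mem_range.1 hw.1
      have hwNQ : w ∈ N ∪ Q := by
        rcases mem_union.1 hu with h | h
        · rw [mem_union]
          left
          rw [hN, mem_nb]
          exact ⟨hwn, u, h, hw.2⟩
        · apply hNBB
          rw [mem_nb]
          exact ⟨hwn, u, hSBB h, hw.2⟩
      rcases mem_union.1 hwNQ with h | h
      · left
        refine ⟨?_, hw.2⟩
        rw [hW]
        exact mem_union_left _ h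
      · by_cases hwS : w ∈ S
        · right
          refine ⟨?_, hw.2⟩
          rcases hSsplit w hwS with h6 | h6
          · exact absurd h (fun h7 => hQB w h7 (hBsd (hSBB h6)))
          · exact h6
        · by_cases hwJ : w ∈ J
          · exfalso
            rcases mem_union.1 hu with h3 | h3
            · have h4 : w ∈ N := by
                rw [hN, mem_nb]
                exact ⟨hwn, u, h3, hw.2⟩
              exact (disjoint_left.1 hdNQ) h4 h
            · have h4 := hJS w hwJ u (hSBS h3)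
              rw [hh.sym, hw.2] at h4
              exact absurd h4 (by simp)
          · left
            refine ⟨?_, hw.2⟩
            rw [hW, mem_union, mem_sdiff, mem_union]
            right
            exact ⟨h, fun h5 => h5.elim hwS hwJ⟩
    have h3 : ∑ u ∈ Z ∪ SB, dg adj W u ≤ d * W.card := by
      rw [dbl hh.sym]
      have h4 : ∀ w ∈ W, dg adj (Z ∪ SB) w ≤ d := by
        intro w hw
        have hwn : w ∈ sideS a (!sd) (range n) := by
          rw [hW, mem_union, mem_sdiff] at hw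
          rcases hw with h | h
          · exact hNsd h
          · exact hQsd h.1
        exact (dg_mono hLr w).trans ((hh.rgt w hwn).trans hDd.le)
      refine (sum_le_card_nsmul _ _ d h4).trans ?_
      rw [smul_eq_mul, mul_comm]
    have h4 : ∑ u ∈ Z ∪ SB, dg adj SQ u ≤ ∑ v ∈ SB, dg adj S v := by
      rw [sum_union (disjoint_of_subset_right hSBB hdZB)]
      have h5 : ∑ u ∈ Z, dg adj SQ u = 0 := by
        refine sum_eq_zero fun u hu => ?_
        unfold dg
        rw [card_eq_zero, filter_eq_empty_iff]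
        intro w hw h6
        have h7 : w ∈ N := by
          rw [hN, mem_nb]
          exact ⟨mem_range.1 (hQr (hSQQ hw)), u, hu, h6⟩
        exact (disjoint_left.1 hdNQ) h7 (hSQQ hw)
      rw [h5, zero_add]
      exact sum_le_sum fun u _ => dg_mono hSQS u
    rw [← hSB] at hle
    have h5 : d * (Z ∪ SB).card ≤ d * W.card + ∑ v ∈ SB, dg adj S v := by
      refine h1.trans ((sum_le_sum h2).trans ?_)
      rw [sum_add_distrib]
      exact Nat.add_le_add h3 h4
    have h6 : d * (4 * (Z ∪ SB).card) ≤ d * (4 * W.card + m) := by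
      calc d * (4 * (Z ∪ SB).card) = 4 * (d * (Z ∪ SB).card) := by ring
        _ ≤ 4 * (d * W.card + ∑ v ∈ SB, dg adj S v) := Nat.mul_le_mul_left _ h5
        _ = 4 * (d * W.card) + 4 * ∑ v ∈ SB, dg adj S v := by ring
        _ ≤ 4 * (d * W.card) + m * d := Nat.add_le_add_left hle _
        _ = d * (4 * W.card + m) := by ring
    exact Nat.le_of_mul_le_mul_left h6 (by omega)
  obtain ⟨e, he⟩ : ∃ e, e + (Z ∪ SB).card = W.card + 2 * m :=
    ⟨W.card + 2 * m - (Z ∪ SB).card, by omega⟩
  have h7m : 7 * m ≤ 4 * e := by omega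
  have hsum : (rest n adj S).card + e + Z.card + J.card = N.card + Q.card := by omega
  refine ⟨e, m, hm1, h7m, hsum, ?_⟩
  have h1 : ind adj S ^ 12 ≤ 2 ^ (11 * e) * 2 ^ (12 * (rest n adj S).card) := by
    calc ind adj S ^ 12 ≤ (3 ^ m * 2 ^ (rest n adj S).card) ^ 12 := Nat.pow_le_pow_left hm4 12
      _ = 3 ^ (12 * m) * 2 ^ (12 * (rest n adj S).card) := by
        rw [mul_pow, ← pow_mul, ← pow_mul, mul_comm m, mul_comm (rest n adj S).card]
      _ ≤ 2 ^ (11 * e) * 2 ^ (12 * (rest n adj S).card) := Nat.mul_le_mul_right _ (pow_aux h7m)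
  calc 2 ^ e * ind adj S ^ 12 ≤ 2 ^ e * (2 ^ (11 * e) * 2 ^ (12 * (rest n adj S).card)) :=
        Nat.mul_le_mul_left _ h1
    _ = 2 ^ (12 * e + 12 * (rest n adj S).card) := by
        rw [← pow_add, ← pow_add]
        congr 1
        ring
    _ ≤ 2 ^ (12 * (N.card + Q.card)) := Nat.pow_le_pow_right (by norm_num) (by omega)

theorem leaf_deadH (hh : GD n a d D sd adj) (hZ : Z ⊆ sideS a sd (range n)) {y : Nd}
    (hy : y ∈ lvT n d 8 adj (BB n a d adj sd Z ∪ QQ n a d adj sd Z, ∅) n) {μ : ℕ}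
    (hμ : 96 * μ < (cov n adj y.1).card) :
    2 ^ (7 * μ) * ind adj y.1 ≤ 2 ^ ((NB n adj Z).card + (QQ n a d adj sd Z).card) := by
  obtain ⟨e, m, h1, h2, h4, h5⟩ := leaf_bqH hh hZ hy
  have h6 : 84 * μ ≤ e := by omega
  refine le_of_pow_le_pow_left₀ (n := 12) (by norm_num) (Nat.zero_le _) ?_
  calc (2 ^ (7 * μ) * ind adj y.1) ^ 12 = 2 ^ (84 * μ) * ind adj y.1 ^ 12 := by
        rw [mul_pow, ← pow_mul]
        congr 2
        ring
    _ ≤ 2 ^ e * ind adj y.1 ^ 12 :=
        Nat.mul_le_mul_right _ (Nat.pow_le_pow_right (by norm_num) h6)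
    _ ≤ 2 ^ (12 * ((NB n adj Z).card + (QQ n a d adj sd Z).card)) := h5
    _ = (2 ^ ((NB n adj Z).card + (QQ n a d adj sd Z).card)) ^ 12 := by
        rw [← pow_mul, mul_comm]

end Pool.Agent.Lib.Pa7c826h
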