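import Pool.Agent.Lib.Pa7c826h.HypH
import Pool.Agent.Lib.Pa7c826h.SkelH
import Pool.Agent.Lib.Pa7c826h.NodesH
import Pool.Agent.Lib.Pa7c826h.WBh
import Pool.Agent.Lib.Pa7c826k.OmErr

/-!
The computed approximation of the weight of a skeleton.
-/

namespace Pool.Agent.Lib.Pa7c826h

open Finset Pool.Agent.Lib.Pa7c826 Pool.Agent.Lib.Pa7c826t Pool.Agent.Lib.Pa7c826e
  Pool.Agent.Lib.Pa7c826k

variable {n a d D l E x K q : ℕ} {adj : ℕ → ℕ → Bool} {sd : Bool} {Z : Finset ℕ}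

theorem PrH.q_pos (hh : PrH n a d D l E x K q sd adj) : 128 ≤ q := by
  have h1 := hh.hx
  have h2 := hh.hq
  have h3 := hh.hE
  have h4 : 1 * 8 ≤ E * (x + 8) := Nat.mul_le_mul h3 (by omega)
  have h5 : 16 * E * (x + 8) = 16 * (E * (x + 8)) := by ring
  omega

namespace OmHAux

open OmErrAux

theorem omU_leH (hh : GD n a d D sd adj) (hZ : Z ⊆ range n) (k p : ℕ) :
    (omU n a d adj sd k p Z : ℝ) ≤ 2 ^ p * w1 n a d adj sd Z := by
  by_cases hv : vld n a d adj sd Z = true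
  · obtain ⟨hZs, hV⟩ := (vld_iff hZ).1 hv
    rw [omU_eq k p hv, w1_eq hh.toGB hZs hV, ind_lvT hh.sym hh.irr bq_sub n, list_cast, list_mul]
    apply list_le
    intro y hy
    obtain ⟨e, m, _, _, h4, _⟩ := leaf_bqH hh hZs hy
    have hyS : y.1 ⊆ range n :=
      ((lvT_tree hh.sym hh.irr bq_sub n y hy).1).trans bq_sub
    exact leafU_le hh.sym hh.irr hyS (by omega)
  · have h1 : omU n a d adj sd k p Z = 0 := by
      unfold omU
      rw [if_neg hv]
    rw [h1]
    unfold w1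
    push_cast
    positivity

theorem omU_geH (hh : GD n a d D sd adj) (hl : d < 2 ^ l) (hl2 : 2 ≤ l) (hd : 2 ≤ d)
    (hZ : Z ⊆ range n) {t0 : ℕ} (hT : (NB n adj Z).card ≤ t0 * d)
    (μ p : ℕ) : (2 : ℝ) ^ p * w1 n a d adj sd Z ≤ omU n a d adj sd (96 * μ) p Z +
      2 ^ (21 * l * t0) * (2 ^ (96 * μ) + 2 ^ p / 2 ^ (7 * μ)) := by
  by_cases hv : vld n a d adj sd Z = true
  · obtain ⟨hZs, hV⟩ := (vld_iff hZ).1 hv
    rw [omU_eq _ p hv, w1_eq hh.toGB hZs hV, ind_lvT hh.sym hh.irr bq_sub n, list_cast, list_mul]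
    set E' := (NB n adj Z).card + (QQ n a d adj sd Z).card with hE
    set L := lvT n d 8 adj (BB n a d adj sd Z ∪ QQ n a d adj sd Z, ∅) n with hL
    set c : ℝ := 2 ^ (96 * μ) + 2 ^ p / 2 ^ (7 * μ) with hc
    have hc0 : 0 ≤ c := by positivity
    have h1 : (L.map (fun y => (2 : ℝ) ^ p * ((ind adj y.1 : ℝ) / 2 ^ E'))).sum ≤
        (L.map (fun y => (leafU n adj (96 * μ) p E' y.1 : ℝ) + c)).sum := by
      apply list_le
      intro y hy
      obtain ⟨e, m, _, _, h4, _⟩ := leaf_bqH hh hZs hy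
      have hyS : y.1 ⊆ range n :=
        ((lvT_tree hh.sym hh.irr bq_sub n y hy).1).trans bq_sub
      rcases le_or_gt (cov n adj y.1).card (96 * μ) with hk | hk
      · have h5 := leafU_ge hh.sym hh.irr hyS (k := 96 * μ) (p := p) (E := E') (by omega) hk
        have h6 : (0 : ℝ) ≤ 2 ^ p / 2 ^ (7 * μ) := by positivity
        rw [hc]
        linarith
      · have h5 := leaf_deadH hh hZs hy hk
        have h6 : (2 : ℝ) ^ (7 * μ) * ind adj y.1 ≤ 2 ^ E' := by exact_mod_cast h5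
        have h7 : (ind adj y.1 : ℝ) / 2 ^ E' ≤ 1 / 2 ^ (7 * μ) := by
          rw [div_le_div_iff₀ (by positivity) (by positivity)]
          linarith
        have h8 : (2 : ℝ) ^ p * ((ind adj y.1 : ℝ) / 2 ^ E') ≤ 2 ^ p / 2 ^ (7 * μ) := by
          calc (2 : ℝ) ^ p * ((ind adj y.1 : ℝ) / 2 ^ E') ≤ 2 ^ p * (1 / 2 ^ (7 * μ)) :=
                mul_le_mul_of_nonneg_left h7 (by positivity)
            _ = _ := by ring
        have h9 : (0 : ℝ) ≤ leafU n adj (96 * μ) p E' y.1 := Nat.cast_nonneg _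
        have h10 : (0 : ℝ) ≤ 2 ^ (96 * μ) := by positivity
        rw [hc]
        linarith
    rw [list_add] at h1
    have h2 : (L.length : ℝ) ≤ 2 ^ (21 * l * t0) := by
      have h3 := nodesH hh hl hl2 hd hZs hT n
      exact_mod_cast h3
    have h3 := mul_le_mul_of_nonneg_right h2 hc0
    linarith
  · have h1 : ¬ (Z ⊆ sideS a sd (range n) ∧ Val n d adj Z) := fun hc => hv ((vld_iff hZ).2 hc)
    have h2 : w1 n a d adj sd Z = 0 := by
      unfold w1
      rw [om_zero h1]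
      simp
    have h3 : (0 : ℝ) ≤ 2 ^ (21 * l * t0) * (2 ^ (96 * μ) + 2 ^ p / 2 ^ (7 * μ)) := by
      positivity
    have h4 : (0 : ℝ) ≤ omU n a d adj sd (96 * μ) p Z := Nat.cast_nonneg _
    rw [h2, mul_zero]
    linarith

theorem l_ge3 (hd : 6 ≤ d) (hl : d < 2 ^ l) : 3 ≤ l := by
  by_contra h
  have h1 : l ≤ 2 := by omega
  have h2 : 2 ^ l ≤ 2 ^ 2 := Nat.pow_le_pow_right (by norm_num) h1
  omega

end OmHAux

open OmHAux

theorem omV_le (hh : GD n a d D sd adj) (hZ : Z ⊆ range n) (k T p : ℕ) :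
    (omV n a d adj sd k T p Z : ℝ) ≤ 2 ^ p * w1 n a d adj sd Z := by
  unfold omV
  split_ifs with h
  · exact omU_leH hh hZ k p
  · unfold w1
    push_cast
    positivity

theorem omV_ge (hh : PrH n a d D l E x K q sd adj) (hZ : Z ⊆ range n) :
    (2 : ℝ) ^ (20600 * E * q) * (w1 n a d adj sd Z - 1 / 2 ^ (32 * l * K)) ≤
      omV n a d adj sd (19200 * E * q) (64 * E * K * d) (20600 * E * q) Z := by
  have hd6 : 6 ≤ d := d_ge hh.gap hh.hDd
  have hl3 : 3 ≤ l := l_ge3 hd6 hh.hl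
  by_cases hT : (NB n adj Z).card ≤ 64 * E * K * d
  · have h1 := omU_geH hh.toGD hh.hl (by omega) (by omega) hZ (t0 := 64 * E * K) hT
      (200 * E * q) (20600 * E * q)
    have e1 : 96 * (200 * E * q) = 19200 * E * q := by ring
    have e2 : 7 * (200 * E * q) = 1400 * E * q := by ring
    rw [e1, e2] at h1
    unfold omV
    rw [if_pos hT]
    have e3 : (2 : ℝ) ^ (20600 * E * q) / 2 ^ (1400 * E * q) = 2 ^ (19200 * E * q) := by
      have e4 : 20600 * E * q = 19200 * E * q + 1400 * E * q := by ring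
      rw [e4, pow_add]
      field_simp
    rw [e3] at h1
    have hq1 : 1 ≤ E * q := Nat.mul_le_mul hh.hE (by have := hh.q_pos; omega : 1 ≤ q)
    have hEq : l * K ≤ E * q := hh.hq.trans (Nat.le_mul_of_pos_left q hh.hE)
    have hElK : E * (l * K) ≤ E * q := Nat.mul_le_mul_left E hh.hq
    have h2 : (2 : ℝ) ^ (21 * l * (64 * E * K)) *
        (2 ^ (19200 * E * q) + 2 ^ (19200 * E * q)) ≤
        2 ^ (20600 * E * q) * (1 / 2 ^ (32 * l * K)) := by
      rw [mul_one_div, le_div_iff₀ (by positivity)]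
      have e5 : (2 : ℝ) ^ (21 * l * (64 * E * K)) *
        (2 ^ (19200 * E * q) + 2 ^ (19200 * E * q)) * 2 ^ (32 * l * K) =
        2 ^ (21 * l * (64 * E * K) + (19200 * E * q + 1) + 32 * l * K) := by
        rw [pow_add, pow_add, pow_succ]
        ring
      rw [e5]
      apply pow_le_pow_right₀ (by norm_num)
      have e6 : 21 * l * (64 * E * K) = 1344 * (E * (l * K)) := by ring
      have e7 : 19200 * E * q = 19200 * (E * q) := by ring
      have e8 : 20600 * E * q = 20600 * (E * q) := by ring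
      have e9 : 32 * l * K = 32 * (l * K) := by ring
      rw [e6, e7, e8, e9]
      omega
    rw [mul_sub]
    linarith
  · have h1 := w1_far hh (Z := Z) (by omega)
    have h2 : (2 : ℝ) ^ (20600 * E * q) * (w1 n a d adj sd Z - 1 / 2 ^ (32 * l * K)) ≤ 0 :=
      mul_nonpos_of_nonneg_of_nonpos (by positivity) (by linarith)
    exact h2.trans (Nat.cast_nonneg _)

end Pool.Agent.Lib.Pa7c826h
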