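import Pool.Agent.Lib.Pa7c826h.RH
import Pool.Agent.Lib.Pa7c826k.OutErr

/-!
The output is a good approximation of the number of independent sets.

PROOFS. As `prd_err` in `Pa7c826k/OutErr.lean` (`OutErrAux.prod_close` can be used) with
`e = 6 / 2 ^ (x + 8)`, `2 |V| e ≤ 2 n e ≤ 1 / (8 t)` because `96 n t ≤ 64 * 2 ^ (x + 1) * 2 ≤ 2 ^ (x + 8)`
(`hT`), so `|prV / 2 ^ (p n) - Xi (w1 …) V| ≤ Xi (w1 …) V / (8 t)`; multiply by `2 ^ os n a sd` and use
`ind_w1`.
-/

namespace Pool.Agent.Lib.Pa7c826h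

open Finset Pool.Agent.Lib.Pa7c826 Pool.Agent.Lib.Pa7c826t Pool.Agent.Lib.Pa7c826e
  Pool.Agent.Lib.Pa7c826k

variable {n a d D l E x K q t : ℕ} {adj : ℕ → ℕ → Bool} {sd : Bool}

theorem out_errH (hh : PrH n a d D l E x K q sd adj) (ht : 1 ≤ t)
    (hT : 64 * n * t < 2 ^ (x + 1)) :
    |(2 : ℝ) ^ os n a sd *
      prV n a d adj sd l K (19200 * E * q) (64 * E * K * d) (20600 * E * q) /
        2 ^ (20600 * E * q * n) - ind adj (range n)| ≤ ind adj (range n) / t := by
  classical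
  set p : ℕ := 20600 * E * q with hp
  have hw : Wt (r6 adj) (w1 n a d adj sd) := wt_w1 hh.toGD
  have hVn : sideS a sd (range n) ⊆ range n := filter_subset _ _
  have hind := ind_w1 (d := d) (sd := sd) hh.toGB
  set V : Finset ℕ := sideS a sd (range n) with hV
  set R : ℕ → ℝ := fun v => Rt (w1 n a d adj sd) v (blw V v) with hR
  set Q : ℕ → ℝ := fun v =>
    (qvV n a d adj sd l K (19200 * E * q) (64 * E * K * d) p v : ℝ) / 2 ^ p with hQ
  have hX : Xi (w1 n a d adj sd) V = ∏ v ∈ range n, if v ∈ V then 1 / R v else 1 :=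
    Xi_prod hw hVn
  have hXpos : 0 < Xi (w1 n a d adj sd) V := by
    rw [hX]
    refine prod_pos fun v _ => ?_
    split_ifs
    · exact one_div_pos.2 (Rt_pos hw v _)
    · exact one_pos
  have hP : (prV n a d adj sd l K (19200 * E * q) (64 * E * K * d) p : ℝ) / 2 ^ (p * n) =
      ∏ v ∈ range n, Q v := by
    unfold prV
    rw [Nat.cast_prod, pow_mul, hQ, prod_div_distrib, prod_const, card_range]
  have hout : ∀ v, v ∉ V → Q v = 1 := by
    intro v hv
    have h1 : qvV n a d adj sd l K (19200 * E * q) (64 * E * K * d) p v = 2 ^ p := by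
      unfold qvV
      rw [if_neg hv]
    rw [hQ]
    simp only [h1, Nat.cast_pow, Nat.cast_ofNat]
    exact div_self (by positivity)
  have hprod : ∏ v ∈ range n, Q v = Xi (w1 n a d adj sd) V * ∏ v ∈ V, (R v * Q v) := by
    have h1 : ∏ v ∈ V, (R v * Q v) = ∏ v ∈ range n, if v ∈ V then R v * Q v else 1 := by
      rw [prod_ite_mem, inter_eq_right.2 hVn]
    rw [h1, hX, ← prod_mul_distrib]
    refine prod_congr rfl fun v _ => ?_
    by_cases hv : v ∈ V
    · rw [if_pos hv, if_pos hv]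
      have h2 : R v ≠ 0 := (Rt_pos hw v _).ne'
      field_simp
    · rw [if_neg hv, if_neg hv, hout v hv, one_mul]
  set e : ℝ := 6 / 2 ^ (x + 8) with he
  have he0 : 0 ≤ e := by positivity
  have hVc : V.card ≤ n := by
    have := card_le_card hVn
    rwa [card_range] at this
  have hVc' : (V.card : ℝ) ≤ n := by exact_mod_cast hVc
  have hnum : 96 * n * t ≤ 2 ^ (x + 8) := by
    have : 2 ^ (x + 8) = 128 * 2 ^ (x + 1) := by ring
    rw [this]
    nlinarith
  have hnum' : 96 * (n : ℝ) * t ≤ 2 ^ (x + 8) := by exact_mod_cast hnum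
  have ht0 : (0 : ℝ) < t := by exact_mod_cast ht
  have ht1 : (1 : ℝ) ≤ t := by exact_mod_cast ht
  have hpp : (0 : ℝ) < 2 ^ (x + 8) := by positivity
  have hbd : 2 * (V.card : ℝ) * e ≤ 1 / (8 * t) := by
    have h3 : 2 * (V.card : ℝ) * e ≤ 2 * (n : ℝ) * e := by
      apply mul_le_mul_of_nonneg_right _ he0
      linarith
    refine h3.trans ?_
    rw [he, le_div_iff₀ (by positivity)]
    have h4 : 2 * (n : ℝ) * (6 / 2 ^ (x + 8)) * (8 * t) = (96 * (n : ℝ) * t) / 2 ^ (x + 8) := by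
      ring
    rw [h4, div_le_one hpp]
    exact hnum'
  have h8 : 1 / (8 * (t : ℝ)) ≤ 1 := by
    rw [div_le_one (by positivity)]
    linarith
  have hcl := OutErrAux.prod_close (fun v => R v * Q v) he0 V (fun v hv => qvV_err hh hv)
    (hbd.trans h8)
  have hmain : |(prV n a d adj sd l K (19200 * E * q) (64 * E * K * d) p : ℝ) / 2 ^ (p * n) -
      Xi (w1 n a d adj sd) V| ≤ Xi (w1 n a d adj sd) V / (8 * t) := by
    rw [hP, hprod]
    have h9 : Xi (w1 n a d adj sd) V * ∏ v ∈ V, (R v * Q v) - Xi (w1 n a d adj sd) V =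
        Xi (w1 n a d adj sd) V * (∏ v ∈ V, (R v * Q v) - 1) := by ring
    rw [h9, abs_mul, abs_of_pos hXpos, div_eq_mul_one_div (Xi (w1 n a d adj sd) V)]
    exact mul_le_mul_of_nonneg_left (hcl.trans hbd) hXpos.le
  have hB : (0 : ℝ) < 2 ^ os n a sd := by positivity
  rw [hind]
  have h10 : (2 : ℝ) ^ os n a sd *
      prV n a d adj sd l K (19200 * E * q) (64 * E * K * d) p / 2 ^ (p * n) -
      2 ^ os n a sd * Xi (w1 n a d adj sd) V =
      2 ^ os n a sd * ((prV n a d adj sd l K (19200 * E * q) (64 * E * K * d) p : ℝ) /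
        2 ^ (p * n) - Xi (w1 n a d adj sd) V) := by ring
  rw [h10, abs_mul, abs_of_pos hB]
  calc (2 : ℝ) ^ os n a sd * |(prV n a d adj sd l K (19200 * E * q) (64 * E * K * d) p : ℝ) /
        2 ^ (p * n) - Xi (w1 n a d adj sd) V|
      ≤ 2 ^ os n a sd * (Xi (w1 n a d adj sd) V / (8 * t)) :=
        mul_le_mul_of_nonneg_left hmain hB.le
    _ = (2 ^ os n a sd * Xi (w1 n a d adj sd) V) / (8 * t) := by ring
    _ ≤ (2 ^ os n a sd * Xi (w1 n a d adj sd) V) / t := by
        apply div_le_div_of_nonneg_left (by positivity) ht0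
        linarith

end Pool.Agent.Lib.Pa7c826h
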