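import Pool.Agent.Lib.Pa7c826h.PParH
import Pool.Agent.Lib.Pa7c826h.NodesH
import Pool.Agent.Lib.Pa7c826h.KeyNum
import Pool.Agent.Lib.Pa7c826k.POm

/-!
The approximation of the weight of a skeleton is computable in polynomial time.

PROOFS. Copy `Pa7c826k/POm.lean` with `VldH E`, `dK`, `kH E`, `pH E`, `qH E`, `KH E`, `polyH_pow2`,
`polyH_BB`, `polyH_QQ`, `polyH_vld` in place of the corresponding objects there
(`POmAux.n_ite'` can be used from there; in `poly_leafU` the exponents are at most `kH E w = 19200 * E * qH E w`,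
`pH E w = 20600 * E * qH E w`). In `polyH_omV` first test `|NB Z| ≤ TH E w` (`n_ite'`, `PolyB.le`); in
the positive case the number of nodes is at most `2 ^ (21 * lH * (64 * E * KH)) ≤
2 ^ (1344 * E * qH)` by `nodesH` with `t0 = 64 * E * KH E w` (`TH E w = t0 * dK w`, `lH_KH_le`), where
the third component of `VldH` gives `GD`, `d < 2 ^ l` (`sd = sdK w`; this is the hypothesis `hsd`),
and `6 ≤ d` by `d_ge`.
-/

namespace Pool.Agent.Lib.Pa7c826h

open Pool.Agent.Lib.PolyTime Pool.Agent.Lib.Pa7c826 Pool.Agent.Lib.Pa7c826t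
  Pool.Agent.Lib.Pa7c826e Pool.Agent.Lib.Pa7c826k Finset

variable {α : Type} {D : α → Prop} {ctx : List (α → List Bool)} {w : α → List Bool} {E : ℕ}

namespace POmHAux

theorem poly_leaf_aux (hw : PolyC D ctx w) (hV : ∀ x, D x → VldH E (w x)) {F : α → ℕ}
    {S : α → Finset ℕ} (hF : PolyN D ctx F) (hS : PolyS D ctx (fun x => nOf (w x)) S)
    (hk : ∀ x, D x → (cov (nOf (w x)) (adjOf (w x)) (S x)).card ≤ kH E (w x)) :
    PolyN D ctx (fun x => ∑ τ ∈ range (2 ^ (cov (nOf (w x)) (adjOf (w x)) (S x)).card),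
      if indB (nOf (w x)) (adjOf (w x)) (sel (cov (nOf (w x)) (adjOf (w x)) (S x)) τ) = true then
        2 ^ pH E (w x) / 2 ^ (F x - (freeS (nOf (w x)) (adjOf (w x))
          (rest (nOf (w x)) (adjOf (w x)) (S x))
          (sel (cov (nOf (w x)) (adjOf (w x)) (S x)) τ)).card) else 0) := by
  have hC := poly_cov hw hS
  have hCC := PolyS.card (poly_nOf hw) hC
  have h2 : PolyN D ctx (fun x => 2 ^ (cov (nOf (w x)) (adjOf (w x)) (S x)).card) :=
    polyH_pow2 hw hV hCC (19200 * E) (fun x hx => hk x hx)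
  refine Pool.Agent.Lib.P8e91ed.PT.n_sum (f := fun p : α × ℕ =>
    if indB (nOf (w p.1)) (adjOf (w p.1))
        (sel (cov (nOf (w p.1)) (adjOf (w p.1)) (S p.1)) p.2) = true then
      2 ^ pH E (w p.1) / 2 ^ (F p.1 - (freeS (nOf (w p.1)) (adjOf (w p.1))
        (rest (nOf (w p.1)) (adjOf (w p.1)) (S p.1))
        (sel (cov (nOf (w p.1)) (adjOf (w p.1)) (S p.1)) p.2)).card) else 0) h2 ?_
  have W := up (n := fun x => 2 ^ (cov (nOf (w x)) (adjOf (w x)) (S x)).card) hw
  have SS := hS.up (m := fun x => 2 ^ (cov (nOf (w x)) (adjOf (w x)) (S x)).card)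
  have EE := upN (n := fun x => 2 ^ (cov (nOf (w x)) (adjOf (w x)) (S x)).card) hF
  have T := last (D := D) (ctx := ctx)
    (n := fun x => 2 ^ (cov (nOf (w x)) (adjOf (w x)) (S x)).card)
  have C := poly_cov W SS
  have SE := poly_sel W C T
  have G := PolyS.card (poly_nOf W) (poly_freeS W (poly_rest W SS) SE)
  have P := polyH_pow2 W (fun p hp => hV p.1 hp.1) (upoly_pH E W) (20600 * E)
    (fun p hp => le_refl _)
  exact Pool.Agent.Lib.Pa7c826.PolyN.ite (poly_indB W SE)
    (PolyN.divPow P (PolyN.sub EE G)) (PolyN.const 0)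

end POmHAux

open POmHAux

theorem polyH_leafU (hw : PolyC D ctx w) (hV : ∀ x, D x → VldH E (w x)) {F : α → ℕ}
    {S : α → Finset ℕ} (hF : PolyN D ctx F) (hS : PolyS D ctx (fun x => nOf (w x)) S) :
    PolyN D ctx (fun x => leafU (nOf (w x)) (adjOf (w x)) (kH E (w x)) (pH E (w x)) (F x)
      (S x)) := by
  have hC := poly_cov hw hS
  have hCC := PolyS.card (poly_nOf hw) hC
  have hle : PolyB D ctx (fun x => decide ((cov (nOf (w x)) (adjOf (w x)) (S x)).card ≤
    kH E (w x))) := PolyB.le hCC (upoly_kH E hw)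
  refine (POmAux.n_ite' hle (poly_leaf_aux (PolyC.mono hw fun _ h => h.1) (fun x hx => hV x hx.1)
    (PolyC.mono hF fun _ h => h.1) (hS.mono fun _ h => h.1)
    (fun x hx => of_decide_eq_true hx.2)) (PolyN.const 0)).congr (fun x _ => ?_)
  unfold leafU
  simp only [decide_eq_true_eq]

theorem POmHAux.poly_sum_aux (hw : PolyC D ctx w) (hV : ∀ x, D x → VldH E (w x)) {F : α → ℕ}
    (hF : PolyN D ctx F) {l : α → List (Finset ℕ)}
    (hl : PolyC D ctx (fun x => codeL (nOf (w x)) (l x)))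
    (hsub : ∀ x, D x → ∀ S ∈ l x, S ⊆ range (nOf (w x))) :
    PolyN D ctx (fun x => ((l x).map (leafU (nOf (w x)) (adjOf (w x)) (kH E (w x)) (pH E (w x))
      (F x))).sum) := by
  have W := up (n := fun x => (codeL (nOf (w x)) (l x)).length) hw
  have C := up (n := fun x => (codeL (nOf (w x)) (l x)).length) hl
  have EE := upN (n := fun x => (codeL (nOf (w x)) (l x)).length) hF
  have L := last (D := D) (ctx := ctx) (n := fun x => (codeL (nOf (w x)) (l x)).length)
  exact poly_sumL (n := fun x => nOf (w x)) (F := fun x S => leafU (nOf (w x)) (adjOf (w x))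
    (kH E (w x)) (pH E (w x)) (F x) S) (poly_nOf hw) hl hsub
    (polyH_leafU W (fun p hp => hV p.1 hp.1) EE (poly_nodeAtN (poly_nOf W) C L))

theorem POmHAux.poly_omU (sd : Bool) (hw : PolyC D ctx w) (hV : ∀ x, D x → VldH E (w x))
    (hsd : ∀ x, D x → sdK (w x) = sd)
    {Z : α → Finset ℕ} (hZ : PolyS D ctx (fun x => nOf (w x)) Z)
    (hc : ∀ x, D x → (NB (nOf (w x)) (adjOf (w x)) (Z x)).card ≤ TH E (w x)) :
    PolyN D ctx (fun x => omU (nOf (w x)) (aOf (w x)) (dK (w x)) (adjOf (w x)) sd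
      (kH E (w x)) (pH E (w x)) (Z x)) := by
  unfold omU
  refine POmAux.n_ite' (polyH_vld sd hw hZ) ?_ (PolyN.const 0)
  have hw1 : PolyC (fun x => D x ∧
      vld (nOf (w x)) (aOf (w x)) (dK (w x)) (adjOf (w x)) sd (Z x) = true) ctx w :=
    PolyC.mono hw (fun x h => h.1)
  have hZ1 : PolyS (fun x => D x ∧
      vld (nOf (w x)) (aOf (w x)) (dK (w x)) (adjOf (w x)) sd (Z x) = true) ctx
      (fun x => nOf (w x)) Z := hZ.mono (fun x h => h.1)
  have hB := polyH_BB sd hw1 hZ1
  have hQ := polyH_QQ sd hw1 hZ1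
  have hU := poly_union hw1 hB hQ
  have hE := (PolyS.card (poly_nOf hw1) (poly_NB hw1 hZ1)).add (PolyS.card (poly_nOf hw1) hQ)
  have h21 := polyH_pow2 hw1 (fun x hx => hV x hx.1)
    ((PolyN.const (1344 * E)).mul (upoly_qH E hw1)) (1344 * E) (fun x hx => le_refl _)
  have hl0 := (PolyC.cons true hU.1).congr (t' := fun x => codeL (nOf (w x))
    [BB (nOf (w x)) (aOf (w x)) (dK (w x)) (adjOf (w x)) sd (Z x) ∪
      QQ (nOf (w x)) (aOf (w x)) (dK (w x)) (adjOf (w x)) sd (Z x)])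
    (fun x _ => by simp [codeL])
  have hsub0 : ∀ x, (D x ∧
      vld (nOf (w x)) (aOf (w x)) (dK (w x)) (adjOf (w x)) sd (Z x) = true) →
      ∀ S ∈ [BB (nOf (w x)) (aOf (w x)) (dK (w x)) (adjOf (w x)) sd (Z x) ∪
        QQ (nOf (w x)) (aOf (w x)) (dK (w x)) (adjOf (w x)) sd (Z x)],
        S ⊆ range (nOf (w x)) := by
    intro x hx S hS
    rw [List.mem_singleton] at hS
    rw [hS]
    exact hU.2 x hx
  have hitl := poly_itl (m := dK) (g := fun _ => 8) (ad := adjOf) (al := fun _ _ => true)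
    upoly_dK (EAlgAux_const 8) upolyE_adj (fun _ _ => PolyB.const true) hw1 hl0 hsub0
    (poly_nOf hw1) h21 (fun x hx j _ => by
      rw [itl_lvT, List.length_map]
      obtain ⟨ht, hnE, D', hh⟩ := hV x hx.1
      rw [hsd x hx.1] at hh
      have hd6 := d_ge hh.gap hh.hDd
      have hl := hh.hl
      have hl2 : 2 ≤ lH (w x) := by
        by_contra hcon
        have h3 : lH (w x) ≤ 1 := by omega
        have h4 : 2 ^ lH (w x) ≤ 2 ^ 1 := Nat.pow_le_pow_right (by norm_num) h3
        omega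
      have hZs : Z x ⊆ sideS (aOf (w x)) sd (range (nOf (w x))) := by
        intro u hu
        have h3 := hx.2
        unfold vld at h3
        rw [decide_eq_true_eq] at h3
        exact (h3 u (hZ.2 x hx.1 hu) hu).1
      refine (nodesH hh.toGD hl hl2 (by omega) hZs (t0 := 64 * E * KH E (w x)) (hc x hx.1) j).trans
        ?_
      apply Nat.pow_le_pow_right (by norm_num)
      have h4 := Nat.mul_le_mul_left (1344 * E) (lH_KH_le E (w x))
      calc 21 * lH (w x) * (64 * E * KH E (w x)) = 1344 * E * (lH (w x) * KH E (w x)) := by ring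
        _ ≤ 1344 * E * qH E (w x) := h4)
  exact poly_sum_aux hw1 (fun x hx => hV x hx.1) hE hitl (fun x hx => itl_subset (hsub0 x hx) _)

theorem polyH_omV (sd : Bool) (hw : PolyC D ctx w) (hV : ∀ x, D x → VldH E (w x))
    (hsd : ∀ x, D x → sdK (w x) = sd) {Z : α → Finset ℕ}
    (hZ : PolyS D ctx (fun x => nOf (w x)) Z) :
    PolyN D ctx (fun x => omV (nOf (w x)) (aOf (w x)) (dK (w x)) (adjOf (w x)) sd
      (kH E (w x)) (TH E (w x)) (pH E (w x)) (Z x)) := by
  have hle : PolyB D ctx (fun x => decide ((NB (nOf (w x)) (adjOf (w x)) (Z x)).card ≤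
    TH E (w x))) := PolyB.le (PolyS.card (poly_nOf hw) (poly_NB hw hZ)) (upoly_TH E hw)
  refine (POmAux.n_ite' hle (poly_omU sd (PolyC.mono hw fun _ h => h.1) (fun x hx => hV x hx.1)
    (fun x hx => hsd x hx.1) (hZ.mono fun _ h => h.1)
    (fun x hx => of_decide_eq_true hx.2)) (PolyN.const 0)).congr (fun x _ => ?_)
  unfold omV
  simp only [decide_eq_true_eq]

end Pool.Agent.Lib.Pa7c826h
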