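import Pool.Agent.Lib.Pa7c826h.PSetH
import Pool.Agent.Lib.Pa7c826t.EPoly

/-!
The parameters are computable in polynomial time.

PROOFS. As `Pa7c826k/PPar.lean`. `upoly_lH`: `max p q = if p ≤ q then q else p` and `n_log`.
`mx_le`: `card_filter_le`. `bndH`: `2 ^ qH = (2 ^ (xH + 8)) ^ (16 E) * 2 ^ lH`,
`2 ^ (xH + 8) ≤ 256 * (64 n t)` (`Nat.pow_log_le_self`; `n ≥ 1` as `mxK w true ≠ 0`, `t ≥ 1`),
`2 ^ lH ≤ 2 * max (mxK w true) (mxK w false) ≤ 2 n` (`noE w = false`: `mxK w true ≠ 0`).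
`polyH_pow2`: copy `poly_pow2`.
-/

namespace Pool.Agent.Lib.Pa7c826h

open Pool.Agent.Lib.PolyTime Pool.Agent.Lib.Pa7c826 Pool.Agent.Lib.Pa7c826t
  Pool.Agent.Lib.Pa7c826e Pool.Agent.Lib.Pa7c826k Finset

open Pool.Agent.Lib.P8e91ed.PT in
theorem upoly_lH : UPoly lH := by
  intro β D' ctx' w' hw
  have h1 : PolyN D' ctx' (fun x => max (mxK (w' x) true) (mxK (w' x) false)) :=
    (n_ite (PolyP.le (upoly_mxK true hw) (upoly_mxK false hw))
      (PolyC.mono (upoly_mxK false hw) fun _ h => h.1)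
      (PolyC.mono (upoly_mxK true hw) fun _ h => h.1)).congr (fun x _ => by
        beta_reduce
        rw [max_def])
  exact (n_log h1).add (PolyN.const 1)

open Pool.Agent.Lib.P8e91ed.PT in
theorem upoly_xH : UPoly xH := by
  intro β D' ctx' w' hw
  exact n_log (((PolyN.const 64).mul (poly_nOf hw)).mul (poly_tOf hw))

theorem upoly_KH (E : ℕ) : UPoly (KH E) := by
  intro β D' ctx' w' hw
  exact (PolyN.divz ((PolyN.const (16 * E)).mul ((upoly_xH hw).add (PolyN.const 8)))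
    (upoly_lH hw)).add (PolyN.const 1)

theorem upoly_qH (E : ℕ) : UPoly (qH E) := by
  intro β D' ctx' w' hw
  exact ((PolyN.const (16 * E)).mul ((upoly_xH hw).add (PolyN.const 8))).add (upoly_lH hw)

theorem upoly_kH (E : ℕ) : UPoly (kH E) := by
  intro β D' ctx' w' hw
  exact (PolyN.const (19200 * E)).mul (upoly_qH E hw)

theorem upoly_TH (E : ℕ) : UPoly (TH E) := by
  intro β D' ctx' w' hw
  exact ((PolyN.const (64 * E)).mul (upoly_KH E hw)).mul (upoly_dK hw)

theorem upoly_pH (E : ℕ) : UPoly (pH E) := by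
  intro β D' ctx' w' hw
  exact (PolyN.const (20600 * E)).mul (upoly_qH E hw)

theorem lH_pos (w : List Bool) : 1 ≤ lH w := by
  unfold lH
  omega

theorem KH_pos (E : ℕ) (w : List Bool) : 1 ≤ KH E w := Nat.le_add_left 1 _

theorem le_lH_KH (E : ℕ) (w : List Bool) : 16 * E * (xH w + 8) ≤ lH w * KH E w := by
  unfold KH
  have h := Nat.lt_div_mul_add (a := 16 * E * (xH w + 8)) (lH_pos w)
  have h1 : lH w * (16 * E * (xH w + 8) / lH w + 1)
      = 16 * E * (xH w + 8) / lH w * lH w + lH w := by ring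
  rw [h1]
  exact h.le

theorem lH_KH_le (E : ℕ) (w : List Bool) : lH w * KH E w ≤ qH E w := by
  unfold KH qH
  have h := Nat.mul_div_le (16 * E * (xH w + 8)) (lH w)
  rw [Nat.mul_add, Nat.mul_one]
  omega

theorem KH_le (E : ℕ) (w : List Bool) : KH E w ≤ qH E w := by
  unfold KH qH
  have h := Nat.div_le_self (16 * E * (xH w + 8)) (lH w)
  have h1 := lH_pos w
  omega

theorem mx_le (w : List Bool) (s : Bool) : mxK w s ≤ nOf w := by
  unfold mxK
  exact (card_filter_le _ _).trans (by rw [card_range])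

theorem bndH {E : ℕ} {w : List Bool} (h : VldH E w) (c : ℕ) :
    2 ^ (c * qH E w) ≤ ((256 * (64 * nOf w * tOf w)) ^ (16 * E) * (2 * nOf w)) ^ c := by
  obtain ⟨ht, hE, _⟩ := h
  rw [Nat.mul_comm, Nat.pow_mul]
  refine Nat.pow_le_pow_left ?_ c
  have hm : mxK w true ≠ 0 := by
    unfold noE at hE
    exact of_decide_eq_false hE
  have hn : 1 ≤ nOf w := by
    have := mx_le w true
    omega
  have hT : 64 * nOf w * tOf w ≠ 0 := by
    have h4 : 0 < 64 * nOf w * tOf w := Nat.mul_pos (Nat.mul_pos (by norm_num) (by omega)) (by omega)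
    omega
  have h4 : 2 ^ xH w ≤ 64 * nOf w * tOf w := Nat.pow_log_le_self 2 hT
  have h5 : 2 ^ lH w ≤ 2 * nOf w := by
    unfold lH
    rw [pow_succ, Nat.mul_comm]
    have h6 : max (mxK w true) (mxK w false) ≠ 0 := by
      have := le_max_left (mxK w true) (mxK w false)
      omega
    exact Nat.mul_le_mul_left 2 ((Nat.pow_log_le_self 2 h6).trans
      (max_le (mx_le w true) (mx_le w false)))
  calc 2 ^ qH E w = (2 ^ (xH w + 8)) ^ (16 * E) * 2 ^ lH w := by
        unfold qH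
        rw [pow_add, ← pow_mul, Nat.mul_comm (xH w + 8)]
    _ ≤ (256 * (64 * nOf w * tOf w)) ^ (16 * E) * (2 * nOf w) := by
        refine Nat.mul_le_mul (Nat.pow_le_pow_left ?_ _) h5
        rw [pow_add, Nat.mul_comm]
        exact Nat.mul_le_mul (by norm_num) h4

variable {α : Type} {D : α → Prop} {ctx : List (α → List Bool)} {w : α → List Bool}

open Pool.Agent.Lib.P8e91ed.PT in
theorem polyH_pow2 {E : ℕ} (hw : PolyC D ctx w) (hV : ∀ x, D x → VldH E (w x)) {f : α → ℕ}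
    (hf : PolyN D ctx f) (c : ℕ) (hc : ∀ x, D x → f x ≤ c * qH E (w x)) :
    PolyN D ctx (fun x => 2 ^ f x) := by
  refine n_pow (PolyN.const 2) hf ?_
  have h0 : PolyN D ctx (fun x => 64 * nOf (w x) * tOf (w x)) :=
    ((PolyN.const 64).mul (poly_nOf hw)).mul (poly_tOf hw)
  have h1 : PolyN D ctx (fun x => (256 * (64 * nOf (w x) * tOf (w x))) ^ (16 * E) *
      (2 * nOf (w x))) :=
    (PolyN.pow ((PolyN.const 256).mul h0) (16 * E)).mul ((PolyN.const 2).mul (poly_nOf hw))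
  have h2 : Bdd D ctx (fun x => 2 ^ f x) := by
    refine Bdd.le (Bdd.pow (Bdd.ofN h1) c) (fun x hx => ?_)
    exact (Nat.pow_le_pow_right (by norm_num) (hc x hx)).trans (bndH (hV x hx) c)
  exact h2

end Pool.Agent.Lib.Pa7c826h
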