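import Pool.Agent.Lib.Pa7c826h.Defs
import Pool.Agent.Lib.Pa7c826k.PPar

/-!
The degrees and the sets used by the algorithm are computable in polynomial time.

PROOFS. `polyH_dg`: `dg adj (range n) v` is the number of the `u < n` with `adj v u` (`n_card` as in
`poly_nbr` of `Pa7c826k/PWalk.lean`, `poly_adj`). `upoly_mxK`, `upoly_mnK`: `n_card` with
`PolyP.forall_range`, `PolyP.exists_range` for the tests (`poly_side` for the membership in
`sideS`), see `poly_vld` in `Pa7c826k/PSet.lean`; `topB`, `botB` are `decide`s of these statements.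
`upoly_dK`: `PolyN.ite` with `PolyB.lt`. `polyH_big`, `polyH_BB`, `polyH_QQ`, `polyH_vld`: copy the
proofs of `poly_big`, `poly_BB`, `poly_QQ`, `poly_vld` (`Pa7c826k/PSet.lean`) with `dK`, `upoly_dK` in
place of `dOf`, `upoly_dOf`.
-/

namespace Pool.Agent.Lib.Pa7c826h

open Pool.Agent.Lib.PolyTime Pool.Agent.Lib.Pa7c826 Pool.Agent.Lib.Pa7c826t
  Pool.Agent.Lib.Pa7c826e Pool.Agent.Lib.Pa7c826k Finset

variable {α : Type} {D : α → Prop} {ctx : List (α → List Bool)} {w : α → List Bool}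
  {Z Y : α → Finset ℕ} {u : α → ℕ}

open Pool.Agent.Lib.P8e91ed.PT Pool.Agent.Lib.Pa7c826k.PSetAux

theorem polyH_dg (hw : PolyC D ctx w) (hu : PolyN D ctx u) :
    PolyN D ctx (fun x => dg (adjOf (w x)) (range (nOf (w x))) (u x)) := by
  unfold dg
  exact n_card (n := fun x => nOf (w x)) (P := fun x y => adjOf (w x) (u x) y = true)
    (poly_nOf hw) (adjP (cU hw) (nU hu) nL)

namespace PSetHAux

theorem topP (s : Bool) (hw : PolyC D ctx w) (hu : PolyN D ctx u) :
    PolyP D ctx (fun x => topB (w x) s (u x) = true) := by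
  have hs := poly_side s hw
  have h1 := PolyP.forall_range (n := fun x => nOf (w x))
    (P := fun x v => v ∈ sideS (aOf (w x)) s (range (nOf (w x))) →
      dg (adjOf (w x)) (range (nOf (w x))) v ≤ u x) (poly_nOf hw)
    ((memP (sUp hs) nL).imp (PolyP.le (polyH_dg (cU hw) nL) (nU hu)))
  refine h1.congr (fun x _ => ?_)
  unfold topB
  rw [decide_eq_true_eq]

theorem botP (s : Bool) (hw : PolyC D ctx w) (hu : PolyN D ctx u) :
    PolyP D ctx (fun x => botB (w x) s (u x) = true) := by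
  have hs := poly_side s hw
  have h1 := PolyP.exists_range (n := fun x => nOf (w x))
    (P := fun x v => v ∈ sideS (aOf (w x)) s (range (nOf (w x))) ∧
      dg (adjOf (w x)) (range (nOf (w x))) v ≤ u x) (poly_nOf hw)
    ((memP (sUp hs) nL).and (PolyP.le (polyH_dg (cU hw) nL) (nU hu)))
  refine h1.congr (fun x _ => ?_)
  unfold botB
  rw [decide_eq_true_eq]

end PSetHAux

open PSetHAux

theorem upoly_mxK (s : Bool) : UPoly (fun w => mxK w s) := by
  intro β D' ctx' w' hw
  unfold mxK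
  refine n_card (n := fun x => nOf (w' x)) (P := fun x v => topB (w' x) s v = false)
    (poly_nOf hw) ((topP s (cU hw) nL).not.congr (fun p _ => ?_))
  rw [Bool.not_eq_true]

theorem upoly_mnK (s : Bool) : UPoly (fun w => mnK w s) := by
  intro β D' ctx' w' hw
  unfold mnK
  refine n_card (n := fun x => nOf (w' x)) (P := fun x v => botB (w' x) s v = false)
    (poly_nOf hw) ((botP s (cU hw) nL).not.congr (fun p _ => ?_))
  rw [Bool.not_eq_true]

theorem polyH_sdK (hw : PolyC D ctx w) : PolyB D ctx (fun x => sdK (w x)) :=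
  PolyB.lt (upoly_mxK false hw) (upoly_mnK true hw)

theorem polyH_noE (hw : PolyC D ctx w) : PolyB D ctx (fun x => noE (w x)) :=
  PolyB.natEq (upoly_mxK true hw) (PolyN.const 0)

theorem upoly_dK : UPoly dK := by
  intro β D' ctx' w' hw
  unfold dK
  exact n_ite (PolyP.ofB (polyH_sdK hw)) (PolyC.mono (upoly_mnK true hw) fun _ h => h.1)
    (PolyC.mono (upoly_mnK false hw) fun _ h => h.1)

theorem polyH_big (hw : PolyC D ctx w) (hZ : PolyS D ctx (fun x => nOf (w x)) Z)
    (hu : PolyN D ctx u) :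
    PolyB D ctx (fun x => big (nOf (w x)) (dK (w x)) (adjOf (w x)) (Z x) (u x)) :=
  PolyB.le (upoly_dK hw) ((PolyN.const 8).mul (poly_nw hw hZ hu))

theorem polyH_BB (sd : Bool) (hw : PolyC D ctx w) (hZ : PolyS D ctx (fun x => nOf (w x)) Z) :
    PolyS D ctx (fun x => nOf (w x))
      (fun x => BB (nOf (w x)) (aOf (w x)) (dK (w x)) (adjOf (w x)) sd (Z x)) := by
  have hs := poly_side sd hw
  refine polyS_of (P := fun a i => i ∈ sideS (aOf (w a)) sd (range (nOf (w a))) ∧ (¬ i ∈ Z a ∧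
      ¬ big (nOf (w a)) (dK (w a)) (adjOf (w a)) (blw (Z a) i) i = true)) (poly_nOf hw) ?_
      (fun a ha i => ?_)
  · exact (memP (sUp hs) nL).and ((memP (sUp hZ) nL).not.and
      (PolyP.ofB (polyH_big (cU hw) (poly_blw (cU hw) (sUp hZ) nL) nL)).not)
  · unfold Pa7c826k.BB
    rw [mem_filter, Bool.not_eq_true]
    constructor
    · intro h
      exact ⟨mem_range.1 (hs.2 a ha h.1), h⟩
    · exact fun h => h.2

theorem polyH_QQ (sd : Bool) (hw : PolyC D ctx w) (hZ : PolyS D ctx (fun x => nOf (w x)) Z) :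
    PolyS D ctx (fun x => nOf (w x))
      (fun x => QQ (nOf (w x)) (aOf (w x)) (dK (w x)) (adjOf (w x)) sd (Z x)) :=
  poly_sdiff hw (poly_NB hw (polyH_BB sd hw hZ)) (poly_NB hw hZ)

theorem polyH_vld (sd : Bool) (hw : PolyC D ctx w)
    (hZ : PolyS D ctx (fun x => nOf (w x)) Z) :
    PolyB D ctx (fun x => vld (nOf (w x)) (aOf (w x)) (dK (w x)) (adjOf (w x)) sd (Z x)) := by
  have hs := poly_side sd hw
  obtain ⟨φ, h1, h2⟩ := PolyP.forall_range (n := fun x => nOf (w x))
    (P := fun a i => i ∈ Z a → (i ∈ sideS (aOf (w a)) sd (range (nOf (w a))) ∧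
      big (nOf (w a)) (dK (w a)) (adjOf (w a)) (blw (Z a) i) i = true)) (poly_nOf hw)
    ((memP (sUp hZ) nL).imp ((memP (sUp hs) nL).and
      (PolyP.ofB (polyH_big (cU hw) (poly_blw (cU hw) (sUp hZ) nL) nL))))
  refine h1.congr (fun a ha => ?_)
  have h3 := h2 a ha
  rw [Bool.eq_iff_iff, h3]
  unfold vld
  rw [decide_eq_true_eq]

end Pool.Agent.Lib.Pa7c826h
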