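import Pool.Agent.Lib.Pa7c826k.Loc

/-!
Truncation of the Moebius expansion of a ratio.

PROOFS. As `Rt_trunc` in `Pa7c826k/Loc.lean`, but the norm of `Rt w v - 1` is given. `mob_inv` for
`Y = U`: `Rt w v U = ∑ X ∈ U.powerset, mob (Rt w v) X`. The terms with `X ∉ F` are zero
(`mob_Rt_zero`) unless `|X| ≥ K ≥ 1`; for `X ≠ ∅` `mob (Rt w v) X = mob (fun Y => Rt w v Y - 1) X`,
and `|mob … X| * l ^ |X|` sum up to at most `ε`.
-/

namespace Pool.Agent.Lib.Pa7c826h

open Finset Pool.Agent.Lib.Pa7c826k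

theorem trunc {r : ℕ → ℕ → Prop} {w : Finset ℕ → ℝ} (hr : ∀ x, r x x)
    (hs : ∀ x y, r x y → r y x) (hw : Wt r w) {l ε : ℝ} (hl : 1 ≤ l) {U : Finset ℕ} {v : ℕ}
    (hvU : v ∉ U) (hn : nrm l U (fun Y => Rt w v Y - 1) ≤ ε) {K : ℕ} (hK : 1 ≤ K)
    {F : Finset (Finset ℕ)} (hF : F ⊆ U.powerset)
    (hF' : ∀ X, X ⊆ U → Conn r (insert v X) → X.card < K → X ∈ F) :
    |Rt w v U - ∑ X ∈ F, mob (Rt w v) X| ≤ ε / l ^ K := by
  have hl0 : 0 < l := lt_of_lt_of_le one_pos hl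
  have hmob : ∀ X, X ⊆ U → mob (Rt w v) X = mob (fun Y => Rt w v Y - 1) X + if X = ∅ then 1 else 0 := by
    refine mob_unique (U := U) fun Y _ => ?_
    rw [sum_add_distrib, mob_inv, sum_ite_eq' , if_pos (empty_mem_powerset Y)]
    ring
  have hsum : Rt w v U - ∑ X ∈ F, mob (Rt w v) X = ∑ X ∈ U.powerset \ F, mob (Rt w v) X := by
    have h1 := sum_sdiff (f := fun X => mob (Rt w v) X) hF
    have h2 := mob_inv (Rt w v) U
    linarith
  rw [hsum]
  have hterm : ∀ X ∈ U.powerset \ F, |mob (Rt w v) X| ≤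
      1 / l ^ K * (|mob (fun Y => Rt w v Y - 1) X| * l ^ X.card) := by
    intro X hX
    rw [mem_sdiff, mem_powerset] at hX
    obtain ⟨hXU, hXF⟩ := hX
    have hlK : 0 < l ^ K := pow_pos hl0 K
    by_cases hc : Conn r (insert v X)
    · have hcard : K ≤ X.card := by
        by_contra hcon
        exact hXF (hF' X hXU hc (by omega))
      have hXne : X ≠ ∅ := by
        rintro rfl
        rw [card_empty] at hcard
        omega
      rw [hmob X hXU, if_neg hXne, add_zero]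
      have h3 : 1 ≤ 1 / l ^ K * l ^ X.card := by
        rw [one_div_mul_eq_div, le_div_iff₀ hlK, one_mul]
        exact pow_le_pow_right₀ hl hcard
      calc |mob (fun Y => Rt w v Y - 1) X| = |mob (fun Y => Rt w v Y - 1) X| * 1 := (mul_one _).symm
        _ ≤ |mob (fun Y => Rt w v Y - 1) X| * (1 / l ^ K * l ^ X.card) :=
            mul_le_mul_of_nonneg_left h3 (abs_nonneg _)
        _ = _ := by ring
    · rw [mob_Rt_zero hr hs hw (fun h => hvU (hXU h)) hc, abs_zero]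
      positivity
  calc |∑ X ∈ U.powerset \ F, mob (Rt w v) X| ≤ ∑ X ∈ U.powerset \ F, |mob (Rt w v) X| :=
        abs_sum_le_sum_abs _ _
    _ ≤ ∑ X ∈ U.powerset \ F, 1 / l ^ K * (|mob (fun Y => Rt w v Y - 1) X| * l ^ X.card) :=
        sum_le_sum hterm
    _ ≤ ∑ X ∈ U.powerset, 1 / l ^ K * (|mob (fun Y => Rt w v Y - 1) X| * l ^ X.card) :=
        sum_le_sum_of_subset_of_nonneg sdiff_subset fun X _ _ => by positivity
    _ = 1 / l ^ K * nrm l U (fun Y => Rt w v Y - 1) := by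
        rw [← mul_sum]
        rfl
    _ ≤ 1 / l ^ K * ε := mul_le_mul_of_nonneg_left hn (by positivity)
    _ = ε / l ^ K := by
        rw [one_div_mul_eq_div]

end Pool.Agent.Lib.Pa7c826h
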