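import Pool.Agent.Lib.Pa7c826h.XiH
import Pool.Agent.Lib.Pa7c826h.FamH
import Pool.Agent.Lib.Pa7c826h.Trunc

/-!
The computed approximations of the ratios.

PROOFS. As `Pa7c826k/RErr.lean`, `V = sideS a sd (range n)`, `U = blw V v`. `Rt_geH`: `Rt_nrm` and
`abs_le_nrm` with `Y = U` (`1 ≤ lam l E`) give `|Rt - 1| ≤ rho d - 1 ≤ 1 / 20` (`rho_le`, `d_ge`).
`sgV_err`: the family `F` of `exists_famH`; `trunc` with `ε = rho d - 1`, `l = lam l E` gives
`|Rt - ∑ X ∈ F, mob (Rt v) X| ≤ (rho d - 1) / lam l E ^ K ≤ 1 / 2 ^ (x + 8)` (`lam_pow`, `hh.hx`);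
`mbV_err` and `|F| ≤ 2 ^ (12 l K)` give the error `2 ^ (12 l K) / 2 ^ (28 l K) = 1 / 2 ^ (16 l K) ≤
1 / 2 ^ (x + 8)`. `qvV_err`: copy `qv_err` (with the private lemma `qv_aux`), `e = 2 / 2 ^ (x + 8) ≤
1 / 16`, `1 ≤ 2 ^ p * e` as `x + 8 ≤ l K ≤ q ≤ p`.
-/

namespace Pool.Agent.Lib.Pa7c826h

open Finset Pool.Agent.Lib.Pa7c826 Pool.Agent.Lib.Pa7c826t Pool.Agent.Lib.Pa7c826e
  Pool.Agent.Lib.Pa7c826k

variable {n a d D l E x K q : ℕ} {adj : ℕ → ℕ → Bool} {sd : Bool}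

private theorem blw_sub'' (V : Finset ℕ) (v : ℕ) : blw V v ⊆ V := by
  unfold blw
  exact filter_subset _ _

private theorem notMem_blw'' (V : Finset ℕ) (v : ℕ) : v ∉ blw V v := by
  unfold blw
  intro h
  rw [mem_filter] at h
  exact lt_irrefl _ h.2

private theorem sideS_sub'' (a : ℕ) (sd : Bool) (n : ℕ) : sideS a sd (range n) ⊆ range n := by
  unfold sideS
  exact filter_subset _ _

theorem Rt_geH (hh : GH n a d D l E sd adj) {v : ℕ} (hv : v ∈ sideS a sd (range n)) :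
    9 / 10 ≤ Rt (w1 n a d adj sd) v (blw (sideS a sd (range n)) v) := by
  have h1 := Rt_nrm hh (blw_sub'' _ v) hv (notMem_blw'' _ v)
  have h2 := abs_le_nrm (f := fun Y => Rt (w1 n a d adj sd) v Y - 1) (lam_ge (l := l) (E := E))
    (Subset.refl (blw (sideS a sd (range n)) v))
  have h3 := rho_le (d_ge hh.gap hh.hDd)
  have h4 := (abs_le.1 (h2.trans h1)).1
  linarith

theorem sgV_err (hh : PrH n a d D l E x K q sd adj) {v : ℕ} (hv : v ∈ sideS a sd (range n)) :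
    |Rt (w1 n a d adj sd) v (blw (sideS a sd (range n)) v) -
      ((sgV n a d adj sd l K (19200 * E * q) (64 * E * K * d) (20600 * E * q) v 0 : ℝ) -
        sgV n a d adj sd l K (19200 * E * q) (64 * E * K * d) (20600 * E * q) v 1) /
        2 ^ (20600 * E * q)| ≤ 2 / 2 ^ (x + 8) := by
  have hvn : v < n := mem_range.1 (sideS_sub'' a sd n hv)
  obtain ⟨F, hF1, hF2, hF3, hF4, hF5⟩ := exists_famH hh.toGH hh.hK hv
  have hxlK : x + 8 ≤ l * K := by
    have h1 := hh.hx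
    have h2 : 1 * (x + 8) ≤ 16 * E * (x + 8) := Nat.mul_le_mul_right _ (by have := hh.hE; omega)
    omega
  have h1 := trunc (r6_refl adj) (r6_symm hh.sym) (wt_w1 hh.toGD) (lam_ge (l := l) (E := E))
    (notMem_blw'' _ v) (Rt_nrm hh.toGH (blw_sub'' _ v) hv (notMem_blw'' _ v)) hh.hK hF1 hF4
  have e0 : sgV n a d adj sd l K (19200 * E * q) (64 * E * K * d) (20600 * E * q) v 0 =
      ∑ X ∈ F, mbV n a d adj sd (19200 * E * q) (64 * E * K * d) (20600 * E * q) v 0 X :=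
    hF5 (mbV n a d adj sd (19200 * E * q) (64 * E * K * d) (20600 * E * q) v 0)
  have e1 : sgV n a d adj sd l K (19200 * E * q) (64 * E * K * d) (20600 * E * q) v 1 =
      ∑ X ∈ F, mbV n a d adj sd (19200 * E * q) (64 * E * K * d) (20600 * E * q) v 1 X :=
    hF5 (mbV n a d adj sd (19200 * E * q) (64 * E * K * d) (20600 * E * q) v 1)
  have h2 : |∑ X ∈ F, mob (Rt (w1 n a d adj sd) v) X -
      ((sgV n a d adj sd l K (19200 * E * q) (64 * E * K * d) (20600 * E * q) v 0 : ℝ) -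
        sgV n a d adj sd l K (19200 * E * q) (64 * E * K * d) (20600 * E * q) v 1) /
        2 ^ (20600 * E * q)| ≤ 1 / 2 ^ (x + 8) := by
    rw [e0, e1]
    push_cast
    rw [← sum_sub_distrib, sum_div, ← sum_sub_distrib]
    refine (abs_sum_le_sum_abs _ _).trans ?_
    have h3 : ∀ X ∈ F, |mob (Rt (w1 n a d adj sd) v) X -
        ((mbV n a d adj sd (19200 * E * q) (64 * E * K * d) (20600 * E * q) v 0 X : ℝ) -
          mbV n a d adj sd (19200 * E * q) (64 * E * K * d) (20600 * E * q) v 1 X) /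
          2 ^ (20600 * E * q)| ≤ 1 / 2 ^ (28 * l * K) := by
      intro X hX
      exact mbV_err hh (((mem_powerset.1 (hF1 hX)).trans (blw_sub'' _ v)).trans
        (sideS_sub'' a sd n)) hvn (hF2 X hX)
    refine (sum_le_card_nsmul F _ _ h3).trans ?_
    rw [nsmul_eq_mul]
    have h4 : (F.card : ℝ) ≤ 2 ^ (12 * l * K) := by exact_mod_cast hF3
    have h6 : (2 : ℝ) ^ (28 * l * K) = 2 ^ (12 * l * K) * 2 ^ (16 * l * K) := by
      rw [← pow_add]
      congr 1
      ring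
    have h7 : (2 : ℝ) ^ (x + 8) ≤ 2 ^ (16 * l * K) := by
      refine pow_le_pow_right₀ (by norm_num) ?_
      calc x + 8 ≤ 16 * (l * K) := by omega
        _ = 16 * l * K := by ring
    calc (F.card : ℝ) * (1 / 2 ^ (28 * l * K)) ≤ 2 ^ (12 * l * K) * (1 / 2 ^ (28 * l * K)) :=
          mul_le_mul_of_nonneg_right h4 (by positivity)
      _ = 1 / 2 ^ (16 * l * K) := by
          rw [h6]
          field_simp
      _ ≤ 1 / 2 ^ (x + 8) := one_div_le_one_div_of_le (by positivity) h7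
  have h8 : (rho d - 1) / lam l E ^ K ≤ 1 / 2 ^ (x + 8) := by
    have h9 := lam_pow hh.hE hh.hx
    have h10 := rho_le (d_ge hh.gap hh.hDd)
    exact div_le_div₀ (by norm_num) (by linarith) (by positivity) h9
  have h12 : (2 : ℝ) / 2 ^ (x + 8) = 1 / 2 ^ (x + 8) + 1 / 2 ^ (x + 8) := by ring
  rw [h12]
  refine (abs_sub_le _ (∑ X ∈ F, mob (Rt (w1 n a d adj sd) v) X) _).trans ?_
  exact add_le_add (h1.trans h8) h2

/-- the elementary estimate -/
private theorem qv_aux {R s Q P e : ℝ} (hP : 0 < P) (he : e ≤ 1 / 16)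
    (hR : 9 / 10 ≤ R) (hR1 : R ≤ 1) (hs : |R - s| ≤ e) (hQ1 : Q * s ≤ P) (hQ2 : P < (Q + 1) * s)
    (hPe : 1 ≤ P * e) : |R * (Q / P) - 1| ≤ 3 * e := by
  obtain ⟨h1, h2⟩ := abs_le.1 hs
  have hs1 : 8 / 10 ≤ s := by linarith
  have hs0 : 0 < s := by linarith
  have e1 : R * (Q / P) - 1 = (R * Q - P) / P := by
    field_simp
  rw [e1, abs_div, abs_of_pos hP, div_le_iff₀ hP, abs_le]
  constructor
  · -- P - R Q ≤ 3 e P
    have h3 : P - R * Q ≤ (P * (s - R)) / s + R := by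
      have h4 : P / s - 1 ≤ Q := by
        have h5 : P / s < Q + 1 := by
          rw [div_lt_iff₀ hs0]
          exact hQ2
        linarith
      have h6 : R * (P / s - 1) ≤ R * Q := mul_le_mul_of_nonneg_left h4 (by linarith)
      have h7 : (P * (s - R)) / s + R = P - R * (P / s - 1) := by
        field_simp
        ring
      rw [h7]
      linarith
    have h8 : (P * (s - R)) / s ≤ 2 * e * P := by
      rw [div_le_iff₀ hs0]
      have h9 : P * (s - R) ≤ P * e := mul_le_mul_of_nonneg_left (by linarith) hP.le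
      have h10 : P * e * 1 ≤ P * e * (2 * s) :=
        mul_le_mul_of_nonneg_left (by linarith) (by positivity)
      nlinarith
    nlinarith
  · -- R Q - P ≤ 3 e P
    have h3 : Q ≤ P / s := by
      rw [le_div_iff₀ hs0]
      exact hQ1
    have h4 : R * Q ≤ R * (P / s) := mul_le_mul_of_nonneg_left h3 (by linarith)
    have h5 : R * (P / s) - P ≤ 2 * e * P := by
      have h6 : R * (P / s) - P = (P * (R - s)) / s := by
        field_simp
      rw [h6, div_le_iff₀ hs0]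
      have h9 : P * (R - s) ≤ P * e := mul_le_mul_of_nonneg_left (by linarith) hP.le
      have h10 : P * e * 1 ≤ P * e * (2 * s) :=
        mul_le_mul_of_nonneg_left (by linarith) (by positivity)
      nlinarith
    nlinarith

theorem qvV_err (hh : PrH n a d D l E x K q sd adj) {v : ℕ} (hv : v ∈ sideS a sd (range n)) :
    |Rt (w1 n a d adj sd) v (blw (sideS a sd (range n)) v) *
      (qvV n a d adj sd l K (19200 * E * q) (64 * E * K * d) (20600 * E * q) v /
        2 ^ (20600 * E * q)) - 1| ≤ 6 / 2 ^ (x + 8) := by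
  have hR := Rt_geH hh.toGH hv
  have hR1 := Rt_le_one (wt_w1 (sd := sd) hh.toGD) v (blw (sideS a sd (range n)) v)
  have hs := sgV_err hh hv
  have hE := hh.hE
  have hq := hh.hq
  have hxq : x + 8 ≤ 20600 * E * q := by
    have h1 := hh.hx
    have h2 : 1 * (x + 8) ≤ 16 * E * (x + 8) := Nat.mul_le_mul_right _ (by omega)
    have h3 : 1 * q ≤ 20600 * E * q := Nat.mul_le_mul_right _ (by omega)
    omega
  set P := 20600 * E * q with hPdef
  set R := Rt (w1 n a d adj sd) v (blw (sideS a sd (range n)) v) with hRdef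
  set s0 := sgV n a d adj sd l K (19200 * E * q) (64 * E * K * d) P v 0 with hs0
  set s1 := sgV n a d adj sd l K (19200 * E * q) (64 * E * K * d) P v 1 with hs1
  have hP : (0 : ℝ) < 2 ^ P := by positivity
  have he : (2 : ℝ) / 2 ^ (x + 8) ≤ 1 / 16 := by
    have h1 : (2 : ℝ) ^ 5 ≤ 2 ^ (x + 8) := pow_le_pow_right₀ (by norm_num) (by omega)
    have h2 : (2 : ℝ) / 2 ^ (x + 8) ≤ 2 / 2 ^ 5 :=
      div_le_div_of_nonneg_left (by norm_num) (by positivity) h1
    refine h2.trans ?_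
    norm_num
  obtain ⟨h1, h2⟩ := abs_le.1 hs
  have h3 : (8 : ℝ) / 10 ≤ ((s0 : ℝ) - s1) / 2 ^ P := by linarith
  have h4 : (0 : ℝ) < (s0 : ℝ) - s1 := by
    by_contra hc
    have h5 : ((s0 : ℝ) - s1) / 2 ^ P ≤ 0 :=
      div_nonpos_of_nonpos_of_nonneg (not_lt.1 hc) hP.le
    linarith
  have h5 : s1 < s0 := by
    have h6 : (s1 : ℝ) < s0 := by linarith
    exact_mod_cast h6
  have hqv : qvV n a d adj sd l K (19200 * E * q) (64 * E * K * d) P v =
      2 ^ P * 2 ^ P / (s0 - s1) := by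
    unfold qvV
    rw [if_pos hv]
  have hm : 0 < s0 - s1 := by omega
  have hQ1 : 2 ^ P * 2 ^ P / (s0 - s1) * (s0 - s1) ≤ 2 ^ P * 2 ^ P := Nat.div_mul_le_self _ _
  have hQ2 : 2 ^ P * 2 ^ P < (2 ^ P * 2 ^ P / (s0 - s1) + 1) * (s0 - s1) := by
    have := Nat.lt_mul_div_succ (2 ^ P * 2 ^ P) hm
    rw [mul_comm (s0 - s1)] at this
    exact this
  rw [← hqv] at hQ1 hQ2
  set Q := qvV n a d adj sd l K (19200 * E * q) (64 * E * K * d) P v with hQdef
  have hcast : ((s0 - s1 : ℕ) : ℝ) = (s0 : ℝ) - s1 := Nat.cast_sub h5.le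
  have hQ1' : (Q : ℝ) * ((s0 : ℝ) - s1) ≤ 2 ^ P * 2 ^ P := by
    rw [← hcast]
    exact_mod_cast hQ1
  have hQ2' : (2 : ℝ) ^ P * 2 ^ P < ((Q : ℝ) + 1) * ((s0 : ℝ) - s1) := by
    rw [← hcast]
    exact_mod_cast hQ2
  have hfin : (6 : ℝ) / 2 ^ (x + 8) = 3 * (2 / 2 ^ (x + 8)) := by ring
  rw [hfin]
  refine qv_aux hP he hR hR1 hs (Q := (Q : ℝ)) ?_ ?_ ?_
  · rw [mul_div_assoc', div_le_iff₀ hP]
    exact hQ1'
  · rw [mul_div_assoc', lt_div_iff₀ hP]
    exact hQ2'
  · rw [mul_div_assoc', le_div_iff₀ (by positivity), one_mul]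
    have h6 : (2 : ℝ) ^ (x + 8) ≤ 2 ^ P := pow_le_pow_right₀ (by norm_num) hxq
    linarith

end Pool.Agent.Lib.Pa7c826h
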