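import Pool.Agent.Lib.Pa7c826h.OmH
import Pool.Agent.Lib.Pa7c826h.MultH
import Pool.Agent.Lib.Pa7c826k.XiErr

/-!
The computed approximations of the partition functions of small sets and of their ratios.

PROOFS. Copy `Pa7c826k/XiErr.lean` (`XiErrAux.rat`, `XiErrAux.sgn` can be used from there) with
`k = 19200 E q`, `T = 64 E K d`, `p = 20600 E q` and the errors `2 ^ |Y| / 2 ^ (32 l K) ≤
1 / 2 ^ (31 l K)` for `Xi` (`|Y| ≤ K ≤ l K`, `1 ≤ l`), `3 / 2 ^ (31 l K) ≤ 1 / 2 ^ (29 l K)` for `Rt`,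
`2 ^ |X| / 2 ^ (29 l K) ≤ 1 / 2 ^ (28 l K)` for `mob`. `l K ≥ 16 E (x + 8) ≥ 128`,
`p = 20600 E q ≥ 31 l K`. `wt_w1` in place of `wt_Wt`.
-/

namespace Pool.Agent.Lib.Pa7c826h

open Finset Pool.Agent.Lib.Pa7c826 Pool.Agent.Lib.Pa7c826t Pool.Agent.Lib.Pa7c826e
  Pool.Agent.Lib.Pa7c826k

variable {n a d D l E x K q : ℕ} {adj : ℕ → ℕ → Bool} {sd : Bool}

namespace XiHAux

open XiErrAux

theorem xiV_sum (n a d : ℕ) (adj : ℕ → ℕ → Bool) (sd : Bool) (k T p : ℕ) (Y : Finset ℕ) :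
    xiV n a d adj sd k T p Y = ∑ Z ∈ Y.powerset, omV n a d adj sd k T p Z :=
  sum_sel Y (fun Z => omV n a d adj sd k T p Z)

theorem mbV_sum (n a d : ℕ) (adj : ℕ → ℕ → Bool) (sd : Bool) (k T p v e : ℕ) (X : Finset ℕ) :
    mbV n a d adj sd k T p v e X = ∑ Y ∈ X.powerset, if (X.card + Y.card) % 2 = e then
      rtV n a d adj sd k T p v Y else 0 :=
  sum_sel X (fun Y => if (X.card + Y.card) % 2 = e then rtV n a d adj sd k T p v Y else 0)

theorem l_pos (hh : PrH n a d D l E x K q sd adj) : 1 ≤ l := by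
  have h1 := hh.hl
  have h2 := hh.hDd
  by_contra h
  have h3 : l = 0 := by omega
  rw [h3] at h1
  omega

theorem K_le (hh : PrH n a d D l E x K q sd adj) : K ≤ l * K := by
  have h1 := Nat.mul_le_mul_right K (l_pos hh)
  omega

theorem lK_ge (hh : PrH n a d D l E x K q sd adj) : 128 ≤ l * K := by
  have h1 := hh.hx
  have h2 := hh.hE
  have h3 : 16 * 1 * (0 + 8) ≤ 16 * E * (x + 8) :=
    Nat.mul_le_mul (Nat.mul_le_mul_left 16 h2) (by omega)
  omega

theorem q_le (hh : PrH n a d D l E x K q sd adj) : l * K ≤ E * q := by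
  have h1 := Nat.mul_le_mul_right q hh.hE
  have h2 := hh.hq
  omega

end XiHAux

open XiErrAux XiHAux

theorem xiV_le (hh : GD n a d D sd adj) {Y : Finset ℕ} (hY : Y ⊆ range n) (k T p : ℕ) :
    (xiV n a d adj sd k T p Y : ℝ) ≤ 2 ^ p * Xi (w1 n a d adj sd) Y := by
  rw [xiV_sum]
  push_cast
  unfold Xi
  rw [mul_sum]
  refine sum_le_sum fun Z hZ => ?_
  exact omV_le hh ((mem_powerset.1 hZ).trans hY) _ _ _

theorem xiV_ge (hh : PrH n a d D l E x K q sd adj) {Y : Finset ℕ} (hY : Y ⊆ range n)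
    (hc : Y.card ≤ K) :
    (2 : ℝ) ^ (20600 * E * q) * (Xi (w1 n a d adj sd) Y - 1 / 2 ^ (31 * l * K)) ≤
      xiV n a d adj sd (19200 * E * q) (64 * E * K * d) (20600 * E * q) Y := by
  have hK := K_le hh
  have h1 : (2 : ℝ) ^ (20600 * E * q) * (Xi (w1 n a d adj sd) Y -
      2 ^ Y.card * (1 / 2 ^ (32 * l * K))) ≤
      xiV n a d adj sd (19200 * E * q) (64 * E * K * d) (20600 * E * q) Y := by
    rw [xiV_sum]
    push_cast
    have h2 : ∑ Z ∈ Y.powerset, (2 : ℝ) ^ (20600 * E * q) *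
        (w1 n a d adj sd Z - 1 / 2 ^ (32 * l * K)) ≤
        ∑ Z ∈ Y.powerset,
          (omV n a d adj sd (19200 * E * q) (64 * E * K * d) (20600 * E * q) Z : ℝ) :=
      sum_le_sum fun Z hZ => omV_ge hh ((mem_powerset.1 hZ).trans hY)
    refine le_trans (le_of_eq ?_) h2
    rw [← mul_sum, sum_sub_distrib, sum_const, card_powerset, nsmul_eq_mul]
    unfold Xi
    push_cast
    ring
  have h3 : (2 : ℝ) ^ Y.card * (1 / 2 ^ (32 * l * K)) ≤ 1 / 2 ^ (31 * l * K) := by
    rw [mul_one_div, div_le_div_iff₀ (by positivity) (by positivity), one_mul, ← pow_add]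
    refine pow_le_pow_right₀ (by norm_num) ?_
    have e1 : 31 * l * K = 31 * (l * K) := by ring
    have e2 : 32 * l * K = 32 * (l * K) := by ring
    omega
  refine le_trans (mul_le_mul_of_nonneg_left ?_ (by positivity)) h1
  linarith

theorem rtV_err (hh : PrH n a d D l E x K q sd adj) {Y : Finset ℕ} {v : ℕ} (hY : Y ⊆ range n)
    (hv : v < n) (hc : Y.card < K) :
    |Rt (w1 n a d adj sd) v Y -
      rtV n a d adj sd (19200 * E * q) (64 * E * K * d) (20600 * E * q) v Y /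
        2 ^ (20600 * E * q)| ≤ 1 / 2 ^ (29 * l * K) := by
  have hlK := lK_ge hh
  have hqE := q_le hh
  have eq1 : 20600 * E * q = 20600 * (E * q) := by ring
  have el1 : 31 * l * K = 31 * (l * K) := by ring
  have el2 : 29 * l * K = 29 * (l * K) := by ring
  have hW : Wt (r6 adj) (w1 n a d adj sd) := wt_w1 hh.toGD
  have hY' : insert v Y ⊆ range n := insert_subset (mem_range.2 hv) hY
  have hc' : (insert v Y).card ≤ K := (card_insert_le v Y).trans hc
  have u1 := xiV_ge hh hY hc.le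
  have u2 := xiV_le hh.toGD hY (19200 * E * q) (64 * E * K * d) (20600 * E * q)
  have v1 := xiV_ge hh hY' hc'
  have v2 := xiV_le hh.toGD hY' (19200 * E * q) (64 * E * K * d) (20600 * E * q)
  have h1 := Xi_ge_one hW Y
  have h2 := Xi_mono hW (subset_insert v Y)
  have hδ0 : (0 : ℝ) < 1 / 2 ^ (31 * l * K) := by positivity
  have hδ : (1 : ℝ) / 2 ^ (31 * l * K) ≤ 1 / 4 := by
    have : (2 : ℝ) ^ 2 ≤ 2 ^ (31 * l * K) := pow_le_pow_right₀ (by norm_num) (by omega)
    exact one_div_le_one_div_of_le (by norm_num) (by linarith)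
  have hP : (0 : ℝ) < 2 ^ (20600 * E * q) := by positivity
  have hPδ : (1 : ℝ) ≤ 2 ^ (20600 * E * q) * (1 / 2 ^ (31 * l * K)) := by
    rw [mul_one_div, le_div_iff₀ (by positivity), one_mul]
    exact pow_le_pow_right₀ (by norm_num) (by omega)
  unfold rtV
  generalize 20600 * E * q = p at *
  generalize 19200 * E * q = k at *
  generalize 64 * E * K * d = T at *
  have r1 : ((2 ^ p * xiV n a d adj sd k T p Y / xiV n a d adj sd k T p (insert v Y) : ℕ) : ℝ) ≤
      2 ^ p * (xiV n a d adj sd k T p Y : ℝ) / (xiV n a d adj sd k T p (insert v Y) : ℝ) := by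
    refine Nat.cast_div_le.trans ?_
    push_cast
    exact le_rfl
  have hposR : (0 : ℝ) < xiV n a d adj sd k T p (insert v Y) := by
    refine lt_of_lt_of_le (mul_pos hP ?_) v1
    linarith
  have hpos : 0 < xiV n a d adj sd k T p (insert v Y) := by exact_mod_cast hposR
  have r2 : 2 ^ p * (xiV n a d adj sd k T p Y : ℝ) /
        (xiV n a d adj sd k T p (insert v Y) : ℝ) - 1 ≤
      ((2 ^ p * xiV n a d adj sd k T p Y / xiV n a d adj sd k T p (insert v Y) : ℕ) : ℝ) := by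
    rw [sub_le_iff_le_add, div_le_iff₀ hposR]
    have h5 := Nat.lt_div_mul_add (a := 2 ^ p * xiV n a d adj sd k T p Y) hpos
    have h6 : ((2 ^ p * xiV n a d adj sd k T p Y : ℕ) : ℝ) ≤
      ((2 ^ p * xiV n a d adj sd k T p Y / xiV n a d adj sd k T p (insert v Y) *
        xiV n a d adj sd k T p (insert v Y) + xiV n a d adj sd k T p (insert v Y) : ℕ) : ℝ) := by
      exact_mod_cast h5.le
    rw [Nat.cast_add, Nat.cast_mul, Nat.cast_mul, Nat.cast_pow, Nat.cast_ofNat] at h6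
    rw [add_mul, one_mul]
    exact h6
  have key := rat _ _ _ _ _ _ _ h1 h2 hδ0 hδ hP hPδ u1 u2 v1 v2 r1 r2
  unfold Rt
  refine key.trans ?_
  have e2 : (1 : ℝ) / 2 ^ (29 * l * K) = 2 ^ (2 * (l * K)) * (1 / 2 ^ (31 * l * K)) := by
    rw [mul_one_div, div_eq_div_iff (by positivity) (by positivity), one_mul, ← pow_add]
    congr 1
    ring
  rw [e2]
  have h7 : (2 : ℝ) ^ 2 ≤ 2 ^ (2 * (l * K)) := pow_le_pow_right₀ (by norm_num) (by omega)
  have h8 : (3 : ℝ) ≤ 2 ^ (2 * (l * K)) := by linarith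
  exact mul_le_mul_of_nonneg_right h8 hδ0.le

theorem mbV_err (hh : PrH n a d D l E x K q sd adj) {X : Finset ℕ} {v : ℕ} (hX : X ⊆ range n)
    (hv : v < n) (hc : X.card < K) :
    |mob (Rt (w1 n a d adj sd) v) X -
      ((mbV n a d adj sd (19200 * E * q) (64 * E * K * d) (20600 * E * q) v 0 X : ℝ) -
        mbV n a d adj sd (19200 * E * q) (64 * E * K * d) (20600 * E * q) v 1 X) /
        2 ^ (20600 * E * q)| ≤ 1 / 2 ^ (28 * l * K) := by
  have hK := K_le hh
  have hlK := lK_ge hh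
  have el1 : 28 * l * K = 28 * (l * K) := by ring
  have el2 : 29 * l * K = 29 * (l * K) := by ring
  have hrt : ∀ Y ⊆ X, |Rt (w1 n a d adj sd) v Y -
      rtV n a d adj sd (19200 * E * q) (64 * E * K * d) (20600 * E * q) v Y /
        2 ^ (20600 * E * q)| ≤ 1 / 2 ^ (29 * l * K) := fun Y hYX =>
    rtV_err hh (hYX.trans hX) hv (lt_of_le_of_lt (card_le_card hYX) hc)
  generalize 20600 * E * q = p at *
  generalize 19200 * E * q = k at *
  generalize 64 * E * K * d = T at *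
  rw [mbV_sum, mbV_sum]
  push_cast
  rw [← sum_sub_distrib]
  have e1 : ∀ Y ∈ X.powerset, ((if (X.card + Y.card) % 2 = 0 then
      (rtV n a d adj sd k T p v Y : ℝ) else 0) -
      (if (X.card + Y.card) % 2 = 1 then
      (rtV n a d adj sd k T p v Y : ℝ) else 0)) =
      (-1 : ℝ) ^ (X \ Y).card * (rtV n a d adj sd k T p v Y : ℝ) := fun Y hY =>
    (sgn X Y (mem_powerset.1 hY) _).symm
  rw [sum_congr rfl e1, sum_div]
  unfold mob
  rw [← sum_sub_distrib]
  refine (abs_sum_le_sum_abs _ _).trans ?_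
  have h1 : ∀ Y ∈ X.powerset, |(-1 : ℝ) ^ (X \ Y).card * Rt (w1 n a d adj sd) v Y -
      (-1 : ℝ) ^ (X \ Y).card * (rtV n a d adj sd k T p v Y : ℝ) /
        2 ^ p| ≤ 1 / 2 ^ (29 * l * K) := by
    intro Y hY
    rw [mul_div_assoc, ← mul_sub, abs_mul, abs_pow, abs_neg, abs_one, one_pow, one_mul]
    exact hrt Y (mem_powerset.1 hY)
  refine (sum_le_sum h1).trans ?_
  rw [sum_const, card_powerset, nsmul_eq_mul]
  push_cast
  rw [mul_one_div, div_le_div_iff₀ (by positivity) (by positivity), one_mul, ← pow_add]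
  exact pow_le_pow_right₀ (by norm_num) (by omega)

end Pool.Agent.Lib.Pa7c826h
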